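import Mathlib

open MvPolynomial Finset

noncomputable section

namespace Clu

section

/-- A superpartition `Λ = (Λ_1,…,Λ_m; Λ_{m+1},…,Λ_N)` with `N` parts (positions numbered from `0`). -/
@[ext] structure SPart (N : ℕ) where
  /-- the fermionic degree -/
  m : ℕ
  /-- the parts -/
  part : Fin N → ℕ
  m_le : m ≤ N
  strict : ∀ i j : Fin N, i < j → (j : ℕ) < m → part j < part i
  weak : ∀ i j : Fin N, i < j → m ≤ (i : ℕ) → part j ≤ part i

variable {N : ℕ}

/-- the entries of `v` sorted in weakly decreasing order. -/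
def dsort (v : Fin N → ℕ) : Fin N → ℕ := fun i => v (Tuple.sort v i.rev)

/-- `1` on the first `m` positions, `0` elsewhere. -/
def fer (m : ℕ) (i : Fin N) : ℕ := if (i : ℕ) < m then 1 else 0

namespace SPart

/-- `Λ^*`: all parts sorted in decreasing order. -/
def star (L : SPart N) : Fin N → ℕ := dsort L.part

/-- `Λ^⊛`: the numbers `Λ_1+1,…,Λ_m+1,Λ_{m+1},…,Λ_N` sorted in decreasing order. -/
def cstar (L : SPart N) : Fin N → ℕ := dsort (fun i => L.part i + fer L.m i)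

end SPart

/-- dominance order: `x ≤ y` for weakly decreasing sequences with equal sums. -/
def Dom (x y : Fin N → ℕ) : Prop :=
  ∑ i, x i = ∑ i, y i ∧ ∀ l : ℕ, ∑ i ∈ univ.filter (fun i : Fin N => (i : ℕ) < l), x i ≤
    ∑ i ∈ univ.filter (fun i : Fin N => (i : ℕ) < l), y i

instance : LE (SPart N) := ⟨fun W L => Dom W.star L.star ∧ Dom W.cstar L.cstar⟩

/-- `(k,r,N)`-admissibility: `Λ^⊛_i - Λ^*_{i+k} ≥ r`. -/
def Admissible (k r : ℕ) (L : SPart N) : Prop :=
  ∀ i j : Fin N, (j : ℕ) = i + k → L.star j + r ≤ L.cstar i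

/-- the positions `1,…,m`. -/
def first (N m : ℕ) : Finset (Fin N) := univ.filter (fun i => (i : ℕ) < m)

/-- the sign of the permutation sorting `(σ(i))_{i ∈ I}`: `(-1)` to the number of inversions of `σ` in `I`. -/
def sgnOn (σ : Equiv.Perm (Fin N)) (I : Finset (Fin N)) : ℤ :=
  (-1) ^ ((I ×ˢ I).filter (fun p => p.1 < p.2 ∧ σ p.2 < σ p.1)).card

/-- the superpolynomials `Σ_I θ_I f_I`, `f_I ∈ K[x_1,…,x_N]`, where `θ_I = θ_{i_1}⋯θ_{i_r}` for
`I = {i_1 < ⋯ < i_r}`, given by their coefficients `f_I`. -/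
abbrev SPoly (K : Type) [Field K] (N : ℕ) : Type := Finset (Fin N) → MvPolynomial (Fin N) K

variable {K : Type} [Field K]

/-- invariance under all `σ ∈ S_N` acting by `x_i ↦ x_{σ(i)}`, `θ_i ↦ θ_{σ(i)}`. -/
def Symm (f : SPoly K N) : Prop :=
  ∀ (σ : Equiv.Perm (Fin N)) (I : Finset (Fin N)),
    f (I.map σ.toEmbedding) = ((sgnOn σ I : ℤ) : K) • rename σ (f I)

/-- `|Aut(Λ^s)|`: the number of permutations of the positions `m+1,…,N` fixing `(Λ_{m+1},…,Λ_N)`. -/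
def aut (L : SPart N) : ℕ :=
  (univ.filter (fun σ : Equiv.Perm (Fin N) =>
    (∀ i : Fin N, (i : ℕ) < L.m → σ i = i) ∧ ∀ i, L.part (σ i) = L.part i)).card

/-- the monomial `m_Λ = |Aut(Λ^s)|⁻¹ Σ_σ σ(θ_1⋯θ_m x_1^{Λ_1}⋯x_N^{Λ_N})`. -/
def mLam (K : Type) [Field K] (L : SPart N) : SPoly K N := fun J =>
  ((aut L : ℕ) : K)⁻¹ • ∑ σ : Equiv.Perm (Fin N),
    if (first N L.m).map σ.toEmbedding = J then
      ((sgnOn σ (first N L.m) : ℤ) : K) • ∏ i, X (σ i) ^ L.part i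
    else 0

/-- `Σ_Λ v_Λ m_Λ`. -/
def comb (v : SPart N →₀ K) : SPoly K N := v.sum fun L r => r • mLam K L

/-- `∂_{θ_i}`. -/
def thDer (i : Fin N) (f : SPoly K N) : SPoly K N := fun J =>
  if i ∈ J then 0 else ((-1 : K) ^ (J.filter (· < i)).card) • f (insert i J)

/-- multiplication by `θ_i` from the left. -/
def thMul (i : Fin N) (f : SPoly K N) : SPoly K N := fun J =>
  if i ∈ J then ((-1 : K) ^ (J.filter (· < i)).card) • f (J.erase i) else 0

/-- the value at `x` of the `θ_I`-coefficient of `D f`,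
`D = α/2 Σ x_i² ∂_i² + Σ_{i≠j} x_i x_j/(x_i-x_j) (∂_i - (θ_i-θ_j)/(x_i-x_j) ∂_{θ_i})`. -/
def DVal (α : K) (f : SPoly K N) (I : Finset (Fin N)) (x : Fin N → K) : K :=
  α / 2 * ∑ i, x i ^ 2 * eval x (pderiv i (pderiv i (f I))) +
  ∑ i, ∑ j ∈ univ.filter (fun j => j ≠ i), x i * x j / (x i - x j) *
    (eval x (pderiv i (f I)) -
      eval x (thMul i (thDer i f) I - thMul j (thDer i f) I) / (x i - x j))

/-- the value at `x` of the `θ_I`-coefficient of `Δ f`,
`Δ = α Σ x_i θ_i ∂_i ∂_{θ_i} + Σ_{i≠j} (x_i θ_j + x_j θ_i)/(x_i-x_j) ∂_{θ_i}`. -/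
def DeltaVal (α : K) (f : SPoly K N) (I : Finset (Fin N)) (x : Fin N → K) : K :=
  α * ∑ i, x i * eval x (pderiv i (thMul i (thDer i f) I)) +
  ∑ i, ∑ j ∈ univ.filter (fun j => j ≠ i),
    (x i * eval x (thMul j (thDer i f) I) + x j * eval x (thMul i (thDer i f) I)) / (x i - x j)

/-- `f` is an eigenfunction of `D`: `D f = ε f`, as an identity of rational functions, i.e. at all points
with pairwise distinct coordinates. -/
def EigD (α : K) (f : SPoly K N) : Prop :=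
  ∃ ε : K, ∀ I x, Function.Injective x → DVal α f I x = ε * eval x (f I)

/-- `f` is an eigenfunction of `Δ`. -/
def EigDelta (α : K) (f : SPoly K N) : Prop :=
  ∃ ε : K, ∀ I x, Function.Injective x → DeltaVal α f I x = ε * eval x (f I)

/-- the family `c_{ΛΩ}(α) ∈ ℚ(α)` of the coefficients of the Jack superpolynomials
`P_Λ = m_Λ + Σ_{Ω<Λ} c_{ΛΩ}(α) m_Ω` in `N` variables, common eigenfunctions of `D` and `Δ`. -/
def IsJack (c : SPart N → (SPart N →₀ RatFunc ℚ)) : Prop :=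
  ∀ L, c L L = 1 ∧ (∀ W, c L W ≠ 0 → W ≤ L) ∧
    EigD (RatFunc.X : RatFunc ℚ) (comb (c L)) ∧ EigDelta (RatFunc.X : RatFunc ℚ) (comb (c L))

/-- the coefficient `q(α)` has no pole at `a`. -/
def RegularAt (a : ℚ) (q : RatFunc ℚ) : Prop := q.denom.eval a ≠ 0

/-- `P_Λ^{(a)}`, the specialisation of `Σ_Ω v_Ω(α) m_Ω` at `α = a`, over `ℂ`. -/
def special (a : ℚ) (v : SPart N →₀ RatFunc ℚ) : SPoly ℂ N :=
  comb (v.mapRange (fun q => ((RatFunc.eval (RingHom.id ℚ) a q : ℚ) : ℂ)) (by simp))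

/-- `F_N^{(k)}`: symmetric superpolynomials over `ℂ` vanishing identically for `x_1 = ⋯ = x_{k+1}`
(no condition if `N < k+1`). -/
def clusterSpace (N k : ℕ) : Submodule ℂ (SPoly ℂ N) where
  carrier := {f | Symm f ∧ (k + 1 ≤ N → ∀ (I : Finset (Fin N)) (x : Fin N → ℂ),
    (∀ i j : Fin N, (i : ℕ) ≤ k → (j : ℕ) ≤ k → x i = x j) → eval x (f I) = 0)}
  zero_mem' := by
    constructor
    · intro σ I; simp
    · intro _ I x _; simp
  add_mem' := by
    rintro f g ⟨hf, hf'⟩ ⟨hg, hg'⟩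
    constructor
    · intro σ I; simp [Pi.add_apply, hf σ I, hg σ I, map_add, smul_add]
    · intro h I x hx; simp [Pi.add_apply, hf' h I x hx, hg' h I x hx]
  smul_mem' := by
    rintro a f ⟨hf, hf'⟩
    constructor
    · intro σ I; simp [Pi.smul_apply, hf σ I, map_smul, smul_comm a]
    · intro h I x hx; simp [Pi.smul_apply, hf' h I x hx]

end

end Clu
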