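import Pool.Agent.Helper204.CL.DefA

open MvPolynomial Finset

noncomputable section

namespace Clu

section

variable {N : ℕ}

/-- dominance comparison of unsorted vectors. -/
def Cx (x y : Fin N → ℕ) : Prop :=
  ∑ i, x i = ∑ i, y i ∧ ∀ t : ℕ, ∑ i, (x i - t) ≤ ∑ i, (y i - t)

/-- dominance comparison of `x, y` and of `x, y` with `1` added on the first `m` positions. -/
def LeV (m : ℕ) (x y : Fin N → ℕ) : Prop :=
  Cx x y ∧ Cx (fun i => x i + fer m i) (fun i => y i + fer m i)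

/-- the quadratic weight. -/
def wt (m : ℕ) (x : Fin N → ℕ) : ℕ := ∑ i, x i ^ 2 + ∑ i, (x i + fer m i) ^ 2

/-- exponent vector of a function. -/
def pf (x : Fin N → ℕ) : Fin N →₀ ℕ := Finsupp.equivFunOnFinite.symm x

@[simp] theorem pf_apply (x : Fin N → ℕ) (i : Fin N) : pf x i = x i := rfl

/-- change the entries at `i` and `j` to `c` and `d`. -/
def mv (i : Fin N) (c : ℕ) (j : Fin N) (d : ℕ) (η : Fin N →₀ ℕ) : Fin N →₀ ℕ :=
  (η.update i c).update j d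

variable {K : Type} [Field K]

/-- antisymmetric in the first `m` variables, symmetric in the others. -/
def InV (m : ℕ) (g : MvPolynomial (Fin N) K) : Prop :=
  (∀ i j : Fin N, i ≠ j → (i : ℕ) < m → (j : ℕ) < m → rename (Equiv.swap i j) g = -g) ∧
  (∀ i j : Fin N, m ≤ (i : ℕ) → m ≤ (j : ℕ) → rename (Equiv.swap i j) g = g)

/-- vanishing whenever `k+1` coordinates coincide. -/
def Van (k : ℕ) (g : MvPolynomial (Fin N) K) : Prop :=
  ∀ S : Finset (Fin N), S.card = k + 1 → ∀ x : Fin N → K,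
    (∀ i ∈ S, ∀ j ∈ S, x i = x j) → eval x g = 0

/-- the image of `x^η` under `P_{ij} = x_i x_j/(x_i-x_j) (∂_i - ∂_j - (1-s_{ij})/(x_i-x_j))`. -/
def pmon (K : Type) [Field K] (i j : Fin N) (η : Fin N →₀ ℕ) : MvPolynomial (Fin N) K :=
  -((min (η i) (η j) : ℕ) : K) • monomial η 1 +
  ∑ c ∈ Ioo (η j) (η i), ((c - η j : ℕ) : K) • monomial (mv i c j (η i + η j - c) η) 1 +
  ∑ c ∈ Ioo (η i) (η j), ((c - η i : ℕ) : K) • monomial (mv j c i (η i + η j - c) η) 1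

/-- `P_{ij}`. -/
def Pop (i j : Fin N) : MvPolynomial (Fin N) K →ₗ[K] MvPolynomial (Fin N) K :=
  (basisMonomials (Fin N) K).constr K (pmon K i j)

/-- the image of `x^η` under `R_{ij} = x_j/(x_i-x_j) (1-s_{ij})`. -/
def rmon (K : Type) [Field K] (i j : Fin N) (η : Fin N →₀ ℕ) : MvPolynomial (Fin N) K :=
  ∑ c ∈ Ico (η j) (η i), monomial (mv i c j (η i + η j - c) η) 1 -
  ∑ c ∈ Ioc (η i) (η j), monomial (mv j c i (η i + η j - c) η) 1

/-- `R_{ij}`. -/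
def Rop (i j : Fin N) : MvPolynomial (Fin N) K →ₗ[K] MvPolynomial (Fin N) K :=
  (basisMonomials (Fin N) K).constr K (rmon K i j)

/-- `Σ_{i<j} P_{ij}`. -/
def Qop : MvPolynomial (Fin N) K →ₗ[K] MvPolynomial (Fin N) K :=
  ∑ i : Fin N, ∑ j ∈ univ.filter (fun j : Fin N => i < j), Pop i j

/-- `Σ_{i<m≤j} R_{ij}`. -/
def Sop (m : ℕ) : MvPolynomial (Fin N) K →ₗ[K] MvPolynomial (Fin N) K :=
  ∑ i ∈ univ.filter (fun i : Fin N => (i : ℕ) < m), ∑ j ∈ univ.filter (fun j : Fin N => m ≤ (j : ℕ)), Rop i j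

/-- the operator `D` on coefficients. -/
def Dop (α : K) (g : MvPolynomial (Fin N) K) : MvPolynomial (Fin N) K :=
  (α / 2) • ∑ i, X i ^ 2 * pderiv i (pderiv i g) + Qop g

/-- the operator `Δ` on the coefficient of `θ_1⋯θ_m`. -/
def Lop (m : ℕ) (α : K) (g : MvPolynomial (Fin N) K) : MvPolynomial (Fin N) K :=
  α • ∑ i ∈ univ.filter (fun i : Fin N => (i : ℕ) < m), X i * pderiv i g - ((m.choose 2 : ℕ) : K) • g + Sop m g

/-- `Σ_{i<j} min(x_i, x_j)`. -/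
def mn (x : Fin N → ℕ) : ℕ := ∑ i : Fin N, ∑ j ∈ univ.filter (fun j : Fin N => i < j), min (x i) (x j)

/-- number of pairs `i < m ≤ j` with `x_i < x_j`. -/
def cr (m : ℕ) (x : Fin N → ℕ) : ℕ :=
  ∑ i ∈ univ.filter (fun i : Fin N => (i : ℕ) < m), ∑ j ∈ univ.filter (fun j : Fin N => m ≤ (j : ℕ)), if x i < x j then 1 else 0

/-- `Σ x_i (x_i - 1)`. -/
def sq1 (x : Fin N → ℕ) : ℕ := ∑ i, x i * (x i - 1)

/-- `Σ_{i<m} x_i`. -/
def fs (m : ℕ) (x : Fin N → ℕ) : ℕ := ∑ i ∈ univ.filter (fun i : Fin N => (i : ℕ) < m), x i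

end

end Clu
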