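import Pool.Agent.Helper204.CL.DefB

open MvPolynomial Finset

noncomputable section

namespace Clu

section

variable {N : ℕ}

/-- the coefficient of `θ_1⋯θ_m` in `m_Λ`. -/
def mu (K : Type) [Field K] (U : SPart N) : MvPolynomial (Fin N) K := mLam K U (first N U.m)

/-- off-diagonal matrix entries of `D`. -/
def RD (U W : SPart N) : ℚ := by
  classical exact if W.m = U.m ∧ W ≠ U then coeff (pf W.part) (Qop (mu ℚ U)) else 0

/-- off-diagonal matrix entries of `Δ`. -/
def RL (U W : SPart N) : ℚ := by
  classical exact if W.m = U.m ∧ W ≠ U then coeff (pf W.part) (Sop U.m (mu ℚ U)) else 0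

/-- slope of the eigenvalue of `D`. -/
def AD (W : SPart N) : ℚ := (sq1 W.part : ℚ) / 2

/-- constant term of the eigenvalue of `D`. -/
def BD (W : SPart N) : ℚ := -(mn W.part : ℚ)

/-- slope of the eigenvalue of `Δ`. -/
def AL (W : SPart N) : ℚ := (fs W.m W.part : ℚ)

/-- constant term of the eigenvalue of `Δ`. -/
def BL (W : SPart N) : ℚ := -((W.m.choose 2 : ℕ) : ℚ) - (cr W.m W.part : ℚ)

/-- strict order. -/
def ltS (W U : SPart N) : Prop := W ≤ U ∧ W ≠ U

end

end Clu
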