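import Pool.Agent.Helper204.CL.DefC

open MvPolynomial Finset

noncomputable section

namespace Clu

section

variable {N : ℕ}

/-- residue class mod `k` of the rank of the position `i`. -/
def cl (k : ℕ) (ρ : Equiv.Perm (Fin N)) (i : Fin N) : ℕ := (ρ.symm i : ℕ) % k

/-- number of positions of larger rank in the class of `i`. -/
def dl (k : ℕ) (ρ : Equiv.Perm (Fin N)) (i : Fin N) : ℕ := (N - 1 - (ρ.symm i : ℕ)) / k

/-- `Σ_τ sgn(τ) x^{p - d + d∘τ}` over the permutations `τ` preserving the classes `c`. -/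
def hh (K : Type) [Field K] (c d p : Fin N → ℕ) : MvPolynomial (Fin N) K :=
  ∑ τ ∈ univ.filter (fun τ : Equiv.Perm (Fin N) => ∀ i, c (τ i) = c i),
    (((Equiv.Perm.sign τ : ℤˣ) : ℤ) : K) • monomial (pf (fun i => p i - d i + d (τ i))) (1 : K)

/-- `σ` preserves `{i < m}`. -/
def Pres (m : ℕ) (σ : Equiv.Perm (Fin N)) : Prop := ∀ i : Fin N, ((σ i : Fin N) : ℕ) < m ↔ (i : ℕ) < m

instance (m : ℕ) (σ : Equiv.Perm (Fin N)) : Decidable (Pres m σ) := by unfold Pres; infer_instance

/-- symmetrisation over the permutations preserving `{i < m}`, with signs. -/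
def gg {K : Type} [Field K] (m : ℕ) (h : MvPolynomial (Fin N) K) : MvPolynomial (Fin N) K :=
  ∑ σ ∈ univ.filter (fun σ : Equiv.Perm (Fin N) => Pres m σ),
    ((sgnOn σ (first N m) : ℤ) : K) • rename σ h

end

end Clu
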