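import Mathlib

open MvPolynomial Finset

noncomputable section

namespace Clu

section

variable {ι : Type} {K : Type} [Field K]

/-- `(D v)_W = (α A_W + B_W) v_W + Σ_U v_U R_{UW}`. -/
def Dm (A B : ι → ℚ) (R : ι → ι → ℚ) (α : K) (v : ι →₀ K) (W : ι) : K :=
  (α * (A W : K) + (B W : K)) * v W + v.sum (fun U r => r * (R U W : K))

/-- value at `a` of a rational function, as an element of `K`. -/
def valAt (K : Type) [Field K] (a : ℚ) (q : RatFunc ℚ) : K := ((RatFunc.eval (RingHom.id ℚ) a q : ℚ) : K)

theorem valAt_zero (a : ℚ) : valAt K a 0 = 0 := by simp [valAt]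

/-- specialisation at `a` of a finitely supported family of rational functions. -/
def spec (K : Type) [Field K] (a : ℚ) (v : ι →₀ RatFunc ℚ) : ι →₀ K :=
  v.mapRange (valAt K a) (valAt_zero a)

theorem spec_apply (a : ℚ) (v : ι →₀ RatFunc ℚ) (W : ι) : spec K a v W = valAt K a (v W) := rfl

end

end Clu
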