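import Pool.Agent.Helper204.CL.DefA
import Pool.Agent.Helper204.CL.DefB
import Pool.Agent.Helper204.CL.DefC
import Pool.Agent.Helper204.CL.DefD

set_option linter.unusedSectionVars false

open MvPolynomial Finset

noncomputable section

namespace Clu
variable {N : ℕ} {K : Type} [Field K] [CharZero K]



/-- HINT: `(first N L.m).map σ` has `L.m` elements (`L.m ≤ N`). -/
theorem mLam_ne (L : SPart N) (I : Finset (Fin N)) (h : I.card ≠ L.m) : mLam K L I = 0 := by
  have hc : (first N L.m).card = L.m := by
    have h1 : (univ.filter (fun i : Fin N => (i : ℕ) < L.m)).card = L.m := by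
      have h2 : (univ.filter (fun i : Fin N => (i : ℕ) < L.m)).map Fin.valEmbedding = range L.m := by
        ext x
        simp only [mem_map, mem_filter, mem_univ, true_and, Fin.valEmbedding_apply, mem_range]
        constructor
        · rintro ⟨a, ha, rfl⟩
          exact ha
        · intro hx
          exact ⟨⟨x, lt_of_lt_of_le hx L.m_le⟩, hx, rfl⟩
      rw [← card_map Fin.valEmbedding, h2, card_range]
    exact h1
  unfold mLam
  rw [Finset.sum_eq_zero, smul_zero]
  intro σ _
  rw [if_neg]
  intro hJ
  apply h
  rw [← hJ, card_map, hc]

end Clu
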