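import Pool.Agent.Helper204.CL.DefA
import Pool.Agent.Helper204.CL.DefB
import Pool.Agent.Helper204.CL.DefC
import Pool.Agent.Helper204.CL.DefD

set_option linter.unusedSectionVars false

open MvPolynomial Finset

noncomputable section

namespace Clu
variable {N : ℕ} {K : Type} [Field K] [CharZero K]



theorem sgn_cnt (σ τ : Equiv.Perm (Fin N)) (I : Finset (Fin N)) :
    ((I.map τ.toEmbedding ×ˢ I.map τ.toEmbedding).filter
      (fun p => p.1 < p.2 ∧ σ p.2 < σ p.1)).card +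
    ((I ×ˢ I).filter (fun p => p.1 < p.2 ∧ τ p.2 < τ p.1)).card =
    ((I ×ˢ I).filter (fun p => p.1 < p.2 ∧ (σ * τ) p.2 < (σ * τ) p.1)).card +
    2 * ((I ×ˢ I).filter (fun p => p.1 < p.2 ∧ τ p.2 < τ p.1 ∧ σ (τ p.1) < σ (τ p.2))).card := by
  classical
  have h1 : ((I.map τ.toEmbedding ×ˢ I.map τ.toEmbedding).filter
      (fun p => p.1 < p.2 ∧ σ p.2 < σ p.1)).card =
      ((I ×ˢ I).filter (fun p => τ p.1 < τ p.2 ∧ σ (τ p.2) < σ (τ p.1))).card := by
    symm
    apply Finset.card_bij (fun p _ => (τ p.1, τ p.2))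
    · rintro ⟨a, b⟩ hp
      rw [Finset.mem_filter, Finset.mem_product] at hp ⊢
      exact ⟨⟨Finset.mem_map.2 ⟨a, hp.1.1, rfl⟩, Finset.mem_map.2 ⟨b, hp.1.2, rfl⟩⟩, hp.2⟩
    · rintro ⟨a, b⟩ _ ⟨c, d⟩ _ he
      rw [Prod.mk.injEq] at he
      rw [Prod.mk.injEq]
      exact ⟨τ.injective he.1, τ.injective he.2⟩
    · rintro ⟨a, b⟩ hp
      rw [Finset.mem_filter, Finset.mem_product] at hp
      obtain ⟨a', ha', rfl⟩ := Finset.mem_map.1 hp.1.1
      obtain ⟨b', hb', rfl⟩ := Finset.mem_map.1 hp.1.2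
      refine ⟨(a', b'), ?_, rfl⟩
      rw [Finset.mem_filter, Finset.mem_product]
      exact ⟨⟨ha', hb'⟩, hp.2⟩
  have h2 : ((I ×ˢ I).filter (fun p => p.2 < p.1 ∧ τ p.1 < τ p.2 ∧ σ (τ p.2) < σ (τ p.1))).card =
      ((I ×ˢ I).filter (fun p => p.1 < p.2 ∧ τ p.2 < τ p.1 ∧ σ (τ p.1) < σ (τ p.2))).card := by
    apply Finset.card_bij (fun p _ => (p.2, p.1))
    · rintro ⟨a, b⟩ hp
      rw [Finset.mem_filter, Finset.mem_product] at hp ⊢
      exact ⟨⟨hp.1.2, hp.1.1⟩, hp.2⟩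
    · rintro ⟨a, b⟩ _ ⟨c, d⟩ _ he
      rw [Prod.mk.injEq] at he ⊢
      exact ⟨he.2, he.1⟩
    · rintro ⟨a, b⟩ hp
      rw [Finset.mem_filter, Finset.mem_product] at hp
      refine ⟨(b, a), ?_, rfl⟩
      rw [Finset.mem_filter, Finset.mem_product]
      exact ⟨⟨hp.1.2, hp.1.1⟩, hp.2⟩
  rw [h1, two_mul, ← add_assoc]
  nth_rewrite 1 [← h2]
  simp only [Finset.card_filter]
  rw [← Finset.sum_add_distrib, ← Finset.sum_add_distrib, ← Finset.sum_add_distrib]
  apply Finset.sum_congr rfl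
  rintro ⟨a, b⟩ _
  simp only [Equiv.Perm.mul_apply]
  rcases lt_trichotomy a b with hab | hab | hab
  · have h3 : τ a ≠ τ b := fun h => hab.ne (τ.injective h)
    have h4 : σ (τ a) ≠ σ (τ b) := fun h => h3 (σ.injective h)
    rcases lt_or_gt_of_ne h3 with h5 | h5 <;> rcases lt_or_gt_of_ne h4 with h6 | h6 <;>
      simp [hab, h5, h6, not_lt_of_gt hab, not_lt_of_gt h5, not_lt_of_gt h6]
  · subst hab
    simp
  · have h3 : τ a ≠ τ b := fun h => hab.ne' (τ.injective h)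
    have h4 : σ (τ a) ≠ σ (τ b) := fun h => h3 (σ.injective h)
    rcases lt_or_gt_of_ne h3 with h5 | h5 <;> rcases lt_or_gt_of_ne h4 with h6 | h6 <;>
      simp [hab, h5, h6, not_lt_of_gt hab, not_lt_of_gt h5, not_lt_of_gt h6]

/-- HINT: `sgnOn σ I = ∏ over pairs a < b in I of (if σ a < σ b then 1 else -1)`. For a pair `{a,b} ⊆ I` the relative
order of `σ τ a, σ τ b` compared with that of `a, b` is the product of the comparison `a,b → τ a, τ b` and
`τ a, τ b → σ τ a, σ τ b`. Reindex unordered pairs of `I.map τ` (e.g. show that for symmetric sign functions the product over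
ordered pairs `a < b` of `I.map τ` equals the product over `a < b` of `I` of the function at `τ a, τ b`). -/
theorem sgn_mul (σ τ : Equiv.Perm (Fin N)) (I : Finset (Fin N)) :
    sgnOn (σ * τ) I = sgnOn σ (I.map τ.toEmbedding) * sgnOn τ I ∧ sgnOn 1 I = 1 ∧
    sgnOn σ I * sgnOn σ I = 1 := by
  refine ⟨?_, ?_, ?_⟩
  · have h := sgn_cnt σ τ I
    have h2 := congrArg (fun n : ℕ => (-1 : ℤ) ^ n) h
    simp only [pow_add, pow_mul] at h2
    unfold sgnOn
    rw [h2]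
    simp
  · unfold sgnOn
    rw [Finset.card_eq_zero.2, pow_zero]
    rw [Finset.filter_eq_empty_iff]
    rintro ⟨a, b⟩ _ ⟨h1, h2⟩
    exact absurd h1 (not_lt_of_gt h2)
  · unfold sgnOn
    rw [← pow_add, ← two_mul, pow_mul]
    simp

end Clu
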