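import Pool.Agent.Helper204.CL.DefA
import Pool.Agent.Helper204.CL.DefB
import Pool.Agent.Helper204.CL.DefC
import Pool.Agent.Helper204.CL.DefD
import Pool.Agent.Helper204.CL.P_sgn_mul

set_option linter.unusedSectionVars false

open MvPolynomial Finset

noncomputable section

namespace Clu
variable {N : ℕ} {K : Type} [Field K] [CharZero K]



/-- HINT: reindex `σ ↦ σ' * σ`; `sgn_mul`; `rename σ' (∏ X (σ i) ^ _) = ∏ X ((σ' * σ) i) ^ _`;
`(first.map σ).map σ' = first.map (σ' * σ)`; `Finset.map` by an equivalence is injective. -/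
theorem mLam_symm (L : SPart N) : Symm (mLam K L) := by
  intro σ I
  have key : (∑ τ : Equiv.Perm (Fin N),
      if (first N L.m).map τ.toEmbedding = I.map σ.toEmbedding then
        ((sgnOn τ (first N L.m) : ℤ) : K) • ∏ i, (X (τ i) : MvPolynomial (Fin N) K) ^ L.part i
      else 0) = ((sgnOn σ I : ℤ) : K) • rename σ (∑ ρ : Equiv.Perm (Fin N),
      if (first N L.m).map ρ.toEmbedding = I then
        ((sgnOn ρ (first N L.m) : ℤ) : K) • ∏ i, (X (ρ i) : MvPolynomial (Fin N) K) ^ L.part i
      else 0) := by
    rw [map_sum, Finset.smul_sum]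
    refine (Equiv.sum_comp (Equiv.mulLeft σ) _).symm.trans ?_
    refine Finset.sum_congr rfl fun ρ _ => ?_
    have hmap : (first N L.m).map (σ * ρ).toEmbedding =
        ((first N L.m).map ρ.toEmbedding).map σ.toEmbedding := by
      rw [Finset.map_map]
      rfl
    rw [Equiv.coe_mulLeft, hmap]
    by_cases h : (first N L.m).map ρ.toEmbedding = I
    · rw [if_pos (by rw [h]), if_pos h, (sgn_mul σ ρ _).1, h, map_smul, map_prod, smul_smul]
      congr 1
      · push_cast
        ring
      · refine Finset.prod_congr rfl fun i _ => ?_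
        rw [map_pow, rename_X]
        rfl
    · rw [if_neg, if_neg h, map_zero, smul_zero]
      intro h'
      exact h (Finset.map_injective _ h')
  unfold mLam
  rw [map_smul, smul_comm, ← key]

end Clu
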