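import Pool.Agent.Helper204.CL.DefA
import Pool.Agent.Helper204.CL.DefB
import Pool.Agent.Helper204.CL.DefC
import Pool.Agent.Helper204.CL.DefD

set_option linter.unusedSectionVars false

open MvPolynomial Finset

noncomputable section

namespace Clu
variable {N : ℕ} {K : Type} [Field K] [CharZero K]



theorem mu_supp_prod (K : Type) [Field K] {N : ℕ} (σ : Equiv.Perm (Fin N)) (a : Fin N → ℕ) :
    (∏ i, (X (σ i) : MvPolynomial (Fin N) K) ^ a i) =
      monomial (∑ i, Finsupp.single (σ i) (a i)) 1 := by
  rw [MvPolynomial.monomial_sum_one]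
  refine Finset.prod_congr rfl fun i _ => ?_
  rw [X_pow_eq_monomial]

/-- HINT: unfold `mu`, `mLam`: the coefficient of `x^ν` in `∏ X (σ i) ^ U.part i` is nonzero only if `ν (σ i) = U.part i`;
`(first N m).map σ = first N m` means that `σ` preserves `{· < m}`. -/
theorem mu_supp (U : SPart N) (ν : Fin N →₀ ℕ) (h : coeff ν (mu K U) ≠ 0) :
    ∃ σ : Equiv.Perm (Fin N), Pres U.m σ ∧ ∀ i, ν (σ i) = U.part i := by
  by_contra hc
  push Not at hc
  apply h
  show coeff ν (((aut U : ℕ) : K)⁻¹ • ∑ σ : Equiv.Perm (Fin N),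
    if (first N U.m).map σ.toEmbedding = first N U.m then
      ((sgnOn σ (first N U.m) : ℤ) : K) • ∏ i, (X (σ i) : MvPolynomial (Fin N) K) ^ U.part i
    else 0) = 0
  rw [coeff_smul, coeff_sum, Finset.sum_eq_zero, smul_zero]
  intro σ _
  split_ifs with hm
  · have hp : Pres U.m σ := by
      intro i
      have h1 : σ i ∈ first N U.m ↔ i ∈ first N U.m := by
        conv_lhs => rw [← hm]
        exact Finset.mem_map' σ.toEmbedding
      simpa [first] using h1
    obtain ⟨i, hi⟩ := hc σ hp
    rw [coeff_smul, mu_supp_prod, coeff_monomial, if_neg, smul_zero]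
    intro he
    apply hi
    rw [← he, Finsupp.finsetSum_apply, Finset.sum_eq_single i]
    · simp
    · intro b _ hb
      rw [Finsupp.single_apply, if_neg]
      intro hbb
      exact hb (σ.injective hbb)
    · intro hh
      exact absurd (Finset.mem_univ i) hh
  · exact coeff_zero _

end Clu
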