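import Pool.Agent.Helper204.CL.DefA
import Pool.Agent.Helper204.CL.DefB
import Pool.Agent.Helper204.CL.DefC
import Pool.Agent.Helper204.CL.DefD
import Pool.Agent.Helper204.CL.P_mu_supp

set_option linter.unusedSectionVars false

open MvPolynomial Finset

noncomputable section

namespace Clu
variable {N : ℕ} {K : Type} [Field K] [CharZero K]



theorem muc_sort (m : ℕ) (f g : Fin N → ℕ) (σ : Equiv.Perm (Fin N))
    (hσ : ∀ i : Fin N, ((σ i : Fin N) : ℕ) < m ↔ (i : ℕ) < m)
    (hf1 : ∀ i j : Fin N, i < j → (j : ℕ) < m → f j ≤ f i)
    (hf2 : ∀ i j : Fin N, i < j → m ≤ (i : ℕ) → f j ≤ f i)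
    (hg1 : ∀ i j : Fin N, i < j → (j : ℕ) < m → g j ≤ g i)
    (hg2 : ∀ i j : Fin N, i < j → m ≤ (i : ℕ) → g j ≤ g i)
    (h : ∀ i, f (σ i) = g i) : f = g := by
  classical
  obtain ⟨M, hM⟩ : ∃ M : ℕ, ∀ i, f i ≤ M ∧ g i ≤ M := by
    refine ⟨∑ i, (f i + g i), fun i => ?_⟩
    have h1 : f i + g i ≤ ∑ i, (f i + g i) :=
      Finset.single_le_sum (f := fun i => f i + g i) (fun _ _ => Nat.zero_le _) (Finset.mem_univ i)
    constructor <;> omega
  let F : Fin N → ℕᵒᵈ := fun i => OrderDual.toDual (if (i : ℕ) < m then f i + M else f i)
  have hF : Monotone (F ∘ (Equiv.refl (Fin N))) := by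
    intro i j hij
    change OrderDual.toDual _ ≤ OrderDual.toDual _
    rw [OrderDual.toDual_le_toDual]
    change (if (j : ℕ) < m then f j + M else f j) ≤ (if (i : ℕ) < m then f i + M else f i)
    rcases eq_or_lt_of_le hij with rfl | hlt
    · exact le_refl _
    · have hlt' : (i : ℕ) < (j : ℕ) := hlt
      have a1 := (hM j).1
      by_cases hj : (j : ℕ) < m
      · have hi : (i : ℕ) < m := by omega
        rw [if_pos hj, if_pos hi]
        have := hf1 i j hlt hj
        omega
      · rw [if_neg hj]
        by_cases hi : (i : ℕ) < m
        · rw [if_pos hi]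
          omega
        · rw [if_neg hi]
          exact hf2 i j hlt (by omega)
  have hG : Monotone (F ∘ σ) := by
    intro i j hij
    change OrderDual.toDual _ ≤ OrderDual.toDual _
    rw [OrderDual.toDual_le_toDual]
    change (if ((σ j : Fin N) : ℕ) < m then f (σ j) + M else f (σ j)) ≤
      (if ((σ i : Fin N) : ℕ) < m then f (σ i) + M else f (σ i))
    rw [h i, h j]
    rcases eq_or_lt_of_le hij with rfl | hlt
    · exact le_refl _
    · have hlt' : (i : ℕ) < (j : ℕ) := hlt
      have a1 := (hM j).2
      by_cases hj : (j : ℕ) < m
      · have hi : (i : ℕ) < m := by omega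
        rw [if_pos ((hσ j).mpr hj), if_pos ((hσ i).mpr hi)]
        have := hg1 i j hlt hj
        omega
      · rw [if_neg (fun h' => hj ((hσ j).mp h'))]
        by_cases hi : (i : ℕ) < m
        · rw [if_pos ((hσ i).mpr hi)]
          omega
        · rw [if_neg (fun h' => hi ((hσ i).mp h'))]
          exact hg2 i j hlt (by omega)
  have huniq := Tuple.unique_monotone hF hG
  funext i
  have h2 := congrFun huniq i
  have h3 : (if (i : ℕ) < m then f i + M else f i) =
      (if ((σ i : Fin N) : ℕ) < m then f (σ i) + M else f (σ i)) := h2
  rw [h i] at h3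
  by_cases hi : (i : ℕ) < m
  · rw [if_pos hi, if_pos ((hσ i).mpr hi)] at h3
    omega
  · rw [if_neg hi, if_neg (fun h' => hi ((hσ i).mp h'))] at h3
    exact h3

theorem muc_prod (p : Fin N → ℕ) (σ : Equiv.Perm (Fin N)) :
    (∏ i, X (σ i) ^ p i : MvPolynomial (Fin N) K) = monomial (pf (fun i => p (σ.symm i))) 1 := by
  classical
  have h1 : (∏ i, X (σ i) ^ p i : MvPolynomial (Fin N) K) = ∏ i, X i ^ p (σ.symm i) := by
    rw [← Equiv.prod_comp σ (fun i => (X i ^ p (σ.symm i) : MvPolynomial (Fin N) K))]
    refine Finset.prod_congr rfl fun i _ => ?_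
    rw [Equiv.symm_apply_apply]
  rw [h1, MvPolynomial.monomial_eq]
  rw [Finsupp.prod_fintype]
  · simp
  · intro i
    simp

theorem muc_map (m : ℕ) (σ : Equiv.Perm (Fin N)) :
    (first N m).map σ.toEmbedding = first N m ↔
      ∀ i : Fin N, ((σ i : Fin N) : ℕ) < m ↔ (i : ℕ) < m := by
  classical
  constructor
  · intro h i
    have h1 : σ i ∈ (first N m).map σ.toEmbedding ↔ i ∈ first N m := by
      rw [Finset.mem_map]
      constructor
      · rintro ⟨a, ha, hae⟩
        have : a = i := σ.injective hae
        rwa [this] at ha
      · intro hi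
        exact ⟨i, hi, rfl⟩
    rw [h] at h1
    simpa [first] using h1
  · intro h
    ext j
    rw [Finset.mem_map]
    constructor
    · rintro ⟨a, ha, rfl⟩
      simp only [first, Finset.mem_filter, Finset.mem_univ, true_and] at ha ⊢
      exact (h a).mpr ha
    · intro hj
      refine ⟨σ.symm j, ?_, by simp⟩
      simp only [first, Finset.mem_filter, Finset.mem_univ, true_and] at hj ⊢
      rw [← h (σ.symm j), Equiv.apply_symm_apply]
      exact hj

/-- HINT: if the coefficient is nonzero then by `mu_supp` `W.part (σ i) = U.part i` with `σ` preserving `{· < m}`; both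
are strictly decreasing on `{· < m}` and weakly decreasing on `{· ≥ m}`, so `W.part = U.part`. For `W = U`: the `σ`
contributing are those with `U.part (σ i) = U.part i` preserving `{· < m}`, they fix all `i < m` (the parts there are
distinct), so `sgnOn σ (first) = 1` (no inversions) and their number is `aut U`; and `aut U ≠ 0` (contains `1`). -/
theorem mu_coeff (U W : SPart N) (h : W.m = U.m) :
    coeff (pf W.part) (mu K U) = by classical exact if W = U then 1 else 0 := by
  classical
  by_cases hWU : W = U
  · subst hWU
    simp only [if_true]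
    have haut : ((aut W : ℕ) : K) ≠ 0 := by
      rw [Nat.cast_ne_zero]
      apply Finset.card_ne_zero_of_mem (a := (1 : Equiv.Perm (Fin N)))
      simp
    have hs : coeff (pf W.part) (∑ σ : Equiv.Perm (Fin N),
        if (first N W.m).map σ.toEmbedding = first N W.m then
          ((sgnOn σ (first N W.m) : ℤ) : K) • ∏ i, X (σ i) ^ W.part i
        else 0) = ((aut W : ℕ) : K) := by
      rw [MvPolynomial.coeff_sum]
      unfold aut
      rw [Finset.card_filter, Nat.cast_sum]
      refine Finset.sum_congr rfl fun σ _ => ?_
      by_cases hc : (∀ i : Fin N, (i : ℕ) < W.m → σ i = i) ∧ ∀ i, W.part (σ i) = W.part i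
      · rw [if_pos hc, Nat.cast_one]
        have hmap : (first N W.m).map σ.toEmbedding = first N W.m := by
          rw [muc_map]
          intro i
          constructor
          · intro hi
            have h1 := hc.1 (σ i) hi
            have h2 : σ i = i := σ.injective h1
            rwa [h2] at hi
          · intro hi
            rw [hc.1 i hi]
            exact hi
        rw [if_pos hmap, muc_prod]
        have hsg : sgnOn σ (first N W.m) = 1 := by
          unfold sgnOn
          have : ((first N W.m ×ˢ first N W.m).filter
              (fun p => p.1 < p.2 ∧ σ p.2 < σ p.1)) = ∅ := by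
            rw [Finset.filter_eq_empty_iff]
            rintro ⟨a, b⟩ hab ⟨h1, h2⟩
            rw [Finset.mem_product] at hab
            simp only [first, Finset.mem_filter, Finset.mem_univ, true_and] at hab
            simp only at h1 h2
            rw [hc.1 a hab.1, hc.1 b hab.2] at h2
            exact absurd h1 (not_lt.mpr h2.le)
          rw [this]
          simp
        rw [hsg]
        have hpe : (fun i => W.part (σ.symm i)) = W.part := by
          funext i
          rw [← hc.2 (σ.symm i), Equiv.apply_symm_apply]
        rw [hpe]
        simp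
      · rw [if_neg hc, Nat.cast_zero]
        by_cases hmap : (first N W.m).map σ.toEmbedding = first N W.m
        · rw [if_pos hmap, muc_prod, MvPolynomial.coeff_smul, MvPolynomial.coeff_monomial]
          rw [if_neg, smul_zero]
          intro he
          apply hc
          have he2 : ∀ i, W.part (σ i) = W.part i := by
            intro i
            have h1 := congrArg (fun q : Fin N →₀ ℕ => q (σ i)) he
            simp only [pf_apply, Equiv.symm_apply_apply] at h1
            exact h1.symm
          refine ⟨?_, he2⟩
          intro i hi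
          rw [muc_map] at hmap
          have hi2 := (hmap i).mpr hi
          rcases lt_trichotomy (σ i) i with hlt | heq | hgt
          · have := W.strict (σ i) i hlt hi
            rw [he2 i] at this
            exact absurd this (lt_irrefl _)
          · exact heq
          · have := W.strict i (σ i) hgt hi2
            rw [he2 i] at this
            exact absurd this (lt_irrefl _)
        · rw [if_neg hmap, MvPolynomial.coeff_zero]
    unfold mu mLam
    rw [MvPolynomial.coeff_smul, hs, smul_eq_mul, inv_mul_cancel₀ haut]
  · simp only [if_neg hWU]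
    by_contra hne
    obtain ⟨σ, hσ, hσ2⟩ := mu_supp U (pf W.part) hne
    apply hWU
    have hp : W.part = U.part := by
      refine muc_sort U.m W.part U.part σ hσ ?_ ?_ ?_ ?_ hσ2
      · intro i j hij hj
        exact (W.strict i j hij (by rw [h]; exact hj)).le
      · intro i j hij hi
        exact W.weak i j hij (by rw [h]; exact hi)
      · intro i j hij hj
        exact (U.strict i j hij hj).le
      · exact U.weak
    exact SPart.ext h hp

end Clu
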