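import Pool.Agent.Helper204.CL.DefA
import Pool.Agent.Helper204.CL.DefB
import Pool.Agent.Helper204.CL.DefC
import Pool.Agent.Helper204.CL.DefD
import Pool.Agent.Helper204.CL.P_mLam_symm
import Pool.Agent.Helper204.CL.P_mLam_ne
import Pool.Agent.Helper204.CL.P_mu_coeff

set_option linter.unusedSectionVars false

open MvPolynomial Finset

noncomputable section

namespace Clu
variable {N : ℕ} {K : Type} [Field K] [CharZero K]



theorem cf_card (m : ℕ) (hm : m ≤ N) : (first N m).card = m := by
  unfold first
  have h : (univ.filter (fun i : Fin N => (i : ℕ) < m)).map Fin.valEmbedding = range m := by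
    ext x
    simp only [mem_map, mem_filter, mem_univ, true_and, Fin.valEmbedding_apply, mem_range]
    constructor
    · rintro ⟨i, h, rfl⟩
      exact h
    · intro h
      exact ⟨⟨x, by omega⟩, h, rfl⟩
  rw [← card_map Fin.valEmbedding, h, card_range]

theorem cf_apply (v : SPart N →₀ K) (I : Finset (Fin N)) :
    comb v I = v.sum fun U r => r • mLam K U I := by
  unfold comb Finsupp.sum
  rw [Finset.sum_apply]
  rfl

theorem cf_four (v : SPart N →₀ K) (m : ℕ) (hm : m ≤ N) :
    comb v (first N m) = v.sum fun U r => if U.m = m then r • mu K U else 0 := by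
  rw [cf_apply]
  unfold Finsupp.sum
  apply Finset.sum_congr rfl
  intro U _
  dsimp only
  split_ifs with h
  · subst h
    rfl
  · rw [mLam_ne U _ (by rw [cf_card m hm]; exact Ne.symm h), smul_zero]

/-- HINT: `comb v I = Σ_U v U • mLam K U I`; `mLam_ne`, `mLam_symm` (sum of symmetric is symmetric), `mu_coeff`; the
cardinality of `first N m` is `m` for `m ≤ N`. -/
theorem comb_first (v : SPart N →₀ K) :
    Symm (comb v) ∧ (∀ W : SPart N, coeff (pf W.part) (comb v (first N W.m)) = v W) ∧
    (∀ m ≤ N, (∀ W, v W ≠ 0 → W.m ≠ m) → comb v (first N m) = 0) ∧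
    (∀ m ≤ N, comb v (first N m) = v.sum fun U r => if U.m = m then r • mu K U else 0) := by
  classical
  refine ⟨?_, ?_, ?_, fun m hm => cf_four v m hm⟩
  · intro σ I
    rw [cf_apply, cf_apply]
    unfold Finsupp.sum
    rw [map_sum, Finset.smul_sum]
    apply Finset.sum_congr rfl
    intro U _
    dsimp only
    rw [mLam_symm U σ I, map_smul, smul_comm]
  · intro W
    rw [cf_four v W.m W.m_le]
    unfold Finsupp.sum
    rw [coeff_sum]
    have h1 : ∀ U ∈ v.support, coeff (pf W.part) (if U.m = W.m then v U • mu K U else 0) =
        if W = U then v U else 0 := by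
      intro U _
      by_cases h : U.m = W.m
      · rw [if_pos h, coeff_smul, mu_coeff U W h.symm]
        by_cases h2 : W = U
        · subst h2
          simp
        · simp [h2, Ne.symm h2]
      · rw [if_neg h, if_neg, coeff_zero]
        rintro rfl
        exact h rfl
    rw [Finset.sum_congr rfl h1, Finset.sum_ite_eq]
    split_ifs with h2
    · rfl
    · exact (Finsupp.notMem_support_iff.mp h2).symm
  · intro m hm hv
    rw [cf_four v m hm]
    unfold Finsupp.sum
    apply Finset.sum_eq_zero
    intro U hU
    dsimp only
    rw [if_neg (hv U (Finsupp.mem_support_iff.mp hU))]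

end Clu
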