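import Pool.Agent.Helper204.CL.DefA
import Pool.Agent.Helper204.CL.DefB
import Pool.Agent.Helper204.CL.DefC
import Pool.Agent.Helper204.CL.DefD

set_option linter.unusedSectionVars false

open MvPolynomial Finset

noncomputable section

namespace Clu
variable {N : ℕ} {K : Type} [Field K] [CharZero K]



/-- HINT: inversions of a transposition `i < j` inside `{· < m}`: the pairs `(i,l)`, `(l,j)` for `i < l < j` and `(i,j)`:
an odd number. If `m ≤ i, j` the transposition is the identity on `first N m`. -/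
theorem sgn_swap (m : ℕ) (i j : Fin N) (hij : i ≠ j) :
    ((i : ℕ) < m → (j : ℕ) < m → sgnOn (Equiv.swap i j) (first N m) = -1) ∧
    (m ≤ (i : ℕ) → m ≤ (j : ℕ) → sgnOn (Equiv.swap i j) (first N m) = 1) := by
  have main : ∀ i j : Fin N, i < j → (i : ℕ) < m → (j : ℕ) < m →
      sgnOn (Equiv.swap i j) (first N m) = -1 := by
    intro i j hij hi hj
    have key : ∀ a b : Fin N, a < b → ((Equiv.swap i j) b < (Equiv.swap i j) a ↔
        (a = i ∧ i < b ∧ b < j) ∨ (b = j ∧ i < a ∧ a < j) ∨ (a = i ∧ b = j)) := by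
      intro a b hab
      rw [Equiv.swap_apply_def, Equiv.swap_apply_def]
      split_ifs with h1 h2 h3 h4 h5 h6 h7 h8 <;>
        simp only [Fin.lt_def, Fin.ext_iff] at * <;> omega
    have hset : ((first N m ×ˢ first N m).filter
        (fun p => p.1 < p.2 ∧ (Equiv.swap i j) p.2 < (Equiv.swap i j) p.1)) =
        ((Finset.Ioo i j).image (fun l => (i, l)) ∪ (Finset.Ioo i j).image (fun l => (l, j))) ∪
          {(i, j)} := by
      ext ⟨a, b⟩
      simp only [first, Finset.mem_filter, Finset.mem_product, Finset.mem_univ, true_and,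
        Finset.mem_union, Finset.mem_image, Finset.mem_Ioo, Prod.mk.injEq, Finset.mem_singleton]
      constructor
      · rintro ⟨⟨ha, hb⟩, hab, h⟩
        rw [key a b hab] at h
        rcases h with ⟨h1, h2, h3⟩ | ⟨h1, h2, h3⟩ | ⟨h1, h2⟩
        · exact Or.inl (Or.inl ⟨b, ⟨h2, h3⟩, h1.symm, rfl⟩)
        · exact Or.inl (Or.inr ⟨a, ⟨h2, h3⟩, rfl, h1.symm⟩)
        · exact Or.inr ⟨h1, h2⟩
      · rintro ((⟨l, ⟨h1, h2⟩, rfl, rfl⟩ | ⟨l, ⟨h1, h2⟩, rfl, rfl⟩) | ⟨rfl, rfl⟩)
        · refine ⟨⟨hi, lt_trans (Fin.lt_def.1 h2) hj⟩, h1, ?_⟩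
          rw [key _ _ h1]
          exact Or.inl ⟨rfl, h1, h2⟩
        · refine ⟨⟨lt_trans (Fin.lt_def.1 h2) hj, hj⟩, h2, ?_⟩
          rw [key _ _ h2]
          exact Or.inr (Or.inl ⟨rfl, h1, h2⟩)
        · refine ⟨⟨hi, hj⟩, hij, ?_⟩
          rw [key _ _ hij]
          exact Or.inr (Or.inr ⟨rfl, rfl⟩)
    unfold sgnOn
    rw [hset]
    rw [Finset.card_union_of_disjoint, Finset.card_union_of_disjoint,
      Finset.card_image_of_injective, Finset.card_image_of_injective, Finset.card_singleton]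
    · rw [← two_mul, pow_succ, pow_mul]
      norm_num
    · intro a b h
      simpa using h
    · intro a b h
      simpa using h
    · rw [Finset.disjoint_left]
      rintro ⟨a, b⟩ h1 h2
      simp only [Finset.mem_image, Finset.mem_Ioo, Prod.mk.injEq] at h1 h2
      obtain ⟨l, ⟨h3, h4⟩, h5, h6⟩ := h1
      obtain ⟨l', ⟨h3', h4'⟩, h5', h6'⟩ := h2
      rw [h6, ← h6'] at h4
      exact lt_irrefl _ h4
    · rw [Finset.disjoint_left]
      rintro ⟨a, b⟩ h1 h2
      simp only [Finset.mem_union, Finset.mem_image, Finset.mem_Ioo, Prod.mk.injEq,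
        Finset.mem_singleton] at h1 h2
      obtain ⟨h5, h6⟩ := h2
      rcases h1 with ⟨l, ⟨h3, h4⟩, h7, h8⟩ | ⟨l, ⟨h3, h4⟩, h7, h8⟩
      · rw [h8, h6] at h4
        exact lt_irrefl _ h4
      · rw [h7, h5] at h3
        exact lt_irrefl _ h3
  constructor
  · intro hi hj
    rcases lt_or_gt_of_ne hij with h | h
    · exact main i j h hi hj
    · rw [Equiv.swap_comm]
      exact main j i h hj hi
  · intro hi hj
    unfold sgnOn
    rw [Finset.filter_false_of_mem, Finset.card_empty, pow_zero]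
    rintro ⟨a, b⟩ hab
    simp only [first, Finset.mem_product, Finset.mem_filter, Finset.mem_univ, true_and] at hab
    obtain ⟨ha, hb⟩ := hab
    have h1 : (Equiv.swap i j) a = a :=
      Equiv.swap_apply_of_ne_of_ne (by rintro rfl; omega) (by rintro rfl; omega)
    have h2 : (Equiv.swap i j) b = b :=
      Equiv.swap_apply_of_ne_of_ne (by rintro rfl; omega) (by rintro rfl; omega)
    rintro ⟨h3, h4⟩
    simp only at h3 h4
    rw [h1, h2] at h4
    exact lt_asymm h3 h4

end Clu
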