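import Pool.Agent.Helper204.CL.DefA
import Pool.Agent.Helper204.CL.DefB
import Pool.Agent.Helper204.CL.DefC
import Pool.Agent.Helper204.CL.DefD
import Pool.Agent.Helper204.CL.P_sgn_swap

set_option linter.unusedSectionVars false

open MvPolynomial Finset

noncomputable section

namespace Clu
variable {N : ℕ} {K : Type} [Field K] [CharZero K]



theorem symm_InV_map (m : ℕ) (i j : Fin N) (h : (i : ℕ) < m ↔ (j : ℕ) < m) :
    (first N m).map (Equiv.swap i j).toEmbedding = first N m := by
  ext l
  rw [Finset.mem_map_equiv, Equiv.symm_swap]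
  unfold first
  simp only [Finset.mem_filter, Finset.mem_univ, true_and]
  by_cases h1 : l = i
  · rw [h1, Equiv.swap_apply_left]; exact h.symm
  · by_cases h2 : l = j
    · rw [h2, Equiv.swap_apply_right]; exact h
    · rw [Equiv.swap_apply_of_ne_of_ne h1 h2]

/-- HINT: transpositions `swap i j` inside `{· < m}` or inside `{· ≥ m}` map `first N m` to itself; `sgn_swap`. -/
theorem symm_InV (m : ℕ) (f : SPoly K N) (hf : Symm f) : InV m (f (first N m)) := by
  constructor
  · intro i j hij hi hj
    have h1 := hf (Equiv.swap i j) (first N m)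
    rw [symm_InV_map m i j (iff_of_true hi hj), (sgn_swap m i j hij).1 hi hj] at h1
    have h2 : (((-1 : ℤ) : K)) = -1 := by norm_num
    rw [h2, neg_one_smul] at h1
    conv_rhs => rw [h1]
    rw [neg_neg]
  · intro i j hi hj
    by_cases hij : i = j
    · rw [hij, Equiv.swap_self]
      exact rename_id_apply _
    · have h1 := hf (Equiv.swap i j) (first N m)
      rw [symm_InV_map m i j (iff_of_false (not_lt.2 hi) (not_lt.2 hj)),
        (sgn_swap m i j hij).2 hi hj] at h1
      have h2 : (((1 : ℤ) : K)) = 1 := by norm_num
      rw [h2, one_smul] at h1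
      exact h1.symm

end Clu
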