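import Pool.Agent.Helper204.CL.DefA
import Pool.Agent.Helper204.CL.DefB
import Pool.Agent.Helper204.CL.DefC
import Pool.Agent.Helper204.CL.DefD
import Pool.Agent.Helper204.CL.P_sgn_swap
import Pool.Agent.Helper204.CL.P_sgn_mul

set_option linter.unusedSectionVars false

open MvPolynomial Finset

noncomputable section

namespace Clu
variable {N : ℕ} {K : Type} [Field K] [CharZero K]



omit [CharZero K] in
theorem inV_perm_swapPres (m : ℕ) (i j : Fin N) (h : (i : ℕ) < m ↔ (j : ℕ) < m) :
    Pres m (Equiv.swap i j) := by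
  intro l
  rcases eq_or_ne l i with rfl | hi
  · rw [Equiv.swap_apply_left]
    exact h.symm
  · rcases eq_or_ne l j with rfl | hj
    · rw [Equiv.swap_apply_right]
      exact h
    · rw [Equiv.swap_apply_of_ne_of_ne hi hj]

theorem inV_perm_map (m : ℕ) (σ : Equiv.Perm (Fin N)) (hσ : Pres m σ) :
    (first N m).map σ.toEmbedding = first N m := by
  ext l
  rw [Finset.mem_map_equiv]
  unfold first
  rw [mem_filter, mem_filter]
  have h := hσ (σ.symm l)
  rw [Equiv.apply_symm_apply] at h
  constructor
  · rintro ⟨-, h1⟩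
    exact ⟨mem_univ _, h.mpr h1⟩
  · rintro ⟨-, h1⟩
    exact ⟨mem_univ _, h.mp h1⟩

theorem inV_perm_aux (m : ℕ) (g : MvPolynomial (Fin N) K) (hg : InV m g) :
    ∀ (n : ℕ) (σ : Equiv.Perm (Fin N)), σ.support.card = n → Pres m σ →
      rename σ g = ((sgnOn σ (first N m) : ℤ) : K) • g := by
  intro n
  induction n using Nat.strong_induction_on with
  | _ n ih =>
    intro σ hn hσ
    by_cases h1 : σ = 1
    · subst h1
      rw [(sgn_mul 1 1 (first N m)).2.1]
      have h2 : ((1 : Equiv.Perm (Fin N)) : Fin N → Fin N) = id := rfl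
      rw [h2, rename_id_apply, Int.cast_one, one_smul]
    · obtain ⟨i, hi⟩ : ∃ i, σ i ≠ i := by
        by_contra hc
        push Not at hc
        exact h1 (Equiv.ext hc)
      have hiff : (i : ℕ) < m ↔ ((σ i : Fin N) : ℕ) < m := (hσ i).symm
      have hτp : Pres m (Equiv.swap i (σ i)) := inV_perm_swapPres m i (σ i) hiff
      have hcard := Equiv.Perm.card_support_swap_mul hi
      have hσ' : Pres m (Equiv.swap i (σ i) * σ) := fun l => (hτp (σ l)).trans (hσ l)
      have ih' := ih _ (hn ▸ hcard) (Equiv.swap i (σ i) * σ) rfl hσ'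
      have hdec : σ = Equiv.swap i (σ i) * (Equiv.swap i (σ i) * σ) := by
        rw [← mul_assoc, Equiv.swap_mul_self, one_mul]
      have hren : rename σ g = rename (Equiv.swap i (σ i))
          (rename (Equiv.swap i (σ i) * σ : Equiv.Perm (Fin N)) g) := by
        rw [rename_rename]
        conv_lhs => rw [hdec]
        rfl
      have hsg : sgnOn σ (first N m) = sgnOn (Equiv.swap i (σ i)) (first N m) *
          sgnOn (Equiv.swap i (σ i) * σ) (first N m) := by
        have h3 := (sgn_mul (Equiv.swap i (σ i)) (Equiv.swap i (σ i) * σ) (first N m)).1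
        rw [inV_perm_map m _ hσ', ← hdec] at h3
        exact h3
      rw [hren, ih', map_smul, hsg]
      rcases lt_or_ge (i : ℕ) m with him | him
      · have hsm := hiff.mp him
        rw [hg.1 i (σ i) (Ne.symm hi) him hsm, (sgn_swap m i (σ i) (Ne.symm hi)).1 him hsm]
        push_cast
        rw [smul_neg, neg_one_mul, neg_smul]
      · have hsm : m ≤ ((σ i : Fin N) : ℕ) := by
          by_contra hc
          push Not at hc
          exact absurd (hiff.mpr hc) (not_lt.mpr him)
        rw [hg.2 i (σ i) him hsm, (sgn_swap m i (σ i) (Ne.symm hi)).2 him hsm, one_mul]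

/-- HINT: both hypotheses of `InV` say: for transpositions `τ = swap i j` preserving `{· < m}`, `coeff (η ∘ τ) g =
± coeff η g`. If `ν ∘ σ = η` with `σ` preserving `{· < m}`, write `σ` as a product of such transpositions
(induction, e.g. on the number of non-fixed points: if `σ i ≠ i`, multiply by `swap i (σ i)`, both are on the same
side of `m`). -/
theorem inV_perm (m : ℕ) (g : MvPolynomial (Fin N) K) (hg : InV m g) (σ : Equiv.Perm (Fin N)) (hσ : Pres m σ)
    (η ν : Fin N →₀ ℕ) (h : ∀ i, ν (σ i) = η i) :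
    rename σ g = ((sgnOn σ (first N m) : ℤ) : K) • g ∧
    coeff ν g = ((sgnOn σ (first N m) : ℤ) : K) * coeff η g := by
  have h1 := inV_perm_aux m g hg _ σ rfl hσ
  refine ⟨h1, ?_⟩
  have hmap : Finsupp.mapDomain σ η = ν := by
    ext l
    obtain ⟨i, rfl⟩ := σ.surjective l
    rw [Finsupp.mapDomain_apply σ.injective, h]
  have h2 : coeff ν (rename σ g) = coeff η g := by
    rw [← hmap, coeff_rename_mapDomain σ σ.injective]
  have h3 : ((sgnOn σ (first N m) : ℤ) : K) * ((sgnOn σ (first N m) : ℤ) : K) = 1 := by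
    have h4 := (sgn_mul σ σ (first N m)).2.2
    exact_mod_cast congrArg (fun z : ℤ => (z : K)) h4
  rw [h1, coeff_smul, smul_eq_mul] at h2
  rw [← h2, ← mul_assoc, h3, one_mul]

end Clu
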