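import Pool.Agent.Helper204.CL.DefA
import Pool.Agent.Helper204.CL.DefB
import Pool.Agent.Helper204.CL.DefC
import Pool.Agent.Helper204.CL.DefD
import Pool.Agent.Helper204.CL.P_inV_perm

set_option linter.unusedSectionVars false

open MvPolynomial Finset

noncomputable section

namespace Clu
variable {N : ℕ} {K : Type} [Field K] [CharZero K]



theorem inV_rep_card (m : ℕ) (hm : m ≤ N) :
    (univ.filter (fun i : Fin N => (i : ℕ) < m)).card = m := by
  rcases Nat.lt_or_ge m N with h | h
  · have h1 : univ.filter (fun i : Fin N => (i : ℕ) < m) = Finset.Iio (⟨m, h⟩ : Fin N) := by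
      ext i
      simp [Fin.lt_def]
    rw [h1, Fin.card_Iio]
  · have hN : m = N := le_antisymm hm h
    subst hN
    rw [Finset.filter_true_of_mem (fun i _ => i.2)]
    simp

theorem inV_rep_seg (m : ℕ) (hm : m ≤ N) (D : Finset (Fin N)) (hD : ∀ i j : Fin N, j ≤ i → i ∈ D → j ∈ D)
    (hc : D.card = m) (i : Fin N) : i ∈ D ↔ (i : ℕ) < m := by
  have h1 : ∀ i : Fin N, i ∈ D → (i : ℕ) < m := by
    intro i hi
    have h2 : Finset.Iic i ⊆ D := by
      intro j hj
      exact hD i j (Finset.mem_Iic.1 hj) hi
    have h3 := Finset.card_le_card h2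
    rw [Fin.card_Iic, hc] at h3
    omega
  have h4 := inV_rep_card m hm
  have h5 : D = univ.filter (fun i : Fin N => (i : ℕ) < m) := by
    apply Finset.eq_of_subset_of_card_le
    · intro i hi
      simp [h1 i hi]
    · rw [h4, hc]
  rw [h5]
  simp

theorem inV_rep_sort (m : ℕ) (hm : m ≤ N) (ν : Fin N → ℕ) : ∃ σ : Equiv.Perm (Fin N), Pres m σ ∧
    (∀ i j : Fin N, i < j → (j : ℕ) < m → ν (σ j) ≤ ν (σ i)) ∧
    (∀ i j : Fin N, i < j → m ≤ (i : ℕ) → ν (σ j) ≤ ν (σ i)) := by
  obtain ⟨B, hB⟩ : ∃ B : ℕ, ∀ i : Fin N, ν i ≤ B := ⟨∑ i : Fin N, ν i, fun i =>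
    Finset.single_le_sum (f := ν) (fun _ _ => Nat.zero_le _) (Finset.mem_univ i)⟩
  obtain ⟨key, hkey⟩ : ∃ key : Fin N → ℕ, key = fun i : Fin N => if (i : ℕ) < m then B - ν i
    else B + 1 + (B - ν i) := ⟨_, rfl⟩
  have hmono := Tuple.monotone_sort key
  obtain ⟨σ, hσ⟩ : ∃ σ, σ = Tuple.sort key := ⟨_, rfl⟩
  rw [← hσ] at hmono
  have hk1 : ∀ i : Fin N, (i : ℕ) < m ↔ key i ≤ B := by
    intro i
    rw [hkey]
    dsimp only
    split_ifs with h
    · simp [h]
    · simp [h]
      omega
  have hpres : Pres m σ := by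
    intro i
    rw [hk1]
    have hD := inV_rep_seg m hm (univ.filter (fun i => key (σ i) ≤ B)) (by
      intro i j hji hi
      simp only [Finset.mem_filter, Finset.mem_univ, true_and] at hi ⊢
      exact (hmono hji).trans hi) (by
      have h1 : (univ.filter (fun i => key (σ i) ≤ B)).card =
          (univ.filter (fun i => key i ≤ B)).card := by
        apply Finset.card_bij (fun i _ => σ i)
        · intro i hi
          simpa using hi
        · intro i _ j _ h
          exact σ.injective h
        · intro i hi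
          exact ⟨σ.symm i, by simpa using hi, by simp⟩
      rw [h1]
      have h2 : univ.filter (fun i => key i ≤ B) = univ.filter (fun i : Fin N => (i : ℕ) < m) := by
        ext i
        simp [hk1]
      rw [h2]
      exact inV_rep_card m hm) i
    rw [← hD]
    simp
  refine ⟨σ, hpres, ?_, ?_⟩
  · intro i j hij hj
    have h1 : ((σ j : Fin N) : ℕ) < m := (hpres j).2 hj
    have h2 : ((σ i : Fin N) : ℕ) < m := (hpres i).2 (lt_trans hij hj)
    have h3 := hmono hij.le
    rw [Function.comp_apply, Function.comp_apply, hkey] at h3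
    dsimp only at h3
    rw [if_pos h2, if_pos h1] at h3
    have h4 := hB (σ j)
    have h5 := hB (σ i)
    omega
  · intro i j hij hi
    have h1 : ¬ ((σ j : Fin N) : ℕ) < m := by
      rw [hpres j]
      have : (i : ℕ) < j := hij
      omega
    have h2 : ¬ ((σ i : Fin N) : ℕ) < m := by
      rw [hpres i]
      omega
    have h3 := hmono hij.le
    rw [Function.comp_apply, Function.comp_apply, hkey] at h3
    dsimp only at h3
    rw [if_neg h2, if_neg h1] at h3
    have h4 := hB (σ j)
    have h5 := hB (σ i)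
    omega

/-- HINT: there is a permutation `σ` preserving `{· < m}` such that `ν ∘ σ` is weakly decreasing on `{· < m}` and on
`{· ≥ m}` (sort by the key: positions `< m` first, then decreasing value; or sort each part). If two values on `{· < m}` agree,
`ν i = ν j`, then `swap i j` and antisymmetry give `coeff ν g = - coeff ν g = 0`. So it is strict and defines
`W : SPart N` with `W.m = m`; by `inV_perm` the coefficient at `W.part` is `± coeff ν g`. -/
theorem inV_rep (m : ℕ) (hm : m ≤ N) (g : MvPolynomial (Fin N) K) (hg : InV m g) (ν : Fin N →₀ ℕ)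
    (h : coeff ν g ≠ 0) :
    ∃ W : SPart N, W.m = m ∧ (∃ σ : Equiv.Perm (Fin N), Pres m σ ∧ ∀ i, ν (σ i) = W.part i) ∧
      coeff (pf W.part) g ≠ 0 := by
  obtain ⟨σ, hp, h1, h2⟩ := inV_rep_sort m hm (fun i => ν i)
  have hne : ∀ a b : Fin N, a ≠ b → (a : ℕ) < m → (b : ℕ) < m → ν a ≠ ν b := by
    intro a b hab ha hb hν
    apply h
    have h3 := hg.1 a b hab ha hb
    have h4 : Finsupp.mapDomain (Equiv.swap a b) ν = ν := by
      ext i
      have h5 : Finsupp.mapDomain (Equiv.swap a b) ν (Equiv.swap a b ((Equiv.swap a b) i)) =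
          ν ((Equiv.swap a b) i) := Finsupp.mapDomain_apply (Equiv.injective _) _ _
      rw [Equiv.swap_apply_self] at h5
      rw [h5]
      by_cases hia : i = a
      · rw [hia, Equiv.swap_apply_left, hν]
      · by_cases hib : i = b
        · rw [hib, Equiv.swap_apply_right, hν]
        · rw [Equiv.swap_apply_of_ne_of_ne hia hib]
    have h5 : coeff (Finsupp.mapDomain (Equiv.swap a b) ν) (rename (Equiv.swap a b) g) = coeff ν g :=
      coeff_rename_mapDomain _ (Equiv.injective _) _ _
    rw [h4, h3, coeff_neg] at h5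
    have h6 : (2 : K) * coeff ν g = 0 := by linear_combination -h5
    simpa using h6
  refine ⟨⟨m, fun i => ν (σ i), hm, ?_, ?_⟩, rfl, ⟨σ, hp, fun i => rfl⟩, ?_⟩
  · intro i j hij hj
    have h3 := h1 i j hij hj
    have h4 : ν (σ j) ≠ ν (σ i) := by
      apply hne
      · intro h'
        exact hij.ne' (σ.injective h')
      · exact (hp j).2 hj
      · exact (hp i).2 (lt_trans hij hj)
    exact lt_of_le_of_ne h3 h4
  · intro i j hij hi
    exact h2 i j hij hi
  · intro h0
    have h3 := (inV_perm m g hg σ hp (pf fun i => ν (σ i)) ν (fun i => rfl)).2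
    rw [h0, mul_zero] at h3
    exact h h3

end Clu
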