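import Pool.Agent.Helper204.CL.DefA
import Pool.Agent.Helper204.CL.DefB
import Pool.Agent.Helper204.CL.DefC
import Pool.Agent.Helper204.CL.DefD
import Pool.Agent.Helper204.CL.P_mLam_symm
import Pool.Agent.Helper204.CL.P_symm_InV
import Pool.Agent.Helper204.CL.P_mu_coeff
import Pool.Agent.Helper204.CL.P_inV_rep

set_option linter.unusedSectionVars false

open MvPolynomial Finset

noncomputable section

namespace Clu
variable {N : ℕ} {K : Type} [Field K] [CharZero K]



/-- HINT: the set of `W` with `W.m = m` and `coeff (pf W.part) g ≠ 0` is finite (injects into the support of `g`), let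
`v` be the corresponding finitely supported function. `comb v (first N m) = Σ_U v U • mu K U` is in `InV m` and has the same
coefficients at all `pf W.part` as `g` (`mu_coeff`); the difference vanishes by `inV_rep`. (`mLam K U (first N m)` with
`U.m = m` is `mu K U`.) -/
theorem inV_expand (m : ℕ) (hm : m ≤ N) (g : MvPolynomial (Fin N) K) (hg : InV m g) :
    ∃ v : SPart N →₀ K, (∀ W, v W ≠ 0 → W.m = m) ∧ (∀ W, W.m = m → v W = coeff (pf W.part) g) ∧
      comb v (first N m) = g := by
  classical
  have hfin : (Function.support (fun W : SPart N => if W.m = m then coeff (pf W.part) g else 0)).Finite := by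
    apply Set.Finite.of_finite_image (f := fun W : SPart N => pf W.part)
    · apply Set.Finite.subset (g.support.finite_toSet)
      rintro _ ⟨W, hW, rfl⟩
      simp only [Function.mem_support, ne_eq, ite_eq_right_iff, Classical.not_imp] at hW
      simpa using hW.2
    · intro W hW W' hW' h
      simp only [Function.mem_support, ne_eq, ite_eq_right_iff, Classical.not_imp] at hW hW'
      have h1 : W.part = W'.part := by
        funext i
        have := DFunLike.congr_fun h i
        simpa using this
      exact SPart.ext (hW.1.trans hW'.1.symm) h1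
  set v : SPart N →₀ K := Finsupp.ofSupportFinite _ hfin with hv
  have hvW : ∀ W, v W = if W.m = m then coeff (pf W.part) g else 0 := fun W => rfl
  have h1 : ∀ W, v W ≠ 0 → W.m = m := by
    intro W hW
    by_contra hne
    exact hW (by rw [hvW, if_neg hne])
  have h2 : ∀ W, W.m = m → v W = coeff (pf W.part) g := by
    intro W hW
    rw [hvW, if_pos hW]
  refine ⟨v, h1, h2, ?_⟩
  have hcomb : comb v (first N m) = ∑ U ∈ v.support, v U • mLam K U (first N m) := by
    unfold comb Finsupp.sum
    rw [Finset.sum_apply]
    rfl
  have hIn : ∀ U : SPart N, InV m (mLam K U (first N m)) := fun U => symm_InV m _ (mLam_symm U)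
  have hd : InV m (comb v (first N m) - g) := by
    rw [hcomb]
    constructor
    · intro i j hij hi hj
      rw [map_sub, map_sum, hg.1 i j hij hi hj]
      have : ∀ U ∈ v.support, rename (Equiv.swap i j) (v U • mLam K U (first N m)) =
          - (v U • mLam K U (first N m)) := by
        intro U _
        rw [map_smul, (hIn U).1 i j hij hi hj, smul_neg]
      rw [Finset.sum_congr rfl this, Finset.sum_neg_distrib]
      ring
    · intro i j hi hj
      rw [map_sub, map_sum, hg.2 i j hi hj]
      have : ∀ U ∈ v.support, rename (Equiv.swap i j) (v U • mLam K U (first N m)) =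
          (v U • mLam K U (first N m)) := by
        intro U _
        rw [map_smul, (hIn U).2 i j hi hj]
      rw [Finset.sum_congr rfl this]
  by_contra hne
  have hne' : comb v (first N m) - g ≠ 0 := sub_ne_zero.mpr hne
  obtain ⟨ν, hν⟩ := MvPolynomial.ne_zero_iff.mp hne'
  obtain ⟨W, hWm, _, hW⟩ := inV_rep m hm _ hd ν hν
  apply hW
  rw [coeff_sub, hcomb, coeff_sum]
  have hterm : ∀ U ∈ v.support, coeff (pf W.part) (v U • mLam K U (first N m)) =
      if W = U then v U else 0 := by
    intro U hU
    have hUm : U.m = m := h1 U (Finsupp.mem_support_iff.mp hU)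
    have := mu_coeff (K := K) U W (hWm.trans hUm.symm)
    unfold mu at this
    rw [hUm] at this
    rw [coeff_smul, this]
    by_cases hWU : W = U
    · simp [hWU]
    · simp [hWU]
  rw [Finset.sum_congr rfl hterm, Finset.sum_ite_eq]
  by_cases hWs : W ∈ v.support
  · rw [if_pos hWs, h2 W hWm, sub_self]
  · rw [if_neg hWs]
    have : v W = 0 := Finsupp.notMem_support_iff.mp hWs
    rw [← h2 W hWm, this, sub_self]

end Clu
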