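import Pool.Agent.Helper204.CL.DefA
import Pool.Agent.Helper204.CL.DefB
import Pool.Agent.Helper204.CL.DefC
import Pool.Agent.Helper204.CL.DefD

set_option linter.unusedSectionVars false

open MvPolynomial Finset

noncomputable section

namespace Clu
variable {N : ℕ} {K : Type} [Field K] [CharZero K]



/-- HINT: every `I` is `(first N I.card).map σ` for some permutation `σ`; use `Symm` for both. -/
theorem symm_ext (f g : SPoly K N) (hf : Symm f) (hg : Symm g)
    (h : ∀ m ≤ N, f (first N m) = g (first N m)) : f = g := by
  classical
  funext I
  have hcard : I.card ≤ N := by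
    have := Finset.card_le_univ I
    simpa using this
  have hfc : (first N I.card).card = I.card := by
    unfold first
    rw [Fin.card_filter_val_lt]
    exact min_eq_right hcard
  obtain ⟨e⟩ : Nonempty ({x // x ∈ first N I.card} ≃ {x // x ∈ I}) := by
    apply Fintype.card_eq.mp
    simp only [Fintype.card_coe]
    exact hfc
  have hmap : (first N I.card).map (Equiv.extendSubtype e).toEmbedding = I := by
    apply Finset.eq_of_subset_of_card_le
    · intro x hx
      obtain ⟨y, hy, rfl⟩ := Finset.mem_map.mp hx
      exact Equiv.extendSubtype_mem e y hy
    · rw [Finset.card_map, hfc]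
  have h1 := hf (Equiv.extendSubtype e) (first N I.card)
  have h2 := hg (Equiv.extendSubtype e) (first N I.card)
  rw [hmap] at h1 h2
  rw [h1, h2, h I.card hcard]

end Clu
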