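import Pool.Agent.Helper204.CL.DefA
import Pool.Agent.Helper204.CL.DefB
import Pool.Agent.Helper204.CL.DefC
import Pool.Agent.Helper204.CL.DefD
import Pool.Agent.Helper204.CL.P_inV_expand
import Pool.Agent.Helper204.CL.P_comb_first
import Pool.Agent.Helper204.CL.P_symm_ext

set_option linter.unusedSectionVars false

open MvPolynomial Finset

noncomputable section

namespace Clu
variable {N : ℕ} {K : Type} [Field K] [CharZero K]



theorem symm_expand_lin (v : SPart N →₀ K) : comb v = Finsupp.linearCombination K (mLam K) v := by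
  rw [Finsupp.linearCombination_apply]
  rfl

/-- HINT: for each `m ≤ N` expand `f (first N m)` by `inV_expand` (`symm_InV`) to get `v_m`, and let `v = Σ_{m ≤ N} v_m`;
`comb` is additive; `comb v = f` by `symm_ext` and `comb_first`. The last part with `g_m` in place of `f (first N m)`. -/
theorem symm_expand (G : ℕ → MvPolynomial (Fin N) K) (hG : ∀ m ≤ N, InV m (G m)) :
    ∃ v : SPart N →₀ K, (∀ m ≤ N, comb v (first N m) = G m) ∧
      (∀ W : SPart N, v W = coeff (pf W.part) (G W.m)) := by
  classical
  have hex : ∀ m : ℕ, ∃ v : SPart N →₀ K, m ≤ N → ((∀ W, v W ≠ 0 → W.m = m) ∧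
      (∀ W, W.m = m → v W = coeff (pf W.part) (G m)) ∧ comb v (first N m) = G m) := by
    intro m
    by_cases hm : m ≤ N
    · obtain ⟨v, h⟩ := inV_expand m hm (G m) (hG m hm)
      exact ⟨v, fun _ => h⟩
    · exact ⟨0, fun h => absurd h hm⟩
  choose V hV using hex
  have hle : ∀ b, b ∈ Finset.range (N + 1) → b ≤ N := fun b hb =>
    Nat.lt_succ_iff.1 (Finset.mem_range.1 hb)
  refine ⟨∑ m ∈ Finset.range (N + 1), V m, ?_, ?_⟩
  · intro m hm
    rw [symm_expand_lin, map_sum, Finset.sum_apply, Finset.sum_eq_single m]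
    · rw [← symm_expand_lin]; exact (hV m hm).2.2
    · intro b hb hbm
      rw [← symm_expand_lin]
      apply (comb_first (V b)).2.2.1 m hm
      intro W hW
      rw [(hV b (hle b hb)).1 W hW]
      exact hbm
    · intro h
      exact absurd (Finset.mem_range.2 (Nat.lt_succ_of_le hm)) h
  · intro W
    rw [Finsupp.finset_sum_apply, Finset.sum_eq_single W.m]
    · exact (hV W.m W.m_le).2.1 W rfl
    · intro b hb hbm
      by_contra h
      exact hbm ((hV b (hle b hb)).1 W h).symm
    · intro h
      exact absurd (Finset.mem_range.2 (Nat.lt_succ_of_le W.m_le)) h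

end Clu
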