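import Pool.Agent.Helper204.CL.DefA
import Pool.Agent.Helper204.CL.DefB
import Pool.Agent.Helper204.CL.DefC
import Pool.Agent.Helper204.CL.DefD
import Pool.Agent.Helper204.CL.DefR
import Pool.Agent.Helper204.CL.P_symm_InV
import Pool.Agent.Helper204.CL.P_comb_first
import Pool.Agent.Helper204.CL.P_symm_ext
import Pool.Agent.Helper204.CL.P_symm_expand

set_option linter.unusedSectionVars false

open MvPolynomial Finset

noncomputable section

namespace Clu
variable {N : ℕ} {K : Type} [Field K] [CharZero K]



/-- HINT: `comb_first`: `coeff (pf W.part) (comb v (first N W.m)) = v W`; `comb` is additive and homogeneous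
(`Finsupp.sum_add_index'`, `Finsupp.sum_smul_index'`). Surjectivity onto symmetric ones: `symm_expand` with
`G m = f (first N m)` and `symm_ext`. -/
theorem comb_inj : (∀ v w : SPart N →₀ K, comb (v + w) = comb v + comb w) ∧
    (∀ (a : K) (v : SPart N →₀ K), comb (a • v) = a • comb v) ∧
    (∀ v : SPart N →₀ K, comb v = 0 → v = 0) ∧
    (∀ f : SPoly K N, Symm f → ∃ v : SPart N →₀ K, comb v = f) := by
  refine ⟨?_, ?_, ?_, ?_⟩
  · intro v w
    unfold comb
    exact Finsupp.sum_add_index' (fun L => zero_smul K _) (fun L r s => add_smul r s _)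
  · intro a v
    unfold comb
    rw [Finsupp.smul_sum]
    refine (Finsupp.sum_smul_index' (h := fun (L : SPart N) (r : K) => r • mLam K L)
      (fun L => zero_smul K _)).trans ?_
    apply Finsupp.sum_congr
    intro L _
    exact smul_assoc _ _ _
  · intro v hv
    ext W
    have h := (comb_first v).2.1 W
    rw [← h, hv]
    simp
  · intro f hf
    obtain ⟨v, hv, -⟩ := symm_expand (fun m => f (first N m)) (fun m _ => symm_InV m f hf)
    exact ⟨v, symm_ext _ _ (comb_first v).1 hf hv⟩

end Clu
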