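import Pool.Agent.Helper204.CL.DefA
import Pool.Agent.Helper204.CL.DefB
import Pool.Agent.Helper204.CL.DefC

set_option linter.unusedSectionVars false

open MvPolynomial Finset

noncomputable section

namespace Clu
variable {N : ℕ} {K : Type} [Field K] [CharZero K]



/-- HINT: `Module.Basis.constr_basis`, `coe_basisMonomials`, `smul_monomial`. -/
theorem P_monomial (i j : Fin N) (η : Fin N →₀ ℕ) (a : K) :
    Pop i j (monomial η a) = a • pmon K i j η ∧ Rop i j (monomial η a) = a • rmon K i j η := by
  have h1 : (monomial η a : MvPolynomial (Fin N) K) = a • basisMonomials (Fin N) K η := by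
    rw [coe_basisMonomials, smul_monomial, smul_eq_mul, mul_one]
  unfold Pop Rop
  rw [h1, map_smul, map_smul, Module.Basis.constr_basis, Module.Basis.constr_basis]
  exact ⟨rfl, rfl⟩

end Clu
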