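import Pool.Agent.Helper204.CL.DefA
import Pool.Agent.Helper204.CL.DefB
import Pool.Agent.Helper204.CL.DefC
import Pool.Agent.Helper204.CL.P_P_monomial

set_option linter.unusedSectionVars false

open MvPolynomial Finset

noncomputable section

namespace Clu
variable {N : ℕ} {K : Type} [Field K] [CharZero K]



theorem P_spec_core {R : Type*} [CommRing R] (x y : R) (n : ℕ) :
    (x - y) ^ 2 * ∑ k ∈ range n, (k : R) * (x ^ k * y ^ (n - k)) =
      (x - y) * (n * y * x ^ n) - x * y * (x ^ n - y ^ n) := by
  induction n with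
  | zero => simp
  | succ n ih =>
    rw [sum_range_succ]
    have h : ∑ k ∈ range n, (k : R) * (x ^ k * y ^ (n + 1 - k)) =
        y * ∑ k ∈ range n, (k : R) * (x ^ k * y ^ (n - k)) := by
      rw [mul_sum]
      refine sum_congr rfl fun k hk => ?_
      have hk' := mem_range.1 hk
      have : n + 1 - k = (n - k) + 1 := by omega
      rw [this, pow_succ]; ring
    have h2 : n + 1 - n = 1 := by omega
    rw [h, h2, mul_add]
    have h3 : (x - y) ^ 2 * (y * ∑ k ∈ range n, (k : R) * (x ^ k * y ^ (n - k))) =
        y * ((x - y) ^ 2 * ∑ k ∈ range n, (k : R) * (x ^ k * y ^ (n - k))) := by ring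
    rw [h3, ih]
    push_cast
    ring

theorem P_spec_ge {R : Type*} [CommRing R] (x y z : R) (a b : ℕ) (h : b ≤ a) :
    (x - y) ^ 2 * (-((b : R) * (x ^ a * y ^ b * z)) +
      ∑ c ∈ Ioo b a, ((c - b : ℕ) : R) * (x ^ c * y ^ (a + b - c) * z)) =
    (x - y) * (y * (a * (x ^ a * y ^ b * z)) - x * (b * (x ^ a * y ^ b * z))) -
      x * y * (x ^ a * y ^ b * z - x ^ b * y ^ a * z) := by
  obtain ⟨n, rfl⟩ := Nat.exists_eq_add_of_le h
  have h1 : ∑ c ∈ Ioo b (b + n), ((c - b : ℕ) : R) * (x ^ c * y ^ (b + n + b - c) * z) =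
      (x * y) ^ b * z * ∑ k ∈ range n, (k : R) * (x ^ k * y ^ (n - k)) := by
    have h2 : ∑ c ∈ Ioo b (b + n), ((c - b : ℕ) : R) * (x ^ c * y ^ (b + n + b - c) * z) =
        ∑ c ∈ Ico b (b + n), ((c - b : ℕ) : R) * (x ^ c * y ^ (b + n + b - c) * z) := by
      refine sum_subset Ioo_subset_Ico_self fun c hc hc' => ?_
      rw [mem_Ico] at hc
      rw [mem_Ioo] at hc'
      have : c - b = 0 := by omega
      rw [this, Nat.cast_zero, zero_mul]
    rw [h2, sum_Ico_eq_sum_range, Nat.add_sub_cancel_left, mul_sum]
    refine sum_congr rfl fun k hk => ?_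
    have hk' := mem_range.1 hk
    have e1 : b + k - b = k := by omega
    have e2 : b + n + b - (b + k) = b + (n - k) := by omega
    rw [e1, e2, pow_add, pow_add, mul_pow]
    ring
  rw [h1, mul_add]
  have h3 : (x - y) ^ 2 * ((x * y) ^ b * z * ∑ k ∈ range n, (k : R) * (x ^ k * y ^ (n - k))) =
      (x * y) ^ b * z * ((x - y) ^ 2 * ∑ k ∈ range n, (k : R) * (x ^ k * y ^ (n - k))) := by ring
  rw [h3, P_spec_core, mul_pow, pow_add, pow_add]
  push_cast
  ring

theorem P_spec_mv (i j : Fin N) (hij : i ≠ j) (η : Fin N →₀ ℕ) (c d : ℕ) :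
    mv i c j d η = Finsupp.single i c + Finsupp.single j d + mv i 0 j 0 η := by
  classical
  ext k
  unfold mv
  simp only [Finsupp.coe_add, Pi.add_apply, Finsupp.coe_update, Finsupp.single_apply]
  by_cases hk : k = j
  · subst hk
    rw [Function.update_self, Function.update_self, if_neg hij, if_pos rfl]
    omega
  · rw [Function.update_of_ne hk, Function.update_of_ne hk, if_neg (Ne.symm hk)]
    by_cases hk' : k = i
    · subst hk'
      rw [Function.update_self, Function.update_self, if_pos rfl]
      omega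
    · rw [Function.update_of_ne hk', Function.update_of_ne hk', if_neg (Ne.symm hk')]
      omega

theorem P_spec_mon (i j : Fin N) (hij : i ≠ j) (η : Fin N →₀ ℕ) (c d : ℕ) :
    (monomial (mv i c j d η) 1 : MvPolynomial (Fin N) K) =
      X i ^ c * X j ^ d * monomial (mv i 0 j 0 η) 1 := by
  rw [P_spec_mv i j hij, X_pow_eq_monomial, X_pow_eq_monomial, monomial_mul, monomial_mul, mul_one,
    mul_one]

theorem P_spec_self (i j : Fin N) (hij : i ≠ j) (η : Fin N →₀ ℕ) :
    η = mv i (η i) j (η j) η := by
  classical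
  ext k
  unfold mv
  simp only [Finsupp.coe_update]
  by_cases hk : k = j
  · subst hk
    rw [Function.update_self]
  · rw [Function.update_of_ne hk]
    by_cases hk' : k = i
    · subst hk'
      rw [Function.update_self]
    · rw [Function.update_of_ne hk']

theorem P_spec_swap (i j : Fin N) (hij : i ≠ j) (η : Fin N →₀ ℕ) :
    Finsupp.mapDomain (Equiv.swap i j) η = mv i (η j) j (η i) η := by
  classical
  ext k
  rw [Finsupp.mapDomain_equiv_apply]
  unfold mv
  simp only [Finsupp.coe_update, Equiv.symm_swap]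
  by_cases hk : k = j
  · subst hk
    rw [Function.update_self, Equiv.swap_apply_right]
  · rw [Function.update_of_ne hk]
    by_cases hk' : k = i
    · subst hk'
      rw [Function.update_self, Equiv.swap_apply_left]
    · rw [Function.update_of_ne hk', Equiv.swap_apply_of_ne_of_ne hk' hk]

theorem P_spec_comm (i j : Fin N) (hij : i ≠ j) (η : Fin N →₀ ℕ) (c d : ℕ) :
    mv j c i d η = mv i d j c η := by
  classical
  ext k
  unfold mv
  simp only [Finsupp.coe_update]
  by_cases hk : k = j
  · subst hk
    rw [Function.update_self, Function.update_of_ne (Ne.symm hij), Function.update_self]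
  · by_cases hk' : k = i
    · subst hk'
      rw [Function.update_self, Function.update_of_ne hij, Function.update_self]
    · rw [Function.update_of_ne hk, Function.update_of_ne hk', Function.update_of_ne hk',
        Function.update_of_ne hk]

theorem P_spec_one (i j : Fin N) (hij : i ≠ j) (η : Fin N →₀ ℕ) :
    (X i - X j) ^ 2 * pmon K i j η =
      X i * X j * ((X i - X j) * (pderiv i (monomial η (1 : K)) - pderiv j (monomial η (1 : K))) -
        (monomial η (1 : K) - rename (Equiv.swap i j) (monomial η (1 : K)))) := by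
  have e1 : X i * pderiv i (monomial η (1 : K)) = (η i : MvPolynomial (Fin N) K) *
      monomial η (1 : K) := by
    rw [X_mul_pderiv_monomial, nsmul_eq_mul]
  have e2 : X j * pderiv j (monomial η (1 : K)) = (η j : MvPolynomial (Fin N) K) *
      monomial η (1 : K) := by
    rw [X_mul_pderiv_monomial, nsmul_eq_mul]
  have e3 : rename (Equiv.swap i j) (monomial η (1 : K)) =
      X i ^ (η j) * X j ^ (η i) * monomial (mv i 0 j 0 η) (1 : K) := by
    rw [rename_monomial, P_spec_swap i j hij, P_spec_mon i j hij]
  have e4 : (monomial η (1 : K)) =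
      X i ^ (η i) * X j ^ (η j) * monomial (mv i 0 j 0 η) (1 : K) := by
    conv_lhs => rw [P_spec_self i j hij η]
    rw [P_spec_mon i j hij]
  have e5 : X i * X j * ((X i - X j) *
      (pderiv i (monomial η (1 : K)) - pderiv j (monomial η (1 : K))) -
        (monomial η (1 : K) - rename (Equiv.swap i j) (monomial η (1 : K)))) =
      (X i - X j) * (X j * (X i * pderiv i (monomial η (1 : K))) -
        X i * (X j * pderiv j (monomial η (1 : K)))) -
        X i * X j * (monomial η (1 : K) - rename (Equiv.swap i j) (monomial η (1 : K))) := by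
    ring
  rw [e5, e1, e2, e3, e4]
  have hc : ∀ n : ℕ, ∀ p : MvPolynomial (Fin N) K, ((n : ℕ) : K) • p =
      (n : MvPolynomial (Fin N) K) * p := by
    intro n p
    rw [smul_eq_C_mul, map_natCast]
  rcases le_or_gt (η j) (η i) with h | h
  · have h5 : pmon K i j η = -((η j : MvPolynomial (Fin N) K) *
        (X i ^ (η i) * X j ^ (η j) * monomial (mv i 0 j 0 η) (1 : K))) +
        ∑ c ∈ Ioo (η j) (η i), ((c - η j : ℕ) : MvPolynomial (Fin N) K) *
          (X i ^ c * X j ^ (η i + η j - c) * monomial (mv i 0 j 0 η) (1 : K)) := by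
      unfold pmon
      rw [min_eq_right h, Finset.Ioo_eq_empty (by omega : ¬ η i < η j), sum_empty, add_zero,
        neg_smul, hc, ← e4]
      congr 1
      refine sum_congr rfl fun c _ => ?_
      rw [hc, P_spec_mon i j hij]
    rw [h5]
    exact P_spec_ge (X i) (X j) (monomial (mv i 0 j 0 η) (1 : K)) (η i) (η j) h
  · have h5 : pmon K i j η = -((η i : MvPolynomial (Fin N) K) *
        (X j ^ (η j) * X i ^ (η i) * monomial (mv i 0 j 0 η) (1 : K))) +
        ∑ c ∈ Ioo (η i) (η j), ((c - η i : ℕ) : MvPolynomial (Fin N) K) *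
          (X j ^ c * X i ^ (η j + η i - c) * monomial (mv i 0 j 0 η) (1 : K)) := by
      unfold pmon
      rw [min_eq_left h.le, Finset.Ioo_eq_empty (by omega : ¬ η j < η i), sum_empty, add_zero,
        neg_smul, hc, mul_comm (X j ^ (η j)) (X i ^ (η i)), ← e4]
      congr 1
      refine sum_congr rfl fun c _ => ?_
      rw [hc, P_spec_comm i j hij, P_spec_mon i j hij, add_comm (η j) (η i),
        mul_comm (X j ^ c) (X i ^ (η i + η j - c))]
    rw [h5]
    have h6 := P_spec_ge (X j) (X i) (monomial (mv i 0 j 0 η) (1 : K)) (η j) (η i) h.le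
    have h7 : (X i - X j : MvPolynomial (Fin N) K) ^ 2 = (X j - X i) ^ 2 := by ring
    rw [h7, h6]
    ring

/-- HINT: both sides are linear in `g`: reduce to `g = monomial η 1` (`MvPolynomial.induction_on'` or
`MvPolynomial.ext`-free: `induction g using MvPolynomial.induction_on'''` / `Finsupp` induction). With `a = η i`, `b = η j`
and `z` the rest of the monomial, `monomial (mv i c j d η) 1 = X i ^ c * X j ^ d * z`. For `a = b` direct. For `a > b`
(the case `a < b` is symmetric): telescoping `(x - y) Σ_{b<c<a} (c-b) x^c y^{a+b-c}` with `x = X i`, `y = X j`: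
`(x-y)^2 (-b x^a y^b + Σ_{b<c<a} (c-b) x^c y^{a+b-c}) = x y ((x-y)(a x^{a-1} y^b - b x^a y^{b-1}) - (x^a y^b - x^b y^a))`;
prove this identity in a commutative ring by induction on `a - b` (write `a = b + n`, factor `(xy)^b`). -/
theorem P_spec (i j : Fin N) (hij : i ≠ j) (g : MvPolynomial (Fin N) K) :
    (X i - X j) ^ 2 * Pop i j g =
      X i * X j * ((X i - X j) * (pderiv i g - pderiv j g) - (g - rename (Equiv.swap i j) g)) := by
  induction g using MvPolynomial.induction_on' with
  | monomial η a =>
    have h1 : (monomial η a : MvPolynomial (Fin N) K) = a • monomial η 1 := by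
      rw [smul_monomial, smul_eq_mul, mul_one]
    rw [(P_monomial i j η a).1, h1]
    simp only [map_smul, (pderiv i).map_smul, (pderiv j).map_smul]
    rw [mul_smul_comm, P_spec_one i j hij, ← smul_sub, ← smul_sub, mul_smul_comm, ← smul_sub,
      mul_smul_comm]
  | add p q hp hq =>
    rw [map_add, mul_add, hp, hq, map_add, map_add, map_add]
    ring

end Clu
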