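import Pool.Agent.Helper204.CL.DefA
import Pool.Agent.Helper204.CL.DefB
import Pool.Agent.Helper204.CL.DefC
import Pool.Agent.Helper204.CL.P_P_monomial

set_option linter.unusedSectionVars false

open MvPolynomial Finset

noncomputable section

namespace Clu
variable {N : ℕ} {K : Type} [Field K] [CharZero K]



omit [CharZero K] in
theorem R_spec_mv (i j : Fin N) (hij : i ≠ j) (c d : ℕ) (η : Fin N →₀ ℕ) :
    (monomial (mv i c j d η) 1 : MvPolynomial (Fin N) K) =
      X i ^ c * X j ^ d * monomial (mv i 0 j 0 η) 1 := by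
  have h1 : mv i c j d η = Finsupp.single i c + Finsupp.single j d + mv i 0 j 0 η := by
    ext k
    by_cases hkj : k = j
    · subst hkj
      simp [mv, Finsupp.update_apply, Finsupp.single_apply, hij]
    · by_cases hki : k = i
      · subst hki
        simp [mv, Finsupp.update_apply, Finsupp.single_apply, hkj, Ne.symm hij]
      · simp [mv, Finsupp.update_apply, Finsupp.single_apply, hkj, hki, Ne.symm hkj, Ne.symm hki]
  rw [h1, X_pow_eq_monomial, X_pow_eq_monomial, monomial_mul, monomial_mul, one_mul, one_mul]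

theorem R_spec_comm (i j : Fin N) (hij : i ≠ j) (c d : ℕ) (η : Fin N →₀ ℕ) :
    mv j c i d η = mv i d j c η := by
  ext k
  by_cases hkj : k = j
  · subst hkj
    simp [mv, Finsupp.update_apply, Ne.symm hij]
  · by_cases hki : k = i
    · subst hki
      simp [mv, Finsupp.update_apply, hkj]
    · simp [mv, Finsupp.update_apply, hkj, hki]

theorem R_spec_self (i j : Fin N) (hij : i ≠ j) (η : Fin N →₀ ℕ) :
    mv i (η i) j (η j) η = η := by
  ext k
  by_cases hkj : k = j
  · subst hkj
    simp [mv, Finsupp.update_apply]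
  · by_cases hki : k = i
    · subst hki
      simp [mv, Finsupp.update_apply]
    · simp [mv, Finsupp.update_apply, hkj, hki]

theorem R_spec_swap (i j : Fin N) (hij : i ≠ j) (η : Fin N →₀ ℕ) :
    Finsupp.mapDomain (Equiv.swap i j) η = mv i (η j) j (η i) η := by
  ext k
  rw [Finsupp.mapDomain_equiv_apply, Equiv.symm_swap]
  by_cases hkj : k = j
  · subst hkj
    simp [mv, Finsupp.update_apply]
  · by_cases hki : k = i
    · subst hki
      simp [mv, Finsupp.update_apply, hkj]
    · rw [Equiv.swap_apply_of_ne_of_ne hki hkj]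
      simp [mv, Finsupp.update_apply, hkj, hki]

theorem R_spec_tel1 {R : Type} [CommRing R] (x y : R) (b s n : ℕ) (hb : b ≤ n) (hn : n ≤ s) :
    (x - y) * ∑ c ∈ Ico b n, x ^ c * y ^ (s - c) = y * (x ^ n * y ^ (s - n) - x ^ b * y ^ (s - b)) := by
  induction n, hb using Nat.le_induction with
  | base => simp
  | succ n hbn ih =>
    rw [Finset.sum_Ico_succ_top hbn, mul_add, ih (by omega)]
    obtain ⟨k, hk⟩ : ∃ k, s = n + 1 + k := ⟨s - (n + 1), by omega⟩
    have e1 : s - n = k + 1 := by omega
    have e2 : s - (n + 1) = k := by omega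
    rw [e1, e2]
    ring

theorem R_spec_tel2 {R : Type} [CommRing R] (x y : R) (a s n : ℕ) (ha : a ≤ n) (hn : n ≤ s) :
    (x - y) * ∑ c ∈ Ioc a n, x ^ (s - c) * y ^ c = y * (x ^ (s - a) * y ^ a - x ^ (s - n) * y ^ n) := by
  induction n, ha using Nat.le_induction with
  | base => simp
  | succ n han ih =>
    rw [Finset.sum_Ioc_succ_top han, mul_add, ih (by omega)]
    obtain ⟨k, hk⟩ : ∃ k, s = n + 1 + k := ⟨s - (n + 1), by omega⟩
    have e1 : s - n = k + 1 := by omega
    have e2 : s - (n + 1) = k := by omega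
    rw [e1, e2]
    ring

omit [CharZero K] in
theorem R_spec_mon (i j : Fin N) (hij : i ≠ j) (η : Fin N →₀ ℕ) :
    (X i - X j) * rmon K i j η = X j * (monomial η 1 -
      monomial (Finsupp.mapDomain (Equiv.swap i j) η) 1) := by
  rw [R_spec_swap i j hij]
  have e0 : (monomial η 1 : MvPolynomial (Fin N) K) =
      X i ^ (η i) * X j ^ (η j) * monomial (mv i 0 j 0 η) 1 := by
    rw [← R_spec_mv i j hij, R_spec_self i j hij]
  rw [R_spec_mv i j hij, e0]
  unfold rmon
  have e1 : ∀ c, (monomial (mv j c i (η i + η j - c) η) 1 : MvPolynomial (Fin N) K) =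
      (X i ^ (η i + η j - c) * X j ^ c) * monomial (mv i 0 j 0 η) 1 := by
    intro c
    rw [R_spec_comm i j hij, R_spec_mv i j hij]
  have e2 : ∀ c, (monomial (mv i c j (η i + η j - c) η) 1 : MvPolynomial (Fin N) K) =
      (X i ^ c * X j ^ (η i + η j - c)) * monomial (mv i 0 j 0 η) 1 := by
    intro c
    rw [R_spec_mv i j hij]
  simp_rw [e1, e2]
  rw [← Finset.sum_mul, ← Finset.sum_mul, ← sub_mul, ← mul_assoc, mul_sub, ← sub_mul, ← mul_assoc]
  congr 1
  rcases le_total (η j) (η i) with h | h
  · rw [Finset.Ioc_eq_empty_of_le h, Finset.sum_empty, mul_zero, sub_zero,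
      R_spec_tel1 (X i : MvPolynomial (Fin N) K) (X j) (η j) (η i + η j) (η i) h (by omega)]
    have a1 : η i + η j - η i = η j := by omega
    have a2 : η i + η j - η j = η i := by omega
    rw [a1, a2]
  · rw [Finset.Ico_eq_empty_of_le h, Finset.sum_empty, mul_zero, zero_sub,
      R_spec_tel2 (X i : MvPolynomial (Fin N) K) (X j) (η i) (η i + η j) (η j) h (by omega)]
    have a1 : η i + η j - η i = η j := by omega
    have a2 : η i + η j - η j = η i := by omega
    rw [a1, a2]
    ring

/-- HINT: linear in `g`; monomials; telescoping: `(x-y) Σ_{b≤c<a} x^c y^{a+b-c} = y (x^a y^b - x^b y^a)` for `a > b`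
and `-(x-y) Σ_{a<c≤b} x^{a+b-c} y^c = y (x^a y^b - x^b y^a)` for `a < b`. -/
theorem R_spec (i j : Fin N) (hij : i ≠ j) (g : MvPolynomial (Fin N) K) :
    (X i - X j) * Rop i j g = X j * (g - rename (Equiv.swap i j) g) := by
  induction g using MvPolynomial.induction_on' with
  | monomial η a =>
    rw [(P_monomial i j η a).2, rename_monomial, mul_smul_comm, R_spec_mon i j hij]
    have h1 : ∀ e : Fin N →₀ ℕ, (monomial e a : MvPolynomial (Fin N) K) = a • monomial e 1 := by
      intro e
      rw [smul_monomial, smul_eq_mul, mul_one]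
    rw [h1 η, h1 (Finsupp.mapDomain _ η), ← smul_sub, mul_smul_comm]
  | add p q hp hq =>
    rw [map_add, map_add, mul_add, hp, hq]
    ring

end Clu
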