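import Pool.Agent.Helper204.CL.DefA
import Pool.Agent.Helper204.CL.DefB
import Pool.Agent.Helper204.CL.DefC
import Pool.Agent.Helper204.CL.P_P_spec
import Pool.Agent.Helper204.CL.P_R_spec

set_option linter.unusedSectionVars false

open MvPolynomial Finset

noncomputable section

namespace Clu
variable {N : ℕ} {K : Type} [Field K] [CharZero K]



/-- HINT: evaluate `P_spec` and `R_spec` at `x` and divide by `(x i - x j)^2`, `x i - x j`
(`eval x (rename σ g) = eval (x ∘ σ) g`, `eval_rename`). -/
theorem PR_eval (i j : Fin N) (g : MvPolynomial (Fin N) K) (x : Fin N → K) (hx : x i ≠ x j) :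
    eval x (Pop i j g) = x i * x j / (x i - x j) * (eval x (pderiv i g) - eval x (pderiv j g) -
      (eval x g - eval (x ∘ Equiv.swap i j) g) / (x i - x j)) ∧
    eval x (Rop i j g) = x j / (x i - x j) * (eval x g - eval (x ∘ Equiv.swap i j) g) := by
  have hij : i ≠ j := by
    rintro rfl
    exact hx rfl
  have hd : x i - x j ≠ 0 := sub_ne_zero.mpr hx
  have h1 := congrArg (eval x) (P_spec i j hij g)
  have h2 := congrArg (eval x) (R_spec i j hij g)
  simp only [map_mul, map_sub, map_pow, eval_X, eval_rename] at h1 h2
  constructor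
  · apply mul_left_cancel₀ (pow_ne_zero 2 hd)
    rw [h1]
    field_simp
  · apply mul_left_cancel₀ hd
    rw [h2]
    field_simp

end Clu
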