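import Pool.Agent.Helper204.CL.DefA
import Pool.Agent.Helper204.CL.DefB
import Pool.Agent.Helper204.CL.DefC
import Pool.Agent.Helper204.CL.DefD

set_option linter.unusedSectionVars false

open MvPolynomial Finset

noncomputable section

namespace Clu
variable {N : ℕ} {K : Type} [Field K] [CharZero K]



theorem theta_facts_pow {R : Type} [CommRing R] (J : Finset (Fin N)) (P : Fin N → Prop)
    [DecidablePred P] : (-1 : R) ^ (J.filter P).card = ∏ p ∈ J, if P p then (-1 : R) else 1 := by
  rw [Finset.prod_ite, Finset.prod_const, Finset.prod_const_one, mul_one]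

theorem theta_facts_card (I : Finset (Fin N)) (i j : Fin N) (hj : j ∈ I) (hi : i ∉ I) :
    ((I ×ˢ I).filter (fun p => p.1 < p.2 ∧ Equiv.swap i j p.2 < Equiv.swap i j p.1)).card =
      ((I.erase j).filter (fun p => (j < p ∧ p < i) ∨ (i < p ∧ p < j))).card := by
  have hsw : ∀ a ∈ I, a ≠ j → Equiv.swap i j a = a := by
    intro a ha haj
    exact Equiv.swap_apply_of_ne_of_ne (fun h => hi (h ▸ ha)) haj
  have hswj : Equiv.swap i j j = i := Equiv.swap_apply_right i j
  refine Finset.card_nbij' (fun q => if q.1 = j then q.2 else q.1)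
    (fun p => if j < p then (j, p) else (p, j)) ?_ ?_ ?_ ?_
  · rintro ⟨a, b⟩ hq
    simp only [Finset.mem_coe, Finset.mem_filter, Finset.mem_product] at hq
    obtain ⟨⟨ha, hb⟩, hab, hs⟩ := hq
    simp only [Finset.mem_coe, Finset.mem_filter, Finset.mem_erase]
    by_cases h : a = j
    · subst h
      have hb' : b ≠ a := hab.ne'
      rw [hsw b hb hb', hswj] at hs
      rw [if_pos rfl]
      exact ⟨⟨hb', hb⟩, Or.inl ⟨hab, hs⟩⟩
    · rw [if_neg h]
      rw [hsw a ha h] at hs
      by_cases h2 : b = j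
      · subst h2
        rw [hswj] at hs
        exact ⟨⟨h, ha⟩, Or.inr ⟨hs, hab⟩⟩
      · rw [hsw b hb h2] at hs
        exact absurd hs (not_lt.2 hab.le)
  · intro p hp
    simp only [Finset.mem_coe, Finset.mem_filter, Finset.mem_erase] at hp
    obtain ⟨⟨hpj, hpI⟩, h⟩ := hp
    simp only [Finset.mem_coe, Finset.mem_filter, Finset.mem_product]
    by_cases h2 : j < p
    · rw [if_pos h2]
      rcases h with h | h
      · refine ⟨⟨hj, hpI⟩, h2, ?_⟩
        show Equiv.swap i j p < Equiv.swap i j j
        rw [hsw p hpI hpj, hswj]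
        exact h.2
      · exact absurd h.2 (not_lt.2 h2.le)
    · rw [if_neg h2]
      rcases h with h | h
      · exact absurd h.1 h2
      · refine ⟨⟨hpI, hj⟩, h.2, ?_⟩
        show Equiv.swap i j j < Equiv.swap i j p
        rw [hsw p hpI hpj, hswj]
        exact h.1
  · rintro ⟨a, b⟩ hq
    simp only [Finset.mem_coe, Finset.mem_filter, Finset.mem_product] at hq
    obtain ⟨⟨ha, hb⟩, hab, hs⟩ := hq
    by_cases h : a = j
    · subst h
      simp [hab]
    · have h2 : b = j := by
        by_contra h2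
        rw [hsw a ha h, hsw b hb h2] at hs
        exact absurd hs (not_lt.2 hab.le)
      subst h2
      simp [h, not_lt.2 hab.le]
  · intro p hp
    simp only [Finset.mem_coe, Finset.mem_filter, Finset.mem_erase] at hp
    obtain ⟨⟨hpj, hpI⟩, h⟩ := hp
    by_cases h2 : j < p
    · simp [h2]
    · simp [h2, hpj]

theorem theta_facts_map (I : Finset (Fin N)) (i j : Fin N) (hj : j ∈ I) (hi : i ∉ I) :
    I.map (Equiv.swap i j).toEmbedding = insert i (I.erase j) := by
  ext x
  rw [Finset.mem_map_equiv, Equiv.symm_swap, Finset.mem_insert, Finset.mem_erase]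
  by_cases h : x = i
  · subst h
    simp [hj]
  · by_cases h2 : x = j
    · subst h2
      simp [hi, h]
    · rw [Equiv.swap_apply_of_ne_of_ne h h2]
      simp [h, h2]

theorem theta_facts_sgn (I : Finset (Fin N)) (i j : Fin N) (hij : i ≠ j) (hj : j ∈ I)
    (hi : i ∉ I) : (-1 : ℤ) ^ (I.filter (· < j)).card *
      ((-1 : ℤ) ^ ((I.erase j).filter (· < i)).card * sgnOn (Equiv.swap i j) I) = 1 := by
  have h1 : (I.filter (· < j)) = ((I.erase j).filter (· < j)) := by
    ext x
    simp only [Finset.mem_filter, Finset.mem_erase]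
    constructor
    · rintro ⟨h2, h3⟩
      exact ⟨⟨h3.ne, h2⟩, h3⟩
    · rintro ⟨h2, h3⟩
      exact ⟨h2.2, h3⟩
  rw [sgnOn, theta_facts_card I i j hj hi, h1, theta_facts_pow, theta_facts_pow, theta_facts_pow,
    ← Finset.prod_mul_distrib, ← Finset.prod_mul_distrib]
  apply Finset.prod_eq_one
  intro p hp
  have hpj : p ≠ j := (Finset.mem_erase.1 hp).1
  have hpi : p ≠ i := fun h => hi (h ▸ (Finset.mem_erase.1 hp).2)
  rcases lt_or_gt_of_ne hpj with h2 | h2 <;> rcases lt_or_gt_of_ne hpi with h3 | h3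
  · rw [if_pos h2, if_pos h3, if_neg]
    · norm_num
    · rintro (h | h)
      · exact absurd h.1 (not_lt.2 h2.le)
      · exact absurd h.1 (not_lt.2 h3.le)
  · rw [if_pos h2, if_neg (not_lt.2 (le_of_lt h3)), if_pos (Or.inr ⟨h3, h2⟩)]
    norm_num
  · rw [if_neg (not_lt.2 (le_of_lt h2)), if_pos h3, if_pos (Or.inl ⟨h2, h3⟩)]
    norm_num
  · rw [if_neg (not_lt.2 (le_of_lt h2)), if_neg (not_lt.2 (le_of_lt h3)), if_neg]
    · norm_num
    · rintro (h | h)
      · exact absurd h.2 (not_lt.2 (le_of_lt h3))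
      · exact absurd h.2 (not_lt.2 (le_of_lt h2))

/-- HINT: unfold `thMul`, `thDer`. The second: for `i ∉ I`, `j ∈ I` put `J = insert i (I.erase j) = I.map (swap i j)`; the
product of the two signs of `thMul j (thDer i f) I` is `(-1)` to the number of elements of `I.erase j` strictly between `i` and
`j`, which is `sgnOn (swap i j) I`; use `hf (swap i j) I`. -/
theorem theta_facts (f : SPoly K N) (hf : Symm f) (I : Finset (Fin N)) (i j : Fin N) :
    (thMul i (thDer i f) I = if i ∈ I then f I else 0) ∧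
    (i ≠ j → thMul j (thDer i f) I = if j ∈ I ∧ i ∉ I then rename (Equiv.swap i j) (f I) else 0) := by
  constructor
  · unfold thMul thDer
    by_cases h : i ∈ I
    · rw [if_pos h, if_pos h, if_neg (Finset.notMem_erase i I), Finset.insert_erase h]
      have h1 : ((I.erase i).filter (· < i)) = (I.filter (· < i)) := by
        ext x
        simp only [Finset.mem_filter, Finset.mem_erase]
        constructor
        · rintro ⟨h2, h3⟩
          exact ⟨h2.2, h3⟩
        · rintro ⟨h2, h3⟩
          exact ⟨⟨h3.ne, h2⟩, h3⟩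
      rw [h1, smul_smul, ← mul_pow]
      norm_num
    · rw [if_neg h, if_neg h]
  · intro hij
    unfold thMul thDer
    by_cases hj : j ∈ I
    · by_cases hi : i ∈ I
      · rw [if_pos hj, if_pos (Finset.mem_erase.2 ⟨hij, hi⟩), if_neg (fun h => h.2 hi), smul_zero]
      · rw [if_pos hj, if_neg (fun h => hi (Finset.mem_erase.1 h).2), if_pos ⟨hj, hi⟩,
          ← theta_facts_map I i j hj hi, hf (Equiv.swap i j) I, smul_smul, smul_smul]
        have h := congrArg (Int.cast : ℤ → K) (theta_facts_sgn I i j hij hj hi)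
        push_cast at h
        rw [mul_assoc, h, one_smul]
    · rw [if_neg hj, if_neg (fun h => hj h.1)]

end Clu
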