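import Pool.Agent.Helper204.CL.DefA
import Pool.Agent.Helper204.CL.DefB
import Pool.Agent.Helper204.CL.DefC
import Pool.Agent.Helper204.CL.DefD
import Pool.Agent.Helper204.CL.P_PR_eval
import Pool.Agent.Helper204.CL.P_symm_InV
import Pool.Agent.Helper204.CL.P_theta_facts

set_option linter.unusedSectionVars false

open MvPolynomial Finset

noncomputable section

namespace Clu
variable {N : ℕ} {K : Type} [Field K] [CharZero K]



theorem DVe_sum (T : Fin N → Fin N → K) :
    ∑ i, ∑ j ∈ univ.filter (fun j => j ≠ i), T i j =
      ∑ i, ∑ j ∈ univ.filter (fun j => i < j), (T i j + T j i) := by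
  have h1 : ∀ i j : Fin N, (if j ≠ i then T i j else 0) =
      (if i < j then T i j else 0) + (if j < i then T i j else 0) := by
    intro i j
    rcases lt_trichotomy i j with h | h | h
    · rw [if_pos h.ne', if_pos h, if_neg (not_lt.2 h.le), add_zero]
    · subst h
      simp
    · rw [if_pos h.ne, if_neg (not_lt.2 h.le), if_pos h, zero_add]
  have h2 : ∀ i j : Fin N, (if i < j then T i j + T j i else 0) =
      (if i < j then T i j else 0) + (if i < j then T j i else 0) := by
    intro i j
    split_ifs <;> simp
  simp only [Finset.sum_filter, h1, h2, Finset.sum_add_distrib]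
  congr 1
  rw [Finset.sum_comm]

theorem DVe_pair (f : SPoly K N) (hf : Symm f) (m : ℕ) (x : Fin N → K)
    (hx : Function.Injective x) (i j : Fin N) (hij : i ≠ j) :
    x i * x j / (x i - x j) *
      (eval x (pderiv i (f (first N m))) -
        eval x (thMul i (thDer i f) (first N m) - thMul j (thDer i f) (first N m)) / (x i - x j)) +
    x j * x i / (x j - x i) *
      (eval x (pderiv j (f (first N m))) -
        eval x (thMul j (thDer j f) (first N m) - thMul i (thDer j f) (first N m)) / (x j - x i)) =
    eval x (Pop i j (f (first N m))) := by
  have hxx : x i ≠ x j := fun h => hij (hx h)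
  have hd : x i - x j ≠ 0 := sub_ne_zero.2 hxx
  have hd' : x j - x i ≠ 0 := sub_ne_zero.2 hxx.symm
  rw [(PR_eval i j _ x hxx).1]
  have hInV := symm_InV m f hf
  have hren : eval x (rename (Equiv.swap i j) (f (first N m))) =
      eval (x ∘ Equiv.swap i j) (f (first N m)) := by rw [eval_rename]
  have key : eval x (thMul i (thDer i f) (first N m) - thMul j (thDer i f) (first N m)) +
      eval x (thMul j (thDer j f) (first N m) - thMul i (thDer j f) (first N m)) =
      eval x (f (first N m)) - eval (x ∘ Equiv.swap i j) (f (first N m)) := by
    rw [(theta_facts f hf _ i j).1, (theta_facts f hf _ i j).2 hij,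
      (theta_facts f hf _ j i).1, (theta_facts f hf _ j i).2 hij.symm, Equiv.swap_comm j i,
      ← hren]
    have hmem : ∀ a : Fin N, a ∈ first N m ↔ (a : ℕ) < m := fun a => by simp [first]
    by_cases hi : (i : ℕ) < m
    · by_cases hj : (j : ℕ) < m
      · rw [hInV.1 i j hij hi hj]
        simp only [hmem, hi, hj, if_true, not_true_eq_false, and_false, if_false, sub_zero, map_neg]
        ring
      · simp only [hmem, hi, hj, if_true, not_true_eq_false, false_and, if_false, sub_zero,
          not_false_eq_true, and_true, zero_sub, map_neg]
        ring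
    · by_cases hj : (j : ℕ) < m
      · simp only [hmem, hi, hj, if_true, not_true_eq_false, false_and, if_false, sub_zero,
          not_false_eq_true, and_true, zero_sub, map_neg]
        ring
      · rw [hInV.2 i j (not_lt.1 hi) (not_lt.1 hj)]
        simp only [hmem, hi, hj, if_true, not_true_eq_false, false_and, if_false, sub_zero,
          not_false_eq_true, and_true, map_zero, add_zero, sub_self]
  rw [← key]
  generalize eval x (thMul i (thDer i f) (first N m) - thMul j (thDer i f) (first N m)) = A
  generalize eval x (thMul j (thDer j f) (first N m) - thMul i (thDer j f) (first N m)) = B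
  generalize eval x (pderiv i (f (first N m))) = P
  generalize eval x (pderiv j (f (first N m))) = Q
  have e : x j - x i = -(x i - x j) := by ring
  rw [e]
  generalize x i - x j = d at hd
  field_simp
  ring

/-- HINT: group the ordered pairs `(i,j)`, `(j,i)`; by `theta_facts` the `θ`-part of the pair `{i,j}` is
`-(x_i x_j/(x_i-x_j)^2)` times: for `i, j ∈ I`: `thMul i (thDer i f) I = f I`,
`thMul j (thDer i f) I = 0`, so the two ordered pairs give `2 f I`, and `f I - rename (swap i j) (f I) = 2 f I` since
`rename (swap i j) (f I) = - f I` for `I = first N m` (`symm_InV`); both not in `I`: `0 = f I - rename (swap i j) (f I)`; exactly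
one in `I`: `f I - rename (swap i j) (f I)`. So in all cases the pair gives the value of `Pop i j (f I)` (`PR_eval`,
`eval x (rename σ g) = eval (x ∘ σ) g`). -/
theorem DVal_eq (α : K) (f : SPoly K N) (hf : Symm f) (m : ℕ) (x : Fin N → K) (hx : Function.Injective x) :
    DVal α f (first N m) x = eval x (Dop α (f (first N m))) := by
  unfold DVal Dop Qop
  rw [map_add, smul_eval, map_sum]
  congr 1
  · congr 1
    refine Finset.sum_congr rfl fun i _ => ?_
    rw [map_mul, map_pow, eval_X]
  · rw [DVe_sum (fun i j => x i * x j / (x i - x j) *
      (eval x (pderiv i (f (first N m))) -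
        eval x (thMul i (thDer i f) (first N m) - thMul j (thDer i f) (first N m)) / (x i - x j)))]
    simp only [LinearMap.sum_apply, map_sum]
    refine Finset.sum_congr rfl fun i _ => Finset.sum_congr rfl fun j hj => ?_
    have hij : i ≠ j := (Finset.mem_filter.1 hj).2.ne
    exact DVe_pair f hf m x hx i j hij

end Clu
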