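import Pool.Agent.Helper204.CL.DefA
import Pool.Agent.Helper204.CL.DefB
import Pool.Agent.Helper204.CL.DefC
import Pool.Agent.Helper204.CL.DefD
import Pool.Agent.Helper204.CL.P_PR_eval
import Pool.Agent.Helper204.CL.P_symm_InV
import Pool.Agent.Helper204.CL.P_theta_facts

set_option linter.unusedSectionVars false

open MvPolynomial Finset

noncomputable section

namespace Clu
variable {N : ℕ} {K : Type} [Field K] [CharZero K]



theorem dve_card (m : ℕ) (hm : m ≤ N) : (first N m).card = m := by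
  unfold first
  have h := Fin.card_filter_val_lt (n := N) (m := m)
  rw [h]
  exact min_eq_right hm

theorem dve_pairs (I : Finset (Fin N)) (x : Fin N → K) (hx : Function.Injective x) :
    ∑ i, ∑ j, (if i ∈ I ∧ j ∈ I ∧ j ≠ i then x j / (x i - x j) else 0) =
      -((I.card : K) * ((I.card : K) - 1) / 2) := by
  set S := ∑ i, ∑ j, (if i ∈ I ∧ j ∈ I ∧ j ≠ i then x j / (x i - x j) else 0) with hS
  have h1 : S = ∑ i, ∑ j, (if i ∈ I ∧ j ∈ I ∧ j ≠ i then x i / (x j - x i) else 0) := by
    rw [hS, Finset.sum_comm]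
    refine Finset.sum_congr rfl fun i _ => Finset.sum_congr rfl fun j _ => ?_
    by_cases h : i ∈ I ∧ j ∈ I ∧ j ≠ i
    · rw [if_pos h, if_pos ⟨h.2.1, h.1, h.2.2.symm⟩]
    · rw [if_neg h, if_neg (fun h' => h ⟨h'.2.1, h'.1, h'.2.2.symm⟩)]
  have h2 : S + S = ∑ i, ∑ j, (if i ∈ I ∧ j ∈ I ∧ j ≠ i then (-1 : K) else 0) := by
    nth_rewrite 2 [h1]
    rw [hS, ← Finset.sum_add_distrib]
    refine Finset.sum_congr rfl fun i _ => ?_
    rw [← Finset.sum_add_distrib]
    refine Finset.sum_congr rfl fun j _ => ?_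
    by_cases h : i ∈ I ∧ j ∈ I ∧ j ≠ i
    · rw [if_pos h, if_pos h, if_pos h]
      have h3 : x i - x j ≠ 0 := sub_ne_zero.mpr fun h4 => h.2.2 (hx h4).symm
      have h5 : x j - x i ≠ 0 := sub_ne_zero.mpr fun h4 => h.2.2 (hx h4)
      field_simp
      ring
    · rw [if_neg h, if_neg h, if_neg h, add_zero]
  have h3 : ∑ i, ∑ j, (if i ∈ I ∧ j ∈ I ∧ j ≠ i then (-1 : K) else 0) =
      -((I.card : K) * ((I.card : K) - 1)) := by
    have h4 : ∀ i, ∑ j, (if i ∈ I ∧ j ∈ I ∧ j ≠ i then (-1 : K) else 0) =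
        if i ∈ I then -((I.card : K) - 1) else 0 := by
      intro i
      by_cases hi : i ∈ I
      · rw [if_pos hi]
        have h5 : ∀ j, (if i ∈ I ∧ j ∈ I ∧ j ≠ i then (-1 : K) else 0) =
            if j ∈ I.erase i then (-1 : K) else 0 := by
          intro j
          by_cases hj : j ∈ I ∧ j ≠ i
          · rw [if_pos ⟨hi, hj⟩, if_pos (Finset.mem_erase.mpr ⟨hj.2, hj.1⟩)]
          · rw [if_neg (fun h => hj h.2), if_neg (fun h => hj ⟨(Finset.mem_erase.mp h).2, (Finset.mem_erase.mp h).1⟩)]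
        rw [Finset.sum_congr rfl fun j _ => h5 j, Finset.sum_ite_mem, Finset.univ_inter,
          Finset.sum_const, Finset.card_erase_of_mem hi, nsmul_eq_mul]
        have : 1 ≤ I.card := Finset.card_pos.mpr ⟨i, hi⟩
        rw [Nat.cast_sub this]
        push_cast
        ring
      · rw [if_neg hi]
        refine Finset.sum_eq_zero fun j _ => if_neg fun h => hi h.1
    rw [Finset.sum_congr rfl fun i _ => h4 i, Finset.sum_ite_mem, Finset.univ_inter,
      Finset.sum_const, nsmul_eq_mul]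
    ring
  rw [h3] at h2
  have h6 : (2 : K) ≠ 0 := two_ne_zero
  field_simp
  linear_combination h2

/-- HINT: `I = first N m`. By `theta_facts`: ordered pair `(i,j)`: `i ∈ I`: contributes `x_j f_I/(x_i - x_j)`; `i ∉ I`,
`j ∈ I`: `x_i rename (swap i j) f_I /(x_i-x_j)`. Pairs inside `I` give `(x_j - x_i)/(x_i-x_j) f_I = - f_I` per unordered pair
(`m.choose 2` of them, `m ≤ N`); `i ∈ I`, `j ∉ I` (both orders together): `x_j/(x_i-x_j) (f_I - rename (swap i j) f_I)`, the value of
`Rop i j (f I)` by `PR_eval`. -/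
theorem DeltaVal_eq (α : K) (f : SPoly K N) (hf : Symm f) (m : ℕ) (hm : m ≤ N) (x : Fin N → K)
    (hx : Function.Injective x) :
    DeltaVal α f (first N m) x = eval x (Lop m α (f (first N m))) := by
  set I := first N m with hI
  set g := f I with hg
  have hmem : ∀ i : Fin N, i ∈ I ↔ (i : ℕ) < m := by
    intro i; simp [hI, first]
  have hcard : I.card = m := dve_card m hm
  -- first part
  have e1 : ∑ i, x i * eval x (pderiv i (thMul i (thDer i f) I)) =
      ∑ i ∈ univ.filter (fun i : Fin N => (i : ℕ) < m), x i * eval x (pderiv i g) := by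
    rw [Finset.sum_filter]
    refine Finset.sum_congr rfl fun i _ => ?_
    rw [(theta_facts f hf I i i).1]
    by_cases h : (i : ℕ) < m
    · rw [if_pos ((hmem i).2 h), if_pos h]
    · rw [if_neg (fun h' => h ((hmem i).1 h')), if_neg h]
      simp
  -- second part
  have e2 : ∑ i, ∑ j ∈ univ.filter (fun j => j ≠ i),
      (x i * eval x (thMul j (thDer i f) I) + x j * eval x (thMul i (thDer i f) I)) / (x i - x j) =
      ∑ i, ∑ j, (if i ∈ I ∧ j ∈ I ∧ j ≠ i then x j / (x i - x j) else 0) * eval x g +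
      ∑ i, ∑ j, (if i ∈ I ∧ j ∉ I then x j / (x i - x j) * eval x g else 0) +
      ∑ i, ∑ j, (if i ∉ I ∧ j ∈ I then x i / (x i - x j) * eval (x ∘ Equiv.swap i j) g else 0) := by
    rw [← Finset.sum_add_distrib, ← Finset.sum_add_distrib]
    refine Finset.sum_congr rfl fun i _ => ?_
    rw [← Finset.sum_add_distrib, ← Finset.sum_add_distrib, Finset.sum_filter]
    refine Finset.sum_congr rfl fun j _ => ?_
    by_cases hij : j ≠ i
    · rw [if_pos hij, (theta_facts f hf I i j).1, (theta_facts f hf I i j).2 hij.symm]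
      by_cases hi : i ∈ I <;> by_cases hj : j ∈ I <;>
        simp [hi, hj, hij, eval_rename] <;> ring
    · rw [if_neg hij]
      have hij' : j = i := not_not.mp hij
      subst hij'
      by_cases hi : j ∈ I <;> simp [hi]
  have e3 : ∑ i, ∑ j, (if i ∉ I ∧ j ∈ I then x i / (x i - x j) * eval (x ∘ Equiv.swap i j) g else 0) =
      ∑ i, ∑ j, (if i ∈ I ∧ j ∉ I then x j / (x j - x i) * eval (x ∘ Equiv.swap i j) g else 0) := by
    rw [Finset.sum_comm]
    refine Finset.sum_congr rfl fun i _ => Finset.sum_congr rfl fun j _ => ?_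
    rw [Equiv.swap_comm j i]
    by_cases h : i ∈ I ∧ j ∉ I
    · rw [if_pos h, if_pos ⟨h.2, h.1⟩]
    · rw [if_neg h, if_neg (fun h' => h ⟨h'.2, h'.1⟩)]
  have e4 : ∑ i, ∑ j, (if i ∈ I ∧ j ∈ I ∧ j ≠ i then x j / (x i - x j) else 0) * eval x g =
      -((m.choose 2 : ℕ) : K) * eval x g := by
    rw [Nat.cast_choose_two, ← hcard]
    have := dve_pairs I x hx
    rw [← this, Finset.sum_mul]
    refine Finset.sum_congr rfl fun i _ => ?_
    rw [Finset.sum_mul]
  have e5 : eval x (Sop m g) =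
      ∑ i, ∑ j, (if i ∈ I ∧ j ∉ I then x j / (x i - x j) * (eval x g - eval (x ∘ Equiv.swap i j) g) else 0) := by
    unfold Sop
    rw [LinearMap.sum_apply, map_sum, Finset.sum_filter]
    refine Finset.sum_congr rfl fun i _ => ?_
    by_cases hi : (i : ℕ) < m
    · rw [if_pos hi, LinearMap.sum_apply, map_sum, Finset.sum_filter]
      refine Finset.sum_congr rfl fun j _ => ?_
      by_cases hj : m ≤ (j : ℕ)
      · rw [if_pos hj, if_pos ⟨(hmem i).2 hi, fun h => absurd ((hmem j).1 h) (not_lt.mpr hj)⟩]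
        have hne : x i ≠ x j := fun h => by
          have := hx h
          rw [this] at hi
          omega
        exact (PR_eval i j g x hne).2
      · rw [if_neg hj, if_neg (fun h => h.2 ((hmem j).2 (not_le.mp hj)))]
    · rw [if_neg hi]
      exact (Finset.sum_eq_zero fun j _ => if_neg (fun h => hi ((hmem i).1 h.1))).symm
  have e6 : ∑ i, ∑ j, (if i ∈ I ∧ j ∉ I then x j / (x i - x j) * eval x g else 0) +
      ∑ i, ∑ j, (if i ∈ I ∧ j ∉ I then x j / (x j - x i) * eval (x ∘ Equiv.swap i j) g else 0) =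
      ∑ i, ∑ j, (if i ∈ I ∧ j ∉ I then x j / (x i - x j) * (eval x g - eval (x ∘ Equiv.swap i j) g) else 0) := by
    rw [← Finset.sum_add_distrib]
    refine Finset.sum_congr rfl fun i _ => ?_
    rw [← Finset.sum_add_distrib]
    refine Finset.sum_congr rfl fun j _ => ?_
    by_cases h : i ∈ I ∧ j ∉ I
    · rw [if_pos h, if_pos h, if_pos h]
      rw [← neg_sub (x i) (x j), div_neg]
      ring
    · rw [if_neg h, if_neg h, if_neg h, add_zero]
  unfold DeltaVal
  rw [e1, e2, e3, e4, add_assoc (-((m.choose 2 : ℕ) : K) * eval x g), e6]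
  unfold Lop
  rw [map_add, map_sub, e5, smul_eval, smul_eval, map_sum]
  have e7 : ∑ i ∈ univ.filter (fun i : Fin N => (i : ℕ) < m), eval x (X i * pderiv i g) =
      ∑ i ∈ univ.filter (fun i : Fin N => (i : ℕ) < m), x i * eval x (pderiv i g) := by
    refine Finset.sum_congr rfl fun i _ => ?_
    rw [map_mul, eval_X]
  rw [e7]
  ring

end Clu
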