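import Pool.Agent.Helper204.CL.DefA
import Pool.Agent.Helper204.CL.DefB
import Pool.Agent.Helper204.CL.DefC
import Pool.Agent.Helper204.CL.DefD
import Pool.Agent.Helper204.CL.DefR
import Pool.Agent.Helper204.CL.P_theta_facts

set_option linter.unusedSectionVars false

open MvPolynomial Finset

noncomputable section

namespace Clu
variable {N : ℕ} {K : Type} [Field K] [CharZero K]



theorem equivar_sum (σ : Equiv.Perm (Fin N)) (i : Fin N) (G : Fin N → K) :
    ∑ j ∈ univ.filter (fun j => j ≠ σ i), G j = ∑ j ∈ univ.filter (fun j => j ≠ i), G (σ j) := by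
  rw [Finset.sum_filter, Finset.sum_filter, ← Equiv.sum_comp σ]
  refine Finset.sum_congr rfl fun j _ => ?_
  simp only [ne_eq, EmbeddingLike.apply_eq_iff_eq]

theorem equivar_th (f : SPoly K N) (hf : Symm f) (σ : Equiv.Perm (Fin N)) (I : Finset (Fin N))
    (i j : Fin N) : thMul (σ j) (thDer (σ i) f) (I.map σ.toEmbedding) =
      ((sgnOn σ I : ℤ) : K) • rename σ (thMul j (thDer i f) I) := by
  have hmem : ∀ i, σ i ∈ I.map σ.toEmbedding ↔ i ∈ I := by
    intro i
    simp
  by_cases hij : i = j
  · subst hij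
    rw [(theta_facts f hf (I.map σ.toEmbedding) (σ i) (σ i)).1, (theta_facts f hf I i i).1]
    by_cases hi : i ∈ I
    · rw [if_pos ((hmem i).2 hi), if_pos hi, hf σ I]
    · rw [if_neg (fun h => hi ((hmem i).1 h)), if_neg hi, map_zero, smul_zero]
  · rw [(theta_facts f hf (I.map σ.toEmbedding) (σ i) (σ j)).2 (fun h => hij (σ.injective h)),
      (theta_facts f hf I i j).2 hij]
    simp only [hmem]
    by_cases hc : j ∈ I ∧ i ∉ I
    · rw [if_pos hc, if_pos hc, hf σ I, map_smul, rename_rename, rename_rename]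
      congr 3
      funext k
      simp only [Function.comp_apply]
      by_cases hki : k = i
      · subst hki
        rw [Equiv.swap_apply_left, Equiv.swap_apply_left]
      · by_cases hkj : k = j
        · subst hkj
          rw [Equiv.swap_apply_right, Equiv.swap_apply_right]
        · rw [Equiv.swap_apply_of_ne_of_ne hki hkj, Equiv.swap_apply_of_ne_of_ne
            (fun h => hki (σ.injective h)) (fun h => hkj (σ.injective h))]
    · rw [if_neg hc, if_neg hc, map_zero, smul_zero]

theorem equivar_ev (σ : Equiv.Perm (Fin N)) (s : K) (x : Fin N → K) (g : MvPolynomial (Fin N) K) :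
    eval x (s • rename σ g) = s * eval (x ∘ σ) g := by
  rw [smul_eval, eval_rename]

theorem equivar_pd (σ : Equiv.Perm (Fin N)) (s : K) (i : Fin N) (g : MvPolynomial (Fin N) K) :
    pderiv (σ i) (s • rename σ g) = s • rename σ (pderiv i g) := by
  rw [Derivation.map_smul, pderiv_rename σ.injective]

/-- HINT: rewrite all `thMul _ (thDer _ f)` by `theta_facts`, then `f (I.map σ) = sgn • rename σ (f I)`;
`eval x (rename σ g) = eval (x ∘ σ) g`, `pderiv i (rename σ g) = rename σ (pderiv (σ⁻¹ i) g)`,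
`rename (swap i j) (rename σ g) = rename σ (rename (swap (σ⁻¹ i) (σ⁻¹ j)) g)`, `i ∈ I.map σ ↔ σ⁻¹ i ∈ I`; reindex the sums
over `i`, `j` by `σ` (`Equiv.sum_comp`; write the filtered sums as `∑ j, if j ≠ i then _ else 0`). -/
theorem equivar (α : K) (f : SPoly K N) (hf : Symm f) (σ : Equiv.Perm (Fin N)) (I : Finset (Fin N))
    (x : Fin N → K) :
    DVal α f (I.map σ.toEmbedding) x = ((sgnOn σ I : ℤ) : K) * DVal α f I (x ∘ σ) ∧
    DeltaVal α f (I.map σ.toEmbedding) x = ((sgnOn σ I : ℤ) : K) * DeltaVal α f I (x ∘ σ) := by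
  have hth := equivar_th f hf σ I
  have hJ := hf σ I
  obtain ⟨s, hs⟩ : ∃ s : K, s = ((sgnOn σ I : ℤ) : K) := ⟨_, rfl⟩
  rw [← hs] at hJ ⊢
  simp only [← hs] at hth
  constructor
  · unfold DVal
    have e1 : ∑ i, x i ^ 2 * eval x (pderiv i (pderiv i (f (I.map σ.toEmbedding)))) =
        s * ∑ i, (x ∘ σ) i ^ 2 * eval (x ∘ σ) (pderiv i (pderiv i (f I))) := by
      rw [← Equiv.sum_comp σ, Finset.mul_sum]
      refine Finset.sum_congr rfl fun i _ => ?_
      rw [hJ, equivar_pd, equivar_pd, equivar_ev, Function.comp_apply]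
      ring
    have e2 : ∑ i, ∑ j ∈ univ.filter (fun j => j ≠ i), x i * x j / (x i - x j) *
        (eval x (pderiv i (f (I.map σ.toEmbedding))) -
          eval x (thMul i (thDer i f) (I.map σ.toEmbedding) -
            thMul j (thDer i f) (I.map σ.toEmbedding)) / (x i - x j)) =
        s * ∑ i, ∑ j ∈ univ.filter (fun j => j ≠ i), (x ∘ σ) i * (x ∘ σ) j /
          ((x ∘ σ) i - (x ∘ σ) j) * (eval (x ∘ σ) (pderiv i (f I)) -
          eval (x ∘ σ) (thMul i (thDer i f) I - thMul j (thDer i f) I) /
            ((x ∘ σ) i - (x ∘ σ) j)) := by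
      rw [← Equiv.sum_comp σ, Finset.mul_sum]
      refine Finset.sum_congr rfl fun i _ => ?_
      rw [equivar_sum, Finset.mul_sum]
      refine Finset.sum_congr rfl fun j _ => ?_
      rw [hJ, equivar_pd, equivar_ev, map_sub, hth, hth, equivar_ev, equivar_ev, map_sub,
        Function.comp_apply, Function.comp_apply]
      ring
    rw [e1, e2]
    ring
  · unfold DeltaVal
    have e1 : ∑ i, x i * eval x (pderiv i (thMul i (thDer i f) (I.map σ.toEmbedding))) =
        s * ∑ i, (x ∘ σ) i * eval (x ∘ σ) (pderiv i (thMul i (thDer i f) I)) := by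
      rw [← Equiv.sum_comp σ, Finset.mul_sum]
      refine Finset.sum_congr rfl fun i _ => ?_
      rw [hth, equivar_pd, equivar_ev, Function.comp_apply]
      ring
    have e2 : ∑ i, ∑ j ∈ univ.filter (fun j => j ≠ i),
        (x i * eval x (thMul j (thDer i f) (I.map σ.toEmbedding)) +
          x j * eval x (thMul i (thDer i f) (I.map σ.toEmbedding))) / (x i - x j) =
        s * ∑ i, ∑ j ∈ univ.filter (fun j => j ≠ i),
          ((x ∘ σ) i * eval (x ∘ σ) (thMul j (thDer i f) I) +
          (x ∘ σ) j * eval (x ∘ σ) (thMul i (thDer i f) I)) / ((x ∘ σ) i - (x ∘ σ) j) := by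
      rw [← Equiv.sum_comp σ, Finset.mul_sum]
      refine Finset.sum_congr rfl fun i _ => ?_
      rw [equivar_sum, Finset.mul_sum]
      refine Finset.sum_congr rfl fun j _ => ?_
      rw [hth, hth, equivar_ev, equivar_ev, Function.comp_apply, Function.comp_apply]
      ring
    rw [e1, e2]
    ring

end Clu
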