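import Pool.Agent.Helper204.CL.DefA
import Pool.Agent.Helper204.CL.DefB
import Pool.Agent.Helper204.CL.DefC
import Pool.Agent.Helper204.CL.DefD
import Pool.Agent.Helper204.CL.DefR
import Pool.Agent.Helper204.CL.P_DVal_eq
import Pool.Agent.Helper204.CL.P_DeltaVal_eq
import Pool.Agent.Helper204.CL.P_equivar

set_option linter.unusedSectionVars false

open MvPolynomial Finset

noncomputable section

namespace Clu
variable {N : ℕ} {K : Type} [Field K] [CharZero K]



theorem eig_aux_card (m : ℕ) (hm : m ≤ N) : (first N m).card = m := by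
  unfold first
  rw [Fin.card_filter_val_lt]
  exact min_eq_right hm

theorem eig_aux_perm (I : Finset (Fin N)) :
    ∃ σ : Equiv.Perm (Fin N), (first N I.card).map σ.toEmbedding = I := by
  classical
  have hI : I.card ≤ N := by
    have := Finset.card_le_univ I
    rwa [Fintype.card_fin] at this
  have hc := eig_aux_card (N := N) I.card hI
  have hcard : Fintype.card {x // x ∈ first N I.card} = Fintype.card {x // x ∈ I} := by
    rw [Fintype.card_coe, Fintype.card_coe, hc]
  obtain ⟨σ, hσ⟩ : ∃ σ : Equiv.Perm (Fin N), ∀ x ∈ first N I.card, σ x ∈ I :=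
    ⟨(Fintype.equivOfCardEq hcard).extendSubtype, fun x hx =>
      Equiv.extendSubtype_mem (Fintype.equivOfCardEq hcard) x hx⟩
  refine ⟨σ, ?_⟩
  apply Finset.eq_of_subset_of_card_le
  · intro y hy
    rw [Finset.mem_map] at hy
    obtain ⟨x, hx, rfl⟩ := hy
    exact hσ x hx
  · rw [Finset.card_map, hc]

/-- HINT: every `I` is `(first N m).map σ` with `m = I.card ≤ N`; `equivar`, `DVal_eq`, `DeltaVal_eq`, `f I = sgn • rename σ (f (first N m))`. -/
theorem eig_of_first (α e : K) (f : SPoly K N) (hf : Symm f) :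
    ((∀ m ≤ N, Dop α (f (first N m)) = e • f (first N m)) → EigD α f) ∧
    ((∀ m ≤ N, Lop m α (f (first N m)) = e • f (first N m)) → EigDelta α f) := by
  constructor
  · intro h
    refine ⟨e, fun I x hx => ?_⟩
    obtain ⟨σ, hσ⟩ := eig_aux_perm I
    have hI : I.card ≤ N := by
      have := Finset.card_le_univ I
      rwa [Fintype.card_fin] at this
    obtain ⟨m, hm⟩ : ∃ m, m = I.card := ⟨_, rfl⟩
    rw [← hm] at hσ hI
    clear hm
    subst hσ
    rw [(equivar α f hf σ (first N m) x).1, DVal_eq α f hf m (x ∘ σ) (hx.comp σ.injective),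
      h m hI, hf σ (first N m), MvPolynomial.smul_eval, MvPolynomial.smul_eval,
      MvPolynomial.eval_rename]
    ring
  · intro h
    refine ⟨e, fun I x hx => ?_⟩
    obtain ⟨σ, hσ⟩ := eig_aux_perm I
    have hI : I.card ≤ N := by
      have := Finset.card_le_univ I
      rwa [Fintype.card_fin] at this
    obtain ⟨m, hm⟩ : ∃ m, m = I.card := ⟨_, rfl⟩
    rw [← hm] at hσ hI
    clear hm
    subst hσ
    rw [(equivar α f hf σ (first N m) x).2, DeltaVal_eq α f hf m hI (x ∘ σ)
      (hx.comp σ.injective), h m hI, hf σ (first N m), MvPolynomial.smul_eval,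
      MvPolynomial.smul_eval, MvPolynomial.eval_rename]
    ring

end Clu
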