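import Pool.Agent.Helper204.CL.DefA
import Pool.Agent.Helper204.CL.DefB
import Pool.Agent.Helper204.CL.DefC
import Pool.Agent.Helper204.CL.DefD

set_option linter.unusedSectionVars false

open MvPolynomial Finset

noncomputable section

namespace Clu
variable {N : ℕ} {K : Type} [Field K] [CharZero K]



/-- HINT: `dsort v = v ∘ (Fin.revPerm.trans (Tuple.sort v))`; uniqueness of the sorted rearrangement
(`Tuple.unique_monotone` / `Tuple.unique_antitone`, `Tuple.monotone_sort`). -/
theorem dsort_unique (v : Fin N → ℕ) : Antitone (dsort v) ∧ (∃ ρ : Equiv.Perm (Fin N), ∀ r, dsort v r = v (ρ r)) ∧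
    ∀ ρ : Equiv.Perm (Fin N), Antitone (v ∘ ρ) → dsort v = v ∘ ρ := by
  have h1 : dsort v = v ∘ (Fin.revPerm.trans (Tuple.sort v)) := by
    funext i
    rfl
  have hA : Antitone (dsort v) := by
    intro i j hij
    have := Tuple.monotone_sort v (Fin.rev_le_rev.mpr hij)
    exact this
  refine ⟨hA, ⟨Fin.revPerm.trans (Tuple.sort v), fun r => rfl⟩, ?_⟩
  intro ρ hρ
  rw [h1] at hA ⊢
  exact Tuple.unique_antitone hA hρ

end Clu
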