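import Pool.Agent.Helper204.CL.DefA
import Pool.Agent.Helper204.CL.DefB
import Pool.Agent.Helper204.CL.DefC
import Pool.Agent.Helper204.CL.DefD
import Pool.Agent.Helper204.CL.P_dsort_unique

set_option linter.unusedSectionVars false

open MvPolynomial Finset

noncomputable section

namespace Clu
variable {N : ℕ} {K : Type} [Field K] [CharZero K]



/-- HINT: reindex by the permutation of `dsort_unique`. -/
theorem dsort_sum (v : Fin N → ℕ) (φ : ℕ → ℕ) : ∑ i, φ (dsort v i) = ∑ i, φ (v i) := by
  have h := Equiv.sum_comp (Fin.revPerm.trans (Tuple.sort v)) (fun i => φ (v i))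
  rw [← h]
  rfl

end Clu
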