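import Pool.Agent.Helper204.CL.DefA
import Pool.Agent.Helper204.CL.DefB
import Pool.Agent.Helper204.CL.DefC
import Pool.Agent.Helper204.CL.DefD
import Pool.Agent.Helper204.CL.P_dsort_unique
import Pool.Agent.Helper204.CL.P_dsort_sum

set_option linter.unusedSectionVars false

open MvPolynomial Finset

noncomputable section

namespace Clu
variable {N : ℕ} {K : Type} [Field K] [CharZero K]



theorem Cx_iff_a (A : Finset (Fin N)) (f : Fin N → ℕ) (t : ℕ) :
    ∑ i ∈ A, f i ≤ ∑ i ∈ A, (f i - t) + A.card * t := by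
  rw [← smul_eq_mul, ← Finset.sum_const, ← Finset.sum_add_distrib]
  exact Finset.sum_le_sum fun i _ => by omega

theorem Cx_iff_b (A : Finset (Fin N)) (f : Fin N → ℕ) (t : ℕ) (h : ∀ i ∈ A, t ≤ f i) :
    ∑ i ∈ A, (f i - t) + A.card * t = ∑ i ∈ A, f i := by
  rw [← smul_eq_mul, ← Finset.sum_const, ← Finset.sum_add_distrib]
  exact Finset.sum_congr rfl fun i hi => by have := h i hi; omega

theorem Cx_iff_c (A : Finset (Fin N)) (f : Fin N → ℕ) (t : ℕ) (h : ∀ i, i ∉ A → f i ≤ t) :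
    ∑ i, (f i - t) = ∑ i ∈ A, (f i - t) := by
  symm
  apply Finset.sum_subset (Finset.subset_univ A)
  intro i _ hi
  have := h i hi
  omega

theorem Cx_iff_d (A : Finset (Fin N)) (f : Fin N → ℕ) (t : ℕ) :
    ∑ i ∈ A, (f i - t) ≤ ∑ i, (f i - t) :=
  Finset.sum_le_sum_of_subset (Finset.subset_univ A)

theorem Cx_iff_sorted (X Y : Fin N → ℕ) (hX : Antitone X) (hY : Antitone Y) :
    (∀ l : ℕ, ∑ i ∈ univ.filter (fun i : Fin N => (i : ℕ) < l), X i ≤
      ∑ i ∈ univ.filter (fun i : Fin N => (i : ℕ) < l), Y i) ↔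
    ∀ t : ℕ, ∑ i, (X i - t) ≤ ∑ i, (Y i - t) := by
  constructor
  · intro h t
    have hex : ∃ n : ℕ, ∀ i : Fin N, n ≤ (i : ℕ) → X i ≤ t :=
      ⟨N, fun i hi => absurd i.2 (by omega)⟩
    classical
    set l := Nat.find hex with hl
    have hl1 : ∀ i : Fin N, l ≤ (i : ℕ) → X i ≤ t := Nat.find_spec hex
    have hl2 : ∀ i : Fin N, (i : ℕ) < l → t < X i := by
      intro i hi
      have h1 : ¬ ∀ i : Fin N, l - 1 ≤ (i : ℕ) → X i ≤ t := Nat.find_min hex (by omega)
      push Not at h1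
      obtain ⟨i', hi', hX'⟩ := h1
      exact hX'.trans_le (hX (Fin.mk_le_mk.2 (by omega)))
    set A := univ.filter (fun i : Fin N => (i : ℕ) < l) with hA
    have e1 := Cx_iff_c A X t (fun i hi => hl1 i (by
      by_contra hc
      exact hi (Finset.mem_filter.2 ⟨Finset.mem_univ _, by omega⟩)))
    have e2 := Cx_iff_b A X t (fun i hi => (hl2 i (Finset.mem_filter.1 hi).2).le)
    have e3 := h l
    rw [← hA] at e3
    have e4 := Cx_iff_a A Y t
    have e5 := Cx_iff_d A Y t
    omega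
  · intro h l
    rcases Nat.eq_zero_or_pos l with h0 | h0
    · subst h0; simp
    rcases Nat.eq_zero_or_pos N with hN | hN
    · subst hN; simp
    set A := univ.filter (fun i : Fin N => (i : ℕ) < l) with hA
    set j : Fin N := ⟨min (l - 1) (N - 1), by omega⟩ with hj
    have e1 := Cx_iff_c A Y (Y j) (fun i hi => hY (by
      rw [Fin.le_def]
      by_contra hc
      apply hi
      refine Finset.mem_filter.2 ⟨Finset.mem_univ _, ?_⟩
      simp only [hj] at hc
      omega))
    have e2 := Cx_iff_b A Y (Y j) (fun i hi => hY (by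
      rw [Fin.le_def]
      have h1 := (Finset.mem_filter.1 hi).2
      have h2 := i.2
      simp only [hj]
      omega))
    have e3 := h (Y j)
    have e4 := Cx_iff_a A X (Y j)
    have e5 := Cx_iff_d A X (Y j)
    omega

/-- HINT: both sides are about the sorted sequences `X = dsort x`, `Y = dsort y` (`dsort_sum` with `φ a = a - t`).
`→`: `∑ (X i - t) = ∑_{i<l} (X i - t)` for `l = #{i : X i > t}` (an initial segment), `≤ ∑_{i<l} Y i - l t ≤ ∑ (Y i - t)`.
`←`: for given `l ≥ 1` (`l ≤ N`) take `t = Y_{l-1}` (the last one of the first `l`): `∑_{i<l} X i ≤ l t + ∑ (X i - t) ≤ l t + ∑ (Y i - t) =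
∑_{i<l} Y i`. -/
theorem Cx_iff (x y : Fin N → ℕ) : Dom (dsort x) (dsort y) ↔ Cx x y := by
  have hX := (dsort_unique x).1
  have hY := (dsort_unique y).1
  unfold Dom Cx
  rw [Cx_iff_sorted _ _ hX hY]
  have e1 : ∀ v : Fin N → ℕ, ∑ i, dsort v i = ∑ i, v i := fun v => dsort_sum v id
  have e2 : ∀ (v : Fin N → ℕ) (t : ℕ), ∑ i, (dsort v i - t) = ∑ i, (v i - t) :=
    fun v t => dsort_sum v (fun a => a - t)
  simp only [e1, e2]

end Clu
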