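import Pool.Agent.Helper204.CL.DefA
import Pool.Agent.Helper204.CL.DefB
import Pool.Agent.Helper204.CL.DefC
import Pool.Agent.Helper204.CL.DefD
import Pool.Agent.Helper204.CL.P_dsort_sum
import Pool.Agent.Helper204.CL.P_Cx_iff

set_option linter.unusedSectionVars false

open MvPolynomial Finset

noncomputable section

namespace Clu
variable {N : ℕ} {K : Type} [Field K] [CharZero K]



theorem sum_fer_aux (m : ℕ) (hm : m ≤ N) : ∑ i : Fin N, fer m i = m := by
  unfold fer
  rw [Fin.sum_univ_eq_sum_range (fun i => if i < m then 1 else 0) N, ← Finset.sum_filter,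
    Finset.sum_const, smul_eq_mul, mul_one]
  have : (Finset.range N).filter (fun i => i < m) = Finset.range m := by
    ext i
    rw [Finset.mem_filter, Finset.mem_range, Finset.mem_range]
    constructor
    · exact fun h => h.2
    · exact fun h => ⟨lt_of_lt_of_le h hm, h⟩
  rw [this, Finset.card_range]

/-- HINT: unfold the order; `Cx_iff`; the sums of `part` and of `part + fer` are equal on both sides and
`Σ_i fer m i = m` for `m ≤ N`. -/
theorem le_iff (W U : SPart N) : W ≤ U ↔ W.m = U.m ∧ LeV U.m W.part U.part := by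
  have h1 : W ≤ U ↔ Cx W.part U.part ∧ Cx (fun i => W.part i + fer W.m i)
      (fun i => U.part i + fer U.m i) := by
    rw [← Cx_iff, ← Cx_iff]
    rfl
  rw [h1]
  unfold LeV
  constructor
  · rintro ⟨h2, h3⟩
    have h4 := h2.1
    have h5 := h3.1
    rw [Finset.sum_add_distrib, Finset.sum_add_distrib, sum_fer_aux W.m W.m_le,
      sum_fer_aux U.m U.m_le] at h5
    have h6 : W.m = U.m := by omega
    refine ⟨h6, h2, ?_⟩
    rw [h6] at h3
    exact h3
  · rintro ⟨h2, h3, h4⟩
    refine ⟨h3, ?_⟩
    rw [h2]
    exact h4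

end Clu
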