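import Pool.Agent.Helper204.CL.Trans
import Pool.Agent.Helper204.CL.P_eig_of_first
import Pool.Agent.Helper204.CL.P_comb_first
import Pool.Agent.Helper204.CL.P_comb_inj
import Pool.Agent.Helper204.CL.P_inV_expand
import Pool.Agent.Helper204.CL.P_le_iff

set_option linter.unusedSectionVars false

open MvPolynomial Finset

noncomputable section

namespace Clu

section gen

variable {N : ℕ} {K : Type} [Field K] [CharZero K] [JSup.Par K]

theorem dEta_ne (N : ℕ) (η : ℕ → ℕ) : (JSup.dEta N η : K) ≠ 0 := by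
  unfold JSup.dEta
  refine Finset.prod_ne_zero_iff.2 (fun i _ => Finset.prod_ne_zero_iff.2 (fun j hj h => ?_))
  have h1 := JSup.Par.indep (K := K) ((η i - j : ℕ) : ℤ)
    ((1 : ℤ) + (((range i).filter (fun k => j ≤ η k ∧ η k < η i)).card : ℤ)
      + (((Ioo i N).filter (fun k => j < η k ∧ η k ≤ η i)).card : ℤ))
  have h2 : ((η i - j : ℕ) : ℤ) = 0 := by
    apply h1
    rw [← h]
    unfold JSup.al
    push_cast
    ring
  have h3 : j < η i := by simpa using hj
  omega

theorem exist_poly (L : SPart N) : ∃ g : MvPolynomial (Fin N) K, InV L.m g ∧ coeff (pf L.part) g ≠ 0 ∧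
    (∀ ν : Fin N →₀ ℕ, coeff ν g ≠ 0 → LeV L.m ν L.part) ∧
    (∃ e : K, Dop (JSup.al : K) g = e • g) ∧ (∃ e : K, Lop L.m (JSup.al : K) g = e • g) := by
  obtain ⟨k, η, d, hkN, hk, h0, h1, h2, hd1, hd2, hd3, hd4, hd5, hsum, ht1, ht2⟩ := eta_exists L
  have hη : ∀ i, N ≤ i → η i = 0 := fun i hi => h0 i (by omega)
  obtain ⟨hA, hS, hH, hV⟩ := JSup.J_inU (K := K) N k L.m hkN η h0
  set f : MvPolynomial ℕ K := JSup.Jraw N k L.m η with hf
  have hlead : coeff d f ≠ 0 := by
    rw [hf, JSup.J_lead N k L.m hkN η h0 h1 h2 d hd1 hd2 hd3]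
    refine mul_ne_zero ?_ (mul_ne_zero (inv_ne_zero ?_) (dEta_ne N η))
    · rw [Nat.cast_ne_zero]
      refine Finset.prod_ne_zero_iff.2 (fun p hp => ?_)
      rw [Finset.mem_Ico] at hp
      refine Finset.card_ne_zero.2 ⟨p, ?_⟩
      rw [Finset.mem_filter, Finset.mem_Ico]
      exact ⟨⟨le_refl _, by omega⟩, rfl⟩
    · apply JSup.cB_ne
      intro i j hi hij hj
      have := h2 i j hi hij hj
      omega
  obtain ⟨g, hg1, hg2, hg3, hg4⟩ := ex_transfer L k (∑ i, L.part i) (by omega) hk rfl f hV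
    (by rw [← hsum]; exact hH)
    (fun i j hij hj => hA i j (Nat.zero_le _) hij hj) hS d hd4 hd5
    (fun i hi => hd3 i (by omega)) hlead (by
      intro e he t
      have h3 := JSup.J_supp N k L.m hkN η hη e he t
      refine ⟨?_, ?_⟩
      · refine le_trans h3.1 (le_of_eq ?_)
        rw [← ht1 t]
        unfold JSup.hth JSup.addOne
        rfl
      · have h4 := h3.2
        unfold JSup.hth JSup.addOne at h4
        refine le_trans h4 (le_of_eq ?_)
        rw [← ht2 t])
  have hJ := JSup.J_eigen (K := K) N k L.m hkN η hη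
  rw [← hf] at hJ
  have hinj : Function.Injective (rename (R := K) (fun j : Fin N => (j : ℕ))) :=
    rename_injective _ Fin.val_injective
  refine ⟨g, hg2, hg3, hg4, ?_, ?_⟩
  · have h5 := D_transfer (K := K) g
    have hg1' : rv g = f := hg1
    rw [hg1', hJ.1, euler (N := N) f (∑ i, L.part i) (by rw [← hsum]; exact hH) hV, smul_smul, ← sub_smul] at h5
    refine ⟨(2 : K)⁻¹ * ((JSup.eM N (JSup.addOne k η) : K) -
      ((JSup.al : K) + (N : K) - 1) * ((∑ i, L.part i : ℕ) : K)), ?_⟩
    apply hinj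
    have h6 : rename (fun j : Fin N => (j : ℕ)) (Dop (JSup.al : K) g) =
        (2 : K)⁻¹ • rename (fun j : Fin N => (j : ℕ)) ((2 : K) • Dop (JSup.al : K) g) := by
      rw [map_smul, smul_smul, inv_mul_cancel₀ (two_ne_zero), one_smul]
    rw [h6]
    change (2 : K)⁻¹ • rv ((2 : K) • Dop (JSup.al : K) g) = _
    rw [h5, smul_smul, map_smul, hg1]
  · have h5 := L_transfer (K := K) L.m L.m_le g
    have hg1' : rv g = f := hg1
    rw [hg1', hJ.2, ← sub_smul] at h5
    refine ⟨((∑ i ∈ range L.m, JSup.yv N η (k + i) : K) + ((L.m.choose 2 : ℕ) : K)) - ((L.m.choose 2 : ℕ) : K), hinj ?_⟩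
    rw [map_smul, hg1]
    exact h5

theorem exist_one (L : SPart N) : ∃ v : SPart N →₀ K, v L = 1 ∧ (∀ W, v W ≠ 0 → W ≤ L) ∧
    EigD (JSup.al : K) (comb v) ∧ EigDelta (JSup.al : K) (comb v) := by
  obtain ⟨g, hg1, hg2, hg3, ⟨e, he⟩, ⟨e', he'⟩⟩ := exist_poly (K := K) L
  obtain ⟨u, hu1, hu2, hu3⟩ := inV_expand L.m L.m_le g hg1
  have huL : u L ≠ 0 := by rw [hu2 L rfl]; exact hg2
  set v : SPart N →₀ K := (u L)⁻¹ • u with hv
  have hvne : ∀ W, v W ≠ 0 → u W ≠ 0 := by
    intro W h h'
    apply h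
    rw [hv, Finsupp.smul_apply, h', smul_zero]
  have hfirst : comb v (first N L.m) = (u L)⁻¹ • g := by
    rw [hv, comb_inj.2.1, Pi.smul_apply, hu3]
  have hother : ∀ m ≤ N, m ≠ L.m → comb v (first N m) = 0 := by
    intro m hm hne
    refine (comb_first v).2.2.1 m hm (fun W hW h => hne ?_)
    rw [← h, hu1 W (hvne W hW)]
  refine ⟨v, ?_, ?_, ?_, ?_⟩
  · rw [hv, Finsupp.smul_apply, smul_eq_mul, inv_mul_cancel₀ huL]
  · intro W hW
    have h1 := hvne W hW
    have h2 := hu1 W h1
    rw [le_iff]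
    refine ⟨h2, ?_⟩
    have h3 := hg3 (pf W.part) (by rw [← hu2 W h2]; exact h1)
    exact h3
  · refine (eig_of_first (JSup.al : K) e (comb v) (comb_first v).1).1 (fun m hm => ?_)
    by_cases h : m = L.m
    · subst h
      rw [hfirst]
      have : Dop (JSup.al : K) ((u L)⁻¹ • g) = (u L)⁻¹ • Dop (JSup.al : K) g := by
        unfold Dop
        simp only [map_smul, Derivation.map_smul, mul_smul_comm, smul_add, Finset.smul_sum]
        congr 1
        apply Finset.sum_congr rfl
        intro i _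
        rw [smul_comm]
      rw [this, he, smul_comm]
    · rw [hother m hm h]
      simp [Dop]
  · refine (eig_of_first (JSup.al : K) e' (comb v) (comb_first v).1).2 (fun m hm => ?_)
    by_cases h : m = L.m
    · subst h
      rw [hfirst]
      have : Lop L.m (JSup.al : K) ((u L)⁻¹ • g) = (u L)⁻¹ • Lop L.m (JSup.al : K) g := by
        unfold Lop
        simp only [map_smul, Derivation.map_smul, mul_smul_comm, smul_add, smul_sub, Finset.smul_sum]
        congr 1
        congr 1
        · apply Finset.sum_congr rfl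
          intro i _
          rw [smul_comm]
        · rw [smul_comm]
      rw [this, he', smul_comm]
    · rw [hother m hm h]
      simp [Lop]

end gen

end Clu
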