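import Pool.Agent.Helper204.CL.DefA
import Pool.Agent.Helper204.CL.DefB
import Pool.Agent.Helper204.CL.DefC
import Pool.Agent.Helper204.CL.P_P_spec
import Pool.Agent.Helper204.CL.P_R_spec

set_option linter.unusedSectionVars false

open MvPolynomial Finset

noncomputable section

namespace Clu
variable {N : ℕ} {K : Type} [Field K] [CharZero K]



theorem QS_rename_ne {i j : Fin N} (hij : i ≠ j) : (X i - X j : MvPolynomial (Fin N) K) ≠ 0 := by
  rw [sub_ne_zero]
  intro h
  exact hij (MvPolynomial.X_injective h)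

theorem QS_rename_swap (σ : Equiv.Perm (Fin N)) (i j : Fin N) (g : MvPolynomial (Fin N) K) :
    rename σ (rename (Equiv.swap i j) g) = rename (Equiv.swap (σ i) (σ j)) (rename σ g) := by
  rw [rename_rename, rename_rename]
  congr 2
  funext k
  have h := Equiv.mul_swap_eq_swap_mul σ i j
  exact DFunLike.congr_fun h k

theorem QS_rename_P (σ : Equiv.Perm (Fin N)) (i j : Fin N) (hij : i ≠ j)
    (g : MvPolynomial (Fin N) K) :
    rename σ (Pop i j g) = Pop (σ i) (σ j) (rename σ g) := by
  have h1 := congrArg (rename σ) (P_spec i j hij g)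
  have hσ : σ i ≠ σ j := fun h => hij (σ.injective h)
  have h2 := P_spec (σ i) (σ j) hσ (rename σ g)
  simp only [map_mul, map_sub, map_pow, rename_X] at h1
  rw [← pderiv_rename σ.injective, ← pderiv_rename σ.injective, QS_rename_swap] at h1
  rw [← h2] at h1
  exact mul_left_cancel₀ (pow_ne_zero 2 (QS_rename_ne hσ)) h1

theorem QS_rename_Psymm (i j : Fin N) (hij : i ≠ j) (g : MvPolynomial (Fin N) K) :
    Pop i j g = Pop j i g := by
  have h1 := P_spec i j hij g
  have h2 := P_spec j i hij.symm g
  rw [Equiv.swap_comm j i] at h2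
  apply mul_left_cancel₀ (pow_ne_zero 2 (QS_rename_ne (K := K) hij))
  rw [h1]
  linear_combination -h2

theorem QS_rename_R (σ : Equiv.Perm (Fin N)) (i j : Fin N) (hij : i ≠ j)
    (g : MvPolynomial (Fin N) K) :
    rename σ (Rop i j g) = Rop (σ i) (σ j) (rename σ g) := by
  have h1 := congrArg (rename σ) (R_spec i j hij g)
  have hσ : σ i ≠ σ j := fun h => hij (σ.injective h)
  have h2 := R_spec (σ i) (σ j) hσ (rename σ g)
  simp only [map_mul, map_sub, rename_X] at h1
  rw [QS_rename_swap] at h1
  rw [← h2] at h1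
  exact mul_left_cancel₀ (QS_rename_ne hσ) h1

theorem QS_rename_Q2 (g : MvPolynomial (Fin N) K) :
    Qop g + Qop g = ∑ i : Fin N, ∑ j : Fin N, if j ≠ i then Pop i j g else 0 := by
  have h1 : Qop g = ∑ i : Fin N, ∑ j : Fin N, if i < j then Pop i j g else 0 := by
    unfold Qop
    simp only [LinearMap.sum_apply, Finset.sum_filter]
    refine Finset.sum_congr rfl fun i _ => Finset.sum_congr rfl fun j _ => ?_
    split_ifs
    · rfl
    · rfl
  have h2 : Qop g = ∑ i : Fin N, ∑ j : Fin N, if j < i then Pop i j g else 0 := by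
    rw [h1, Finset.sum_comm]
    refine Finset.sum_congr rfl fun i _ => Finset.sum_congr rfl fun j _ => ?_
    by_cases h : j < i
    · rw [if_pos h, if_pos h, QS_rename_Psymm j i h.ne]
    · rw [if_neg h, if_neg h]
  conv_lhs =>
    congr
    · rw [h1]
    · rw [h2]
  rw [← Finset.sum_add_distrib]
  refine Finset.sum_congr rfl fun i _ => ?_
  rw [← Finset.sum_add_distrib]
  refine Finset.sum_congr rfl fun j _ => ?_
  rcases lt_trichotomy i j with h | h | h
  · rw [if_pos h, if_neg (not_lt.2 h.le), if_pos h.ne', add_zero]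
  · subst h
    simp
  · rw [if_neg (not_lt.2 h.le), if_pos h, if_pos h.ne, zero_add]

/-- HINT: from `P_spec`, `R_spec` (cancel `(X i - X j)^2`, `X i - X j`, nonzero): `rename σ (Pop i j g) =
Pop (σ i) (σ j) (rename σ g)`, `Pop i j = Pop j i` and the same equivariance for `Rop`
(`pderiv_rename`-type rule: `rename σ (pderiv i g) = pderiv (σ i) (rename σ g)`; `rename σ ∘ rename (swap i j) =
rename (swap (σ i) (σ j)) ∘ rename σ`). Then reindex the sums; for `Sop m` the permutation `σ` must preserve `{i < m}`. -/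
theorem QS_rename (m : ℕ) (σ : Equiv.Perm (Fin N)) (g : MvPolynomial (Fin N) K) :
    rename σ (Qop g) = Qop (rename σ g) ∧
    ((∀ i : Fin N, ((σ i : Fin N) : ℕ) < m ↔ (i : ℕ) < m) → rename σ (Sop m g) = Sop m (rename σ g)) := by
  constructor
  · have h1 := congrArg (rename σ) (QS_rename_Q2 g)
    have h2 := QS_rename_Q2 (rename σ g)
    rw [map_add, map_sum] at h1
    simp only [map_sum] at h1
    have h3 : ∑ i : Fin N, ∑ j : Fin N, rename σ (if j ≠ i then Pop i j g else 0) =
        ∑ i : Fin N, ∑ j : Fin N, if j ≠ i then Pop i j (rename σ g) else 0 := by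
      rw [← Equiv.sum_comp σ (fun i => ∑ j : Fin N, if j ≠ i then Pop i j (rename σ g) else 0)]
      refine Finset.sum_congr rfl fun i _ => ?_
      rw [← Equiv.sum_comp σ (fun j => if j ≠ σ i then Pop (σ i) j (rename σ g) else 0)]
      refine Finset.sum_congr rfl fun j _ => ?_
      by_cases h : j = i
      · subst h
        simp
      · rw [if_pos h, if_pos (fun e => h (σ.injective e)), QS_rename_P σ i j (Ne.symm h)]
    rw [h3, ← h2, ← two_smul K, ← two_smul K (Qop (rename σ g))] at h1
    exact smul_right_injective _ (two_ne_zero : (2 : K) ≠ 0) h1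
  · intro hσ
    have key : ∀ f : MvPolynomial (Fin N) K, Sop m f = ∑ i : Fin N, ∑ j : Fin N,
        if (i : ℕ) < m ∧ m ≤ (j : ℕ) then Rop i j f else 0 := by
      intro f
      unfold Sop
      simp only [LinearMap.sum_apply, Finset.sum_filter]
      refine Finset.sum_congr rfl fun i _ => ?_
      by_cases hi : (i : ℕ) < m
      · simp only [hi, if_true, true_and, LinearMap.sum_apply]
        refine Finset.sum_congr rfl fun j _ => ?_
        split_ifs
        · rfl
        · rfl
      · simp [hi]
    rw [key, key]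
    simp only [map_sum]
    rw [← Equiv.sum_comp σ (fun i => ∑ j : Fin N,
      if (i : ℕ) < m ∧ m ≤ (j : ℕ) then Rop i j (rename σ g) else 0)]
    refine Finset.sum_congr rfl fun i _ => ?_
    rw [← Equiv.sum_comp σ (fun j =>
      if ((σ i : Fin N) : ℕ) < m ∧ m ≤ (j : ℕ) then Rop (σ i) j (rename σ g) else 0)]
    refine Finset.sum_congr rfl fun j _ => ?_
    have e1 := hσ i
    have e2 : m ≤ ((σ j : Fin N) : ℕ) ↔ m ≤ (j : ℕ) := by
      rw [← not_lt, ← not_lt, hσ j]
    by_cases h : (i : ℕ) < m ∧ m ≤ (j : ℕ)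
    · rw [if_pos h, if_pos ⟨e1.2 h.1, e2.2 h.2⟩]
      apply QS_rename_R
      rintro rfl
      omega
    · rw [if_neg h, if_neg (fun h' => h ⟨e1.1 h'.1, e2.1 h'.2⟩), map_zero]

end Clu
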