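import Pool.Agent.Helper204.CL.DefA
import Pool.Agent.Helper204.CL.DefB
import Pool.Agent.Helper204.CL.DefC
import Pool.Agent.Helper204.CL.P_QS_rename

set_option linter.unusedSectionVars false

open MvPolynomial Finset

noncomputable section

namespace Clu
variable {N : ℕ} {K : Type} [Field K] [CharZero K]



theorem Dop_rename_753 (α : K) (σ : Equiv.Perm (Fin N)) (g : MvPolynomial (Fin N) K) :
    rename σ (Dop α g) = Dop α (rename σ g) := by
  have hinj : Function.Injective (σ : Fin N → Fin N) := σ.injective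
  unfold Dop
  rw [map_add, (QS_rename 0 σ g).1, map_smul, map_sum]
  congr 2
  rw [← Equiv.sum_comp σ fun i => X i ^ 2 * pderiv i (pderiv i (rename σ g))]
  refine Finset.sum_congr rfl fun i _ => ?_
  rw [map_mul, map_pow, rename_X, ← pderiv_rename hinj, ← pderiv_rename hinj]

theorem Lop_rename_753 (m : ℕ) (α : K) (σ : Equiv.Perm (Fin N)) (g : MvPolynomial (Fin N) K)
    (hσ : ∀ i : Fin N, ((σ i : Fin N) : ℕ) < m ↔ (i : ℕ) < m) :
    rename σ (Lop m α g) = Lop m α (rename σ g) := by
  have hinj : Function.Injective (σ : Fin N → Fin N) := σ.injective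
  unfold Lop
  rw [map_add, (QS_rename m σ g).2 hσ, map_sub, map_smul, map_smul, map_sum]
  congr 3
  rw [Finset.sum_filter, Finset.sum_filter,
    ← Equiv.sum_comp σ fun i : Fin N => if (i : ℕ) < m then X i * pderiv i (rename σ g) else 0]
  refine Finset.sum_congr rfl fun i _ => ?_
  simp only [hσ i]
  split_ifs with h
  · rw [map_mul, rename_X, ← pderiv_rename hinj]
  · rfl

theorem Dop_neg_753 (α : K) (g : MvPolynomial (Fin N) K) : Dop α (-g) = - Dop α g := by
  unfold Dop
  simp only [map_neg, mul_neg, Finset.sum_neg_distrib, smul_neg, neg_add]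

theorem Lop_neg_753 (m : ℕ) (α : K) (g : MvPolynomial (Fin N) K) :
    Lop m α (-g) = - Lop m α g := by
  unfold Lop
  simp only [map_neg, mul_neg, Finset.sum_neg_distrib, smul_neg, neg_add, neg_sub]
  ring

theorem swap_lt_753 (m : ℕ) (i j : Fin N) (h : (i : ℕ) < m ↔ (j : ℕ) < m) (k : Fin N) :
    ((Equiv.swap i j k : Fin N) : ℕ) < m ↔ (k : ℕ) < m := by
  rw [Equiv.swap_apply_def]
  split_ifs with h1 h2
  · rw [h1, h]
  · rw [h2, h]
  · rfl

/-- HINT: `QS_rename` with transpositions; the derivative parts commute with `rename` of transpositions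
(resp. of those preserving `{i < m}`) up to reindexing. -/
theorem Dop_InV (m : ℕ) (α : K) (g : MvPolynomial (Fin N) K) (hg : InV m g) :
    InV m (Dop α g) ∧ InV m (Lop m α g) := by
  refine ⟨⟨fun i j hij hi hj => ?_, fun i j hi hj => ?_⟩, ⟨fun i j hij hi hj => ?_,
    fun i j hi hj => ?_⟩⟩
  · rw [Dop_rename_753, hg.1 i j hij hi hj, Dop_neg_753]
  · rw [Dop_rename_753, hg.2 i j hi hj]
  · rw [Lop_rename_753 m α _ g (swap_lt_753 m i j (by omega)), hg.1 i j hij hi hj,
      Lop_neg_753]
  · rw [Lop_rename_753 m α _ g (swap_lt_753 m i j (by omega)), hg.2 i j hi hj]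

end Clu
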