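import Pool.Agent.Helper204.CL.DefA
import Pool.Agent.Helper204.CL.DefB
import Pool.Agent.Helper204.CL.DefC
import Pool.Agent.Helper204.CL.DefD

set_option linter.unusedSectionVars false

open MvPolynomial Finset

noncomputable section

namespace Clu
variable {N : ℕ} {K : Type} [Field K] [CharZero K]



theorem clust_iff_perm (A S : Finset (Fin N)) (h : A.card = S.card) :
    ∃ σ : Equiv.Perm (Fin N), A.map σ.toEmbedding = S := by
  classical
  obtain ⟨e⟩ : Nonempty ({x // x ∈ A} ≃ {x // x ∈ S}) := ⟨Finset.equivOfCardEq h⟩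
  refine ⟨e.extendSubtype, ?_⟩
  apply Finset.eq_of_subset_of_card_le
  · intro y hy
    rw [Finset.mem_map] at hy
    obtain ⟨x, hx, rfl⟩ := hy
    exact e.extendSubtype_mem x hx
  · rw [Finset.card_map, h]

theorem clust_iff_card (m : ℕ) (hm : m ≤ N) : (first N m).card = m := by
  unfold first
  have h1 : (univ.filter (fun i : Fin N => (i : ℕ) < m)) =
      (univ : Finset (Fin m)).map (Fin.castLEEmb hm) := by
    ext i
    rw [Finset.mem_filter, Finset.mem_map]
    constructor
    · rintro ⟨-, hi⟩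
      exact ⟨⟨i, hi⟩, Finset.mem_univ _, Fin.ext rfl⟩
    · rintro ⟨j, -, rfl⟩
      exact ⟨Finset.mem_univ _, j.2⟩
  rw [h1, Finset.card_map, Finset.card_univ, Fintype.card_fin]

theorem clust_iff_inv (σ : Equiv.Perm (Fin N)) (I : Finset (Fin N)) :
    (I.map (σ⁻¹ : Equiv.Perm (Fin N)).toEmbedding).map σ.toEmbedding = I := by
  ext i
  rw [Finset.mem_map]
  constructor
  · rintro ⟨a, ha, rfl⟩
    rw [Finset.mem_map] at ha
    obtain ⟨b, hb, rfl⟩ := ha
    have : σ.toEmbedding ((σ⁻¹ : Equiv.Perm (Fin N)).toEmbedding b) = b := by simp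
    rw [this]
    exact hb
  · intro hi
    exact ⟨σ⁻¹ i, Finset.mem_map.2 ⟨i, hi, rfl⟩, by simp⟩

/-- HINT: `→`: for `m ≤ N`, `S` with `k+1` elements (so `k+1 ≤ N`) choose a permutation `σ` with `σ` mapping
`{· ≤ k}` onto `S`; for `x` constant on `S`, `x ∘ σ` is constant on `{· ≤ k}`; with `I = (first N m).map σ⁻¹`,
`f (first N m) = ± rename σ (f I)` and `eval x (rename σ (f I)) = eval (x ∘ σ) (f I) = 0`. `←`: for any `I` take `σ` with
`I = (first N m).map σ`, `m = I.card`. -/
theorem clust_iff (k : ℕ) (f : SPoly ℂ N) :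
    f ∈ clusterSpace N k ↔ Symm f ∧ ∀ m ≤ N, Van k (f (first N m)) := by
  constructor
  · rintro ⟨h1, h2⟩
    refine ⟨h1, fun m hm S hS x hx => ?_⟩
    have hk : k + 1 ≤ N := by
      have := Finset.card_le_univ S
      rw [hS, Fintype.card_fin] at this
      exact this
    obtain ⟨σ, hσ⟩ := clust_iff_perm (first N (k + 1)) S (by rw [clust_iff_card _ hk, hS])
    have h3 := h1 σ ((first N m).map (σ⁻¹ : Equiv.Perm (Fin N)).toEmbedding)
    rw [clust_iff_inv] at h3
    rw [h3, smul_eval, eval_rename, h2 hk, mul_zero]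
    intro i j hi hj
    apply hx
    · rw [← hσ, Finset.mem_map]
      exact ⟨i, by simp [first]; omega, rfl⟩
    · rw [← hσ, Finset.mem_map]
      exact ⟨j, by simp [first]; omega, rfl⟩
  · rintro ⟨h1, h2⟩
    refine ⟨h1, fun hk I x hx => ?_⟩
    have hI : I.card ≤ N := by
      have := Finset.card_le_univ I
      rw [Fintype.card_fin] at this
      exact this
    obtain ⟨σ, hσ⟩ := clust_iff_perm (first N I.card) I (clust_iff_card _ hI)
    have h3 := h1 σ (first N I.card)
    rw [hσ] at h3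
    rw [h3, smul_eval, eval_rename, h2 I.card hI
      ((first N (k + 1)).map (σ⁻¹ : Equiv.Perm (Fin N)).toEmbedding)
      (by rw [Finset.card_map, clust_iff_card _ hk]) (x ∘ σ), mul_zero]
    intro i hi j hj
    rw [Finset.mem_map] at hi hj
    obtain ⟨i', hi', rfl⟩ := hi
    obtain ⟨j', hj', rfl⟩ := hj
    have e1 : ∀ l : Fin N, σ ((σ⁻¹ : Equiv.Perm (Fin N)).toEmbedding l) = l := fun l => by simp
    rw [Function.comp_apply, Function.comp_apply, e1, e1]
    simp only [first, Finset.mem_filter, Finset.mem_univ, true_and] at hi' hj'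
    exact hx i' j' (by omega) (by omega)

end Clu
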