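import Pool.Agent.Helper204.CL.DefA
import Pool.Agent.Helper204.CL.DefB
import Pool.Agent.Helper204.CL.DefC
import Pool.Agent.Helper204.CL.P_P_monomial

set_option linter.unusedSectionVars false

open MvPolynomial Finset

noncomputable section

namespace Clu
variable {N : ℕ} {K : Type} [Field K] [CharZero K]



theorem P_coinc_eval (x : Fin N → K) (η : Fin N →₀ ℕ) :
    eval x (monomial η (1 : K)) = ∏ k, x k ^ η k := by
  rw [eval_monomial, one_mul, Finsupp.prod_fintype _ _ (fun _ => pow_zero _)]

theorem P_coinc_split (i j : Fin N) (hij : i ≠ j) (f : Fin N → K) :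
    ∏ k, f k = f i * (f j * ∏ k ∈ (univ.erase i).erase j, f k) := by
  rw [Finset.mul_prod_erase _ f (Finset.mem_erase.2 ⟨hij.symm, Finset.mem_univ j⟩),
    Finset.mul_prod_erase _ f (Finset.mem_univ i)]

theorem P_coinc_mv (i j : Fin N) (hij : i ≠ j) (x : Fin N → K) (hx : x i = x j) (η : Fin N →₀ ℕ)
    (c d : ℕ) (h : c + d = η i + η j) :
    eval x (monomial (mv i c j d η) (1 : K)) = eval x (monomial η (1 : K)) := by
  rw [P_coinc_eval, P_coinc_eval, P_coinc_split i j hij, P_coinc_split i j hij (fun k => x k ^ η k)]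
  have e1 : mv i c j d η i = c := by
    rw [mv, Finsupp.update_apply, if_neg hij, Finsupp.update_apply, if_pos rfl]
  have e2 : mv i c j d η j = d := by
    rw [mv, Finsupp.update_apply, if_pos rfl]
  have e3 : ∏ k ∈ (univ.erase i).erase j, x k ^ mv i c j d η k
      = ∏ k ∈ (univ.erase i).erase j, x k ^ η k := by
    refine Finset.prod_congr rfl fun k hk => ?_
    rw [Finset.mem_erase, Finset.mem_erase] at hk
    rw [mv, Finsupp.update_apply, if_neg hk.1, Finsupp.update_apply, if_neg hk.2.1]
  rw [e1, e2, e3, hx, ← mul_assoc, ← mul_assoc, ← pow_add, ← pow_add, h]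

theorem P_coinc_sum (q d : ℕ) :
    2 * ∑ c ∈ Ioo q (q + d), ((c - q : ℕ) : K) = d * (d - 1) := by
  induction d with
  | zero => simp
  | succ d ih =>
    rcases Nat.eq_zero_or_pos d with rfl | hd
    · have : Ioo q (q + (0 + 1)) = ∅ := by
        ext c
        simp only [mem_Ioo, Finset.notMem_empty, iff_false]
        omega
      rw [this]; simp
    · have : Ioo q (q + (d + 1)) = insert (q + d) (Ioo q (q + d)) := by
        ext c
        simp only [mem_Ioo, Finset.mem_insert]
        omega
      rw [this, sum_insert (by simp), mul_add, ih]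
      have : q + d - q = d := by omega
      rw [this]; push_cast; ring

theorem P_coinc_pmon (i j : Fin N) (hij : i ≠ j) (x : Fin N → K) (hx : x i = x j) (η : Fin N →₀ ℕ) :
    2 * eval x (pmon K i j η) =
      (((η i : K) - η j) ^ 2 - (η i + η j)) * eval x (monomial η (1 : K)) := by
  have h1 : ∑ c ∈ Ioo (η j) (η i), eval x (((c - η j : ℕ) : K) • monomial (mv i c j (η i + η j - c) η) (1 : K))
      = (∑ c ∈ Ioo (η j) (η i), ((c - η j : ℕ) : K)) * eval x (monomial η (1 : K)) := by
    rw [Finset.sum_mul]
    refine Finset.sum_congr rfl fun c hc => ?_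
    rw [mem_Ioo] at hc
    rw [smul_eval, P_coinc_mv i j hij x hx η c (η i + η j - c) (by omega)]
  have h2 : ∑ c ∈ Ioo (η i) (η j), eval x (((c - η i : ℕ) : K) • monomial (mv j c i (η i + η j - c) η) (1 : K))
      = (∑ c ∈ Ioo (η i) (η j), ((c - η i : ℕ) : K)) * eval x (monomial η (1 : K)) := by
    rw [Finset.sum_mul]
    refine Finset.sum_congr rfl fun c hc => ?_
    rw [mem_Ioo] at hc
    rw [smul_eval, P_coinc_mv j i hij.symm x hx.symm η c (η i + η j - c) (by omega)]
  have h3 : eval x (pmon K i j η) = (-((min (η i) (η j) : ℕ) : K) +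
      (∑ c ∈ Ioo (η j) (η i), ((c - η j : ℕ) : K)) + (∑ c ∈ Ioo (η i) (η j), ((c - η i : ℕ) : K)))
      * eval x (monomial η (1 : K)) := by
    rw [pmon, map_add, map_add, map_sum, map_sum, smul_eval, h1, h2]
    ring
  rw [h3]
  rcases le_total (η j) (η i) with h | h
  · obtain ⟨d, hd⟩ := Nat.exists_eq_add_of_le h
    have e1 : Ioo (η i) (η j) = ∅ := by
      ext c
      simp only [mem_Ioo, Finset.notMem_empty, iff_false]
      omega
    rw [e1, Finset.sum_empty, min_eq_right h, add_zero]
    have e2 := P_coinc_sum (K := K) (η j) d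
    rw [hd, ← mul_assoc, mul_add, e2]
    push_cast
    ring
  · obtain ⟨d, hd⟩ := Nat.exists_eq_add_of_le h
    have e1 : Ioo (η j) (η i) = ∅ := by
      ext c
      simp only [mem_Ioo, Finset.notMem_empty, iff_false]
      omega
    rw [e1, Finset.sum_empty, min_eq_left h, add_zero]
    have e2 := P_coinc_sum (K := K) (η i) d
    rw [hd, ← mul_assoc, mul_add, e2]
    push_cast
    ring

theorem P_coinc_der (i : Fin N) (x : Fin N → K) (η : Fin N →₀ ℕ) (a : K) :
    x i * eval x (pderiv i (monomial η a)) = η i * eval x (monomial η a) := by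
  have h := congrArg (eval x) (X_mul_pderiv_monomial (i := i) (m := η) (r := a))
  rw [map_mul, eval_X] at h
  rw [h, nsmul_eq_mul, map_mul, map_natCast]

theorem P_coinc_der2 (i : Fin N) (x : Fin N → K) (η : Fin N →₀ ℕ) (a : K) :
    x i ^ 2 * eval x (pderiv i (pderiv i (monomial η a))) = η i * (η i - 1) * eval x (monomial η a) := by
  have h := congrArg (pderiv i) (X_mul_pderiv_monomial (i := i) (m := η) (r := a))
  rw [Derivation.leibniz, pderiv_X_self, smul_eq_mul, smul_eq_mul, mul_one, nsmul_eq_mul] at h
  have h2 := congrArg (eval x) h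
  have h4 : pderiv i ((η i : MvPolynomial (Fin N) K) * monomial η a)
      = (η i : MvPolynomial (Fin N) K) * pderiv i (monomial η a) := by
    rw [← nsmul_eq_mul, map_nsmul, nsmul_eq_mul]
  rw [h4, map_add, map_mul, map_mul, eval_X, map_natCast] at h2
  have h3 := P_coinc_der i x η a
  linear_combination x i * h2 + (η i - 1) * h3

theorem P_coinc_dermix (i j : Fin N) (hij : i ≠ j) (x : Fin N → K) (η : Fin N →₀ ℕ) (a : K) :
    x i * x j * eval x (pderiv i (pderiv j (monomial η a))) = η i * η j * eval x (monomial η a) := by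
  have h := congrArg (pderiv i) (X_mul_pderiv_monomial (i := j) (m := η) (r := a))
  have h5 : pderiv i (X j : MvPolynomial (Fin N) K) = 0 := pderiv_X_of_ne hij.symm
  rw [Derivation.leibniz, h5, smul_eq_mul, smul_eq_mul, mul_zero, add_zero, nsmul_eq_mul] at h
  have h2 := congrArg (eval x) h
  have h4 : pderiv i ((η j : MvPolynomial (Fin N) K) * monomial η a)
      = (η j : MvPolynomial (Fin N) K) * pderiv i (monomial η a) := by
    rw [← nsmul_eq_mul, map_nsmul, nsmul_eq_mul]
  rw [h4, map_mul, map_mul, eval_X, map_natCast] at h2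
  have h3 := P_coinc_der i x η a
  linear_combination x i * h2 + η j * h3

/-- HINT: linear in `g`; for the monomial `x^η`, `a = η i`, `b = η j`, both sides are
`((a-b)^2 - (a+b))` times `z^{a+b}` times the rest (`z = x i = x j`); `2 Σ_{b<c<a} (c-b) = (a-b)(a-b-1)`.
(If `a = 0`, `1` watch the derivatives: `pderiv` of monomials `pderiv_monomial`.) -/
theorem P_coinc (i j : Fin N) (hij : i ≠ j) (g : MvPolynomial (Fin N) K) (x : Fin N → K) (hx : x i = x j) :
    2 * eval x (Pop i j g) = x i ^ 2 * (eval x (pderiv i (pderiv i g)) - 2 * eval x (pderiv i (pderiv j g)) +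
      eval x (pderiv j (pderiv j g))) := by
  induction g using MvPolynomial.induction_on' with
  | monomial η a =>
    have h0 : eval x (monomial η a) = a * eval x (monomial η (1 : K)) := by
      rw [eval_monomial, eval_monomial, one_mul]
    have h1 := P_coinc_der2 i x η a
    have h2 := P_coinc_der2 j x η a
    have h3 := P_coinc_dermix i j hij x η a
    have h4 := P_coinc_pmon i j hij x hx η
    rw [(P_monomial i j η a).1, smul_eval]
    rw [h0] at h1 h2 h3
    rw [← hx] at h2 h3
    linear_combination a * h4 - h1 - h2 + 2 * h3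
  | add p q hp hq =>
    simp only [map_add]
    linear_combination hp + hq

end Clu
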