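import Pool.Agent.Helper204.CL.DefA
import Pool.Agent.Helper204.CL.DefB
import Pool.Agent.Helper204.CL.DefC
import Pool.Agent.Helper204.CL.P_P_monomial

set_option linter.unusedSectionVars false

open MvPolynomial Finset

noncomputable section

namespace Clu
variable {N : ℕ} {K : Type} [Field K] [CharZero K]



theorem R_coinc_eval (i j : Fin N) (hij : i ≠ j) (η : Fin N →₀ ℕ) (c d : ℕ)
    (hcd : c + d = η i + η j) (x : Fin N → K) (hx : x i = x j) :
    eval x (monomial (mv i c j d η) (1 : K)) = eval x (monomial η (1 : K)) := by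
  have h1 : ∀ ξ : Fin N →₀ ℕ, eval x (monomial ξ (1 : K)) =
      x i ^ ξ i * (x j ^ ξ j * ∏ k ∈ (univ.erase i).erase j, x k ^ ξ k) := by
    intro ξ
    rw [eval_monomial, one_mul, Finsupp.prod_fintype _ _ (fun k => pow_zero _),
      ← Finset.mul_prod_erase univ _ (mem_univ i),
      ← Finset.mul_prod_erase (univ.erase i) _ (Finset.mem_erase.2 ⟨hij.symm, mem_univ j⟩)]
  have e1 : mv i c j d η i = c := by
    unfold mv
    simp [hij]
  have e2 : mv i c j d η j = d := by
    unfold mv
    simp
  have e3 : ∏ k ∈ (univ.erase i).erase j, x k ^ (mv i c j d η k) =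
      ∏ k ∈ (univ.erase i).erase j, x k ^ η k := by
    apply Finset.prod_congr rfl
    intro k hk
    have hkj : k ≠ j := Finset.ne_of_mem_erase hk
    have hki : k ≠ i := Finset.ne_of_mem_erase (Finset.mem_of_mem_erase hk)
    unfold mv
    simp [hkj, hki]
  rw [h1, h1, e1, e2, e3, hx, ← mul_assoc, ← mul_assoc, ← pow_add, ← pow_add, hcd]

theorem R_coinc_mv (i j : Fin N) (hij : i ≠ j) (η : Fin N →₀ ℕ) (x : Fin N → K)
    (hx : x i = x j) : eval x (rmon K i j η) =
      ((η i : K) - (η j : K)) * eval x (monomial η (1 : K)) := by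
  unfold rmon
  rw [map_sub, map_sum, map_sum]
  have e1 : ∀ c ∈ Ico (η j) (η i), eval x (monomial (mv i c j (η i + η j - c) η) (1 : K)) =
      eval x (monomial η (1 : K)) := by
    intro c hc
    rw [Finset.mem_Ico] at hc
    exact R_coinc_eval i j hij η _ _ (by omega) x hx
  have e2 : ∀ c ∈ Ioc (η i) (η j), eval x (monomial (mv j c i (η i + η j - c) η) (1 : K)) =
      eval x (monomial η (1 : K)) := by
    intro c hc
    rw [Finset.mem_Ioc] at hc
    exact R_coinc_eval j i hij.symm η _ _ (by omega) x hx.symm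
  rw [Finset.sum_congr rfl e1, Finset.sum_congr rfl e2, Finset.sum_const, Finset.sum_const,
    Nat.card_Ico, Nat.card_Ioc, nsmul_eq_mul, nsmul_eq_mul, ← sub_mul]
  congr 1
  rcases le_total (η i) (η j) with h | h
  · rw [Nat.sub_eq_zero_of_le h, Nat.cast_sub h]
    simp
  · rw [Nat.sub_eq_zero_of_le h, Nat.cast_sub h]
    simp

/-- HINT: linear in `g`; for the monomial `x^η` both sides are `(a-b) z^{a+b}` times the rest. -/
theorem R_coinc (i j : Fin N) (hij : i ≠ j) (g : MvPolynomial (Fin N) K) (x : Fin N → K) (hx : x i = x j) :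
    eval x (Rop i j g) = x j * (eval x (pderiv i g) - eval x (pderiv j g)) := by
  induction g using MvPolynomial.induction_on' with
  | monomial η a =>
    rw [(P_monomial i j η a).2, smul_eval, R_coinc_mv i j hij η x hx]
    have h1 : ∀ k : Fin N, x k * eval x (pderiv k (monomial η a)) =
        (η k : K) * (a * eval x (monomial η (1 : K))) := by
      intro k
      have h2 := congrArg (eval x) (X_mul_pderiv_monomial (i := k) (m := η) (r := a))
      rw [map_mul, eval_X, map_nsmul, nsmul_eq_mul] at h2
      rw [h2, eval_monomial, eval_monomial, one_mul]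
    have h3 := h1 i
    rw [hx] at h3
    rw [mul_sub, h3, h1 j]
    ring
  | add p q hp hq =>
    rw [map_add, map_add, hp, hq, map_add, map_add, map_add, map_add]
    ring

end Clu
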