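import Pool.Agent.Helper204.CL.DefA
import Pool.Agent.Helper204.CL.DefB
import Pool.Agent.Helper204.CL.DefC

set_option linter.unusedSectionVars false

open MvPolynomial Finset

noncomputable section

namespace Clu
variable {N : ℕ} {K : Type} [Field K] [CharZero K]



theorem dirder_chain (x v : Fin N → K) (g : MvPolynomial (Fin N) K) :
    Polynomial.derivative (MvPolynomial.aeval
        (fun i => Polynomial.C (x i) + Polynomial.C (v i) * Polynomial.X) g) =
      ∑ j, Polynomial.C (v j) * MvPolynomial.aeval
        (fun i => Polynomial.C (x i) + Polynomial.C (v i) * Polynomial.X) (pderiv j g) := by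
  classical
  induction g using MvPolynomial.induction_on with
  | C c =>
    simp [MvPolynomial.algebraMap_eq]
  | add p q hp hq =>
    simp only [map_add, hp, hq, mul_add, Finset.sum_add_distrib]
  | mul_X p i hp =>
    simp only [map_mul, Polynomial.derivative_mul, hp, MvPolynomial.aeval_X, Derivation.leibniz,
      smul_eq_mul, map_add, pderiv_X, mul_add, Finset.sum_add_distrib]
    have h1 : ∑ j, Polynomial.C (v j) * (MvPolynomial.aeval
        (fun i => Polynomial.C (x i) + Polynomial.C (v i) * Polynomial.X) p *
        MvPolynomial.aeval (fun i => Polynomial.C (x i) + Polynomial.C (v i) * Polynomial.X)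
          (Pi.single (M := fun _ => MvPolynomial (Fin N) K) j 1 i)) =
        MvPolynomial.aeval
        (fun i => Polynomial.C (x i) + Polynomial.C (v i) * Polynomial.X) p *
          Polynomial.C (v i) := by
      rw [Finset.sum_eq_single i]
      · simp only [Pi.single_eq_same, map_one, mul_one]
        ring
      · intro j _ hj
        rw [Pi.single_eq_of_ne (Ne.symm hj)]
        simp
      · intro h
        exact absurd (Finset.mem_univ i) h
    rw [h1]
    have h2 : (∑ j, Polynomial.C (v j) * MvPolynomial.aeval
        (fun i => Polynomial.C (x i) + Polynomial.C (v i) * Polynomial.X) (pderiv j p)) *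
          (Polynomial.C (x i) + Polynomial.C (v i) * Polynomial.X) =
        ∑ j, Polynomial.C (v j) * ((Polynomial.C (x i) + Polynomial.C (v i) * Polynomial.X) *
          MvPolynomial.aeval
        (fun i => Polynomial.C (x i) + Polynomial.C (v i) * Polynomial.X) (pderiv j p)) := by
      rw [Finset.sum_mul]
      exact Finset.sum_congr rfl fun j _ => by ring
    rw [← h2]
    simp only [Polynomial.derivative_add, Polynomial.derivative_mul, Polynomial.derivative_C,
      Polynomial.derivative_X, zero_mul, zero_add, mul_one]
    ring

theorem dirder_eval (x v : Fin N → K) (g : MvPolynomial (Fin N) K) (t : K) :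
    Polynomial.eval t (MvPolynomial.aeval
        (fun i => Polynomial.C (x i) + Polynomial.C (v i) * Polynomial.X) g) =
      MvPolynomial.eval (fun i => x i + v i * t) g := by
  induction g using MvPolynomial.induction_on with
  | C c =>
    simp [MvPolynomial.algebraMap_eq]
  | add p q hp hq =>
    simp only [map_add, Polynomial.eval_add, hp, hq]
  | mul_X p i hp =>
    simp only [map_mul, Polynomial.eval_mul, hp, MvPolynomial.aeval_X, MvPolynomial.eval_X,
      Polynomial.eval_add, Polynomial.eval_C, Polynomial.eval_X]

/-- HINT: consider the one-variable polynomial `Q = aeval (fun i => Polynomial.C (x i) + Polynomial.C (v i) * Polynomial.X) g`;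
it vanishes at every `t : K` (the point `x + t v` is constant on `S`), so `Q = 0` (`Polynomial.funext`, `K` infinite),
and `Q.derivative.eval 0 = Σ_i v i * eval x (pderiv i g)` (chain rule, prove by `MvPolynomial.induction_on`). -/
theorem dirder (S : Finset (Fin N)) (g : MvPolynomial (Fin N) K)
    (hg : ∀ x : Fin N → K, (∀ i ∈ S, ∀ j ∈ S, x i = x j) → eval x g = 0)
    (v : Fin N → K) (hv : ∀ i ∈ S, ∀ j ∈ S, v i = v j) (x : Fin N → K) (hx : ∀ i ∈ S, ∀ j ∈ S, x i = x j) :
    ∑ i, v i * eval x (pderiv i g) = 0 := by
  have hQ : (MvPolynomial.aeval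
        (fun i => Polynomial.C (x i) + Polynomial.C (v i) * Polynomial.X) g : Polynomial K) = 0 := by
    apply Polynomial.funext
    intro t
    rw [dirder_eval, Polynomial.eval_zero]
    apply hg
    intro i hi j hj
    rw [hx i hi j hj, hv i hi j hj]
  have h1 := dirder_chain x v g
  rw [hQ, Polynomial.derivative_zero] at h1
  have h2 := congrArg (Polynomial.eval 0) h1
  rw [Polynomial.eval_zero, Polynomial.eval_finsetSum] at h2
  rw [h2]
  apply Finset.sum_congr rfl
  intro j _
  rw [Polynomial.eval_mul, Polynomial.eval_C, dirder_eval]
  simp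

end Clu
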