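import Pool.Agent.Helper204.CL.DefA
import Pool.Agent.Helper204.CL.DefB
import Pool.Agent.Helper204.CL.DefC
import Pool.Agent.Helper204.CL.P_dirder

set_option linter.unusedSectionVars false

open MvPolynomial Finset

noncomputable section

namespace Clu
variable {N : ℕ} {K : Type} [Field K] [CharZero K]



theorem vf_single (S : Finset (Fin N)) (g : MvPolynomial (Fin N) K)
    (hg : ∀ x : Fin N → K, (∀ i ∈ S, ∀ j ∈ S, x i = x j) → eval x g = 0) (l : Fin N) (hl : l ∉ S) :
    ∀ x : Fin N → K, (∀ i ∈ S, ∀ j ∈ S, x i = x j) → eval x (pderiv l g) = 0 := by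
  intro x hx
  have hv : ∀ i ∈ S, (Pi.single l (1 : K) : Fin N → K) i = 0 := by
    intro i hi
    have : i ≠ l := fun h => hl (h ▸ hi)
    simp [Pi.single_apply, this]
  have := dirder S g hg (Pi.single l 1) (fun i hi j hj => by rw [hv i hi, hv j hj]) x hx
  simpa [Pi.single_apply] using this

theorem vf_sum (S Z : Finset (Fin N)) (hSZ : S ⊆ Z) (g : MvPolynomial (Fin N) K)
    (hg : ∀ x : Fin N → K, (∀ i ∈ S, ∀ j ∈ S, x i = x j) → eval x g = 0) :
    ∀ x : Fin N → K, (∀ i ∈ S, ∀ j ∈ S, x i = x j) → eval x (∑ i ∈ Z, pderiv i g) = 0 := by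
  intro x hx
  have := dirder S g hg (fun i => if i ∈ Z then 1 else 0)
    (fun i hi j hj => by rw [if_pos (hSZ hi), if_pos (hSZ hj)]) x hx
  rw [map_sum]
  simpa [ite_mul] using this

/-- HINT: `dirder` with a subset `S ⊆ Z` of size `k+1`, applied once and twice (for the second derivatives apply it to
`g' = Σ_i C (v i) * pderiv i g`, which vanishes on the same set by `dirder`). Directions: `v = Pi.single j 1` with `j ∉ Z`;
`v = 1` on `Z`, `0` outside; if `Z.card > k+1`, for `i ∈ Z` take `S ⊆ Z.erase i` and `v = Pi.single i 1`. For mixed second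
derivatives use two directions. -/
theorem van_facts (k : ℕ) (g : MvPolynomial (Fin N) K) (hg : Van k g) (Z : Finset (Fin N)) (hZ : k + 1 ≤ Z.card)
    (x : Fin N → K) (hx : ∀ i ∈ Z, ∀ j ∈ Z, x i = x j) :
    eval x g = 0 ∧ (∀ j ∉ Z, eval x (pderiv j g) = 0) ∧ ∑ i ∈ Z, eval x (pderiv i g) = 0 ∧
    (∀ j ∉ Z, ∀ l ∉ Z, eval x (pderiv j (pderiv l g)) = 0) ∧
    ∑ i ∈ Z, ∑ j ∈ Z, eval x (pderiv i (pderiv j g)) = 0 ∧
    (k + 1 < Z.card → ∀ i ∈ Z, eval x (pderiv i g) = 0 ∧ eval x (pderiv i (pderiv i g)) = 0) := by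
  obtain ⟨S, hSZ, hS⟩ := Finset.exists_subset_card_eq hZ
  have hxS : ∀ i ∈ S, ∀ j ∈ S, x i = x j := fun i hi j hj => hx i (hSZ hi) j (hSZ hj)
  have h0 := hg S hS
  refine ⟨h0 x hxS, ?_, ?_, ?_, ?_, ?_⟩
  · intro j hj
    exact vf_single S g h0 j (fun h => hj (hSZ h)) x hxS
  · have := vf_sum S Z hSZ g h0 x hxS
    rwa [map_sum] at this
  · intro j hj l hl
    exact vf_single S _ (vf_single S g h0 l (fun h => hl (hSZ h))) j (fun h => hj (hSZ h)) x hxS
  · have := vf_sum S Z hSZ _ (vf_sum S Z hSZ g h0) x hxS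
    rw [map_sum] at this
    rw [← this]
    refine Finset.sum_congr rfl fun i _ => ?_
    rw [map_sum, map_sum]
  · intro hk i hi
    have hc : k + 1 ≤ (Z.erase i).card := by
      rw [Finset.card_erase_of_mem hi]
      omega
    obtain ⟨S', hS'Z, hS'⟩ := Finset.exists_subset_card_eq hc
    have hi' : i ∉ S' := fun h => Finset.notMem_erase i Z (hS'Z h)
    have hxS' : ∀ a ∈ S', ∀ b ∈ S', x a = x b := fun a ha b hb =>
      hx a (Finset.mem_of_mem_erase (hS'Z ha)) b (Finset.mem_of_mem_erase (hS'Z hb))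
    have h0' := hg S' hS'
    exact ⟨vf_single S' g h0' i hi' x hxS',
      vf_single S' _ (vf_single S' g h0' i hi') i hi' x hxS'⟩

end Clu
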