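import Pool.Agent.Helper204.CL.DefA
import Pool.Agent.Helper204.CL.DefB
import Pool.Agent.Helper204.CL.DefC

set_option linter.unusedSectionVars false

open MvPolynomial Finset

noncomputable section

namespace Clu
variable {N : ℕ} {K : Type} [Field K] [CharZero K]



/-- HINT: `x ∘ swap i j` is constant (with value `x s`, `s ∈ Z`) on `(Z.erase i)` and `j`: if `i ∈ Z`, `j ∉ Z` the set
`insert j (Z.erase i)` has the same cardinality as `Z`, and `x ∘ swap i j` takes on it the constant value; if both or none of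
`i, j` lie in `Z`, it is constant on `Z` itself. Apply the definition of `Van` to a subset of size `k+1`. -/
theorem van_swap (k : ℕ) (g : MvPolynomial (Fin N) K) (hg : Van k g) (Z : Finset (Fin N)) (hZ : k + 1 ≤ Z.card)
    (x : Fin N → K) (hx : ∀ i ∈ Z, ∀ j ∈ Z, x i = x j) (i j : Fin N) :
    eval (x ∘ Equiv.swap i j) g = 0 := by
  have hc : k + 1 ≤ (Z.map (Equiv.swap i j).toEmbedding).card := by
    rw [Finset.card_map]
    exact hZ
  obtain ⟨S, hS, hSc⟩ := Finset.exists_subset_card_eq hc
  refine hg S hSc _ fun a ha b hb => ?_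
  obtain ⟨a', ha', rfl⟩ := Finset.mem_map.1 (hS ha)
  obtain ⟨b', hb', rfl⟩ := Finset.mem_map.1 (hS hb)
  change x (Equiv.swap i j (Equiv.swap i j a')) = x (Equiv.swap i j (Equiv.swap i j b'))
  rw [Equiv.swap_apply_self, Equiv.swap_apply_self]
  exact hx a' ha' b' hb'

end Clu
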