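import Pool.Agent.Helper204.CL.DefA
import Pool.Agent.Helper204.CL.DefB
import Pool.Agent.Helper204.CL.DefC
import Pool.Agent.Helper204.CL.P_P_coinc
import Pool.Agent.Helper204.CL.P_R_coinc
import Pool.Agent.Helper204.CL.P_PR_eval
import Pool.Agent.Helper204.CL.P_van_facts
import Pool.Agent.Helper204.CL.P_van_swap

set_option linter.unusedSectionVars false

open MvPolynomial Finset

noncomputable section

namespace Clu
variable {N : ℕ} {K : Type} [Field K] [CharZero K]



theorem van_D_comm (i j : Fin N) (g : MvPolynomial (Fin N) K) :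
    pderiv i (pderiv j g) = pderiv j (pderiv i g) := by
  have hX : ∀ a b l : Fin N, pderiv a (pderiv b (X l : MvPolynomial (Fin N) K)) = 0 := by
    intro a b l
    by_cases h : l = b
    · subst h
      rw [pderiv_X_self, pderiv_one]
    · rw [pderiv_X_of_ne h, map_zero]
  have h : ⁅(pderiv i : Derivation K (MvPolynomial (Fin N) K) (MvPolynomial (Fin N) K)),
      (pderiv j : Derivation K (MvPolynomial (Fin N) K) (MvPolynomial (Fin N) K))⁆ = 0 := by
    apply MvPolynomial.derivation_ext
    intro l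
    rw [Derivation.commutator_apply, hX, hX, sub_zero]
    rfl
  have h2 := DFunLike.congr_fun h g
  rw [Derivation.commutator_apply] at h2
  exact sub_eq_zero.1 h2

theorem van_D_dbl (W : Fin N → Fin N → K) (hs : ∀ i j, W i j = W j i) (h0 : ∀ i, W i i = 0) :
    ∑ i : Fin N, ∑ j : Fin N, W i j =
      2 * ∑ i : Fin N, ∑ j ∈ univ.filter (fun j : Fin N => i < j), W i j := by
  have e1 : ∀ i j : Fin N, W i j = (if i < j then W i j else 0) + (if j < i then W j i else 0) := by
    intro i j
    rcases lt_trichotomy i j with h | h | h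
    · rw [if_pos h, if_neg (lt_asymm h), add_zero]
    · subst h
      rw [if_neg (lt_irrefl _), add_zero, h0]
    · rw [if_neg (lt_asymm h), if_pos h, zero_add, hs]
  have e2 : ∑ i : Fin N, ∑ j : Fin N, W i j =
      ∑ i : Fin N, ∑ j : Fin N, (if i < j then W i j else 0) +
        ∑ i : Fin N, ∑ j : Fin N, (if j < i then W j i else 0) := by
    rw [← Finset.sum_add_distrib]
    apply Finset.sum_congr rfl
    intro i _
    rw [← Finset.sum_add_distrib]
    apply Finset.sum_congr rfl
    intro j _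
    exact e1 i j
  have e3 : ∑ i : Fin N, ∑ j : Fin N, (if j < i then W j i else 0) =
      ∑ i : Fin N, ∑ j : Fin N, (if i < j then W i j else 0) := Finset.sum_comm
  rw [e2, e3, two_mul]
  simp only [Finset.sum_filter]

/-- HINT: Let `x` be constant `= z` on `S`, `|S| = k+1`, and `Z = {i | x i = z} ⊇ S`. `Dop` at `x`:
`α/2 Σ_i x_i² ∂_i²g + Σ_{i<j} eval x (Pop i j g)`, `α = -(k+1)`. By `van_facts`, `van_swap`, `PR_eval`, `P_coinc`: for `i, j ∉ Z` the
term `Pop i j` vanishes (also when `x i = x j`); for `i ∈ Z`, `j ∉ Z` (`x i ≠ x j`) `Pop i j g` has the value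
`z x_j/(z-x_j) ∂_i g(x)` and similarly for `i ∉ Z`, `j ∈ Z`; these sum to `Σ_{j ∉ Z} z x_j/(z - x_j) Σ_{i ∈ Z} ∂_i g(x) = 0`
(use that `Pop i j = Pop j i` in value, i.e. treat unordered pairs; both orders are covered by `PR_eval`). For
`i, j ∈ Z`: `z²/2 (∂_i - ∂_j)² g`. Total: `z²/2 (α Σ_Z ∂_i² g + Σ_{i<j in Z} (∂_i-∂_j)² g) = z²/2 ((α + |Z|) Σ_Z ∂_i² g -
Σ_{i,j∈Z} ∂_i∂_j g)`, which is `0`: the last sum vanishes, and either `|Z| = k+1` or all `∂_i² g(x) = 0`. -/
theorem van_D (k : ℕ) (g : MvPolynomial (Fin N) K) (hg : Van k g) : Van k (Dop (-((k : K) + 1)) g) := by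
  classical
  intro S hS x hx
  have hSne : S.Nonempty := by
    rw [← Finset.card_pos, hS]
    omega
  obtain ⟨s0, hs0⟩ := hSne
  set z := x s0 with hz
  set Z : Finset (Fin N) := univ.filter (fun i => x i = z) with hZdef
  have hSZ : S ⊆ Z := by
    intro i hi
    rw [hZdef, Finset.mem_filter]
    exact ⟨Finset.mem_univ _, hx i hi s0 hs0⟩
  have hZc : k + 1 ≤ Z.card := by
    rw [← hS]
    exact Finset.card_le_card hSZ
  have hZz : ∀ i ∈ Z, x i = z := fun i hi => (Finset.mem_filter.1 hi).2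
  have hZn : ∀ i, i ∉ Z → x i ≠ z := fun i hi h =>
    hi (Finset.mem_filter.2 ⟨Finset.mem_univ _, h⟩)
  have hxZ : ∀ i ∈ Z, ∀ j ∈ Z, x i = x j := fun i hi j hj => by rw [hZz i hi, hZz j hj]
  obtain ⟨g0, gA, gB, gC, gE, gF⟩ := van_facts k g hg Z hZc x hxZ
  have hsw := van_swap k g hg Z hZc x hxZ
  set D : Fin N → K := fun i => eval x (pderiv i g) with hD
  set DD : Fin N → Fin N → K := fun i j => eval x (pderiv i (pderiv j g)) with hDD
  have hDDs : ∀ i j, DD i j = DD j i := fun i j => by
    show eval x (pderiv i (pderiv j g)) = eval x (pderiv j (pderiv i g))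
    rw [van_D_comm]
  have gA' : ∀ j ∉ Z, D j = 0 := gA
  have gB' : ∑ i ∈ Z, D i = 0 := gB
  have gC' : ∀ j ∉ Z, ∀ l ∉ Z, DD j l = 0 := gC
  have gE' : ∑ i ∈ Z, ∑ j ∈ Z, DD i j = 0 := gE
  have gF' : k + 1 < Z.card → ∀ i ∈ Z, D i = 0 ∧ DD i i = 0 := gF
  set W : Fin N → Fin N → K := fun i j =>
    if i ∈ Z then (if j ∈ Z then z ^ 2 * (DD i i - 2 * DD i j + DD j j)
      else 2 * (z * x j / (z - x j)) * D i)
    else (if j ∈ Z then 2 * (z * x i / (z - x i)) * D j else 0) with hW
  have hWs : ∀ i j, W i j = W j i := by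
    intro i j
    simp only [hW]
    by_cases hi : i ∈ Z
    · by_cases hj : j ∈ Z
      · rw [if_pos hi, if_pos hj, if_pos hj, if_pos hi, hDDs i j]
        ring
      · rw [if_pos hi, if_neg hj, if_neg hj, if_pos hi]
    · by_cases hj : j ∈ Z
      · rw [if_neg hi, if_pos hj, if_pos hj, if_neg hi]
      · rw [if_neg hi, if_neg hj, if_neg hj, if_neg hi]
  have hW0 : ∀ i, W i i = 0 := by
    intro i
    simp only [hW]
    by_cases hi : i ∈ Z
    · rw [if_pos hi, if_pos hi]
      ring
    · rw [if_neg hi, if_neg hi]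
  have hTW : ∀ i j : Fin N, i < j → 2 * eval x (Pop i j g) = W i j := by
    intro i j hij
    have hne : i ≠ j := hij.ne
    by_cases hi : i ∈ Z
    · by_cases hj : j ∈ Z
      · have h1 := P_coinc i j hne g x (hxZ i hi j hj)
        simp only [hW]
        rw [if_pos hi, if_pos hj, h1, hZz i hi]
      · have hxne : x i ≠ x j := by rw [hZz i hi]; exact (hZn j hj).symm
        have h1 := (PR_eval i j g x hxne).1
        simp only [hW]
        rw [if_pos hi, if_neg hj, h1, gA j hj, g0, hsw i j, hZz i hi]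
        ring
    · by_cases hj : j ∈ Z
      · have hxne : x i ≠ x j := by rw [hZz j hj]; exact hZn i hi
        have h1 := (PR_eval i j g x hxne).1
        simp only [hW]
        rw [if_neg hi, if_pos hj, h1, gA i hi, g0, hsw i j, hZz j hj]
        have h2 : z - x i ≠ 0 := sub_ne_zero.2 (hZn i hi).symm
        have h3 : x i - z ≠ 0 := sub_ne_zero.2 (hZn i hi)
        have h4 : x i * z / (x i - z) = -(z * x i / (z - x i)) := by
          rw [← neg_sub z (x i), div_neg, mul_comm (x i) z]
        rw [h4]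
        show _ = 2 * (z * x i / (z - x i)) * eval x (pderiv j g)
        ring
      · simp only [hW]
        rw [if_neg hi, if_neg hj]
        by_cases hxx : x i = x j
        · have h1 := P_coinc i j hne g x hxx
          rw [h1, gC i hi i hi, gC i hi j hj, gC j hj j hj]
          ring
        · have h1 := (PR_eval i j g x hxx).1
          rw [h1, gA i hi, gA j hj, g0, hsw i j]
          ring
  -- evaluation of the operator
  have hev : eval x (Dop (-((k : K) + 1)) g) = -((k : K) + 1) / 2 * ∑ i, x i ^ 2 * DD i i +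
      ∑ i : Fin N, ∑ j ∈ univ.filter (fun j : Fin N => i < j), eval x (Pop i j g) := by
    unfold Dop Qop
    rw [map_add, smul_eval, map_sum]
    congr 1
    · congr 1
      apply Finset.sum_congr rfl
      intro i _
      rw [map_mul, map_pow, eval_X]
    · rw [LinearMap.sum_apply, map_sum]
      apply Finset.sum_congr rfl
      intro i _
      rw [LinearMap.sum_apply, map_sum]
  have hsum : 2 * ∑ i : Fin N, ∑ j ∈ univ.filter (fun j : Fin N => i < j), eval x (Pop i j g) =
      ∑ i : Fin N, ∑ j ∈ univ.filter (fun j : Fin N => i < j), W i j := by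
    rw [Finset.mul_sum]
    apply Finset.sum_congr rfl
    intro i _
    rw [Finset.mul_sum]
    apply Finset.sum_congr rfl
    intro j hj
    exact hTW i j (Finset.mem_filter.1 hj).2
  have hdbl := van_D_dbl W hWs hW0
  -- the double sum
  have hin : ∀ i ∈ Z, ∑ j, W i j = z ^ 2 * ((Z.card : K) * DD i i - 2 * ∑ j ∈ Z, DD i j +
      ∑ j ∈ Z, DD j j) + (∑ j ∈ Zᶜ, 2 * (z * x j / (z - x j))) * D i := by
    intro i hi
    rw [← Finset.sum_add_sum_compl Z (fun j => W i j)]
    congr 1
    · rw [Finset.sum_congr rfl (fun j hj => show W i j =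
        z ^ 2 * (DD i i - 2 * DD i j + DD j j) by simp only [hW]; rw [if_pos hi, if_pos hj])]
      rw [← Finset.mul_sum, Finset.sum_add_distrib, Finset.sum_sub_distrib, Finset.sum_const,
        ← Finset.mul_sum, nsmul_eq_mul]
    · rw [Finset.sum_mul]
      apply Finset.sum_congr rfl
      intro j hj
      simp only [hW]
      rw [if_pos hi, if_neg (Finset.mem_compl.1 hj)]
  have hout : ∀ i, i ∉ Z → ∑ j, W i j = 0 := by
    intro i hi
    rw [← Finset.sum_add_sum_compl Z (fun j => W i j)]
    have h1 : ∑ j ∈ Z, W i j = 0 := by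
      rw [Finset.sum_congr rfl (fun j hj => show W i j =
        2 * (z * x i / (z - x i)) * D j by simp only [hW]; rw [if_neg hi, if_pos hj])]
      rw [← Finset.mul_sum, gB', mul_zero]
    have h2 : ∑ j ∈ Zᶜ, W i j = 0 := by
      apply Finset.sum_eq_zero
      intro j hj
      simp only [hW]
      rw [if_neg hi, if_neg (Finset.mem_compl.1 hj)]
    rw [h1, h2, add_zero]
  have htot : ∑ i : Fin N, ∑ j : Fin N, W i j = 2 * z ^ 2 * (Z.card : K) * ∑ i ∈ Z, DD i i := by
    rw [← Finset.sum_add_sum_compl Z (fun i => ∑ j, W i j)]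
    have h2 : ∑ i ∈ Zᶜ, ∑ j, W i j = 0 :=
      Finset.sum_eq_zero fun i hi => hout i (Finset.mem_compl.1 hi)
    rw [h2, add_zero, Finset.sum_congr rfl hin, Finset.sum_add_distrib, ← Finset.mul_sum,
      ← Finset.mul_sum, gB', mul_zero, add_zero, Finset.sum_add_distrib, Finset.sum_sub_distrib,
      ← Finset.mul_sum, ← Finset.mul_sum, gE', Finset.sum_const, nsmul_eq_mul]
    ring
  have hdiag : ∑ i, x i ^ 2 * DD i i = z ^ 2 * ∑ i ∈ Z, DD i i := by
    rw [← Finset.sum_add_sum_compl Z (fun i => x i ^ 2 * DD i i)]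
    have h2 : ∑ i ∈ Zᶜ, x i ^ 2 * DD i i = 0 := by
      apply Finset.sum_eq_zero
      intro i hi
      rw [gC' i (Finset.mem_compl.1 hi) i (Finset.mem_compl.1 hi), mul_zero]
    rw [h2, add_zero, Finset.mul_sum]
    apply Finset.sum_congr rfl
    intro i hi
    rw [hZz i hi]
  have h4 : (4 : K) * eval x (Dop (-((k : K) + 1)) g) = 0 := by
    rw [hev, hdiag]
    have h5 : (4 : K) * (-((k : K) + 1) / 2 * (z ^ 2 * ∑ i ∈ Z, DD i i) +
        ∑ i : Fin N, ∑ j ∈ univ.filter (fun j : Fin N => i < j), eval x (Pop i j g)) =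
        2 * z ^ 2 * ((Z.card : K) - (k + 1)) * ∑ i ∈ Z, DD i i := by
      have h6 : (4 : K) * ∑ i : Fin N, ∑ j ∈ univ.filter (fun j : Fin N => i < j),
          eval x (Pop i j g) = 2 * z ^ 2 * (Z.card : K) * ∑ i ∈ Z, DD i i := by
        rw [← htot, hdbl, ← hsum]
        ring
      rw [mul_add, h6]
      ring
    rw [h5]
    rcases Nat.lt_or_ge (k + 1) Z.card with hlt | hge
    · have h7 : ∑ i ∈ Z, DD i i = 0 := Finset.sum_eq_zero fun i hi => (gF' hlt i hi).2
      rw [h7, mul_zero]
    · have h8 : Z.card = k + 1 := le_antisymm hge hZc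
      rw [h8]
      push_cast
      ring
  exact (mul_eq_zero.1 h4).resolve_left (by norm_num)

end Clu
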