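import Pool.Agent.Helper204.CL.DefA
import Pool.Agent.Helper204.CL.DefB
import Pool.Agent.Helper204.CL.DefC
import Pool.Agent.Helper204.CL.P_P_coinc
import Pool.Agent.Helper204.CL.P_R_coinc
import Pool.Agent.Helper204.CL.P_PR_eval
import Pool.Agent.Helper204.CL.P_van_facts
import Pool.Agent.Helper204.CL.P_van_swap

set_option linter.unusedSectionVars false

open MvPolynomial Finset

noncomputable section

namespace Clu
variable {N : ℕ} {K : Type} [Field K] [CharZero K]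



/-- HINT: Let `x` be constant `= z` on `S`, `|S| = k+1`, and `Z = {i | x i = z} ⊇ S`. By `van_facts`, `van_swap`, `PR_eval`,
`R_coinc`: `Rop i j g` vanishes at `x` unless `i, j ∈ Z`, where it is `z (∂_i g - ∂_j g)(x)`. With `F = {i < m} ∩ Z`,
`B = {m ≤ i} ∩ Z`: the value is `z (α Σ_F ∂_i g + |B| Σ_F ∂_i g - |F| Σ_B ∂_j g) = z (α + |Z|) Σ_F ∂_i g`
(as `Σ_B ∂ g = - Σ_F ∂ g`), which is `0`. -/
theorem van_L (k m : ℕ) (g : MvPolynomial (Fin N) K) (hg : Van k g) : Van k (Lop m (-((k : K) + 1)) g) := by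
  classical
  intro S hS x hx
  have hSne : S.Nonempty := Finset.card_pos.1 (by omega)
  obtain ⟨s0, hs0⟩ := hSne
  obtain ⟨z, hz⟩ : ∃ z, z = x s0 := ⟨_, rfl⟩
  obtain ⟨Z, hZd⟩ : ∃ Z : Finset (Fin N), Z = univ.filter (fun i => x i = z) := ⟨_, rfl⟩
  have hmemZ : ∀ i, i ∈ Z ↔ x i = z := by
    intro i
    rw [hZd, Finset.mem_filter]
    exact ⟨fun h => h.2, fun h => ⟨Finset.mem_univ i, h⟩⟩
  have hSZ : S ⊆ Z := fun i hi => (hmemZ i).2 (by rw [hz]; exact hx i hi s0 hs0)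
  have hZ : k + 1 ≤ Z.card := hS ▸ Finset.card_le_card hSZ
  have hxZ : ∀ i ∈ Z, ∀ j ∈ Z, x i = x j := fun i hi j hj => by
    rw [(hmemZ i).1 hi, (hmemZ j).1 hj]
  obtain ⟨E0, E1, E2, -, -, E5⟩ := van_facts k g hg Z hZ x hxZ
  obtain ⟨d, hd⟩ : ∃ d : Fin N → K, d = fun i => eval x (pderiv i g) := ⟨_, rfl⟩
  have hdi : ∀ i, eval x (pderiv i g) = d i := fun i => by rw [hd]
  obtain ⟨e, he⟩ : ∃ e : Fin N → K, e = fun i => if i ∈ Z then 1 else 0 := ⟨_, rfl⟩
  have he1 : ∀ i ∈ Z, e i = 1 := fun i hi => by rw [he]; exact if_pos hi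
  have he0 : ∀ i, i ∉ Z → e i = 0 := fun i hi => by rw [he]; exact if_neg hi
  have hd0 : ∀ i, i ∉ Z → d i = 0 := fun i hi => by rw [← hdi]; exact E1 i hi
  have hR : ∀ i j : Fin N, i ≠ j → eval x (Rop i j g) = z * (d i * e j - e i * d j) := by
    intro i j hij
    by_cases hxe : x i = x j
    · rw [R_coinc i j hij g x hxe, hdi, hdi]
      by_cases hi : i ∈ Z
      · have hxi := (hmemZ i).1 hi
        have hj : j ∈ Z := (hmemZ j).2 (by rw [← hxe]; exact hxi)
        rw [he1 i hi, he1 j hj, (hmemZ j).1 hj]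
        ring
      · have hj : j ∉ Z := fun hj => hi ((hmemZ i).2 (by rw [hxe]; exact (hmemZ j).1 hj))
        rw [hd0 i hi, hd0 j hj]
        ring
    · rw [(PR_eval i j g x hxe).2, E0, van_swap k g hg Z hZ x hxZ i j]
      by_cases hi : i ∈ Z
      · have hj : j ∉ Z := fun hj => hxe (hxZ i hi j hj)
        rw [hd0 j hj, he0 j hj]
        ring
      · rw [hd0 i hi, he0 i hi]
        ring
  have hxd : ∀ i, x i * d i = z * d i := by
    intro i
    by_cases hi : i ∈ Z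
    · rw [(hmemZ i).1 hi]
    · rw [hd0 i hi]; ring
  -- sums
  have hsplit : ∀ f : Fin N → K, ∑ i ∈ univ.filter (fun i : Fin N => (i : ℕ) < m), f i +
      ∑ j ∈ univ.filter (fun j : Fin N => m ≤ (j : ℕ)), f j = ∑ i, f i := by
    intro f
    have h := Finset.sum_filter_add_sum_filter_not (univ : Finset (Fin N)) (fun i : Fin N => (i : ℕ) < m) f
    simp only [not_lt] at h
    exact h
  have hDsum : ∑ i, d i = 0 := by
    rw [← Finset.sum_subset (Finset.subset_univ Z) (fun i _ hi => hd0 i hi)]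
    rw [← E2]
    exact Finset.sum_congr rfl fun i _ => (hdi i).symm
  have hEsum : ∑ i, e i = (Z.card : K) := by
    rw [← Finset.sum_subset (Finset.subset_univ Z) (fun i _ hi => he0 i hi),
      Finset.sum_congr rfl he1, Finset.sum_const, nsmul_eq_mul, mul_one]
  obtain ⟨DF, hDF⟩ : ∃ DF, DF = ∑ i ∈ univ.filter (fun i : Fin N => (i : ℕ) < m), d i := ⟨_, rfl⟩
  obtain ⟨DB, hDB⟩ : ∃ DB, DB = ∑ i ∈ univ.filter (fun j : Fin N => m ≤ (j : ℕ)), d i := ⟨_, rfl⟩
  obtain ⟨eF, heF⟩ : ∃ eF, eF = ∑ i ∈ univ.filter (fun i : Fin N => (i : ℕ) < m), e i := ⟨_, rfl⟩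
  obtain ⟨eB, heB⟩ : ∃ eB, eB = ∑ i ∈ univ.filter (fun j : Fin N => m ≤ (j : ℕ)), e i := ⟨_, rfl⟩
  have h1 : DF + DB = 0 := by rw [hDF, hDB, hsplit, hDsum]
  have h2 : eF + eB = (Z.card : K) := by rw [heF, heB, hsplit, hEsum]
  have hS1 : ∑ i ∈ univ.filter (fun i : Fin N => (i : ℕ) < m), x i * d i = z * DF := by
    rw [hDF, Finset.mul_sum]
    exact Finset.sum_congr rfl fun i _ => hxd i
  have hS2 : ∑ i ∈ univ.filter (fun i : Fin N => (i : ℕ) < m),
      ∑ j ∈ univ.filter (fun j : Fin N => m ≤ (j : ℕ)), eval x (Rop i j g)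
      = z * (DF * eB - eF * DB) := by
    rw [hDF, heB, heF, hDB, Finset.sum_mul_sum, Finset.sum_mul_sum, ← Finset.sum_sub_distrib,
      Finset.mul_sum]
    refine Finset.sum_congr rfl fun i hi => ?_
    rw [← Finset.sum_sub_distrib, Finset.mul_sum]
    refine Finset.sum_congr rfl fun j hj => ?_
    rw [Finset.mem_filter] at hi hj
    have hij : i ≠ j := by
      rintro rfl
      omega
    exact hR i j hij
  have hL : eval x (Lop m (-((k : K) + 1)) g) = -((k : K) + 1) * (z * DF) + z * (DF * eB - eF * DB) := by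
    unfold Lop Sop
    rw [map_add, map_sub, smul_eval, smul_eval, E0, mul_zero, sub_zero, map_sum, ← hS1]
    simp only [LinearMap.sum_apply, map_sum, map_mul, eval_X, hdi]
    rw [hS2]
  rw [hL]
  have h3 : -((k : K) + 1) * (z * DF) + z * (DF * eB - eF * DB) = z * DF * ((Z.card : K) - ((k : K) + 1)) := by
    have h4 : DB = - DF := by linear_combination h1
    rw [h4, ← h2]
    ring
  rw [h3]
  rcases Nat.lt_or_ge (k + 1) Z.card with hlt | hge
  · have h5 : ∀ i, d i = 0 := by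
      intro i
      by_cases hi : i ∈ Z
      · rw [← hdi]; exact (E5 hlt i hi).1
      · exact hd0 i hi
    have h6 : DF = 0 := by
      rw [hDF]
      exact Finset.sum_eq_zero fun i _ => h5 i
    rw [h6]; ring
  · have h5 : Z.card = k + 1 := le_antisymm hge hZ
    rw [h5]
    push_cast
    ring

end Clu
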