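import Pool.Agent.Helper204.CL.DefA
import Pool.Agent.Helper204.CL.DefB
import Pool.Agent.Helper204.CL.DefC
import Pool.Agent.Helper204.CL.DefD
import Pool.Agent.Helper204.CL.DefR
import Pool.Agent.Helper204.CL.P_van_D
import Pool.Agent.Helper204.CL.P_van_L
import Pool.Agent.Helper204.CL.P_Dop_InV
import Pool.Agent.Helper204.CL.P_symm_InV
import Pool.Agent.Helper204.CL.P_comb_first
import Pool.Agent.Helper204.CL.P_symm_expand
import Pool.Agent.Helper204.CL.P_clust_iff
import Pool.Agent.Helper204.CL.P_Dm_eq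

set_option linter.unusedSectionVars false

open MvPolynomial Finset

noncomputable section

namespace Clu
variable {N : ℕ} {K : Type} [Field K] [CharZero K]



/-- HINT: `f = comb v` is symmetric and `Van k (f (first N m))` for `m ≤ N` (`clust_iff`). Put `G m = Dop α (f (first N m))`
(resp. `Lop m α (f (first N m))`), `α = -(k+1)`: in `InV m` (`symm_InV`, `Dop_InV`) and `Van k` (`van_D`, `van_L`). `symm_expand` gives
`v'` with `comb v' (first N m) = G m` and `v' W = coeff (pf W.part) (G W.m) = Dm ...` (`Dm_eq`). `comb v'` is in `clusterSpace`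
by `clust_iff`, `comb_first`. -/
theorem F_stable (k : ℕ) (v : SPart N →₀ ℂ) (hv : comb v ∈ clusterSpace N k) :
    (∃ v' : SPart N →₀ ℂ, comb v' ∈ clusterSpace N k ∧
      ∀ W, v' W = Dm AD BD RD (((-((k : ℚ) + 1) : ℚ)) : ℂ) v W) ∧
    (∃ v' : SPart N →₀ ℂ, comb v' ∈ clusterSpace N k ∧
      ∀ W, v' W = Dm AL BL RL (((-((k : ℚ) + 1) : ℚ)) : ℂ) v W) := by
  have hα : (((-((k : ℚ) + 1) : ℚ)) : ℂ) = -((k : ℂ) + 1) := by push_cast; ring
  rw [hα]
  obtain ⟨hs, hvan⟩ := (clust_iff k (comb v)).mp hv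
  refine ⟨?_, ?_⟩
  · obtain ⟨v', h1, h2⟩ := symm_expand (fun m => Dop (-((k : ℂ) + 1)) (comb v (first N m)))
      (fun m _ => (Dop_InV m (-((k : ℂ) + 1)) _ (symm_InV m _ hs)).1)
    refine ⟨v', (clust_iff k (comb v')).mpr ⟨(comb_first v').1, fun m hm => ?_⟩, fun W => ?_⟩
    · rw [h1 m hm]
      exact van_D k _ (hvan m hm)
    · rw [h2 W]
      exact (Dm_eq (-((k : ℂ) + 1)) v W).1
  · obtain ⟨v', h1, h2⟩ := symm_expand (fun m => Lop m (-((k : ℂ) + 1)) (comb v (first N m)))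
      (fun m _ => (Dop_InV m (-((k : ℂ) + 1)) _ (symm_InV m _ hs)).2)
    refine ⟨v', (clust_iff k (comb v')).mpr ⟨(comb_first v').1, fun m hm => ?_⟩, fun W => ?_⟩
    · rw [h1 m hm]
      exact van_L k m _ (hvan m hm)
    · rw [h2 W]
      exact (Dm_eq (-((k : ℂ) + 1)) v W).2

end Clu
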