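import Pool.Agent.Helper204.CL.DefA
import Pool.Agent.Helper204.CL.DefB
import Pool.Agent.Helper204.CL.DefC
import Pool.Agent.Helper204.CL.P_P_monomial

set_option linter.unusedSectionVars false

open MvPolynomial Finset

noncomputable section

namespace Clu
variable {N : ℕ} {K : Type} [Field K] [CharZero K]



/-- HINT: `P_monomial`; the other exponents `mv i c j _ η` differ from `η` at `i` (`j`). -/
theorem P_diag (i j : Fin N) (hij : i ≠ j) (η : Fin N →₀ ℕ) :
    coeff η (Pop i j (monomial η (1 : K))) = -((min (η i) (η j) : ℕ) : K) := by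
  classical
  have key : ∀ (a b : Fin N), a ≠ b → ∀ c d : ℕ, c ≠ η a → mv a c b d η ≠ η := by
    intro a b hab c d hc h
    have h1 := DFunLike.congr_fun h a
    simp only [mv, Finsupp.coe_update] at h1
    rw [Function.update_of_ne hab, Function.update_self] at h1
    exact hc h1
  rw [(P_monomial i j η 1).1, one_smul, pmon]
  rw [coeff_add, coeff_add, coeff_sum, coeff_sum]
  rw [Finset.sum_eq_zero, Finset.sum_eq_zero]
  · simp
  · intro c hc
    rw [Finset.mem_Ioo] at hc
    rw [coeff_smul, coeff_monomial, if_neg (key j i (Ne.symm hij) c _ (by omega)), smul_zero]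
  · intro c hc
    rw [Finset.mem_Ioo] at hc
    rw [coeff_smul, coeff_monomial, if_neg (key i j hij c _ (by omega)), smul_zero]

end Clu
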