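import Pool.Agent.Helper204.CL.DefA
import Pool.Agent.Helper204.CL.DefB
import Pool.Agent.Helper204.CL.DefC
import Pool.Agent.Helper204.CL.P_P_monomial

set_option linter.unusedSectionVars false

open MvPolynomial Finset

noncomputable section

namespace Clu
variable {N : ℕ} {K : Type} [Field K] [CharZero K]



theorem P_supp_split (i j : Fin N) (hij : i ≠ j) (f : Fin N → ℕ) :
    ∑ k, f k = f i + (f j + ∑ k ∈ (univ.erase i).erase j, f k) := by
  rw [Finset.add_sum_erase _ _ (Finset.mem_erase.mpr ⟨hij.symm, Finset.mem_univ j⟩),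
    Finset.add_sum_erase _ _ (Finset.mem_univ i)]

theorem P_supp_num (b p q u v : ℕ) (hu : u ≤ 1) (hv : v ≤ 1) :
    (b + 1 + p) ^ 2 + (b + 1 + q) ^ 2 + ((b + 1 + p + u) ^ 2 + (b + 1 + q + v) ^ 2) <
      (b + 2 + p + q) ^ 2 + b ^ 2 + ((b + 2 + p + q + u) ^ 2 + (b + v) ^ 2) := by
  interval_cases u <;> interval_cases v <;> nlinarith [Nat.zero_le (p * q), Nat.zero_le p,
    Nat.zero_le q, Nat.zero_le b]

theorem P_supp_sq (m : ℕ) (i j : Fin N) (hij : i ≠ j) (η : Fin N →₀ ℕ) (c : ℕ)
    (h1 : η j < c) (h2 : c < η i) :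
    LeV m (mv i c j (η i + η j - c) η) η ∧
      wt m (mv i c j (η i + η j - c) η) < wt m η := by
  set ν := mv i c j (η i + η j - c) η with hν
  have hi : ν i = c := by
    rw [hν, mv, Finsupp.coe_update, Function.update_of_ne hij, Finsupp.coe_update,
      Function.update_self]
  have hj : ν j = η i + η j - c := by
    rw [hν, mv, Finsupp.coe_update, Function.update_self]
  have hk : ∀ k, k ≠ i → k ≠ j → ν k = η k := by
    intro k hki hkj
    rw [hν, mv, Finsupp.coe_update, Function.update_of_ne hkj, Finsupp.coe_update,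
      Function.update_of_ne hki]
  have hR : ∀ G : ℕ → Fin N → ℕ, ∑ k ∈ (univ.erase i).erase j, G (ν k) k =
      ∑ k ∈ (univ.erase i).erase j, G (η k) k := by
    intro G
    apply Finset.sum_congr rfl
    intro k hk'
    rw [Finset.mem_erase, Finset.mem_erase] at hk'
    rw [hk k hk'.2.1 hk'.1]
  have hfer : ∀ k : Fin N, fer m k ≤ 1 := by
    intro k; unfold fer; split_ifs <;> omega
  have hui := hfer i
  have huj := hfer j
  refine ⟨⟨⟨?_, ?_⟩, ⟨?_, ?_⟩⟩, ?_⟩
  · rw [P_supp_split i j hij (fun k => ν k), P_supp_split i j hij (fun k => η k),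
      hR (fun n _ => n), hi, hj]
    omega
  · intro t
    rw [P_supp_split i j hij (fun k => ν k - t), P_supp_split i j hij (fun k => η k - t),
      hR (fun n _ => n - t), hi, hj]
    omega
  · rw [P_supp_split i j hij (fun k => ν k + fer m k), P_supp_split i j hij (fun k => η k + fer m k),
      hR (fun n k => n + fer m k), hi, hj]
    omega
  · intro t
    rw [P_supp_split i j hij (fun k => ν k + fer m k - t),
      P_supp_split i j hij (fun k => η k + fer m k - t),
      hR (fun n k => n + fer m k - t), hi, hj]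
    omega
  · unfold wt
    rw [P_supp_split i j hij (fun k => ν k ^ 2), P_supp_split i j hij (fun k => η k ^ 2),
      P_supp_split i j hij (fun k => (ν k + fer m k) ^ 2),
      P_supp_split i j hij (fun k => (η k + fer m k) ^ 2),
      hR (fun n _ => n ^ 2), hR (fun n k => (n + fer m k) ^ 2), hi, hj]
    obtain ⟨p, hp⟩ := Nat.exists_eq_add_of_le (Nat.succ_le_of_lt h1)
    obtain ⟨q, hq⟩ := Nat.exists_eq_add_of_le (Nat.succ_le_of_lt h2)
    have hc : c = η j + 1 + p := hp
    have ha : η i = η j + 2 + p + q := by omega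
    have hd : η i + η j - c = η j + 1 + q := by omega
    have key := P_supp_num (η j) p q (fer m i) (fer m j) hui huj
    rw [hd, hc, ha]
    linarith

/-- HINT: `P_monomial`; the exponents occurring are `η` and the squeezes `mv i c j (η i + η j - c) η` with
`η j < c < η i` (or with `i, j` exchanged). `LeV`: only the entries `i, j` change, sums are kept, and
`(c + u - t) + (a+b-c + v - t) ≤ (a + u - t) + (b + v - t)` (truncated, `u, v ≤ 1`, `b < c < a`; `omega`).
`wt` is strictly smaller: `c² + (a+b-c)² < a² + b²` etc. Split the sums over `Fin N` at `i` and `j`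
(`Finset.sum_eq_sum_diff_singleton_add` or `Fintype.sum_eq_add_sum_compl`, `Finset.add_sum_erase`). -/
theorem P_supp (m : ℕ) (i j : Fin N) (hij : i ≠ j) (η ν : Fin N →₀ ℕ)
    (h : coeff ν (Pop i j (monomial η (1 : K))) ≠ 0) :
    ν = η ∨ (LeV m ν η ∧ wt m ν < wt m η) := by
  by_cases hνη : ν = η
  · exact Or.inl hνη
  right
  by_contra hcon
  apply h
  rw [(P_monomial i j η 1).1, one_smul]
  unfold pmon
  rw [coeff_add, coeff_add, coeff_smul, coeff_monomial, if_neg (fun h => hνη h.symm), smul_zero,
    zero_add, coeff_sum, coeff_sum]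
  have e1 : ∑ c ∈ Ioo (η j) (η i), coeff ν (((c - η j : ℕ) : K) •
      monomial (mv i c j (η i + η j - c) η) (1 : K)) = 0 := by
    apply Finset.sum_eq_zero
    intro c hc
    rw [Finset.mem_Ioo] at hc
    have h1 : mv i c j (η i + η j - c) η ≠ ν := by
      intro h2
      apply hcon
      rw [← h2]
      exact P_supp_sq m i j hij η c hc.1 hc.2
    rw [coeff_smul, coeff_monomial, if_neg h1, smul_zero]
  have e2 : ∑ c ∈ Ioo (η i) (η j), coeff ν (((c - η i : ℕ) : K) •
      monomial (mv j c i (η i + η j - c) η) (1 : K)) = 0 := by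
    apply Finset.sum_eq_zero
    intro c hc
    rw [Finset.mem_Ioo] at hc
    have h1 : mv j c i (η i + η j - c) η ≠ ν := by
      intro h2
      apply hcon
      rw [← h2, add_comm (η i) (η j)]
      exact P_supp_sq m j i hij.symm η c hc.1 hc.2
    rw [coeff_smul, coeff_monomial, if_neg h1, smul_zero]
  rw [e1, e2, add_zero]

end Clu
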