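import Pool.Agent.Helper204.CL.DefA
import Pool.Agent.Helper204.CL.DefB
import Pool.Agent.Helper204.CL.DefC
import Pool.Agent.Helper204.CL.P_P_monomial

set_option linter.unusedSectionVars false

open MvPolynomial Finset

noncomputable section

namespace Clu
variable {N : ℕ} {K : Type} [Field K] [CharZero K]



theorem mv_at_fst (i j : Fin N) (hij : i ≠ j) (c d : ℕ) (η : Fin N →₀ ℕ) :
    mv i c j d η i = c := by
  classical
  unfold mv
  rw [Finsupp.coe_update, Function.update_of_ne hij, Finsupp.coe_update, Function.update_self]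

theorem mv_self_eq (i j : Fin N) (η : Fin N →₀ ℕ) : mv i (η i) j (η j) η = η := by
  classical
  unfold mv
  rw [Finsupp.update_self, Finsupp.update_self]

/-- HINT: `P_monomial`. -/
theorem R_diag (i j : Fin N) (hij : i ≠ j) (η : Fin N →₀ ℕ) :
    coeff η (Rop i j (monomial η (1 : K))) = -(if η i < η j then 1 else 0) := by
  classical
  rw [(P_monomial i j η 1).2, one_smul]
  unfold rmon
  rw [coeff_sub, coeff_sum, coeff_sum]
  have e1 : ∑ c ∈ Ico (η j) (η i),
      coeff η (monomial (mv i c j (η i + η j - c) η) (1 : K)) = 0 := by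
    refine Finset.sum_eq_zero fun c hc => ?_
    rw [coeff_monomial, if_neg]
    intro h
    have h2 := DFunLike.congr_fun h i
    rw [mv_at_fst i j hij] at h2
    have h3 := (Finset.mem_Ico.1 hc).2
    omega
  have e2 : ∑ c ∈ Ioc (η i) (η j),
      coeff η (monomial (mv j c i (η i + η j - c) η) (1 : K)) = if η i < η j then 1 else 0 := by
    by_cases h : η i < η j
    · rw [if_pos h, Finset.sum_eq_single (η j)]
      · rw [Nat.add_sub_cancel, mv_self_eq, coeff_monomial, if_pos rfl]
      · intro c _ hne
        rw [coeff_monomial, if_neg]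
        intro h1
        have h2 := DFunLike.congr_fun h1 j
        rw [mv_at_fst j i hij.symm] at h2
        exact hne h2
      · intro hne
        exact absurd (Finset.mem_Ioc.2 ⟨h, le_refl _⟩) hne
    · rw [if_neg h, Finset.Ioc_eq_empty h, Finset.sum_empty]
  rw [e1, e2, zero_sub]

end Clu
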