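import Pool.Agent.Helper204.CL.DefA
import Pool.Agent.Helper204.CL.DefB
import Pool.Agent.Helper204.CL.DefC
import Pool.Agent.Helper204.CL.P_P_monomial

set_option linter.unusedSectionVars false

open MvPolynomial Finset

noncomputable section

namespace Clu
variable {N : ℕ} {K : Type} [Field K] [CharZero K]



theorem R_supp_sum (i j : Fin N) (hij : i ≠ j) (F : Fin N → ℕ → ℕ) (ν η : Fin N → ℕ)
    (hoth : ∀ x, x ≠ i → x ≠ j → ν x = η x) :
    ∃ S, ∑ x, F x (ν x) = F i (ν i) + F j (ν j) + S ∧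
      ∑ x, F x (η x) = F i (η i) + F j (η j) + S := by
  refine ⟨∑ x ∈ (univ.erase i).erase j, F x (η x), ?_, ?_⟩
  · rw [← Finset.add_sum_erase univ (fun x => F x (ν x)) (Finset.mem_univ i),
      ← Finset.add_sum_erase (univ.erase i) (fun x => F x (ν x))
        (Finset.mem_erase.mpr ⟨hij.symm, Finset.mem_univ j⟩), add_assoc]
    congr 2
    apply Finset.sum_congr rfl
    intro x hx
    rw [Finset.mem_erase, Finset.mem_erase] at hx
    rw [hoth x hx.2.1 hx.1]
  · rw [← Finset.add_sum_erase univ (fun x => F x (η x)) (Finset.mem_univ i),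
      ← Finset.add_sum_erase (univ.erase i) (fun x => F x (η x))
        (Finset.mem_erase.mpr ⟨hij.symm, Finset.mem_univ j⟩), add_assoc]

theorem R_supp_core (m : ℕ) (i j : Fin N) (hi : (i : ℕ) < m) (hj : m ≤ (j : ℕ))
    (η ν : Fin N → ℕ) (hoth : ∀ x, x ≠ i → x ≠ j → ν x = η x) (hs : ν i + ν j = η i + η j)
    (h1 : ∀ t, (ν i - t) + (ν j - t) ≤ (η i - t) + (η j - t))
    (h2 : ∀ t, (ν i + 1 - t) + (ν j - t) ≤ (η i + 1 - t) + (η j - t))
    (h3 : ν i ^ 2 + ν j ^ 2 + ((ν i + 1) ^ 2 + ν j ^ 2) <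
      η i ^ 2 + η j ^ 2 + ((η i + 1) ^ 2 + η j ^ 2)) :
    LeV m ν η ∧ wt m ν < wt m η := by
  have hij : i ≠ j := by
    rintro rfl
    omega
  have f1 : fer m i = 1 := by unfold fer; rw [if_pos hi]
  have f2 : fer m j = 0 := by unfold fer; rw [if_neg (by omega)]
  refine ⟨⟨⟨?_, fun t => ?_⟩, ?_, fun t => ?_⟩, ?_⟩
  · obtain ⟨S, e1, e2⟩ := R_supp_sum i j hij (fun _ v => v) ν η hoth
    rw [e1, e2]
    omega
  · obtain ⟨S, e1, e2⟩ := R_supp_sum i j hij (fun _ v => v - t) ν η hoth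
    rw [e1, e2]
    have := h1 t
    omega
  · obtain ⟨S, e1, e2⟩ := R_supp_sum i j hij (fun x v => v + fer m x) ν η hoth
    rw [e1, e2]
    simp only [f1, f2]
    omega
  · obtain ⟨S, e1, e2⟩ := R_supp_sum i j hij (fun x v => v + fer m x - t) ν η hoth
    rw [e1, e2]
    have := h2 t
    simp only [f1, f2]
    omega
  · unfold wt
    obtain ⟨S, e1, e2⟩ := R_supp_sum i j hij (fun _ v => v ^ 2) ν η hoth
    obtain ⟨S', e1', e2'⟩ := R_supp_sum i j hij (fun x v => (v + fer m x) ^ 2) ν η hoth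
    rw [e1, e2, e1', e2', f1, f2]
    simp only [add_zero]
    omega

theorem R_supp_mv (i j : Fin N) (c d : ℕ) (hij : i ≠ j) (η : Fin N →₀ ℕ) :
    mv i c j d η i = c ∧ mv i c j d η j = d ∧ ∀ x, x ≠ i → x ≠ j → mv i c j d η x = η x := by
  classical
  unfold mv
  refine ⟨?_, ?_, ?_⟩
  · rw [Finsupp.coe_update, Function.update_of_ne hij, Finsupp.coe_update, Function.update_self]
  · rw [Finsupp.coe_update, Function.update_self]
  · intro x hx hx'
    rw [Finsupp.coe_update, Function.update_of_ne hx', Finsupp.coe_update,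
      Function.update_of_ne hx]

/-- HINT: like `P_supp`: exponents `mv i c j (η i + η j - c) η` with `η j ≤ c < η i`, and `mv j c i (η i + η j - c) η` with
`η i < c ≤ η j` (`c = η j` gives `η` itself). Here `fer m i = 1`, `fer m j = 0`. -/
theorem R_supp (m : ℕ) (i j : Fin N) (hi : (i : ℕ) < m) (hj : m ≤ (j : ℕ)) (η ν : Fin N →₀ ℕ)
    (h : coeff ν (Rop i j (monomial η (1 : K))) ≠ 0) :
    ν = η ∨ (LeV m ν η ∧ wt m ν < wt m η) := by
  classical
  have hij : i ≠ j := by
    rintro rfl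
    omega
  rw [(P_monomial i j η (1 : K)).2, one_smul] at h
  unfold rmon at h
  rw [coeff_sub, coeff_sum, coeff_sum] at h
  have hcases : (∃ c ∈ Ico (η j) (η i), mv i c j (η i + η j - c) η = ν) ∨
      (∃ c ∈ Ioc (η i) (η j), mv j c i (η i + η j - c) η = ν) := by
    by_contra hcon
    push Not at hcon
    apply h
    rw [Finset.sum_eq_zero, Finset.sum_eq_zero, sub_zero]
    · intro c hc
      rw [coeff_monomial, if_neg (hcon.2 c hc)]
    · intro c hc
      rw [coeff_monomial, if_neg (hcon.1 c hc)]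
  rcases hcases with ⟨c, hc, rfl⟩ | ⟨c, hc, rfl⟩
  · rw [Finset.mem_Ico] at hc
    right
    obtain ⟨m1, m2, m3⟩ := R_supp_mv i j c (η i + η j - c) hij η
    obtain ⟨s, hs1, hs2⟩ : ∃ s, η i = c + (s + 1) ∧ True := ⟨η i - c - 1, by omega, trivial⟩
    obtain ⟨u, hu⟩ : ∃ u, c = η j + u := ⟨c - η j, by omega⟩
    apply R_supp_core m i j hi hj η _ m3
    · rw [m1, m2]; omega
    · intro t; rw [m1, m2]; omega
    · intro t; rw [m1, m2]; omega
    · rw [m1, m2]
      have e1 : η i + η j - c = η j + (s + 1) := by omega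
      rw [e1, hs1]
      rw [hu]
      nlinarith [Nat.zero_le (s * u), Nat.zero_le s, Nat.zero_le u]
  · rw [Finset.mem_Ioc] at hc
    obtain ⟨m1, m2, m3⟩ := R_supp_mv j i c (η i + η j - c) hij.symm η
    by_cases hcj : c = η j
    · left
      ext x
      by_cases hxi : x = i
      · subst hxi
        rw [m2]; omega
      · by_cases hxj : x = j
        · subst hxj
          rw [m1, hcj]
        · exact m3 x hxj hxi
    · right
      obtain ⟨s, hs1⟩ : ∃ s, η j = c + (s + 1) := ⟨η j - c - 1, by omega⟩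
      obtain ⟨u, hu⟩ : ∃ u, c = η i + (u + 1) := ⟨c - η i - 1, by omega⟩
      apply R_supp_core m i j hi hj η _ (fun x hx hx' => m3 x hx' hx)
      · rw [m1, m2]; omega
      · intro t; rw [m1, m2]; omega
      · intro t; rw [m1, m2]; omega
      · rw [m1, m2]
        have e1 : η i + η j - c = η i + (s + 1) := by omega
        rw [e1, hs1, hu]
        nlinarith [Nat.zero_le (s * u), Nat.zero_le s, Nat.zero_le u]

end Clu
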