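import Pool.Agent.Helper204.CL.DefA
import Pool.Agent.Helper204.CL.DefB
import Pool.Agent.Helper204.CL.DefC
import Pool.Agent.Helper204.CL.P_P_supp
import Pool.Agent.Helper204.CL.P_P_diag
import Pool.Agent.Helper204.CL.P_R_supp
import Pool.Agent.Helper204.CL.P_R_diag

set_option linter.unusedSectionVars false

open MvPolynomial Finset

noncomputable section

namespace Clu
variable {N : ℕ} {K : Type} [Field K] [CharZero K]



/-- HINT: `Qop = Σ_{i<j} Pop i j`, `Sop m = Σ_{i<m≤j} Rop i j`; `P_supp`, `P_diag`, `R_supp`, `R_diag`. -/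
theorem Q_supp (m : ℕ) (η ν : Fin N →₀ ℕ) :
    (coeff ν (Qop (monomial η (1 : K))) ≠ 0 → ν = η ∨ (LeV m ν η ∧ wt m ν < wt m η)) ∧
    (coeff ν (Sop m (monomial η (1 : K))) ≠ 0 → ν = η ∨ (LeV m ν η ∧ wt m ν < wt m η)) ∧
    coeff η (Qop (monomial η (1 : K))) = -((mn η : ℕ) : K) ∧
    coeff η (Sop m (monomial η (1 : K))) = -((cr m η : ℕ) : K) := by
  have hQ : ∀ ν : Fin N →₀ ℕ, coeff ν (Qop (monomial η (1 : K))) =
      ∑ i : Fin N, ∑ j ∈ univ.filter (fun j : Fin N => i < j),
        coeff ν (Pop i j (monomial η (1 : K))) := by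
    intro ν
    unfold Qop
    simp only [LinearMap.sum_apply, coeff_sum]
  have hS : ∀ ν : Fin N →₀ ℕ, coeff ν (Sop m (monomial η (1 : K))) =
      ∑ i ∈ univ.filter (fun i : Fin N => (i : ℕ) < m),
        ∑ j ∈ univ.filter (fun j : Fin N => m ≤ (j : ℕ)),
          coeff ν (Rop i j (monomial η (1 : K))) := by
    intro ν
    unfold Sop
    simp only [LinearMap.sum_apply, coeff_sum]
  refine ⟨?_, ?_, ?_, ?_⟩
  · intro h
    rw [hQ] at h
    obtain ⟨i, _, hi⟩ := Finset.exists_ne_zero_of_sum_ne_zero h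
    obtain ⟨j, hj, hij⟩ := Finset.exists_ne_zero_of_sum_ne_zero hi
    exact P_supp m i j (Finset.mem_filter.mp hj).2.ne η ν hij
  · intro h
    rw [hS] at h
    obtain ⟨i, hi, hi'⟩ := Finset.exists_ne_zero_of_sum_ne_zero h
    obtain ⟨j, hj, hij⟩ := Finset.exists_ne_zero_of_sum_ne_zero hi'
    exact R_supp m i j (Finset.mem_filter.mp hi).2 (Finset.mem_filter.mp hj).2 η ν hij
  · rw [hQ]
    unfold mn
    rw [Nat.cast_sum, ← Finset.sum_neg_distrib]
    refine Finset.sum_congr rfl fun i _ => ?_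
    rw [Nat.cast_sum, ← Finset.sum_neg_distrib]
    refine Finset.sum_congr rfl fun j hj => ?_
    exact P_diag i j (Finset.mem_filter.mp hj).2.ne η
  · rw [hS]
    unfold cr
    rw [Nat.cast_sum, ← Finset.sum_neg_distrib]
    refine Finset.sum_congr rfl fun i hi => ?_
    rw [Nat.cast_sum, ← Finset.sum_neg_distrib]
    refine Finset.sum_congr rfl fun j hj => ?_
    have h1 := (Finset.mem_filter.mp hi).2
    have h2 := (Finset.mem_filter.mp hj).2
    rw [R_diag i j (by rintro rfl; omega) η]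
    push_cast
    rfl

end Clu
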