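import Pool.Agent.Helper204.CL.DefA
import Pool.Agent.Helper204.CL.DefB
import Pool.Agent.Helper204.CL.DefC
import Pool.Agent.Helper204.CL.DefD
import Pool.Agent.Helper204.CL.P_Q_supp
import Pool.Agent.Helper204.CL.P_le_iff
import Pool.Agent.Helper204.CL.P_mu_supp
import Pool.Agent.Helper204.CL.P_mu_coeff

set_option linter.unusedSectionVars false

open MvPolynomial Finset

noncomputable section

namespace Clu
variable {N : ℕ} {K : Type} [Field K] [CharZero K]



theorem RD_lt_cx {x y z : Fin N → ℕ} (σ : Equiv.Perm (Fin N)) (h : Cx x y)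
    (hz : ∀ i, y (σ i) = z i) : Cx x z := by
  obtain ⟨h1, h2⟩ := h
  refine ⟨?_, fun t => ?_⟩
  · rw [h1, ← Equiv.sum_comp σ y]
    exact Finset.sum_congr rfl fun i _ => hz i
  · refine (h2 t).trans (le_of_eq ?_)
    rw [← Equiv.sum_comp σ (fun i => y i - t)]
    exact Finset.sum_congr rfl fun i _ => by rw [hz i]

theorem RD_lt_ex (T : MvPolynomial (Fin N) ℚ →ₗ[ℚ] MvPolynomial (Fin N) ℚ)
    (g : MvPolynomial (Fin N) ℚ) (ν : Fin N →₀ ℕ) (h : coeff ν (T g) ≠ 0) :
    ∃ η, coeff η g ≠ 0 ∧ coeff ν (T (monomial η (1 : ℚ))) ≠ 0 := by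
  by_contra hcon
  apply h
  have h1 : T g = ∑ η ∈ g.support, coeff η g • T (monomial η (1 : ℚ)) := by
    conv_lhs => rw [← support_sum_monomial_coeff g]
    rw [map_sum]
    refine Finset.sum_congr rfl fun η _ => ?_
    rw [← map_smul]
    congr 1
    rw [smul_monomial, smul_eq_mul, mul_one]
  rw [h1, coeff_sum]
  refine Finset.sum_eq_zero fun η hη => ?_
  rw [coeff_smul, smul_eq_mul]
  have h2 : coeff η g ≠ 0 := mem_support_iff.1 hη
  by_cases h3 : coeff ν (T (monomial η (1 : ℚ))) = 0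
  · rw [h3, mul_zero]
  · exact absurd ⟨η, h2, h3⟩ hcon

theorem RD_lt_gen (U W : SPart N) (T : MvPolynomial (Fin N) ℚ →ₗ[ℚ] MvPolynomial (Fin N) ℚ)
    (hT : ∀ η ν : Fin N →₀ ℕ, coeff ν (T (monomial η (1 : ℚ))) ≠ 0 → ν = η ∨ LeV U.m ν η)
    (hm : W.m = U.m) (hne : W ≠ U) (h : coeff (pf W.part) (T (mu ℚ U)) ≠ 0) : ltS W U := by
  refine ⟨?_, hne⟩
  obtain ⟨η, h1, h2⟩ := RD_lt_ex T _ _ h
  rcases hT η _ h2 with h3 | h3
  · exfalso
    rw [← h3, mu_coeff U W hm] at h1
    exact h1 (if_neg hne)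
  · rw [le_iff]
    refine ⟨hm, ?_⟩
    obtain ⟨σ, hσ, hv⟩ := mu_supp (K := ℚ) U η h1
    refine ⟨RD_lt_cx σ h3.1 hv, RD_lt_cx σ h3.2 fun i => ?_⟩
    change η (σ i) + fer U.m (σ i) = U.part i + fer U.m i
    rw [hv i]
    congr 1
    unfold fer
    by_cases hi : (i : ℕ) < U.m
    · rw [if_pos hi, if_pos ((hσ i).2 hi)]
    · rw [if_neg hi, if_neg (fun h => hi ((hσ i).1 h))]

/-- HINT: if `RD U W ≠ 0` then `W.m = U.m`, `W ≠ U` and some monomial `η` of `mu ℚ U` has `coeff (pf W.part) (Qop (monomial η 1)) ≠ 0`;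
by `mu_supp` `η` is a rearrangement of `U.part` preserving `{· < m}`; by `Q_supp` either `pf W.part = η`, then `W = U` (both
sorted; `mu_coeff`), or `LeV m W.part η`, and `LeV m W.part U.part` as the sums defining `LeV` are invariant under such
rearrangements. Then `le_iff`. -/
theorem RD_lt (U W : SPart N) : (RD U W ≠ 0 → ltS W U) ∧ (RL U W ≠ 0 → ltS W U) := by
  constructor
  · intro h
    unfold RD at h
    split_ifs at h with hc
    · exact RD_lt_gen U W Qop
        (fun η ν hη => ((Q_supp U.m η ν).1 hη).imp id fun h => h.1) hc.1 hc.2 h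
    · exact absurd rfl h
  · intro h
    unfold RL at h
    split_ifs at h with hc
    · exact RD_lt_gen U W (Sop U.m)
        (fun η ν hη => ((Q_supp U.m η ν).2.1 hη).imp id fun h => h.1) hc.1 hc.2 h
    · exact absurd rfl h

end Clu
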