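import Pool.Agent.Helper204.CL.DefR

set_option linter.unusedSectionVars false

open MvPolynomial Finset

noncomputable section

namespace Clu



/-- HINT: Linear independence: in a nontrivial relation take `L` with nonzero coefficient and `w L` maximal; the
coefficient at `L` of the combination is the coefficient of `p L` (the other `p L'` with `p L' L ≠ 0` have `w L < w L'`).
Spanning: for `f ∈ F` show `f ∈ span` by strong induction on (the maximum `M` of `w` over the support, then the number of
support elements with `w = M`): for `L` in the support with `w L = M`: `L ∈ S` by `U`; `f - f L • p L ∈ F` has the same or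
smaller maximum and one support element less of weight `M`. -/
theorem basis_main {ι : Type} {K : Type} [Field K] (w : ι → ℕ) (S : Set ι)
    (F : Submodule K (ι →₀ K)) (p : ι → (ι →₀ K))
    (hp : ∀ L ∈ S, p L ∈ F ∧ p L L = 1 ∧ ∀ W, p L W ≠ 0 → W = L ∨ w W < w L)
    (U : ∀ f ∈ F, ∀ L, (∀ W, w L < w W → f W = 0) → L ∉ S → f L = 0) :
    LinearIndependent K (fun L : S => p L) ∧ Submodule.span K (Set.range (fun L : S => p L)) = F := by
  classical
  constructor
  · rw [linearIndependent_iff]
    intro l hl
    by_contra hne
    have hsupp : l.support.Nonempty := Finsupp.support_nonempty_iff.2 hne
    obtain ⟨L, hL, hmax⟩ := Finset.exists_max_image l.support (fun L : S => w L) hsupp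
    have h1 : (Finsupp.linearCombination K (fun L : S => p L) l) (L : ι) = l L := by
      rw [Finsupp.linearCombination_apply, Finsupp.sum, Finsupp.finset_sum_apply,
        Finset.sum_eq_single L]
      · rw [Finsupp.smul_apply, (hp L L.2).2.1, smul_eq_mul, mul_one]
      · intro L' hL' hne'
        rw [Finsupp.smul_apply]
        have h2 : p L' (L : ι) = 0 := by
          by_contra h3
          rcases (hp L' L'.2).2.2 L h3 with h4 | h4
          · exact hne' (Subtype.ext h4).symm
          · exact absurd (hmax L' hL') (not_le.2 h4)
        rw [h2, smul_zero]
      · intro h; exact absurd hL h
    rw [hl, Finsupp.zero_apply] at h1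
    exact (Finsupp.mem_support_iff.1 hL) h1.symm
  · apply le_antisymm
    · rw [Submodule.span_le]
      rintro _ ⟨L, rfl⟩
      exact (hp L L.2).1
    · have claim : ∀ M : ℕ, ∀ f ∈ F, (∀ W, M ≤ w W → f W = 0) →
          f ∈ Submodule.span K (Set.range (fun L : S => p L)) := by
        intro M
        induction M with
        | zero =>
          intro f _ hf
          have : f = 0 := Finsupp.ext fun W => hf W (Nat.zero_le _)
          rw [this]
          exact Submodule.zero_mem _
        | succ M ih =>
          intro f hfF hf
          set T := f.support.filter (fun L => w L = M) with hT
          have hTS : ∀ L ∈ T, L ∈ S := by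
            intro L hL
            by_contra hLS
            obtain ⟨hL1, hL2⟩ := Finset.mem_filter.1 hL
            exact (Finsupp.mem_support_iff.1 hL1) (U f hfF L (fun W hW => hf W (by omega)) hLS)
          have hsumspan : ∑ L ∈ T, f L • p L ∈ Submodule.span K (Set.range (fun L : S => p L)) :=
            Submodule.sum_mem _ fun L hL => Submodule.smul_mem _ _
              (Submodule.subset_span ⟨⟨L, hTS L hL⟩, rfl⟩)
          have hsumF : ∑ L ∈ T, f L • p L ∈ F :=
            Submodule.sum_mem _ fun L hL => Submodule.smul_mem _ _ (hp L (hTS L hL)).1
          have hg : f - ∑ L ∈ T, f L • p L ∈ Submodule.span K (Set.range (fun L : S => p L)) := by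
            apply ih _ (Submodule.sub_mem _ hfF hsumF)
            intro W hW
            rw [Finsupp.sub_apply, Finsupp.finset_sum_apply]
            by_cases hWT : W ∈ T
            · rw [Finset.sum_eq_single W]
              · rw [Finsupp.smul_apply, (hp W (hTS W hWT)).2.1, smul_eq_mul, mul_one, sub_self]
              · intro L hL hne
                rw [Finsupp.smul_apply]
                have h2 : p L W = 0 := by
                  by_contra h3
                  rcases (hp L (hTS L hL)).2.2 W h3 with h4 | h4
                  · exact hne h4.symm
                  · have := (Finset.mem_filter.1 hL).2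
                    omega
                rw [h2, smul_zero]
              · intro h; exact absurd hWT h
            · have h1 : f W = 0 := by
                by_cases hfW : f W = 0
                · exact hfW
                · apply hf W
                  have h2 : w W ≠ M := fun h => hWT (Finset.mem_filter.2
                    ⟨Finsupp.mem_support_iff.2 hfW, h⟩)
                  omega
              rw [h1, zero_sub, neg_eq_zero]
              apply Finset.sum_eq_zero
              intro L hL
              rw [Finsupp.smul_apply]
              have h2 : p L W = 0 := by
                by_contra h3
                rcases (hp L (hTS L hL)).2.2 W h3 with h4 | h4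
                · exact hWT (h4 ▸ hL)
                · have := (Finset.mem_filter.1 hL).2
                  omega
              rw [h2, smul_zero]
          have := Submodule.add_mem _ hg hsumspan
          rwa [sub_add_cancel] at this
      intro f hf
      apply claim (f.support.sup w + 1) f hf
      intro W hW
      by_contra hfW
      have := Finset.le_sup (f := w) (Finsupp.mem_support_iff.2 hfW)
      omega

end Clu
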