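import Pool.Agent.Helper204.CL.DefA
import Pool.Agent.Helper204.CL.DefB
import Pool.Agent.Helper204.CL.DefC
import Pool.Agent.Helper204.CL.DefD
import Pool.Agent.Helper204.CL.P_le_iff

set_option linter.unusedSectionVars false

open MvPolynomial Finset

noncomputable section

namespace Clu
variable {N : ℕ} {K : Type} [Field K] [CharZero K]



/-- HINT: `W ≤ U` gives `W.m = U.m` and `Σ W.part = Σ U.part =: n`, so all parts are `≤ n`: inject into
`Fin N → Fin (n+1)` by `W ↦ W.part` (with `W.m` fixed). -/
theorem fin_lower (U : SPart N) : {W | ltS W U}.Finite := by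
  have ht : (Set.Iic (fun _ : Fin N => ∑ i, U.part i)).Finite := Set.finite_Iic _
  refine Set.Finite.of_injOn (f := fun W : SPart N => W.part) ?_ ?_ ht
  · intro W hW
    have h := (le_iff W U).1 hW.1
    intro i
    show W.part i ≤ ∑ i, U.part i
    rw [← h.2.1.1]
    exact Finset.single_le_sum (fun j _ => Nat.zero_le (W.part j)) (Finset.mem_univ i)
  · intro W hW W' hW' he
    have h := ((le_iff W U).1 hW.1).1
    have h' := ((le_iff W' U).1 hW'.1).1
    exact SPart.ext (h.trans h'.symm) he

end Clu
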