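import Pool.Agent.Helper204.CL.DefA
import Pool.Agent.Helper204.CL.DefB
import Pool.Agent.Helper204.CL.DefC

set_option linter.unusedSectionVars false

open MvPolynomial Finset

noncomputable section

namespace Clu
variable {N : ℕ} {K : Type} [Field K] [CharZero K]



theorem DL_coeff_aux1 (g : MvPolynomial (Fin N) K) (ν : Fin N →₀ ℕ) (i : Fin N) :
    coeff ν (X i * pderiv i g) = (ν i : K) * coeff ν g := by
  induction g using MvPolynomial.induction_on' with
  | monomial u a =>
    rw [pderiv_monomial, X, monomial_mul, coeff_monomial, coeff_monomial, one_mul]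
    by_cases hu : u i = 0
    · by_cases h : u = ν
      · subst h
        simp [hu]
      · simp [hu, h]
    · have h1 : Finsupp.single i 1 + (u - Finsupp.single i 1) = u := by
        ext j
        by_cases hj : j = i
        · subst hj
          simp
          omega
        · simp [Finsupp.single_eq_of_ne hj]
      rw [h1]
      by_cases h : u = ν
      · subst h
        simp [mul_comm]
      · simp [h]
  | add p q hp hq =>
    rw [map_add, mul_add, coeff_add, coeff_add, hp, hq]
    ring

theorem DL_coeff_aux2 (g : MvPolynomial (Fin N) K) (ν : Fin N →₀ ℕ) (i : Fin N) :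
    coeff ν (X i ^ 2 * pderiv i (pderiv i g)) = ((ν i * (ν i - 1) : ℕ) : K) * coeff ν g := by
  have h1 : X i ^ 2 * pderiv i (pderiv i g) =
      X i * pderiv i (X i * pderiv i g) - X i * pderiv i g := by
    rw [Derivation.leibniz, pderiv_X_self, smul_eq_mul, smul_eq_mul]
    ring
  rw [h1, coeff_sub, DL_coeff_aux1, DL_coeff_aux1]
  have h2 : ((ν i * (ν i - 1) : ℕ) : K) = (ν i : K) * ((ν i : K) - 1) := by
    rcases Nat.eq_zero_or_pos (ν i) with h | h
    · simp [h]
    · rw [Nat.cast_mul, Nat.cast_sub h, Nat.cast_one]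
  rw [h2]
  ring

/-- HINT: `coeff ν (X i ^ 2 * pderiv i (pderiv i g)) = ν i (ν i - 1) coeff ν g`,
`coeff ν (X i * pderiv i g) = ν i * coeff ν g` (check on monomials by linearity). -/
theorem DL_coeff (m : ℕ) (α : K) (g : MvPolynomial (Fin N) K) (ν : Fin N →₀ ℕ) :
    coeff ν (Dop α g) = α / 2 * ((sq1 ν : ℕ) : K) * coeff ν g + coeff ν (Qop g) ∧
    coeff ν (Lop m α g) = (α * ((fs m ν : ℕ) : K) - ((m.choose 2 : ℕ) : K)) * coeff ν g + coeff ν (Sop m g) := by
  constructor
  · unfold Dop sq1
    rw [coeff_add, coeff_smul, coeff_sum]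
    simp only [DL_coeff_aux2]
    rw [← Finset.sum_mul, smul_eq_mul, Nat.cast_sum]
    ring
  · unfold Lop fs
    rw [coeff_add, coeff_sub, coeff_smul, coeff_smul, coeff_sum]
    simp only [DL_coeff_aux1]
    rw [← Finset.sum_mul, smul_eq_mul, smul_eq_mul, Nat.cast_sum]
    ring

end Clu
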