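import Pool.Agent.Helper204.CL.DefA
import Pool.Agent.Helper204.CL.DefB
import Pool.Agent.Helper204.CL.DefC
import Pool.Agent.Helper204.CL.P_P_monomial

set_option linter.unusedSectionVars false

open MvPolynomial Finset

noncomputable section

namespace Clu
variable {N : ℕ} {K : Type} [Field K] [CharZero K]



theorem QSm_smul (a : ℚ) (p : MvPolynomial (Fin N) ℚ) :
    MvPolynomial.map (Rat.castHom K) (a • p) = (Rat.castHom K a) • MvPolynomial.map (Rat.castHom K) p := by
  rw [MvPolynomial.smul_eq_C_mul, MvPolynomial.smul_eq_C_mul, map_mul, MvPolynomial.map_C]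

theorem QSm_pmon (i j : Fin N) (η : Fin N →₀ ℕ) :
    MvPolynomial.map (Rat.castHom K) (pmon ℚ i j η) = pmon K i j η := by
  unfold pmon
  simp only [map_add, map_sum, QSm_smul, MvPolynomial.map_monomial, map_neg, map_natCast, map_one]

theorem QSm_rmon (i j : Fin N) (η : Fin N →₀ ℕ) :
    MvPolynomial.map (Rat.castHom K) (rmon ℚ i j η) = rmon K i j η := by
  unfold rmon
  simp only [map_sub, map_sum, MvPolynomial.map_monomial, map_one]

theorem QSm_op (i j : Fin N) (g : MvPolynomial (Fin N) ℚ) :
    MvPolynomial.map (Rat.castHom K) (Pop i j g) = Pop i j (MvPolynomial.map (Rat.castHom K) g) ∧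
    MvPolynomial.map (Rat.castHom K) (Rop i j g) = Rop i j (MvPolynomial.map (Rat.castHom K) g) := by
  induction g using MvPolynomial.induction_on' with
  | monomial u a =>
    rw [(P_monomial i j u a).1, (P_monomial i j u a).2, MvPolynomial.map_monomial,
      (P_monomial i j u _).1, (P_monomial i j u _).2, QSm_smul, QSm_smul, QSm_pmon, QSm_rmon]
    exact ⟨rfl, rfl⟩
  | add p q hp hq =>
    simp only [map_add]
    rw [hp.1, hp.2, hq.1, hq.2]
    exact ⟨rfl, rfl⟩

/-- HINT: linear in `g`, check on monomials with `P_monomial` (the coefficients of `pmon`, `rmon` are integers). -/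
theorem QS_map (m : ℕ) (g : MvPolynomial (Fin N) ℚ) :
    MvPolynomial.map (Rat.castHom K) (Qop g) = Qop (MvPolynomial.map (Rat.castHom K) g) ∧
    MvPolynomial.map (Rat.castHom K) (Sop m g) = Sop m (MvPolynomial.map (Rat.castHom K) g) := by
  constructor
  · unfold Qop
    simp only [LinearMap.sum_apply, map_sum]
    exact Finset.sum_congr rfl fun i _ => Finset.sum_congr rfl fun j _ => (QSm_op i j g).1
  · unfold Sop
    simp only [LinearMap.sum_apply, map_sum]
    exact Finset.sum_congr rfl fun i _ => Finset.sum_congr rfl fun j _ => (QSm_op i j g).2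

end Clu
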