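import Pool.Agent.Helper204.CL.DefA
import Pool.Agent.Helper204.CL.DefB
import Pool.Agent.Helper204.CL.DefC
import Pool.Agent.Helper204.CL.DefD
import Pool.Agent.Helper204.CL.P_Q_supp
import Pool.Agent.Helper204.CL.P_mu_supp
import Pool.Agent.Helper204.CL.P_mu_coeff

set_option linter.unusedSectionVars false

open MvPolynomial Finset

noncomputable section

namespace Clu
variable {N : ℕ} {K : Type} [Field K] [CharZero K]



theorem j26061_wt (m : ℕ) (η : Fin N →₀ ℕ) (x : Fin N → ℕ) (σ : Equiv.Perm (Fin N))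
    (hσ : Pres m σ) (h : ∀ i, η (σ i) = x i) : wt m η = wt m x := by
  unfold wt
  have h1 : ∑ i, η i ^ 2 = ∑ i, x i ^ 2 := by
    rw [← Equiv.sum_comp σ (fun i => η i ^ 2)]
    exact Finset.sum_congr rfl fun i _ => by rw [h i]
  have h2 : ∑ i, (η i + fer m i) ^ 2 = ∑ i, (x i + fer m i) ^ 2 := by
    rw [← Equiv.sum_comp σ (fun i => (η i + fer m i) ^ 2)]
    refine Finset.sum_congr rfl fun i _ => ?_
    have h3 : fer m (σ i) = fer m i := by
      unfold fer
      exact if_congr (hσ i) rfl rfl
    rw [h i, h3]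
  rw [h1, h2]

theorem j26061_gen (U : SPart N) (L : MvPolynomial (Fin N) K →ₗ[K] MvPolynomial (Fin N) K)
    (hL : ∀ η : Fin N →₀ ℕ, coeff (pf U.part) (L (monomial η (1 : K))) ≠ 0 → pf U.part = η ∨
      (LeV U.m (pf U.part) η ∧ wt U.m (pf U.part) < wt U.m η)) :
    coeff (pf U.part) (L (mu K U)) = coeff (pf U.part) (L (monomial (pf U.part) (1 : K))) := by
  have h1 : coeff (pf U.part) (L (mu K U)) = ∑ v ∈ (mu K U).support,
      coeff v (mu K U) * coeff (pf U.part) (L (monomial v (1 : K))) := by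
    have h2 : L (mu K U) = ∑ v ∈ (mu K U).support, coeff v (mu K U) • L (monomial v (1 : K)) := by
      conv_lhs => rw [(mu K U).as_sum]
      rw [map_sum]
      refine Finset.sum_congr rfl fun v _ => ?_
      rw [← map_smul, smul_monomial, smul_eq_mul, mul_one]
    rw [h2, coeff_sum]
    exact Finset.sum_congr rfl fun v _ => by rw [coeff_smul, smul_eq_mul]
  have hc : coeff (pf U.part) (mu K U) = 1 := by
    rw [mu_coeff (K := K) U U rfl]
    exact if_pos rfl
  rw [h1, Finset.sum_eq_single (pf U.part)]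
  · rw [hc, one_mul]
  · intro v hv hne
    have hv' : coeff v (mu K U) ≠ 0 := by
      rwa [mem_support_iff] at hv
    obtain ⟨σ, hσ, h3⟩ := mu_supp (K := K) U v hv'
    have h4 := j26061_wt U.m v U.part σ hσ h3
    by_contra hcon
    have h5 : coeff (pf U.part) (L (monomial v (1 : K))) ≠ 0 := right_ne_zero_of_mul hcon
    rcases hL v h5 with h6 | ⟨_, h6⟩
    · exact hne h6.symm
    · rw [h4] at h6
      exact absurd h6 (lt_irrefl _)
  · intro h
    rw [notMem_support_iff] at h
    rw [h, zero_mul]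

/-- HINT: expand `mu K U` in monomials: `coeff (pf U.part) (Qop (mu K U)) = Σ_η coeff η (mu K U) * coeff (pf U.part) (Qop (monomial η 1))`;
for `η ≠ pf U.part` in the support of `mu K U` (`mu_supp`: a rearrangement, so `wt m η = wt m U.part`) the coefficient
vanishes by `Q_supp` (it would give `wt m U.part < wt m η`). And `coeff (pf U.part) (mu K U) = 1`. -/
theorem mu_diag (U : SPart N) : coeff (pf U.part) (Qop (mu K U)) = -((mn U.part : ℕ) : K) ∧
    coeff (pf U.part) (Sop U.m (mu K U)) = -((cr U.m U.part : ℕ) : K) := by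
  constructor
  · rw [j26061_gen U Qop fun η h => (Q_supp (K := K) U.m η (pf U.part)).1 h]
    exact (Q_supp (K := K) U.m (pf U.part) (pf U.part)).2.2.1
  · rw [j26061_gen U (Sop U.m) fun η h => (Q_supp (K := K) U.m η (pf U.part)).2.1 h]
    exact (Q_supp (K := K) U.m (pf U.part) (pf U.part)).2.2.2

end Clu
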