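import Pool.Agent.Helper204.CL.DefA
import Pool.Agent.Helper204.CL.DefB
import Pool.Agent.Helper204.CL.DefC
import Pool.Agent.Helper204.CL.DefD

set_option linter.unusedSectionVars false

open MvPolynomial Finset

noncomputable section

namespace Clu
variable {N : ℕ} {K : Type} [Field K] [CharZero K]



/-- HINT: `MvPolynomial.map` of `mLam`: cast of the inverse of a natural number, of integers, `map_X`, `map_prod`. -/
theorem mu_map (U : SPart N) : MvPolynomial.map (Rat.castHom K) (mu ℚ U) = mu K U := by
  unfold mu mLam
  rw [MvPolynomial.smul_eq_C_mul, MvPolynomial.smul_eq_C_mul, map_mul, MvPolynomial.map_C]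
  congr 1
  · rw [map_inv₀, map_natCast]
  · rw [map_sum]
    apply Finset.sum_congr rfl
    intro σ _
    split_ifs with h
    · rw [MvPolynomial.smul_eq_C_mul, MvPolynomial.smul_eq_C_mul, map_mul, MvPolynomial.map_C,
        map_intCast, map_prod]
      congr 1
      apply Finset.prod_congr rfl
      intro i _
      rw [map_pow, MvPolynomial.map_X]
    · rw [map_zero]

end Clu
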