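import Pool.Agent.Helper204.CL.DefA
import Pool.Agent.Helper204.CL.DefB
import Pool.Agent.Helper204.CL.DefC
import Pool.Agent.Helper204.CL.DefD
import Pool.Agent.Helper204.CL.DefR
import Pool.Agent.Helper204.CL.P_DL_coeff
import Pool.Agent.Helper204.CL.P_QS_map
import Pool.Agent.Helper204.CL.P_mu_map
import Pool.Agent.Helper204.CL.P_comb_first
import Pool.Agent.Helper204.CL.P_mu_diag

set_option linter.unusedSectionVars false

open MvPolynomial Finset

noncomputable section

namespace Clu
variable {N : ℕ} {K : Type} [Field K] [CharZero K]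



theorem Dm_eq_gen (T : MvPolynomial (Fin N) K →ₗ[K] MvPolynomial (Fin N) K) (v : SPart N →₀ K)
    (W : SPart N) (ν : Fin N →₀ ℕ) (g : MvPolynomial (Fin N) K)
    (hg : g = v.sum fun U r => if U.m = W.m then r • mu K U else 0) (c : K) (R : SPart N → ℚ)
    (hdiag : coeff ν (T (mu K W)) = c)
    (hR1 : ∀ U : SPart N, U.m = W.m → U ≠ W → coeff ν (T (mu K U)) = (R U : K))
    (hR2 : ∀ U : SPart N, U.m ≠ W.m → R U = 0) (hR3 : R W = 0) :
    coeff ν (T g) = c * v W + v.sum (fun U r => r * (R U : K)) := by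
  classical
  rw [hg]
  unfold Finsupp.sum
  rw [map_sum, coeff_sum]
  have hterm : ∀ U ∈ v.support, coeff ν (T (if U.m = W.m then v U • mu K U else 0)) =
      v U * (R U : K) + (if U = W then v U * c else 0) := by
    intro U _
    by_cases hm : U.m = W.m
    · rw [if_pos hm, map_smul, coeff_smul, smul_eq_mul]
      by_cases hUW : U = W
      · subst hUW
        rw [if_pos rfl, hdiag, hR3]
        simp
      · rw [if_neg hUW, hR1 U hm hUW, add_zero]
    · have hUW : U ≠ W := fun h => hm (by rw [h])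
      rw [if_neg hm, if_neg hUW, map_zero, hR2 U hm]
      simp
  rw [Finset.sum_congr rfl hterm, Finset.sum_add_distrib, Finset.sum_ite_eq', add_comm]
  congr 1
  by_cases hW : W ∈ v.support
  · rw [if_pos hW, mul_comm]
  · rw [if_neg hW, Finsupp.notMem_support_iff.mp hW, mul_zero]

/-- HINT: `comb v (first N W.m) = Σ_U [U.m = W.m] v U • mu K U` (`comb_first`), `DL_coeff`, linearity of `Qop`, `Sop`. For
`U = W` use `mu_diag`; for `U ≠ W`, `U.m = W.m`: `coeff (pf W.part) (Qop (mu K U))` is the cast of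
`coeff (pf W.part) (Qop (mu ℚ U)) = RD U W` (`QS_map`, `mu_map`, `coeff_map`); for `U.m ≠ W.m`: `RD U W = 0`. The
coefficient of `comb v (first N W.m)` itself is `v W`. -/
theorem Dm_eq (α : K) (v : SPart N →₀ K) (W : SPart N) :
    coeff (pf W.part) (Dop α (comb v (first N W.m))) = Dm AD BD RD α v W ∧
    coeff (pf W.part) (Lop W.m α (comb v (first N W.m))) = Dm AL BL RL α v W := by
  classical
  obtain ⟨-, hc2, -, hc4⟩ := comb_first v
  have hg := hc4 W.m W.m_le
  have hv := hc2 W
  obtain ⟨hD, hL⟩ := DL_coeff W.m α (comb v (first N W.m)) (pf W.part)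
  have hmap : ∀ (ν : Fin N →₀ ℕ) (p : MvPolynomial (Fin N) ℚ),
      coeff ν (MvPolynomial.map (Rat.castHom K) p) = ((coeff ν p : ℚ) : K) := by
    intro ν p
    rw [coeff_map]
    rfl
  have hQ := Dm_eq_gen (K := K) Qop v W (pf W.part) _ hg (-((mn W.part : ℕ) : K))
    (fun U => RD U W) (mu_diag W).1 (by
      intro U hm hne
      show _ = ((RD U W : ℚ) : K)
      unfold RD
      rw [if_pos ⟨hm.symm, fun h => hne h.symm⟩, ← hmap, (QS_map U.m _).1, mu_map])
    (by
      intro U hm
      show RD U W = 0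
      unfold RD
      rw [if_neg (fun h => hm h.1.symm)])
    (by
      show RD W W = 0
      unfold RD
      rw [if_neg (fun h => h.2 rfl)])
  have hS := Dm_eq_gen (K := K) (Sop W.m) v W (pf W.part) _ hg (-((cr W.m W.part : ℕ) : K))
    (fun U => RL U W) (mu_diag W).2 (by
      intro U hm hne
      show _ = ((RL U W : ℚ) : K)
      unfold RL
      rw [if_pos ⟨hm.symm, fun h => hne h.symm⟩, ← hmap, (QS_map U.m _).2, mu_map, hm])
    (by
      intro U hm
      show RL U W = 0
      unfold RL
      rw [if_neg (fun h => hm h.1.symm)])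
    (by
      show RL W W = 0
      unfold RL
      rw [if_neg (fun h => h.2 rfl)])
  have hsq : sq1 (⇑(pf W.part)) = sq1 W.part := rfl
  have hfs : fs W.m (⇑(pf W.part)) = fs W.m W.part := rfl
  constructor
  · rw [hD, hv, hQ, hsq]
    unfold Dm AD BD
    push_cast
    ring
  · rw [hL, hv, hS, hfs]
    unfold Dm AL BL
    push_cast
    ring

end Clu
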