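import Pool.Agent.Helper204.CL.DefA
import Pool.Agent.Helper204.CL.DefB
import Pool.Agent.Helper204.CL.DefC
import Pool.Agent.Helper204.CL.DefD

set_option linter.unusedSectionVars false

open MvPolynomial Finset

noncomputable section

namespace Clu
variable {N : ℕ} {K : Type} [Field K] [CharZero K]



theorem inj_ext (g h : MvPolynomial (Fin N) K) (H : ∀ x : Fin N → K, Function.Injective x → eval x g = eval x h) :
    g = h := by
  set P : MvPolynomial (Fin N) K :=
    ∏ p ∈ (Finset.univ : Finset (Fin N × Fin N)).filter (fun p => p.1 ≠ p.2),
      (X p.1 - X p.2) with hP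
  have hP0 : P ≠ 0 := by
    rw [hP, Finset.prod_ne_zero_iff]
    intro p hp
    rw [Finset.mem_filter] at hp
    intro h0
    exact hp.2 (MvPolynomial.X_injective (sub_eq_zero.1 h0))
  have hz : (g - h) * P = 0 := by
    apply MvPolynomial.funext
    intro x
    rw [map_mul, map_sub, map_zero]
    by_cases hx : Function.Injective x
    · rw [H x hx, sub_self, zero_mul]
    · have hex : ∃ i j, x i = x j ∧ i ≠ j := by
        unfold Function.Injective at hx
        push Not at hx
        exact hx
      obtain ⟨i, j, hij, hne⟩ := hex
      have : eval x P = 0 := by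
        rw [hP, map_prod]
        apply Finset.prod_eq_zero (i := (i, j))
        · rw [Finset.mem_filter]
          exact ⟨Finset.mem_univ _, hne⟩
        · rw [map_sub, eval_X, eval_X, hij, sub_self]
      rw [this, mul_zero]
  rcases mul_eq_zero.1 hz with h1 | h1
  · exact sub_eq_zero.1 h1
  · exact absurd h1 hP0

end Clu
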