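import Pool.Agent.Helper204.CL.DefA
import Pool.Agent.Helper204.CL.DefB
import Pool.Agent.Helper204.CL.DefC
import Pool.Agent.Helper204.CL.DefD
import Pool.Agent.Helper204.CL.P_DVal_eq
import Pool.Agent.Helper204.CL.P_DeltaVal_eq
import Pool.Agent.Helper204.CL.P_inj_ext

set_option linter.unusedSectionVars false

open MvPolynomial Finset

noncomputable section

namespace Clu
variable {N : ℕ} {K : Type} [Field K] [CharZero K]



/-- HINT: `DVal_eq`, `DeltaVal_eq`, `inj_ext`. -/
theorem eig_first (α : K) (f : SPoly K N) (hf : Symm f) :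
    (EigD α f → ∃ e : K, ∀ m ≤ N, Dop α (f (first N m)) = e • f (first N m)) ∧
    (EigDelta α f → ∃ e : K, ∀ m ≤ N, Lop m α (f (first N m)) = e • f (first N m)) := by
  constructor
  · rintro ⟨e, he⟩
    refine ⟨e, fun m _ => inj_ext _ _ fun x hx => ?_⟩
    rw [← DVal_eq α f hf m x hx, he _ x hx, smul_eval]
  · rintro ⟨e, he⟩
    refine ⟨e, fun m hm => inj_ext _ _ fun x hx => ?_⟩
    rw [← DeltaVal_eq α f hf m hm x hx, he _ x hx, smul_eval]

end Clu
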