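import Pool.Agent.Helper204.CL.DefA
import Pool.Agent.Helper204.CL.DefB
import Pool.Agent.Helper204.CL.DefC
import Pool.Agent.Helper204.CL.DefD
import Pool.Agent.Helper204.CL.DefR
import Pool.Agent.Helper204.CL.P_comb_first
import Pool.Agent.Helper204.CL.P_eig_first
import Pool.Agent.Helper204.CL.P_Dm_eq

set_option linter.unusedSectionVars false

open MvPolynomial Finset

noncomputable section

namespace Clu
variable {N : ℕ} {K : Type} [Field K] [CharZero K]



/-- HINT: `eig_first` for `f = comb (c L)` (symmetric by `comb_first`), then take the coefficient at `pf W.part` for `m = W.m`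
(`W.m_le`) and use `Dm_eq`, `comb_first`. -/
theorem jack_eqs (c : SPart N → (SPart N →₀ RatFunc ℚ)) (hc : IsJack c) (L : SPart N) :
    (∃ e : RatFunc ℚ, ∀ W, Dm AD BD RD (RatFunc.X : RatFunc ℚ) (c L) W = e * c L W) ∧
    (∃ e : RatFunc ℚ, ∀ W, Dm AL BL RL (RatFunc.X : RatFunc ℚ) (c L) W = e * c L W) := by
  obtain ⟨-, -, h1, h2⟩ := hc L
  obtain ⟨hs, hco, -, -⟩ := comb_first (K := RatFunc ℚ) (c L)
  obtain ⟨e1, he1⟩ := (eig_first (RatFunc.X : RatFunc ℚ) (comb (c L)) hs).1 h1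
  obtain ⟨e2, he2⟩ := (eig_first (RatFunc.X : RatFunc ℚ) (comb (c L)) hs).2 h2
  constructor
  · refine ⟨e1, fun W => ?_⟩
    rw [← (Dm_eq (RatFunc.X : RatFunc ℚ) (c L) W).1, he1 W.m W.m_le, coeff_smul, hco W, smul_eq_mul]
  · refine ⟨e2, fun W => ?_⟩
    rw [← (Dm_eq (RatFunc.X : RatFunc ℚ) (c L) W).2, he2 W.m W.m_le, coeff_smul, hco W, smul_eq_mul]

end Clu
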