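import Pool.Agent.Helper204.CL.DefA
import Pool.Agent.Helper204.CL.DefB
import Pool.Agent.Helper204.CL.DefC
import Pool.Agent.Helper204.CL.DefD
import Pool.Agent.Helper204.CL.P_sgn_swap
import Pool.Agent.Helper204.CL.P_sgn_mul

set_option linter.unusedSectionVars false

open MvPolynomial Finset

noncomputable section

namespace Clu
variable {N : ℕ} {K : Type} [Field K] [CharZero K]



theorem ggf_pres_mul (m : ℕ) (π σ : Equiv.Perm (Fin N)) (hπ : Pres m π) :
    Pres m (π * σ) ↔ Pres m σ := by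
  have h : ∀ i : Fin N, (((π * σ) i : Fin N) : ℕ) < m ↔ ((σ i : Fin N) : ℕ) < m := by
    intro i
    rw [Equiv.Perm.mul_apply]
    exact hπ (σ i)
  constructor
  · intro hs i
    rw [← h i]
    exact hs i
  · intro hs i
    rw [h i]
    exact hs i

theorem ggf_map (m : ℕ) (σ : Equiv.Perm (Fin N)) (hσ : Pres m σ) :
    (first N m).map σ.toEmbedding = first N m := by
  ext j
  rw [Finset.mem_map_equiv]
  unfold first
  rw [Finset.mem_filter, Finset.mem_filter]
  have h := hσ (σ.symm j)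
  rw [Equiv.apply_symm_apply] at h
  constructor
  · rintro ⟨_, h1⟩
    exact ⟨Finset.mem_univ _, h.mpr h1⟩
  · rintro ⟨_, h1⟩
    exact ⟨Finset.mem_univ _, h.mp h1⟩

theorem ggf_ren (m : ℕ) (h : MvPolynomial (Fin N) K) (π : Equiv.Perm (Fin N)) (hπ : Pres m π) :
    rename π (gg m h) = ((sgnOn π (first N m) : ℤ) : K) • gg m h := by
  unfold gg
  rw [map_sum, Finset.smul_sum]
  refine Finset.sum_equiv (Equiv.mulLeft π) ?_ ?_
  · intro σ
    rw [Finset.mem_filter, Finset.mem_filter, Equiv.coe_mulLeft, ggf_pres_mul m π σ hπ]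
    constructor
    · rintro ⟨_, h1⟩
      exact ⟨Finset.mem_univ _, h1⟩
    · rintro ⟨_, h1⟩
      exact ⟨Finset.mem_univ _, h1⟩
  · intro σ hσ
    have hσ' : Pres m σ := (Finset.mem_filter.mp hσ).2
    have h1 := (sgn_mul π σ (first N m)).1
    rw [ggf_map m σ hσ'] at h1
    have h2 := (sgn_mul π σ (first N m)).2.2
    rw [map_smul, rename_rename, Equiv.coe_mulLeft, h1, smul_smul]
    have h3 : (((sgnOn π (first N m) : ℤ) : K)) *
        (((sgnOn π (first N m) * sgnOn σ (first N m) : ℤ)) : K) =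
        ((sgnOn σ (first N m) : ℤ) : K) := by
      have h4 : sgnOn π (first N m) * (sgnOn π (first N m) * sgnOn σ (first N m)) =
          sgnOn σ (first N m) := by
        rw [← mul_assoc, h2, one_mul]
      rw [← Int.cast_mul, h4]
    rw [h3]
    rfl

theorem ggf_pres_swap1 (m : ℕ) (i j : Fin N) (hi : (i : ℕ) < m) (hj : (j : ℕ) < m) :
    Pres m (Equiv.swap i j) := by
  intro l
  by_cases h1 : l = i
  · rw [h1, Equiv.swap_apply_left]
    exact ⟨fun _ => hi, fun _ => hj⟩
  by_cases h2 : l = j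
  · rw [h2, Equiv.swap_apply_right]
    exact ⟨fun _ => hj, fun _ => hi⟩
  rw [Equiv.swap_apply_of_ne_of_ne h1 h2]

theorem ggf_pres_swap2 (m : ℕ) (i j : Fin N) (hi : m ≤ (i : ℕ)) (hj : m ≤ (j : ℕ)) :
    Pres m (Equiv.swap i j) := by
  intro l
  by_cases h1 : l = i
  · rw [h1, Equiv.swap_apply_left]
    exact ⟨fun h => absurd h (not_lt.mpr hj), fun h => absurd h (not_lt.mpr hi)⟩
  by_cases h2 : l = j
  · rw [h2, Equiv.swap_apply_right]
    exact ⟨fun h => absurd h (not_lt.mpr hi), fun h => absurd h (not_lt.mpr hj)⟩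
  rw [Equiv.swap_apply_of_ne_of_ne h1 h2]

theorem ggf_coeff (σ : Equiv.Perm (Fin N)) (h : MvPolynomial (Fin N) K) (ν : Fin N →₀ ℕ) :
    coeff ν (rename σ h) = coeff (pf (fun i => ν (σ i))) h := by
  have h1 : ν = (pf (fun i => ν (σ i))).mapDomain σ := by
    ext j
    rw [Finsupp.mapDomain_equiv_apply, pf_apply, Equiv.apply_symm_apply]
  conv_lhs => rw [h1]
  exact coeff_rename_mapDomain σ σ.injective h _

/-- HINT: `rename π (gg m h) = sgnOn π (first N m) • gg m h` for `π` preserving `{· < m}` (reindex `σ ↦ π * σ`, `sgn_mul`,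
`(first N m).map π = first N m`), then `sgn_swap` gives `InV`. The coefficient: `coeff ν (rename σ h) = coeff (ν ∘ σ) h`. -/
theorem gg_facts (m : ℕ) (h : MvPolynomial (Fin N) K) :
    InV m (gg m h) ∧ ∀ ν : Fin N →₀ ℕ, coeff ν (gg m h) =
      ∑ σ ∈ univ.filter (fun σ : Equiv.Perm (Fin N) => Pres m σ),
        ((sgnOn σ (first N m) : ℤ) : K) * coeff (pf (fun i => ν (σ i))) h := by
  refine ⟨⟨?_, ?_⟩, ?_⟩
  · intro i j hij hi hj
    rw [ggf_ren m h _ (ggf_pres_swap1 m i j hi hj), (sgn_swap m i j hij).1 hi hj]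
    simp
  · intro i j hi hj
    by_cases hij : i = j
    · rw [hij, Equiv.swap_self]
      show rename id (gg m h) = gg m h
      rw [rename_id_apply]
    · rw [ggf_ren m h _ (ggf_pres_swap2 m i j hi hj), (sgn_swap m i j hij).2 hi hj]
      simp
  · intro ν
    unfold gg
    rw [coeff_sum]
    refine Finset.sum_congr rfl fun σ _ => ?_
    rw [coeff_smul, ggf_coeff, smul_eq_mul]

end Clu
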