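import Pool.Agent.Helper204.CL.DefA
import Pool.Agent.Helper204.CL.DefB
import Pool.Agent.Helper204.CL.DefC
import Pool.Agent.Helper204.CL.DefD

set_option linter.unusedSectionVars false

open MvPolynomial Finset

noncomputable section

namespace Clu
variable {N : ℕ} {K : Type} [Field K] [CharZero K]



/-- HINT: pair `τ` with `τ * swap i j`-type involution `τ ↦ τ ∘ swap i j`: it preserves the classes as `c i = c j` and changes
the sign, and `hh` is `x^{p-d}` times `Σ_τ sgn(τ) ∏_l x_l^{d (τ l)}`, and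
`∏_l x_l^{d (τ (swap i j l))} = ∏_l x_l^{d (τ l)}` when `x i = x j`. `Finset.sum_involution`. -/
theorem hh_van (p d c : Fin N → ℕ) (i j : Fin N) (hij : i ≠ j) (hc : c i = c j) (x : Fin N → K) (hx : x i = x j) :
    eval x (hh K c d p) = 0 := by
  classical
  have hev : eval x (hh K c d p) =
      ∑ τ ∈ univ.filter (fun τ : Equiv.Perm (Fin N) => ∀ i, c (τ i) = c i),
        (((Equiv.Perm.sign τ : ℤˣ) : ℤ) : K) * ∏ l, x l ^ (p l - d l + d (τ l)) := by
    unfold hh
    rw [map_sum]
    apply Finset.sum_congr rfl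
    intro τ _
    rw [smul_eval, eval_monomial, one_mul, Finsupp.prod_fintype _ _ (fun i => pow_zero _)]
    rfl
  rw [hev]
  have hxs : ∀ l, x (Equiv.swap i j l) = x l := by
    intro l
    by_cases hl : l = i
    · subst hl; rw [Equiv.swap_apply_left]; exact hx.symm
    · by_cases hl2 : l = j
      · subst hl2; rw [Equiv.swap_apply_right]; exact hx
      · rw [Equiv.swap_apply_of_ne_of_ne hl hl2]
  have hcs : ∀ l, c (Equiv.swap i j l) = c l := by
    intro l
    by_cases hl : l = i
    · subst hl; rw [Equiv.swap_apply_left]; exact hc.symm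
    · by_cases hl2 : l = j
      · subst hl2; rw [Equiv.swap_apply_right]; exact hc
      · rw [Equiv.swap_apply_of_ne_of_ne hl hl2]
  have hsplit : ∀ τ : Equiv.Perm (Fin N), ∏ l, x l ^ (p l - d l + d (τ l)) =
      (∏ l, x l ^ (p l - d l)) * ∏ l, x l ^ d (τ l) := by
    intro τ
    rw [← Finset.prod_mul_distrib]
    apply Finset.prod_congr rfl
    intro l _
    rw [pow_add]
  have hinv : ∀ τ : Equiv.Perm (Fin N), ∏ l, x l ^ d ((τ * Equiv.swap i j) l) =
      ∏ l, x l ^ d (τ l) := by
    intro τ
    rw [← Equiv.prod_comp (Equiv.swap i j) (fun l => x l ^ d (τ l))]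
    apply Finset.prod_congr rfl
    intro l _
    rw [hxs, Equiv.Perm.mul_apply]
  apply Finset.sum_involution (fun τ _ => τ * Equiv.swap i j)
  · intro τ _
    rw [hsplit, hsplit, hinv, Equiv.Perm.sign_mul, Equiv.Perm.sign_swap hij]
    push_cast
    ring
  · intro τ _ _ h
    have h1 : Equiv.swap i j = 1 := by
      have h2 : τ * Equiv.swap i j = τ * 1 := by rw [h, mul_one]
      exact mul_left_cancel h2
    exact hij (Equiv.swap_eq_one_iff.1 h1)
  · intro τ hτ
    rw [Finset.mem_filter] at hτ ⊢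
    refine ⟨Finset.mem_univ _, fun l => ?_⟩
    rw [Equiv.Perm.mul_apply, hτ.2, hcs]
  · intro τ _
    rw [mul_assoc, Equiv.swap_mul_self, mul_one]

end Clu
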