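import Pool.Agent.Helper204.CL.DefA
import Pool.Agent.Helper204.CL.DefB
import Pool.Agent.Helper204.CL.DefC
import Pool.Agent.Helper204.CL.DefD
import Pool.Agent.Helper204.CL.P_hh_van

set_option linter.unusedSectionVars false

open MvPolynomial Finset

noncomputable section

namespace Clu
variable {N : ℕ} {K : Type} [Field K] [CharZero K]



/-- HINT: `eval x (rename σ (hh ..)) = eval (x ∘ σ) (hh ..)`. If `x` is constant on `S` with `k+1` elements, `x ∘ σ` is
constant on `S.map σ⁻¹` which has `k+1 > k` elements, so two distinct ones `i, j` have the same class `c i = c j`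
(pigeonhole, `c < k`); `hh_van`. -/
theorem gg_van (k m : ℕ) (p d c : Fin N → ℕ) (hc : ∀ i, c i < k) : Van k (gg m (hh K c d p)) := by
  intro S hS x hx
  unfold gg
  rw [map_sum]
  refine Finset.sum_eq_zero fun σ _ => ?_
  rw [smul_eval, eval_rename]
  have hcard : (Finset.range k).card < (S.map σ.symm.toEmbedding).card := by
    rw [Finset.card_map, hS, Finset.card_range]
    exact Nat.lt_succ_self k
  obtain ⟨i, hi, j, hj, hij, hcij⟩ := Finset.exists_ne_map_eq_of_card_lt_of_maps_to hcard
    (f := c) (fun i _ => Finset.mem_range.2 (hc i))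
  obtain ⟨i', hi', rfl⟩ := Finset.mem_map.1 hi
  obtain ⟨j', hj', rfl⟩ := Finset.mem_map.1 hj
  rw [hh_van p d c _ _ hij hcij (x ∘ σ) ?_, mul_zero]
  simp only [Function.comp, Equiv.toEmbedding_apply, Equiv.apply_symm_apply]
  exact hx i' hi' j' hj'

end Clu
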