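import Pool.Agent.Helper204.CL.DefA
import Pool.Agent.Helper204.CL.DefB
import Pool.Agent.Helper204.CL.DefC
import Pool.Agent.Helper204.CL.DefD
import Pool.Agent.Helper204.CL.P_dsort_unique

set_option linter.unusedSectionVars false

open MvPolynomial Finset

noncomputable section

namespace Clu
variable {N : ℕ} {K : Type} [Field K] [CharZero K]



/-- HINT: take `ρ` sorting `2 * part + fer` decreasingly (`dsort_unique`); then `part ∘ ρ` and `(part + fer) ∘ ρ` are
weakly decreasing (`fer ≤ 1`, omega), so they are the sorted rearrangements. -/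
theorem sorted_pos (L : SPart N) : ∃ ρ : Equiv.Perm (Fin N), (∀ r, L.star r = L.part (ρ r)) ∧
    (∀ r, L.cstar r = L.part (ρ r) + fer L.m (ρ r)) ∧ Antitone (fun r => 2 * L.part (ρ r) + fer L.m (ρ r)) := by
  obtain ⟨h1, ⟨ρ, hρ⟩, -⟩ := dsort_unique (fun i => 2 * L.part i + fer L.m i)
  have hfer : ∀ i : Fin N, fer L.m i ≤ 1 := by
    intro i
    unfold fer
    split_ifs <;> omega
  have hanti : ∀ r s : Fin N, r ≤ s → 2 * L.part (ρ s) + fer L.m (ρ s) ≤
      2 * L.part (ρ r) + fer L.m (ρ r) := by
    intro r s hrs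
    have := h1 hrs
    rw [hρ, hρ] at this
    exact this
  have a1 : Antitone (L.part ∘ ρ) := by
    intro r s hrs
    have h := hanti r s hrs
    have f1 := hfer (ρ r)
    have f2 := hfer (ρ s)
    show L.part (ρ s) ≤ L.part (ρ r)
    omega
  have a2 : Antitone ((fun i => L.part i + fer L.m i) ∘ ρ) := by
    intro r s hrs
    have h := hanti r s hrs
    have f1 := hfer (ρ r)
    have f2 := hfer (ρ s)
    show L.part (ρ s) + fer L.m (ρ s) ≤ L.part (ρ r) + fer L.m (ρ r)
    omega
  refine ⟨ρ, fun r => ?_, fun r => ?_, fun r s hrs => hanti r s hrs⟩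
  · exact congrFun ((dsort_unique L.part).2.2 ρ a1) r
  · exact congrFun ((dsort_unique (fun i => L.part i + fer L.m i)).2.2 ρ a2) r

end Clu
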