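import Pool.Agent.Helper204.CL.DefA
import Pool.Agent.Helper204.CL.DefB
import Pool.Agent.Helper204.CL.DefC
import Pool.Agent.Helper204.CL.DefD
import Pool.Agent.Helper204.CL.P_sorted_pos

set_option linter.unusedSectionVars false

open MvPolynomial Finset

noncomputable section

namespace Clu
variable {N : ℕ} {K : Type} [Field K] [CharZero K]



/-- HINT: with `ρ` from `sorted_pos`: `cstar = star + fer`, and for the last part: key `2 p + f` antitone; if the
`s`-th is fermionic then either the `r`-th is bosonic and `2 p_r ≥ 2 p_s + 1`, or both are fermionic and `p_r ≠ p_s`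
(`L.strict`). -/
theorem star_inter (L : SPart N) : (∀ r, L.star r ≤ L.cstar r ∧ L.cstar r ≤ L.star r + 1) ∧
    (∀ r s : Fin N, (s : ℕ) = r + 1 → L.cstar s ≤ L.star r) := by
  obtain ⟨ρ, h1, h2, h3⟩ := sorted_pos L
  have hf : ∀ i : Fin N, fer L.m i ≤ 1 := by
    intro i
    unfold fer
    split_ifs <;> simp
  refine ⟨fun r => ⟨?_, ?_⟩, fun r s hs => ?_⟩
  · rw [h1, h2]; omega
  · rw [h1, h2]; have := hf (ρ r); omega
  · rw [h1, h2]
    have hrs : r < s := Fin.lt_def.2 (by omega)
    have h4 := h3 hrs.le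
    simp only at h4
    have h5 := hf (ρ r)
    have h6 := hf (ρ s)
    by_cases hb : (ρ s : ℕ) < L.m ∧ (ρ r : ℕ) < L.m
    · obtain ⟨hb1, hb2⟩ := hb
      have h7 : L.part (ρ r) ≠ L.part (ρ s) := by
        rcases lt_trichotomy (ρ r) (ρ s) with h | h | h
        · exact (L.strict _ _ h hb1).ne'
        · exact absurd (ρ.injective h) hrs.ne
        · exact (L.strict _ _ h hb2).ne
      have h8 : fer L.m (ρ r) = 1 := if_pos hb2
      have h9 : fer L.m (ρ s) = 1 := if_pos hb1
      omega
    · have h10 : fer L.m (ρ s) = 0 ∨ fer L.m (ρ r) = 0 := by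
        by_cases h : (ρ s : ℕ) < L.m
        · right
          exact if_neg (fun h' => hb ⟨h, h'⟩)
        · left
          exact if_neg h
      omega

end Clu
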