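import Pool.Agent.Helper204.CL.DefA
import Pool.Agent.Helper204.CL.DefB
import Pool.Agent.Helper204.CL.DefC
import Pool.Agent.Helper204.CL.DefD
import Pool.Agent.Helper204.CL.P_sorted_pos
import Pool.Agent.Helper204.CL.P_star_inter

set_option linter.unusedSectionVars false

open MvPolynomial Finset

noncomputable section

namespace Clu
variable {N : ℕ} {K : Type} [Field K] [CharZero K]



theorem lead_data_fer (m : ℕ) (i : Fin N) : fer m i ≤ 1 := by
  unfold fer; split_ifs <;> omega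

theorem lead_data_chain (k : ℕ) (L : SPart N) (hL : Admissible k 2 L)
    (ρ : Equiv.Perm (Fin N)) (h1 : ∀ r, L.star r = L.part (ρ r))
    (h2 : ∀ r, L.cstar r = L.part (ρ r) + fer L.m (ρ r)) (t : ℕ) :
    ∀ (r s : Fin N), (s : ℕ) = r + k * t →
      L.part (ρ s) + t ≤ L.part (ρ r) ∧
      L.part (ρ s) + fer L.m (ρ s) + t ≤ L.part (ρ r) + fer L.m (ρ r) ∧
      (1 ≤ t → fer L.m (ρ r) = 0 → L.part (ρ s) + t + 1 ≤ L.part (ρ r)) := by
  induction t with
  | zero =>
    intro r s hs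
    have : s = r := Fin.ext (by simpa using hs)
    subst this
    refine ⟨le_rfl, le_rfl, fun h => absurd h (by omega)⟩
  | succ t ih =>
    intro r s hs
    have hs2 := s.2
    have hmul : k * (t + 1) = k * t + k := by ring
    have hu : (r : ℕ) + k * t < N := by omega
    obtain ⟨i1, i2, _⟩ := ih r ⟨r + k * t, hu⟩ rfl
    have hadm := hL ⟨r + k * t, hu⟩ s (by simp only; omega)
    rw [h1, h2] at hadm
    have hf := lead_data_fer L.m (ρ ⟨(r : ℕ) + k * t, hu⟩)
    have hf2 := lead_data_fer L.m (ρ s)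
    refine ⟨by omega, by omega, fun _ h0 => by omega⟩

theorem lead_data_arith (k n r s : ℕ) (hk : 1 ≤ k) (hrs : r ≤ s) (hs : s ≤ n)
    (h : r % k = s % k) : ∃ t, s = r + k * t ∧ (n - r) / k = (n - s) / k + t := by
  obtain ⟨t, ht⟩ := (Nat.modEq_iff_dvd' hrs).1 (show r ≡ s [MOD k] from h)
  refine ⟨t, by omega, ?_⟩
  have h1 : n - r = (n - s) + k * t := by omega
  rw [h1, Nat.add_mul_div_left _ _ (by omega)]

/-- HINT: `ρ` from `sorted_pos`, `cl`, `dl` as defined (rank `r = ρ⁻¹ i`, class `r mod k`, `dl = (N-1-r)/k`). `Admissible` and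
`star_inter`: `star (r + k) + 2 ≤ cstar r ≤ star r + 1`. Same class and rank `r < s`: `s = r + k t`, `t ≥ 1`,
`(N-1-r)/k = (N-1-s)/k + t`; by induction on `t`: `star s + 2 ≤ ...`: `star s + t ≤ star r`, `cstar s + t ≤ cstar r`, and
`star s + t + 1 ≤ star r` if the position of rank `r` is bosonic (`cstar r = star r`). `dl i ≤ part i` by the same chain. -/
theorem lead_data (k : ℕ) (hk : 1 ≤ k) (L : SPart N) (hL : Admissible k 2 L) :
    ∃ ρ : Equiv.Perm (Fin N), (∀ i, dl k ρ i ≤ L.part i) ∧ (∀ i, cl k ρ i < k) ∧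
    (∀ i j, cl k ρ i = cl k ρ j → dl k ρ i = dl k ρ j → i = j) ∧
    (∀ i j, cl k ρ i = cl k ρ j → dl k ρ j < dl k ρ i → L.part j - dl k ρ j ≤ L.part i - dl k ρ i ∧
      L.part j - dl k ρ j + fer L.m j ≤ L.part i - dl k ρ i + fer L.m i ∧
      (fer L.m i = 0 → L.part j - dl k ρ j + 1 ≤ L.part i - dl k ρ i)) := by
  obtain ⟨ρ, h1, h2, _⟩ := sorted_pos L
  have hchain := lead_data_chain k L hL ρ h1 h2
  have hdl : ∀ i, dl k ρ i ≤ L.part i := by
    intro i
    have hi := (ρ.symm i).2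
    have h3 : k * ((N - 1 - (ρ.symm i : ℕ)) / k) ≤ N - 1 - (ρ.symm i : ℕ) := Nat.mul_div_le _ _
    have h4 : (ρ.symm i : ℕ) + k * ((N - 1 - (ρ.symm i : ℕ)) / k) < N := by omega
    obtain ⟨h5, _, _⟩ := hchain _ (ρ.symm i) ⟨_, h4⟩ rfl
    rw [Equiv.apply_symm_apply] at h5
    unfold dl
    omega
  refine ⟨ρ, hdl, fun i => Nat.mod_lt _ (by omega), ?_, ?_⟩
  · intro i j hc hd
    unfold cl at hc
    unfold dl at hd
    have hi := (ρ.symm i).2
    have hj := (ρ.symm j).2
    have heq : (ρ.symm i : ℕ) = (ρ.symm j : ℕ) := by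
      rcases le_total (ρ.symm i : ℕ) (ρ.symm j : ℕ) with h | h
      · obtain ⟨t, ht1, ht2⟩ := lead_data_arith k (N - 1) _ _ hk h (by omega) hc
        have ht : t = 0 := by omega
        rw [ht1, ht]; simp
      · obtain ⟨t, ht1, ht2⟩ := lead_data_arith k (N - 1) _ _ hk h (by omega) hc.symm
        have ht : t = 0 := by omega
        rw [ht1, ht]; simp
    exact ρ.symm.injective (Fin.ext heq)
  · intro i j hc hd
    have hdi := hdl i
    have hdj := hdl j
    unfold cl at hc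
    have hi := (ρ.symm i).2
    have hj := (ρ.symm j).2
    have hlt : (ρ.symm i : ℕ) ≤ (ρ.symm j : ℕ) := by
      by_contra hcon
      push Not at hcon
      unfold dl at hd
      have : (N - 1 - (ρ.symm i : ℕ)) / k ≤ (N - 1 - (ρ.symm j : ℕ)) / k :=
        Nat.div_le_div_right (by omega)
      omega
    obtain ⟨t, ht1, ht2⟩ := lead_data_arith k (N - 1) _ _ hk hlt (by omega) hc
    have hdd : dl k ρ i = dl k ρ j + t := ht2
    obtain ⟨c1, c2, c3⟩ := hchain t (ρ.symm i) (ρ.symm j) ht1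
    rw [Equiv.apply_symm_apply, Equiv.apply_symm_apply] at c1 c2 c3
    refine ⟨by omega, by omega, fun h0 => ?_⟩
    have := c3 (by omega) h0
    omega

end Clu
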