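import Pool.Agent.Helper204.CL.DefA
import Pool.Agent.Helper204.CL.DefB
import Pool.Agent.Helper204.CL.DefC
import Pool.Agent.Helper204.CL.DefD

set_option linter.unusedSectionVars false

open MvPolynomial Finset

noncomputable section

namespace Clu
variable {N : ℕ} {K : Type} [Field K] [CharZero K]



/-- HINT: induction on the number of points with `τ i ≠ i`. If `τ ≠ 1` choose among the non-fixed `i` one with `d i` maximal
(then `d (τ i) ≤ d i`); let `j = τ⁻¹ i`, `τ' = τ * swap i j` (so `τ' i = i`, `τ' j = τ i`). Same class: `u j ≤ u i` if `d j < d i`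
(and `d j = d i` case: then `d` values equal; handle via `hmono'`), and
`(u i + d (τ i) - t) + (u j + d i - t) ≤ (u i + d i - t) + (u j + d (τ i) - t)` if `u j ≤ u i` and `d (τ i) ≤ d i`. -/
theorem rearr (u d c : Fin N → ℕ) (τ : Equiv.Perm (Fin N)) (hτ : ∀ i, c (τ i) = c i)
    (hinj : ∀ i j, c i = c j → d i = d j → i = j)
    (hmono : ∀ i j, c i = c j → d j < d i → u j ≤ u i) (t : ℕ) :
    ∑ i, (u i + d (τ i) - t) ≤ ∑ i, (u i + d i - t) := by
  induction hn : τ.support.card using Nat.strong_induction_on generalizing τ with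
  | _ n ih =>
    subst hn
    by_cases h1 : τ.support = ∅
    · have : τ = 1 := Equiv.Perm.support_eq_empty_iff.1 h1
      subst this
      simp
    · obtain ⟨i, hi, hmax⟩ := Finset.exists_max_image τ.support d (Finset.nonempty_iff_ne_empty.2 h1)
      have hi' : τ i ≠ i := Equiv.Perm.mem_support.1 hi
      obtain ⟨j, hj⟩ := τ.surjective i
      have hji : j ≠ i := by rintro rfl; exact hi' hj
      have hjs : j ∈ τ.support := by
        rw [Equiv.Perm.mem_support, hj]; exact hji.symm
      have hcj : c i = c j := by rw [← hτ j, hj]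
      have hti : τ i ∈ τ.support := by rw [Equiv.Perm.apply_mem_support]; exact hi
      have hd1 : d (τ i) ≤ d i := hmax _ hti
      have hd2 : d j < d i := lt_of_le_of_ne (hmax _ hjs) (fun h => hji (hinj j i hcj.symm h))
      have hu : u j ≤ u i := hmono i j hcj hd2
      have hlt := Equiv.Perm.card_support_swap_mul hi'
      have e1 : (Equiv.swap i (τ i) * τ) i = i := by simp
      have e2 : (Equiv.swap i (τ i) * τ) j = τ i := by
        rw [Equiv.Perm.mul_apply, hj, Equiv.swap_apply_left]
      have e3 : ∀ x, x ≠ i → x ≠ j → (Equiv.swap i (τ i) * τ) x = τ x := by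
        intro x hx hx'
        rw [Equiv.Perm.mul_apply, Equiv.swap_apply_of_ne_of_ne]
        · intro h; exact hx' (τ.injective (h.trans hj.symm))
        · intro h; exact hx (τ.injective h)
      have hτ' : ∀ x, c ((Equiv.swap i (τ i) * τ) x) = c x := by
        intro x
        by_cases hx : x = i
        · subst hx; rw [e1]
        · by_cases hx' : x = j
          · subst hx'; rw [e2, hτ i, hcj]
          · rw [e3 x hx hx', hτ]
      refine le_trans ?_ (ih _ hlt (Equiv.swap i (τ i) * τ) hτ' rfl)
      have hjm : j ∈ (univ : Finset (Fin N)).erase i := Finset.mem_erase.2 ⟨hji, mem_univ _⟩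
      rw [← Finset.add_sum_erase univ _ (mem_univ i), ← Finset.add_sum_erase _ _ hjm,
        ← Finset.add_sum_erase univ (fun x => u x + d ((Equiv.swap i (τ i) * τ) x) - t) (mem_univ i),
        ← Finset.add_sum_erase _ (fun x => u x + d ((Equiv.swap i (τ i) * τ) x) - t) hjm]
      have hs : ∑ x ∈ (univ.erase i).erase j, (u x + d (τ x) - t) =
          ∑ x ∈ (univ.erase i).erase j, (u x + d ((Equiv.swap i (τ i) * τ) x) - t) := by
        apply Finset.sum_congr rfl
        intro x hx
        rw [Finset.mem_erase, Finset.mem_erase] at hx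
        rw [e3 x hx.2.1 hx.1]
      rw [hs, e1, e2, hj]
      omega

end Clu
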