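import Pool.Agent.Helper204.CL.DefA
import Pool.Agent.Helper204.CL.DefB
import Pool.Agent.Helper204.CL.DefC
import Pool.Agent.Helper204.CL.DefD

set_option linter.unusedSectionVars false

open MvPolynomial Finset

noncomputable section

namespace Clu
variable {N : ℕ} {K : Type} [Field K] [CharZero K]



theorem rearr_aux_h925 {N : ℕ} (A D : Fin N → ℕ) (τ : Equiv.Perm (Fin N)) (hD : Function.Injective D)
    (h1 : ∀ i j, D i < D j → A i ≤ A j)
    (heq : ∑ i, A i * D (τ i) = ∑ i, A i * D i) : ∀ i, A (τ i) = A i := by
  classical
  have hm : Monovary A D := fun i j h => h1 i j h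
  have h2 : Monovary A (D ∘ τ) := hm.sum_mul_comp_perm_eq_sum_mul_iff.1 heq
  have key : ∀ t : ℕ, ∀ x, t ≤ A x ↔ t ≤ A (τ.symm x) := by
    intro t
    set S : Finset (Fin N) := Finset.univ.filter (fun x => t ≤ A x) with hS
    set T : Finset (Fin N) := Finset.univ.filter (fun x => t ≤ A (τ.symm x)) with hT
    have hcard : S.card = T.card := by
      apply Finset.card_bij (fun x _ => τ x)
      · intro x hx
        simp [hS] at hx
        simp [hT, hx]
      · intro x _ y _ h
        exact τ.injective h
      · intro y hy
        simp [hT] at hy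
        exact ⟨τ.symm y, by simp [hS, hy], by simp⟩
    have hst : S = T := by
      by_cases hsub : S ⊆ T
      · exact Finset.eq_of_subset_of_card_le hsub hcard.ge
      · have hsub2 : T ⊆ S := by
          obtain ⟨x, hxS, hxT⟩ := Finset.not_subset.1 hsub
          intro y hy
          by_contra hyS
          simp [hS, hT] at hxS hxT hy hyS
          rcases lt_trichotomy (D x) (D y) with h | h | h
          · have := h1 x y h; omega
          · have := hD h; subst this; omega
          · have h5 : A (τ.symm y) ≤ A (τ.symm x) := h2 (by simpa using h)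
            omega
        exact (Finset.eq_of_subset_of_card_le hsub2 hcard.le).symm
    intro x
    have : x ∈ S ↔ x ∈ T := by rw [hst]
    simpa [hS, hT] using this
  intro i
  have h3 := key (A (τ i)) (τ i)
  have h4 := key (A i) (τ i)
  simp at h3 h4
  omega

/-- HINT: same induction as for the rearrangement inequality: with `i` non-fixed of maximal `d i` in its class, `j = τ⁻¹ i`,
`τ' = τ * swap i j`: `a i d (τ i) + a j d i ≤ a i d i + a j d (τ i)` with equality iff `a i = a j` (as `d (τ i) < d i`). So equality
in total forces `a i = a j` and equality for `τ'` (fewer non-fixed points), by induction `a ∘ τ' = a`; conclude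
`a (τ j) = a i = a j`, `a (τ i) = a (τ' j) = a j = a i`, and `a (τ l) = a (τ' l) = a l` for the others. -/
theorem rearr_eq (a d c : Fin N → ℕ) (τ : Equiv.Perm (Fin N)) (hτ : ∀ i, c (τ i) = c i)
    (hinj : ∀ i j, c i = c j → d i = d j → i = j)
    (hmono : ∀ i j, c i = c j → d j < d i → a j ≤ a i)
    (heq : ∑ i, a i * d (τ i) = ∑ i, a i * d i) : ∀ i, a (τ i) = a i := by
  classical
  obtain ⟨M, hM⟩ : ∃ M : ℕ, ∀ i, d i < M :=
    ⟨(∑ i, d i) + 1, fun i => Nat.lt_succ_of_le (Finset.single_le_sum (fun _ _ => Nat.zero_le _) (Finset.mem_univ i))⟩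
  obtain ⟨M', hM'⟩ : ∃ M' : ℕ, ∀ i, a i ≤ M' :=
    ⟨(∑ i, a i), fun i => Finset.single_le_sum (fun _ _ => Nat.zero_le _) (Finset.mem_univ i)⟩
  have hcl : ∀ i j, c i * M + d i < c j * M + d j → c i ≤ c j := by
    intro i j h
    by_contra hc
    push Not at hc
    have h1 : (c j + 1) * M ≤ c i * M := Nat.mul_le_mul_right M hc
    have h2 := hM j
    rw [add_mul, one_mul] at h1
    omega
  have hD : Function.Injective (fun i => c i * M + d i) := by
    intro i j h
    simp only at h
    have hc : c i = c j := by
      rcases lt_trichotomy (c i) (c j) with h1 | h1 | h1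
      · have h2 : (c i + 1) * M ≤ c j * M := Nat.mul_le_mul_right M h1
        have h3 := hM i
        rw [add_mul, one_mul] at h2
        omega
      · exact h1
      · have h2 : (c j + 1) * M ≤ c i * M := Nat.mul_le_mul_right M h1
        have h3 := hM j
        rw [add_mul, one_mul] at h2
        omega
    refine hinj i j hc ?_
    rw [hc] at h
    omega
  have hmv : ∀ i j, c i * M + d i < c j * M + d j → a i + c i * M' ≤ a j + c j * M' := by
    intro i j h
    rcases (hcl i j h).lt_or_eq with h1 | h1
    · have h2 : (c i + 1) * M' ≤ c j * M' := Nat.mul_le_mul_right M' h1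
      have h3 := hM' i
      rw [add_mul, one_mul] at h2
      omega
    · rw [h1] at h ⊢
      have := hmono j i h1.symm (by omega)
      omega
  have hcd : ∑ i, c i * d (τ i) = ∑ i, c i * d i := by
    calc ∑ i, c i * d (τ i) = ∑ i, c (τ i) * d (τ i) := Finset.sum_congr rfl (fun i _ => by rw [hτ i])
      _ = ∑ i, c i * d i := Equiv.sum_comp τ (fun i => c i * d i)
  have hsum : ∑ i, (a i + c i * M') * (c (τ i) * M + d (τ i)) = ∑ i, (a i + c i * M') * (c i * M + d i) := by
    have e1 : ∀ i, (a i + c i * M') * (c (τ i) * M + d (τ i))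
        = (a i + c i * M') * (c i * M) + a i * d (τ i) + M' * (c i * d (τ i)) := by
      intro i; rw [hτ i]; ring
    have e2 : ∀ i, (a i + c i * M') * (c i * M + d i)
        = (a i + c i * M') * (c i * M) + a i * d i + M' * (c i * d i) := by
      intro i; ring
    simp only [e1, e2, Finset.sum_add_distrib, ← Finset.mul_sum]
    rw [heq, hcd]
  have hfin := rearr_aux_h925 (fun i => a i + c i * M') (fun i => c i * M + d i) τ hD hmv hsum
  intro i
  have := hfin i
  simp only [hτ i] at this
  omega

end Clu
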