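import Pool.Agent.Helper204.CL.DefA
import Pool.Agent.Helper204.CL.DefB
import Pool.Agent.Helper204.CL.DefC
import Pool.Agent.Helper204.CL.DefD
import Pool.Agent.Helper204.CL.P_sgn_swap
import Pool.Agent.Helper204.CL.P_sgn_mul

set_option linter.unusedSectionVars false

open MvPolynomial Finset

noncomputable section

namespace Clu
variable {N : ℕ} {K : Type} [Field K] [CharZero K]



/-- HINT: the inversions of `τ` (fixing all `i ≥ m`) all lie in `first N m`; `Equiv.Perm.sign` as a product over
inversions (`Equiv.Perm.sign_eq_prod_prod_Iio`, `Equiv.Perm.signAux`), or induct using `Equiv.Perm.swap_induction_on`-like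
argument with `sgn_mul`, `sgn_swap` for the subgroup of permutations fixing `{i ≥ m}`. -/
theorem sgn_sign (m : ℕ) (τ : Equiv.Perm (Fin N)) (h : ∀ i : Fin N, m ≤ (i : ℕ) → τ i = i) :
    sgnOn τ (first N m) = ((Equiv.Perm.sign τ : ℤˣ) : ℤ) := by
  classical
  have hp : ∀ i : Fin N, (i : ℕ) < m → ((τ i : Fin N) : ℕ) < m := by
    intro i hi
    by_contra hcon
    push Not at hcon
    have h2 := h (τ i) hcon
    have h3 := τ.injective h2
    rw [h3] at hcon
    omega
  have e1 : (first N m ×ˢ first N m).filter (fun p => p.1 < p.2 ∧ τ p.2 < τ p.1) =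
      (univ : Finset (Fin N × Fin N)).filter (fun p => p.1 < p.2 ∧ τ p.2 < τ p.1) := by
    ext p
    simp only [mem_filter, mem_product, first, mem_univ, true_and]
    constructor
    · exact fun h => h.2
    · intro hh
      have h2 : (p.2 : ℕ) < m := by
        by_contra hcon
        push Not at hcon
        have h4 := hh.2
        rw [h p.2 hcon] at h4
        by_cases h1 : (p.1 : ℕ) < m
        · have h5 := hp p.1 h1
          have h3 : (p.2 : ℕ) < ((τ p.1 : Fin N) : ℕ) := h4
          omega
        · push Not at h1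
          rw [h p.1 h1] at h4
          exact absurd h4 (not_lt.mpr hh.1.le)
      exact ⟨⟨lt_trans hh.1 h2, h2⟩, hh⟩
  have e2 : ((Equiv.Perm.sign τ : ℤˣ) : ℤ) =
      ∏ j : Fin N, ∏ i ∈ Finset.Iio j, (if τ i < τ j then (1 : ℤ) else -1) := by
    rw [Equiv.Perm.sign_eq_prod_prod_Iio, Units.coe_prod]
    refine Finset.prod_congr rfl fun j _ => ?_
    rw [Units.coe_prod]
    refine Finset.prod_congr rfl fun i _ => ?_
    split_ifs
    · rfl
    · rfl
  have e3 : ∏ j : Fin N, ∏ i ∈ Finset.Iio j, (if τ i < τ j then (1 : ℤ) else -1) =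
      ∏ p : Fin N × Fin N, if p.1 < p.2 ∧ τ p.2 < τ p.1 then (-1 : ℤ) else 1 := by
    rw [Fintype.prod_prod_type_right]
    refine Finset.prod_congr rfl fun j _ => ?_
    have e4 : Finset.Iio j = univ.filter (fun i : Fin N => i < j) := by
      ext i
      simp
    rw [e4, Finset.prod_filter]
    refine Finset.prod_congr rfl fun i _ => ?_
    by_cases h1 : i < j
    · have h2 : τ i ≠ τ j := fun h3 => h1.ne (τ.injective h3)
      by_cases h3 : τ i < τ j
      · have h4 : ¬ τ j < τ i := not_lt.mpr h3.le
        simp [h1, h3, h4]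
      · have h4 : τ j < τ i := lt_of_le_of_ne (not_lt.mp h3) h2.symm
        simp [h1, h3, h4]
    · simp [h1]
  rw [e2, e3, sgnOn, e1, ← Finset.prod_filter, Finset.prod_const]

end Clu
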