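import Pool.Agent.Helper204.CL.DefA
import Pool.Agent.Helper204.CL.DefB
import Pool.Agent.Helper204.CL.DefC
import Pool.Agent.Helper204.CL.DefD
import Pool.Agent.Helper204.CL.P_sgn_sign
import Pool.Agent.Helper204.CL.P_rearr_eq

set_option linter.unusedSectionVars false

open MvPolynomial Finset

noncomputable section

namespace Clu
variable {N : ℕ} {K : Type} [Field K] [CharZero K]



/-- HINT: put `u = p - d`, `a i = 2 * u i + fer m i`. From `h` and `hσ` (`fer m (σ i) = fer m i`):
`Σ (2 (u i + d (τ i)) + fer m i)² = Σ (2 p (σ i) + fer m (σ i))² = Σ (2 p i + fer m i)² = Σ (a i + 2 d i)²`; expanding,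
`Σ a i d (τ i) = Σ a i d i` (`Σ d (τ i)² = Σ d i²`). By `rearr_eq` (monotone by `hu`) `a (τ i) = a i`; parity gives
`fer m (τ i) = fer m i` and `u (τ i) = u i`. For `m ≤ i`: if `τ i ≠ i` then `i`, `τ i` have the same class, so `d (τ i) ≠ d i`, both are
bosonic, and `hu` gives a strict inequality between `u i` and `u (τ i)`: contradiction; so `τ i = i`. For `i < m`:
`p (σ i) = u i + d (τ i) = u (τ i) + d (τ i) = p (τ i)`, so `σ i = τ i` by `hF`. Hence `sgnOn σ (first N m) = sgnOn τ (first N m)` (only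
the values on `first N m` matter) and `sgn_sign`. -/
theorem sign_lemma (m : ℕ) (p d c : Fin N → ℕ) (hdp : ∀ i, d i ≤ p i)
    (hinj : ∀ i j, c i = c j → d i = d j → i = j)
    (hu : ∀ i j, c i = c j → d j < d i → p j - d j ≤ p i - d i ∧ p j - d j + fer m j ≤ p i - d i + fer m i ∧
      (fer m i = 0 → p j - d j + 1 ≤ p i - d i))
    (hF : ∀ i j : Fin N, (i : ℕ) < m → (j : ℕ) < m → p i = p j → i = j)
    (σ τ : Equiv.Perm (Fin N)) (hσ : Pres m σ) (hτ : ∀ i, c (τ i) = c i)
    (h : ∀ i, p i - d i + d (τ i) = p (σ i)) :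
    sgnOn σ (first N m) = ((Equiv.Perm.sign τ : ℤˣ) : ℤ) := by
  classical
  have hf1 : ∀ i : Fin N, fer m i ≤ 1 := by
    intro i
    unfold fer
    split_ifs <;> omega
  have hfσ : ∀ i : Fin N, fer m (σ i) = fer m i := by
    intro i
    unfold fer
    have := hσ i
    by_cases h1 : (i : ℕ) < m
    · rw [if_pos h1, if_pos (this.2 h1)]
    · rw [if_neg h1, if_neg (fun h2 => h1 (this.1 h2))]
  let u : Fin N → ℕ := fun i => p i - d i
  let a : Fin N → ℕ := fun i => 2 * u i + fer m i
  have hpu : ∀ i, p i = u i + d i := by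
    intro i
    have := hdp i
    simp only [u]
    omega
  have hmono : ∀ i j, c i = c j → d j < d i → a j ≤ a i := by
    intro i j hc hd
    obtain ⟨h1, h2, -⟩ := hu i j hc hd
    simp only [a, u]
    omega
  have hexp : ∀ w : Fin N → ℕ, ∑ i, (a i + 2 * w i) ^ 2 =
      ∑ i, a i ^ 2 + 4 * ∑ i, a i * w i + 4 * ∑ i, w i ^ 2 := by
    intro w
    rw [Finset.mul_sum, Finset.mul_sum, ← Finset.sum_add_distrib, ← Finset.sum_add_distrib]
    refine Finset.sum_congr rfl fun i _ => ?_
    ring
  have h1 : ∑ i, (a i + 2 * d (τ i)) ^ 2 = ∑ i, (a i + 2 * d i) ^ 2 := by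
    have e1 : ∀ i, a i + 2 * d (τ i) = 2 * p (σ i) + fer m (σ i) := by
      intro i
      rw [← h i, hfσ i]
      simp only [a, u]
      ring
    have e2 : ∀ i, a i + 2 * d i = 2 * p i + fer m i := by
      intro i
      rw [hpu i]
      simp only [a]
      ring
    simp only [e1, e2]
    exact Equiv.sum_comp σ (fun i => (2 * p i + fer m i) ^ 2)
  have h2 : ∑ i, (d (τ i)) ^ 2 = ∑ i, d i ^ 2 := Equiv.sum_comp τ (fun i => d i ^ 2)
  have heq : ∑ i, a i * d (τ i) = ∑ i, a i * d i := by
    rw [hexp (fun i => d (τ i)), hexp d] at h1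
    rw [h2] at h1
    omega
  have ha := rearr_eq a d c τ hτ hinj hmono heq
  have hfτ : ∀ i, fer m (τ i) = fer m i ∧ u (τ i) = u i := by
    intro i
    have e1 := ha i
    have e2 := hf1 i
    have e3 := hf1 (τ i)
    simp only [a] at e1
    omega
  have hfix : ∀ i : Fin N, m ≤ (i : ℕ) → τ i = i := by
    intro i hi
    by_contra hne
    have hfi : fer m i = 0 := by
      unfold fer
      rw [if_neg (by omega)]
    have hfti : fer m (τ i) = 0 := by rw [(hfτ i).1, hfi]
    have hdne : d (τ i) ≠ d i := fun hd => hne (hinj _ _ (hτ i) hd)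
    have hut := (hfτ i).2
    simp only [u] at hut
    rcases lt_or_gt_of_ne hdne with hlt | hgt
    · have := (hu i (τ i) (hτ i).symm hlt).2.2 hfi
      omega
    · have := (hu (τ i) i (hτ i) hgt).2.2 hfti
      omega
  have hlt : ∀ i : Fin N, (i : ℕ) < m → σ i = τ i := by
    intro i hi
    apply hF
    · exact (hσ i).2 hi
    · have e1 := (hfτ i).1
      unfold fer at e1
      rw [if_pos hi] at e1
      by_contra hcon
      rw [if_neg hcon] at e1
      omega
    · rw [← h i, hpu (τ i), (hfτ i).2]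
  have hsg : sgnOn σ (first N m) = sgnOn τ (first N m) := by
    unfold sgnOn
    congr 2
    apply Finset.filter_congr
    rintro ⟨x, y⟩ hxy
    rw [Finset.mem_product] at hxy
    have hx : (x : ℕ) < m := by
      have := hxy.1
      simpa [first] using this
    have hy : (y : ℕ) < m := by
      have := hxy.2
      simpa [first] using this
    simp only [hlt x hx, hlt y hy]
  rw [hsg]
  exact sgn_sign m τ hfix
end Clu
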