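import Pool.Agent.Helper204.CL.DefA
import Pool.Agent.Helper204.CL.DefB
import Pool.Agent.Helper204.CL.DefC
import Pool.Agent.Helper204.CL.DefD
import Pool.Agent.Helper204.CL.P_rearr
import Pool.Agent.Helper204.CL.P_sign_lemma
import Pool.Agent.Helper204.CL.P_gg_facts
import Pool.Agent.Helper204.CL.P_gg_van
import Pool.Agent.Helper204.CL.P_lead_data

set_option linter.unusedSectionVars false

open MvPolynomial Finset

noncomputable section

namespace Clu
variable {N : ℕ} {K : Type} [Field K] [CharZero K]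



theorem lead_exists_coeff_hh (c d p : Fin N → ℕ) (μ : Fin N →₀ ℕ) :
    coeff μ (hh K c d p) = ∑ τ ∈ univ.filter (fun τ : Equiv.Perm (Fin N) => ∀ i, c (τ i) = c i),
      (if (pf (fun i => p i - d i + d (τ i)) : Fin N →₀ ℕ) = μ then
        (((Equiv.Perm.sign τ : ℤˣ) : ℤ) : K) else 0) := by
  unfold hh
  rw [coeff_sum]
  apply Finset.sum_congr rfl
  intro τ _
  rw [coeff_smul, coeff_monomial]
  split_ifs <;> simp

theorem lead_exists_fer (m : ℕ) (σ : Equiv.Perm (Fin N)) (h : Pres m σ) (i : Fin N) :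
    fer m (σ i) = fer m i := by
  unfold fer
  by_cases h1 : (i : ℕ) < m
  · rw [if_pos h1, if_pos ((h i).2 h1)]
  · rw [if_neg h1, if_neg (fun h2 => h1 ((h i).1 h2))]

theorem lead_exists_cx (u d c : Fin N → ℕ) (τ σ : Equiv.Perm (Fin N)) (hτ : ∀ i, c (τ i) = c i)
    (hinj : ∀ i j, c i = c j → d i = d j → i = j)
    (hmono : ∀ i j, c i = c j → d j < d i → u j ≤ u i) (x y : Fin N → ℕ)
    (hx : ∀ i, x (σ i) = u i + d (τ i)) (hy : ∀ i, y i = u i + d i) : Cx x y := by
  constructor
  · rw [← Equiv.sum_comp σ x, Finset.sum_congr rfl (fun i _ => hx i),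
      Finset.sum_congr rfl (fun i _ => hy i), Finset.sum_add_distrib, Finset.sum_add_distrib,
      Equiv.sum_comp τ d]
  · intro t
    have h1 := rearr u d c τ hτ hinj hmono t
    rw [← Equiv.sum_comp σ (fun i => x i - t)]
    calc ∑ i, (x (σ i) - t) = ∑ i, (u i + d (τ i) - t) :=
          Finset.sum_congr rfl (fun i _ => by rw [hx i])
      _ ≤ ∑ i, (u i + d i - t) := h1
      _ = ∑ i, (y i - t) := Finset.sum_congr rfl (fun i _ => by rw [hy i])

/-- HINT: `g = gg L.m (hh K c d L.part)` with `c = cl k ρ`, `d = dl k ρ` from `lead_data`. `InV`: `gg_facts`; `Van`: `gg_van`. Coefficients: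
by `gg_facts` and the definition of `hh`, `coeff ν g = Σ_σ Σ_τ sgnOn σ (first) * sgn τ * [ν ∘ σ = p - d + d ∘ τ]`, `p = L.part`. If it is
nonzero then `ν ∘ σ = p - d + d ∘ τ` for some `σ, τ`, and `LeV` holds by `rearr` with `u = p - d` and `u = p - d + fer` (`LeV` is
invariant under rearrangements by `σ` preserving `{· < m}`). For `ν = p` every nonzero term has sign `+1` by `sign_lemma`,
and `σ = τ = 1` contributes `1`, so the coefficient is a positive integer, nonzero in `K`. -/
theorem lead_exists (k : ℕ) (hk : 1 ≤ k) (L : SPart N) (hL : Admissible k 2 L) :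
    ∃ g : MvPolynomial (Fin N) K, InV L.m g ∧ Van k g ∧ coeff (pf L.part) g ≠ 0 ∧
      ∀ ν : Fin N →₀ ℕ, coeff ν g ≠ 0 → LeV L.m ν L.part := by
  obtain ⟨ρ, hdp, hck, hinj, hu⟩ := lead_data k hk L hL
  set c := cl k ρ with hc
  set d := dl k ρ with hd
  set p := L.part with hp
  set m := L.m with hm
  obtain ⟨hInV, hco⟩ := gg_facts (K := K) m (hh K c d p)
  have hF : ∀ i j : Fin N, (i : ℕ) < m → (j : ℕ) < m → p i = p j → i = j := by
    intro i j hi hj hij
    rcases lt_trichotomy i j with h | h | h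
    · have : p j < p i := L.strict i j h hj
      omega
    · exact h
    · have : p i < p j := L.strict j i h hi
      omega
  refine ⟨gg m (hh K c d p), hInV, gg_van k m p d c hck, ?_, ?_⟩
  · rw [hco]
    have h1 : ∀ σ ∈ univ.filter (fun σ : Equiv.Perm (Fin N) => Pres m σ),
        ((sgnOn σ (first N m) : ℤ) : K) * coeff (pf (fun i => (pf p) (σ i))) (hh K c d p) =
        ((∑ τ ∈ univ.filter (fun τ : Equiv.Perm (Fin N) => ∀ i, c (τ i) = c i),
          (if (pf (fun i => p i - d i + d (τ i)) : Fin N →₀ ℕ) = pf (fun i => p (σ i)) then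
            1 else 0) : ℕ) : K) := by
      intro σ hσ
      have hσ' : Pres m σ := (Finset.mem_filter.1 hσ).2
      rw [lead_exists_coeff_hh, Finset.mul_sum, Nat.cast_sum]
      apply Finset.sum_congr rfl
      intro τ hτ
      have hτ' : ∀ i, c (τ i) = c i := (Finset.mem_filter.1 hτ).2
      by_cases h2 : (pf (fun i => p i - d i + d (τ i)) : Fin N →₀ ℕ) = pf (fun i => p (σ i))
      · have h3 : ∀ i, p i - d i + d (τ i) = p (σ i) := by
          intro i
          have := DFunLike.congr_fun h2 i
          simpa using this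
        have h4 := sign_lemma m p d c hdp hinj hu hF σ τ hσ' hτ' h3
        rw [if_pos (by simpa using h2), if_pos h2, h4, Nat.cast_one]
        rw [← Int.cast_mul]
        have h5 : ((Equiv.Perm.sign τ : ℤˣ) : ℤ) * ((Equiv.Perm.sign τ : ℤˣ) : ℤ) = 1 := by
          rcases Int.units_eq_one_or (Equiv.Perm.sign τ) with h | h <;> rw [h] <;> simp
        rw [h5, Int.cast_one]
      · rw [if_neg (by simpa using h2), if_neg h2, mul_zero, Nat.cast_zero]
    rw [Finset.sum_congr rfl h1, ← Nat.cast_sum]
    rw [Nat.cast_ne_zero]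
    have h6 : (1 : Equiv.Perm (Fin N)) ∈ univ.filter (fun σ : Equiv.Perm (Fin N) => Pres m σ) := by
      rw [Finset.mem_filter]
      exact ⟨Finset.mem_univ _, fun i => Iff.rfl⟩
    have h7 : (1 : Equiv.Perm (Fin N)) ∈
        univ.filter (fun τ : Equiv.Perm (Fin N) => ∀ i, c (τ i) = c i) := by
      rw [Finset.mem_filter]
      exact ⟨Finset.mem_univ _, fun i => rfl⟩
    intro h8
    rw [Finset.sum_eq_zero_iff] at h8
    have h9 := h8 1 h6
    rw [Finset.sum_eq_zero_iff] at h9
    have h10 := h9 1 h7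
    rw [if_pos] at h10
    · exact one_ne_zero h10
    · congr 1
      funext i
      have := hdp i
      simp only [Equiv.Perm.coe_one, id_eq]
      omega
  · intro ν hν
    rw [hco] at hν
    obtain ⟨σ, hσ, hσ2⟩ := Finset.exists_ne_zero_of_sum_ne_zero hν
    have hσ' : Pres m σ := (Finset.mem_filter.1 hσ).2
    have hσ3 := right_ne_zero_of_mul hσ2
    rw [lead_exists_coeff_hh] at hσ3
    obtain ⟨τ, hτ, hτ2⟩ := Finset.exists_ne_zero_of_sum_ne_zero hσ3
    have hτ' : ∀ i, c (τ i) = c i := (Finset.mem_filter.1 hτ).2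
    have h2 : (pf (fun i => p i - d i + d (τ i)) : Fin N →₀ ℕ) = pf (fun i => ν (σ i)) := by
      by_contra h
      exact hτ2 (if_neg h)
    have h3 : ∀ i, p i - d i + d (τ i) = ν (σ i) := by
      intro i
      have := DFunLike.congr_fun h2 i
      simpa using this
    constructor
    · refine lead_exists_cx (fun i => p i - d i) d c τ σ hτ' hinj
        (fun i j h4 h5 => (hu i j h4 h5).1) ν p (fun i => (h3 i).symm) (fun i => ?_)
      have := hdp i
      omega
    · refine lead_exists_cx (fun i => p i - d i + fer m i) d c τ σ hτ' hinj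
        (fun i j h4 h5 => (hu i j h4 h5).2.1) (fun i => ν i + fer m i) (fun i => p i + fer m i)
        (fun i => ?_) (fun i => ?_)
      · rw [← h3 i, lead_exists_fer m σ hσ' i]
        omega
      · have := hdp i
        omega

end Clu
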