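import Pool.Agent.Helper204.CL.DefA
import Pool.Agent.Helper204.CL.DefB
import Pool.Agent.Helper204.CL.DefC
import Pool.Agent.Helper204.CL.DefD
import Pool.Agent.Helper204.CL.DefR
import Pool.Agent.Helper204.CL.P_le_iff
import Pool.Agent.Helper204.CL.P_inV_expand
import Pool.Agent.Helper204.CL.P_comb_first
import Pool.Agent.Helper204.CL.P_clust_iff
import Pool.Agent.Helper204.CL.P_lead_exists

set_option linter.unusedSectionVars false

open MvPolynomial Finset

noncomputable section

namespace Clu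
variable {N : ℕ} {K : Type} [Field K] [CharZero K]



/-- HINT: `g` from `lead_exists`; `inV_expand` gives `v` with `comb v (first N L.m) = g`, `v W ≠ 0 → W.m = L.m`,
`v W = coeff (pf W.part) g`. For `v W ≠ 0`: `LeV L.m W.part L.part` so `W ≤ L` (`le_iff`). `comb v ∈ clusterSpace` by `clust_iff`:
for `m ≠ L.m` `comb v (first N m) = 0` (`comb_first`). -/
theorem lead_coord (k : ℕ) (hk : 1 ≤ k) (L : SPart N) (hL : Admissible k 2 L) :
    ∃ v : SPart N →₀ ℂ, comb v ∈ clusterSpace N k ∧ v L ≠ 0 ∧ ∀ W, v W ≠ 0 → W = L ∨ ltS W L := by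
  obtain ⟨g, hg1, hg2, hg3, hg4⟩ := lead_exists (K := ℂ) k hk L hL
  obtain ⟨v, hv1, hv2, hv3⟩ := inV_expand (K := ℂ) L.m L.m_le g hg1
  obtain ⟨hs, _, hz, _⟩ := comb_first (K := ℂ) v
  refine ⟨v, ?_, ?_, ?_⟩
  · rw [clust_iff]
    refine ⟨hs, ?_⟩
    intro m hm
    by_cases hmL : m = L.m
    · subst hmL
      rw [hv3]
      exact hg2
    · have h0 : comb v (first N m) = 0 := by
        apply hz m hm
        intro W hW hWm
        exact hmL (hWm.symm.trans (hv1 W hW))
      rw [h0]
      intro S _ x _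
      simp
  · rw [hv2 L rfl]
    exact hg3
  · intro W hW
    by_cases hWL : W = L
    · left; exact hWL
    · right
      refine ⟨?_, hWL⟩
      rw [le_iff]
      refine ⟨hv1 W hW, ?_⟩
      have h1 : coeff (pf W.part) g ≠ 0 := by
        rw [← hv2 W (hv1 W hW)]
        exact hW
      exact hg4 _ h1

end Clu
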