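import Pool.Agent.Helper204.CL.DefA
import Pool.Agent.Helper204.CL.DefB
import Pool.Agent.Helper204.CL.DefC
import Pool.Agent.Helper204.CL.DefD

set_option linter.unusedSectionVars false

open MvPolynomial Finset

noncomputable section

namespace Clu
variable {N : ℕ} {K : Type} [Field K] [CharZero K]



theorem Cx_sq_tri (M : ℕ) : ∀ x : ℕ, x ≤ M → 2 * ∑ t ∈ Finset.range M, (x - t) = x ^ 2 + x := by
  induction M with
  | zero =>
    intro x hx
    have : x = 0 := by omega
    subst this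
    simp
  | succ M ih =>
    intro x hx
    rw [Finset.sum_range_succ']
    rcases x with _ | x
    · simp
    · have h1 : ∀ t ∈ Finset.range M, (x + 1 - (t + 1)) = x - t := fun t _ => by omega
      rw [Finset.sum_congr rfl h1, mul_add, ih x (by omega)]
      simp only [Nat.sub_zero]
      ring

/-- HINT: for `M` large `∑_{θ<M} ∑_i (x i - θ) = ∑ x i (x i + 1)/2`; if the sums of squares agree, all inequalities
are equalities (for `θ ≥ M` both sides vanish). -/
theorem Cx_sq (x y : Fin N → ℕ) (h : Cx x y) :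
    ∑ i, x i ^ 2 ≤ ∑ i, y i ^ 2 ∧ (∑ i, x i ^ 2 = ∑ i, y i ^ 2 → Cx y x) := by
  obtain ⟨hs, ht⟩ := h
  have key : ∀ (M : ℕ) (z : Fin N → ℕ), (∀ i, z i ≤ M) →
      2 * ∑ t ∈ Finset.range M, ∑ i, (z i - t)
        = ∑ i, z i ^ 2 + ∑ i, z i := by
    intro M z hz
    rw [Finset.sum_comm, Finset.mul_sum, ← Finset.sum_add_distrib]
    exact Finset.sum_congr rfl fun i _ => Cx_sq_tri _ _ (hz i)
  have hxle : ∀ i, x i ≤ ∑ i, x i + ∑ i, y i := fun i =>
    (Finset.single_le_sum (f := x) (fun j _ => Nat.zero_le _) (Finset.mem_univ i)).trans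
      (Nat.le_add_right _ _)
  have hyle : ∀ i, y i ≤ ∑ i, x i + ∑ i, y i := fun i =>
    (Finset.single_le_sum (f := y) (fun j _ => Nat.zero_le _) (Finset.mem_univ i)).trans
      (Nat.le_add_left _ _)
  have hx := key _ x hxle
  have hy := key _ y hyle
  have hle : ∑ t ∈ Finset.range (∑ i, x i + ∑ i, y i), ∑ i, (x i - t) ≤
      ∑ t ∈ Finset.range (∑ i, x i + ∑ i, y i), ∑ i, (y i - t) :=
    Finset.sum_le_sum fun t _ => ht t
  refine ⟨by omega, fun heq => ⟨hs.symm, fun t => ?_⟩⟩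
  have heq2 : ∑ t ∈ Finset.range (∑ i, x i + ∑ i, y i), ∑ i, (x i - t) =
      ∑ t ∈ Finset.range (∑ i, x i + ∑ i, y i), ∑ i, (y i - t) := by omega
  rw [Finset.sum_eq_sum_iff_of_le (fun t _ => ht t)] at heq2
  rcases lt_or_ge t (∑ i, x i + ∑ i, y i) with hlt | hge
  · exact (heq2 t (Finset.mem_range.mpr hlt)).ge
  · have : ∑ i, (y i - t) = 0 :=
      Finset.sum_eq_zero fun i _ => Nat.sub_eq_zero_of_le ((hyle i).trans hge)
    rw [this]
    exact Nat.zero_le _

end Clu
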