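import Pool.Agent.Helper204.CL.DefA
import Pool.Agent.Helper204.CL.DefB
import Pool.Agent.Helper204.CL.DefC
import Pool.Agent.Helper204.CL.DefD
import Pool.Agent.Helper204.CL.P_sorted_pos

set_option linter.unusedSectionVars false

open MvPolynomial Finset

noncomputable section

namespace Clu
variable {N : ℕ} {K : Type} [Field K] [CharZero K]



theorem star_ext_sum (m : ℕ) (hm : m ≤ N) : ∑ i : Fin N, fer m i = m := by
  have h1 : ∑ i : Fin N, fer m i = ∑ i ∈ Finset.range N, (if i < m then 1 else 0) := by
    rw [Finset.sum_range]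
    rfl
  rw [h1, Finset.sum_ite, Finset.sum_const_zero, add_zero, Finset.sum_const, smul_eq_mul, mul_one]
  have h2 : (Finset.range N).filter (fun i => i < m) = Finset.range m := by
    ext i
    rw [Finset.mem_filter, Finset.mem_range, Finset.mem_range]
    omega
  rw [h2, Finset.card_range]

theorem star_ext_anti (L : SPart N) (B : ℕ) (hB : ∀ i, L.part i ≤ B) :
    Antitone (fun i => fer L.m i * B + L.part i) := by
  intro i j hij
  show fer L.m j * B + L.part j ≤ fer L.m i * B + L.part i
  rcases hij.eq_or_lt with rfl | hlt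
  · exact le_rfl
  · have hlt' : (i : ℕ) < j := hlt
    unfold fer
    by_cases hj : (j : ℕ) < L.m
    · have hi : (i : ℕ) < L.m := hlt'.trans hj
      rw [if_pos hj, if_pos hi]
      have := L.strict i j hlt hj
      omega
    · by_cases hi : (i : ℕ) < L.m
      · rw [if_neg hj, if_pos hi]
        have := hB j
        omega
      · rw [if_neg hj, if_neg hi]
        have := L.weak i j hlt (not_lt.1 hi)
        omega

/-- HINT: `2 * Λ^* ...`: with `ρ`, `ρ'` from `sorted_pos` for `W` and `U`: `W.part ∘ ρ = U.part ∘ ρ'` and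
`fer W.m ∘ ρ = fer U.m ∘ ρ'`; so `π = ρ' ∘ ρ⁻¹` satisfies `U.part (π i) = W.part i`, `fer U.m (π i) = fer W.m i`, in particular
`W.m = U.m`; both `part`s are strictly decreasing on `{i < m}`, weakly decreasing on `{i ≥ m}` and have the same multiset of
values on each of these two sets, hence are equal (e.g. count: the value at `i` is determined by
`#{j < m : part j > a}`). -/
theorem star_ext (W U : SPart N) (h1 : W.star = U.star) (h2 : W.cstar = U.cstar) : W = U := by
  obtain ⟨ρ, hρ1, hρ2, _⟩ := sorted_pos W
  obtain ⟨ρ', hρ1', hρ2', _⟩ := sorted_pos U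
  have hp : ∀ i, U.part ((ρ.symm.trans ρ') i) = W.part i := by
    intro i
    rw [Equiv.trans_apply, ← hρ1', ← h1, hρ1, Equiv.apply_symm_apply]
  have hf : ∀ i, fer U.m ((ρ.symm.trans ρ') i) = fer W.m i := by
    intro i
    have h3 := hρ2 (ρ.symm i)
    have h4 := hρ2' (ρ.symm i)
    rw [Equiv.apply_symm_apply] at h3
    have h5 := hp i
    rw [Equiv.trans_apply] at h5 ⊢
    rw [h2] at h3
    omega
  generalize ρ.symm.trans ρ' = π at hp hf
  have hm : W.m = U.m := by
    rw [← star_ext_sum W.m W.m_le, ← star_ext_sum U.m U.m_le, ← Equiv.sum_comp π (fun i => fer U.m i)]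
    exact Finset.sum_congr rfl (fun i _ => (hf i).symm)
  have hBW : ∀ i, W.part i ≤ ∑ j, W.part j + ∑ j, U.part j := fun i =>
    (Finset.single_le_sum (f := W.part) (fun _ _ => Nat.zero_le _) (Finset.mem_univ i)).trans
      (Nat.le_add_right _ _)
  have hBU : ∀ i, U.part i ≤ ∑ j, W.part j + ∑ j, U.part j := fun i =>
    (Finset.single_le_sum (f := U.part) (fun _ _ => Nat.zero_le _) (Finset.mem_univ i)).trans
      (Nat.le_add_left _ _)
  generalize ∑ j, W.part j + ∑ j, U.part j = B at hBW hBU
  have hW := star_ext_anti W B hBW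
  have hU := star_ext_anti U B hBU
  have key := Tuple.unique_monotone (f := fun i => OrderDual.toDual (fer U.m i * B + U.part i))
    (σ := 1) (τ := π) (fun i j hij => hU hij) (fun i j hij => by
      show fer U.m (π j) * B + U.part (π j) ≤ fer U.m (π i) * B + U.part (π i)
      rw [hf, hf, hp, hp]
      exact hW hij)
  have hpart : W.part = U.part := by
    funext i
    have h6 : fer U.m i * B + U.part i = fer U.m (π i) * B + U.part (π i) := congrFun key i
    rw [hf, hp, hm] at h6
    omega
  exact SPart.ext hm hpart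

end Clu
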