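import Pool.Agent.Helper204.CL.DefA
import Pool.Agent.Helper204.CL.DefB
import Pool.Agent.Helper204.CL.DefC
import Pool.Agent.Helper204.CL.DefD
import Pool.Agent.Helper204.CL.P_star_ext

set_option linter.unusedSectionVars false

open MvPolynomial Finset

noncomputable section

namespace Clu
variable {N : ℕ} {K : Type} [Field K] [CharZero K]



theorem dom_antisymm_aux (x y : Fin N → ℕ) (h1 : Dom x y) (h2 : Dom y x) : x = y := by
  have key : ∀ l : ℕ, ∑ i ∈ univ.filter (fun i : Fin N => (i : ℕ) < l), x i =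
      ∑ i ∈ univ.filter (fun i : Fin N => (i : ℕ) < l), y i :=
    fun l => le_antisymm (h1.2 l) (h2.2 l)
  have hs : ∀ j : Fin N, univ.filter (fun i : Fin N => (i : ℕ) < (j : ℕ) + 1) =
      insert j (univ.filter (fun i : Fin N => (i : ℕ) < (j : ℕ))) := by
    intro j
    ext i
    simp only [mem_filter, mem_univ, true_and, mem_insert, Fin.ext_iff]
    omega
  funext j
  have h3 := key ((j : ℕ) + 1)
  have h4 := key (j : ℕ)
  have hn : j ∉ univ.filter (fun i : Fin N => (i : ℕ) < (j : ℕ)) := by simp
  rw [hs j, sum_insert hn, sum_insert hn] at h3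
  omega

/-- HINT: `W ≤ U` and `U ≤ W` give equality of all initial sums of `star` and of `cstar`, hence `star_ext`. -/
theorem le_antisymm' (W U : SPart N) (h1 : W ≤ U) (h2 : U ≤ W) : W = U :=
  star_ext W U (dom_antisymm_aux _ _ h1.1 h2.1) (dom_antisymm_aux _ _ h1.2 h2.2)

end Clu
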