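import Pool.Agent.Helper204.CL.DefA
import Pool.Agent.Helper204.CL.DefB
import Pool.Agent.Helper204.CL.DefC
import Pool.Agent.Helper204.CL.DefD
import Pool.Agent.Helper204.CL.P_Cx_sq
import Pool.Agent.Helper204.CL.P_le_iff
import Pool.Agent.Helper204.CL.P_le_antisymmp

set_option linter.unusedSectionVars false

open MvPolynomial Finset

noncomputable section

namespace Clu
variable {N : ℕ} {K : Type} [Field K] [CharZero K]



--#BPAUX le_antisymm'

--#BPEND le_antisymm'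

/-- HINT: `le_iff`, `Cx_sq` for both comparisons; if equality of weights then both reversed `Cx` hold so `U ≤ W` and
`le_antisymm'`. -/
theorem lt_wt (W U : SPart N) (h : ltS W U) : wt W.m W.part < wt U.m U.part := by
  obtain ⟨hle, hne⟩ := h
  obtain ⟨hm, h1, h2⟩ := (le_iff W U).mp hle
  obtain ⟨a1, b1⟩ := Cx_sq _ _ h1
  obtain ⟨a2, b2⟩ := Cx_sq _ _ h2
  unfold wt
  rw [hm]
  by_contra hcon
  rw [not_lt] at hcon
  have a1' : ∑ i, W.part i ^ 2 ≤ ∑ i, U.part i ^ 2 := a1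
  have a2' : ∑ i, (W.part i + fer U.m i) ^ 2 ≤ ∑ i, (U.part i + fer U.m i) ^ 2 := a2
  have e1 : ∑ i, W.part i ^ 2 = ∑ i, U.part i ^ 2 := by omega
  have e2 : ∑ i, (W.part i + fer U.m i) ^ 2 = ∑ i, (U.part i + fer U.m i) ^ 2 := by omega
  apply hne
  refine le_antisymm' W U hle ((le_iff U W).mpr ⟨hm.symm, b1 e1, ?_⟩)
  rw [hm]
  exact b2 e2

end Clu
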