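import Pool.Agent.Helper204.CL.DefA
import Pool.Agent.Helper204.CL.DefB
import Pool.Agent.Helper204.CL.DefC
import Pool.Agent.Helper204.CL.DefD
import Pool.Agent.Helper204.CL.P_lt_wt

set_option linter.unusedSectionVars false

open MvPolynomial Finset

noncomputable section

namespace Clu
variable {N : ℕ} {K : Type} [Field K] [CharZero K]



theorem ltS_trans_dom {x y z : Fin N → ℕ} (h1 : Dom x y) (h2 : Dom y z) : Dom x z :=
  ⟨h1.1.trans h2.1, fun l => (h1.2 l).trans (h2.2 l)⟩

/-- HINT: `Dom` is transitive; `W ≠ T` by `lt_wt`. -/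
theorem ltS_trans (W U T : SPart N) (h1 : ltS W U) (h2 : ltS U T) : ltS W T := by
  have a1 : Dom W.star U.star ∧ Dom W.cstar U.cstar := h1.1
  have a2 : Dom U.star T.star ∧ Dom U.cstar T.cstar := h2.1
  refine ⟨⟨ltS_trans_dom a1.1 a2.1, ltS_trans_dom a1.2 a2.2⟩, ?_⟩
  rintro rfl
  have h3 := lt_wt W U h1
  have h4 := lt_wt U W h2
  omega

end Clu
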