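import Pool.Agent.Helper204.CL.DefR

set_option linter.unusedSectionVars false

open MvPolynomial Finset

noncomputable section

namespace Clu



theorem Dm_add {ι K : Type} [Field K] (A B : ι → ℚ) (R : ι → ι → ℚ) (α : K) (u v : ι →₀ K) (W : ι) :
    Dm A B R α (u + v) W = Dm A B R α u W + Dm A B R α v W := by
  unfold Dm
  rw [Finsupp.sum_add_index' (by intro U; simp) (by intro U x y; ring), Finsupp.add_apply]
  ring

theorem Dm_smul {ι K : Type} [Field K] (A B : ι → ℚ) (R : ι → ι → ℚ) (α : K) (c : K) (v : ι →₀ K)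
    (W : ι) : Dm A B R α (c • v) W = c * Dm A B R α v W := by
  unfold Dm
  rw [Finsupp.sum_smul_index' (by intro U; simp), Finsupp.smul_apply, smul_eq_mul, mul_add,
    Finsupp.mul_sum]
  congr 1
  · ring
  · apply Finsupp.sum_congr
    intro U _
    rw [smul_eq_mul]
    ring

/-- HINT: choose `t : K` with `(a A_W + B_W) + t (a A'_W + B'_W) ≠ (a A_L + B_L) + t (a A'_L + B'_L)` for all `W` with
`lt W L` (finitely many `W`, each excludes at most one `t` by `sep`, and `K` is infinite). Let `Z = D + t D'` (linear in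
`v`, where `D v = Dm A B R a v` as a finitely supported function) and `ζ` the eigenvalue of `p`. Let
`V = {v | v W ≠ 0 → lt W L}` (finite dimensional as `{W | lt W L}` is finite) and `V' = V ⊓ F`. `Z - ζ` maps `V` to `V`
and `V'` to `V'`; it is injective on `V`: if `(Z - ζ) v = 0`, `v ≠ 0`, take `W` in the support with `w W` maximal; the
coefficient at `W` is `(ζ_W - ζ) v_W ≠ 0`. So `Z - ζ` is bijective on the finite dimensional `V'`
(`LinearMap.injective_iff_surjective`). Put `r = (g L) • p - g ∈ V`; `(Z - ζ) r = -(Z - ζ) g ∈ V'`, so there is `r' ∈ V'` with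
`(Z - ζ) r' = (Z - ζ) r`, hence `r = r' ∈ F` and `p ∈ F`. -/
theorem mem_main {ι : Type} {K : Type} [Field K] [CharZero K] (lt : ι → ι → Prop) (w : ι → ℕ)
    (hw : ∀ W U, lt W U → w W < w U) (htr : ∀ W U T, lt W U → lt U T → lt W T)
    (A B A' B' : ι → ℚ) (R R' : ι → ι → ℚ)
    (hR : ∀ U W, R U W ≠ 0 → lt W U) (hR' : ∀ U W, R' U W ≠ 0 → lt W U)
    (a : ℚ) (F : Submodule K (ι →₀ K))
    (hF : ∀ v ∈ F, ∃ v' ∈ F, ∀ W, v' W = Dm A B R (a : K) v W)
    (hF' : ∀ v ∈ F, ∃ v' ∈ F, ∀ W, v' W = Dm A' B' R' (a : K) v W)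
    (L : ι) (hfin : {W | lt W L}.Finite)
    (g : ι →₀ K) (hg : g ∈ F) (hgL : g L ≠ 0) (hgs : ∀ W, g W ≠ 0 → W = L ∨ lt W L)
    (p : ι →₀ K) (hpL : p L = 1) (hps : ∀ W, p W ≠ 0 → W = L ∨ lt W L)
    (hE : ∀ W, Dm A B R (a : K) p W = ((a * A L + B L : ℚ) : K) * p W)
    (hE' : ∀ W, Dm A' B' R' (a : K) p W = ((a * A' L + B' L : ℚ) : K) * p W)
    (sep : ∀ W, lt W L → a * A W + B W ≠ a * A L + B L ∨ a * A' W + B' W ≠ a * A' L + B' L) :
    p ∈ F := by
  classical
  -- choice of t
  have hfin1 : ∀ W, lt W L → {t : K | (((a * A W + B W : ℚ) : K) - ((a * A L + B L : ℚ) : K)) +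
      t * (((a * A' W + B' W : ℚ) : K) - ((a * A' L + B' L : ℚ) : K)) = 0}.Finite := by
    intro W hW
    apply Set.Subsingleton.finite
    intro t ht t' ht'
    simp only [Set.mem_ofPred_eq] at ht ht'
    have h1 : (t - t') * (((a * A' W + B' W : ℚ) : K) - ((a * A' L + B' L : ℚ) : K)) = 0 := by
      linear_combination ht - ht'
    rcases mul_eq_zero.mp h1 with h2 | h2
    · exact sub_eq_zero.mp h2
    · exfalso
      rw [h2, mul_zero, add_zero] at ht
      rcases sep W hW with h3 | h3
      · exact h3 (Rat.cast_injective (sub_eq_zero.mp ht))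
      · exact h3 (Rat.cast_injective (sub_eq_zero.mp h2))
  have hbad := hfin.biUnion (fun W hW => hfin1 W hW)
  obtain ⟨t, ht⟩ := hbad.exists_notMem
  have hsep : ∀ W, lt W L → (((a * A W + B W : ℚ) : K) - ((a * A L + B L : ℚ) : K)) +
      t * (((a * A' W + B' W : ℚ) : K) - ((a * A' L + B' L : ℚ) : K)) ≠ 0 := by
    intro W hW h0
    apply ht
    rw [Set.mem_iUnion₂]
    exact ⟨W, hW, h0⟩
  obtain ⟨ζ, hζ⟩ : ∃ ζ : K, ζ = ((a * A L + B L : ℚ) : K) + t * ((a * A' L + B' L : ℚ) : K) :=
    ⟨_, rfl⟩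
  let T : (ι →₀ K) →ₗ[K] (ι → K) :=
    { toFun := fun v W => Dm A B R (a : K) v W + t * Dm A' B' R' (a : K) v W - ζ * v W
      map_add' := by
        intro u v
        funext W
        simp only [Dm_add, Finsupp.add_apply, Pi.add_apply]
        ring
      map_smul' := by
        intro c v
        funext W
        simp only [Dm_smul, Finsupp.smul_apply, Pi.smul_apply, smul_eq_mul, RingHom.id_apply]
        ring }
  have hT : ∀ v W, T v W = Dm A B R (a : K) v W + t * Dm A' B' R' (a : K) v W - ζ * v W :=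
    fun v W => rfl
  obtain ⟨V, hV⟩ : ∃ V : Submodule K (ι →₀ K), V = Finsupp.supported K K {W | lt W L} := ⟨_, rfl⟩
  have hVm : ∀ v, v ∈ V ↔ ∀ W, v W ≠ 0 → lt W L := by
    intro v
    rw [hV, Finsupp.mem_supported']
    constructor
    · intro h W hW
      by_contra hn
      exact hW (h W hn)
    · intro h W hW
      by_contra hn
      exact hW (h W hn)
  have : Finite {W | lt W L} := hfin
  have hVfin : Module.Finite K V := by
    rw [hV]
    exact Module.Finite.equiv (Finsupp.supportedEquivFinsupp {W | lt W L}).symm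
  -- T maps V to V
  have hDz : ∀ (A B : ι → ℚ) (R : ι → ι → ℚ), (∀ U W, R U W ≠ 0 → lt W U) → ∀ v ∈ V, ∀ W,
      ¬ lt W L → Dm A B R (a : K) v W = 0 := by
    intro A B R hR v hv W hW
    have h1 : v W = 0 := by
      by_contra hn
      exact hW ((hVm v).mp hv W hn)
    unfold Dm
    rw [h1, mul_zero, zero_add]
    apply Finset.sum_eq_zero
    intro U hU
    rw [Finsupp.mem_support_iff] at hU
    have h2 := (hVm v).mp hv U hU
    have h3 : R U W = 0 := by
      by_contra hn
      exact hW (htr W U L (hR U W hn) h2)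
    simp only
    rw [h3]
    simp
  have hTV : ∀ v ∈ V, ∀ W, ¬ lt W L → T v W = 0 := by
    intro v hv W hW
    have h1 : v W = 0 := by
      by_contra hn
      exact hW ((hVm v).mp hv W hn)
    rw [hT, hDz A B R hR v hv W hW, hDz A' B' R' hR' v hv W hW, h1]
    ring
  -- injectivity on V
  have hinj : ∀ v ∈ V, T v = 0 → v = 0 := by
    intro v hv hTv
    by_contra hne
    have hsup : v.support.Nonempty := Finsupp.support_nonempty_iff.mpr hne
    obtain ⟨W, hW, hmax⟩ := Finset.exists_max_image v.support w hsup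
    rw [Finsupp.mem_support_iff] at hW
    have hD : ∀ (A B : ι → ℚ) (R : ι → ι → ℚ), (∀ U W, R U W ≠ 0 → lt W U) →
        Dm A B R (a : K) v W = ((a * A W + B W : ℚ) : K) * v W := by
      intro A B R hR
      unfold Dm
      have h1 : v.sum (fun U r => r * (R U W : K)) = 0 := by
        apply Finset.sum_eq_zero
        intro U hU
        have h2 : R U W = 0 := by
          by_contra hn
          have h3 := hw W U (hR U W hn)
          have h4 := hmax U hU
          omega
        simp only
        rw [h2]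
        simp
      rw [h1, add_zero]
      push_cast
      ring
    have h5 : T v W = 0 := by rw [hTv]; rfl
    rw [hT, hD A B R hR, hD A' B' R' hR', hζ] at h5
    have h6 := hsep W ((hVm v).mp hv W hW)
    apply h6
    have h7 : ((((a * A W + B W : ℚ) : K) - ((a * A L + B L : ℚ) : K)) +
      t * (((a * A' W + B' W : ℚ) : K) - ((a * A' L + B' L : ℚ) : K))) * v W = 0 := by
      linear_combination h5
    exact (mul_eq_zero.mp h7).resolve_right hW
  -- F is preserved
  have hTF : ∀ v ∈ F, ∃ u ∈ F, ∀ W, u W = T v W := by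
    intro v hv
    obtain ⟨v1, hv1, e1⟩ := hF v hv
    obtain ⟨v2, hv2, e2⟩ := hF' v hv
    refine ⟨v1 + t • v2 - ζ • v, F.sub_mem (F.add_mem hv1 (F.smul_mem t hv2)) (F.smul_mem ζ hv), ?_⟩
    intro W
    rw [hT, ← e1, ← e2]
    simp
  have hTVF : ∀ v : (V ⊓ F : Submodule K (ι →₀ K)), ∃ u : (V ⊓ F : Submodule K (ι →₀ K)),
      ∀ W, (u : ι →₀ K) W = T v W := by
    rintro ⟨v, hvV, hvF⟩
    obtain ⟨u, hu, e⟩ := hTF v hvF
    refine ⟨⟨u, ?_, hu⟩, e⟩
    refine (hVm u).mpr ?_
    intro W hW
    by_contra hn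
    apply hW
    rw [e]
    exact hTV v hvV W hn
  choose τ hτ using hTVF
  let τl : (V ⊓ F : Submodule K (ι →₀ K)) →ₗ[K] (V ⊓ F : Submodule K (ι →₀ K)) :=
    { toFun := τ
      map_add' := by
        intro u v
        apply Subtype.ext
        ext W
        rw [hτ]
        simp only [Submodule.coe_add, map_add, Pi.add_apply, Finsupp.add_apply, hτ]
      map_smul' := by
        intro c v
        apply Subtype.ext
        ext W
        rw [hτ]
        simp only [Submodule.coe_smul, map_smul, Pi.smul_apply, Finsupp.smul_apply, hτ,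
          RingHom.id_apply] }
  have : Module.Finite K (V ⊓ F : Submodule K (ι →₀ K)) :=
    Submodule.finiteDimensional_of_le inf_le_left
  have hτinj : Function.Injective τl := by
    rw [injective_iff_map_eq_zero]
    intro v hv
    apply Subtype.ext
    apply hinj v v.2.1
    funext W
    rw [← hτ v W]
    have h1 : τ v = 0 := hv
    rw [h1]
    rfl
  have hτsurj : Function.Surjective τl := by
    exact @LinearMap.surjective_of_injective K (V ⊓ F : Submodule K (ι →₀ K)) _ _ _ _ τl hτinj
  -- the element r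
  obtain ⟨r, hr⟩ : ∃ r : ι →₀ K, r = (g L) • p - g := ⟨_, rfl⟩
  have hrV : r ∈ V := by
    rw [hVm]
    intro W hW
    by_cases hWL : W = L
    · exfalso
      apply hW
      rw [hr, hWL]
      simp [hpL]
    · by_cases hpW : p W = 0
      · by_cases hgW : g W = 0
        · exfalso
          apply hW
          rw [hr]
          simp [hpW, hgW]
        · exact (hgs W hgW).resolve_left hWL
      · exact (hps W hpW).resolve_left hWL
  have hTp : T p = 0 := by
    funext W
    rw [hT, hE, hE', hζ]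
    simp only [Pi.zero_apply]
    ring
  have hTr : T r = - T g := by
    rw [hr, map_sub, map_smul, hTp, smul_zero, zero_sub]
  obtain ⟨u, huF, hu⟩ := hTF g hg
  have huV : -u ∈ V := by
    rw [hVm]
    intro W hW
    by_contra hn
    apply hW
    rw [Finsupp.neg_apply, hu]
    have h1 := hTV r hrV W hn
    rw [hTr] at h1
    exact h1
  obtain ⟨r', hr'⟩ := hτsurj ⟨-u, huV, F.neg_mem huF⟩
  have hrr : (r' : ι →₀ K) = r := by
    have h1 : T ((r' : ι →₀ K) - r) = 0 := by
      funext W
      rw [map_sub, hTr, Pi.sub_apply, ← hτ r' W]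
      have h2 : τ r' = ⟨-u, huV, F.neg_mem huF⟩ := hr'
      rw [h2]
      simp only [Finsupp.neg_apply, hu, Pi.neg_apply, Pi.zero_apply]
      ring
    exact sub_eq_zero.mp (hinj _ (V.sub_mem r'.2.1 hrV) h1)
  have hrF : r ∈ F := by
    rw [← hrr]
    exact r'.2.2
  have hp : p = (g L)⁻¹ • (r + g) := by
    rw [hr, sub_add_cancel, smul_smul, inv_mul_cancel₀ hgL, one_smul]
  rw [hp]
  exact F.smul_mem _ (F.add_mem hrF hg)

end Clu
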