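import Pool.Agent.Helper204.CL.DefR

set_option linter.unusedSectionVars false

open MvPolynomial Finset

noncomputable section

namespace Clu



/-- HINT: `b ≠ 0` since its value is not zero. `q = (b q) * b⁻¹`; `denom (b⁻¹)` divides `num b` (up to a unit)
and `num b` does not vanish at `a` because `eval b = eval (num b) / eval (denom b) ≠ 0`; use `reg_ring`-like product rule
(`RatFunc.denom_mul_dvd`). -/
theorem reg_cancel (a : ℚ) (b q : RatFunc ℚ) (hb : b.denom.eval a ≠ 0)
    (hb' : RatFunc.eval (RingHom.id ℚ) a b ≠ 0) (h : (b * q).denom.eval a ≠ 0) : q.denom.eval a ≠ 0 := by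
  intro h0
  have hnum : b.num.eval a ≠ 0 := by
    intro h1
    apply hb'
    rw [RatFunc.eval, Polynomial.eval₂_id, h1, zero_div]
  have hb0 : b ≠ 0 := by
    rintro rfl
    exact hb' (RatFunc.eval_zero _ _)
  have hq : q = b⁻¹ * (b * q) := by
    rw [inv_mul_cancel_left₀ hb0]
  have hdvd : q.denom ∣ b⁻¹.denom * (b * q).denom := by
    have := RatFunc.denom_mul_dvd b⁻¹ (b * q)
    rwa [← hq] at this
  have hdvd2 : b⁻¹.denom ∣ b.num := RatFunc.denom_inv_dvd hb0
  have h2 : q.denom ∣ b.num * (b * q).denom := hdvd.trans (mul_dvd_mul_right hdvd2 _)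
  obtain ⟨c, hc⟩ := h2
  have h3 := congrArg (Polynomial.eval a) hc
  rw [Polynomial.eval_mul, Polynomial.eval_mul, h0, zero_mul] at h3
  rcases mul_eq_zero.mp h3 with h4 | h4
  · exact hnum h4
  · exact h h4

end Clu

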