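import Pool.Agent.Helper204.CL.DefR

set_option linter.unusedSectionVars false

open MvPolynomial Finset

noncomputable section

namespace Clu



/-- HINT: `RatFunc.X`, rational constants are images of polynomials (`RatFunc.denom_algebraMap`, `RatFunc.algebraMap_X`,
`RatFunc.algebraMap_C`), `RatFunc.eval_algebraMap`; note that the cast `(c : RatFunc ℚ)` of `c : ℚ` is `RatFunc.C c`
(`map_ratCast`). -/
theorem reg_lin (a A B : ℚ) :
    ((RatFunc.X : RatFunc ℚ) * (A : RatFunc ℚ) + (B : RatFunc ℚ)).denom.eval a ≠ 0 ∧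
    RatFunc.eval (RingHom.id ℚ) a ((RatFunc.X : RatFunc ℚ) * (A : RatFunc ℚ) + (B : RatFunc ℚ)) = a * A + B ∧
    (∀ c : ℚ, ((c : RatFunc ℚ)).denom.eval a ≠ 0 ∧ RatFunc.eval (RingHom.id ℚ) a (c : RatFunc ℚ) = c) := by
  have hc : ∀ c : ℚ, (c : RatFunc ℚ) = algebraMap (Polynomial ℚ) (RatFunc ℚ) (Polynomial.C c) := by
    intro c
    rw [RatFunc.algebraMap_C]
    exact (map_ratCast (RatFunc.C : ℚ →+* RatFunc ℚ) c).symm
  have h1 : (RatFunc.X : RatFunc ℚ) * (A : RatFunc ℚ) + (B : RatFunc ℚ) =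
      algebraMap (Polynomial ℚ) (RatFunc ℚ) (Polynomial.X * Polynomial.C A + Polynomial.C B) := by
    rw [hc A, hc B, map_add, map_mul, RatFunc.algebraMap_X]
  refine ⟨?_, ?_, fun c => ⟨?_, ?_⟩⟩
  · rw [h1, RatFunc.denom_algebraMap]; simp
  · rw [h1, RatFunc.eval_algebraMap]; simp; ring
  · rw [hc, RatFunc.denom_algebraMap]; simp
  · rw [hc, RatFunc.eval_algebraMap]; simp

end Clu
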