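import Pool.Agent.Helper204.CL.DefR

set_option linter.unusedSectionVars false

open MvPolynomial Finset

noncomputable section

namespace Clu



/-- HINT: `RatFunc.eval` lemmas: `RatFunc.eval_add`, `RatFunc.eval_mul` (side conditions on denominators),
`RatFunc.num_div_denom`, `RatFunc.denom_add_dvd`, `RatFunc.denom_mul_dvd`, `RatFunc.denom_inv_dvd`... For the last part:
`b` is a polynomial in `X` with `b` nonzero at `a`; `q = (b q) / b`, and the denominator of the quotient divides
`denom (b q) * (num b)`. -/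
theorem reg_ring (a : ℚ) (p q : RatFunc ℚ) (hp : p.denom.eval a ≠ 0) (hq : q.denom.eval a ≠ 0) :
    (p + q).denom.eval a ≠ 0 ∧ (p * q).denom.eval a ≠ 0 ∧
    RatFunc.eval (RingHom.id ℚ) a (p + q) = RatFunc.eval (RingHom.id ℚ) a p + RatFunc.eval (RingHom.id ℚ) a q ∧
    RatFunc.eval (RingHom.id ℚ) a (p * q) = RatFunc.eval (RingHom.id ℚ) a p * RatFunc.eval (RingHom.id ℚ) a q := by
  have hp' : Polynomial.eval₂ (RingHom.id ℚ) a p.denom ≠ 0 := hp
  have hq' : Polynomial.eval₂ (RingHom.id ℚ) a q.denom ≠ 0 := hq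
  have hd : ∀ r : RatFunc ℚ, r.denom ∣ p.denom * q.denom → r.denom.eval a ≠ 0 := by
    rintro r ⟨c, hc⟩ h0
    have h1 := congrArg (Polynomial.eval a) hc
    rw [Polynomial.eval_mul, Polynomial.eval_mul, h0, zero_mul] at h1
    exact mul_ne_zero hp hq h1
  exact ⟨hd _ (RatFunc.denom_add_dvd p q), hd _ (RatFunc.denom_mul_dvd p q),
    RatFunc.eval_add _ _ hp' hq', RatFunc.eval_mul _ _ hp' hq'⟩

end Clu
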