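import Pool.Agent.Helper204.CL.DefR
import Pool.Agent.Helper204.CL.P_reg_ring
import Pool.Agent.Helper204.CL.P_reg_lin
import Pool.Agent.Helper204.CL.P_reg_cancel

set_option linter.unusedSectionVars false

open MvPolynomial Finset

noncomputable section

namespace Clu



theorem reg_main_zero (a : ℚ) : (0 : RatFunc ℚ).denom.eval a ≠ 0 ∧
    RatFunc.eval (RingHom.id ℚ) a (0 : RatFunc ℚ) = 0 := by
  have h := (reg_lin a 0 0).2.2 0
  rwa [Rat.cast_zero] at h

theorem reg_main_one (a : ℚ) : (1 : RatFunc ℚ).denom.eval a ≠ 0 ∧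
    RatFunc.eval (RingHom.id ℚ) a (1 : RatFunc ℚ) = 1 := by
  have h := (reg_lin a 0 0).2.2 1
  rwa [Rat.cast_one] at h

theorem reg_main_sum {ι : Type} (a : ℚ) (s : Finset ι) (f : ι → RatFunc ℚ)
    (hf : ∀ U ∈ s, (f U).denom.eval a ≠ 0) :
    (∑ U ∈ s, f U).denom.eval a ≠ 0 ∧
    RatFunc.eval (RingHom.id ℚ) a (∑ U ∈ s, f U)
      = ∑ U ∈ s, RatFunc.eval (RingHom.id ℚ) a (f U) := by
  classical
  induction s using Finset.induction_on with
  | empty => simp
  | insert U s hU ih =>
    have h1 := ih (fun V hV => hf V (Finset.mem_insert_of_mem hV))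
    have h2 := reg_ring a (f U) _ (hf U (Finset.mem_insert_self _ _)) h1.1
    rw [Finset.sum_insert hU, Finset.sum_insert hU]
    exact ⟨h2.1, by rw [h2.2.2.1, h1.2]⟩

theorem reg_main_e {ι : Type} (lt : ι → ι → Prop) (w : ι → ℕ)
    (hw : ∀ W U, lt W U → w W < w U) (A B : ι → ℚ) (R : ι → ι → ℚ)
    (hR : ∀ U W, R U W ≠ 0 → lt W U)
    (L : ι) (c : ι →₀ RatFunc ℚ) (hcL : c L = 1) (hc : ∀ W, c W ≠ 0 → W = L ∨ lt W L)
    (e : RatFunc ℚ) (hE : ∀ W, Dm A B R (RatFunc.X : RatFunc ℚ) c W = e * c W) :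
    e = (RatFunc.X : RatFunc ℚ) * (A L : RatFunc ℚ) + (B L : RatFunc ℚ) := by
  have h := hE L
  rw [Dm, hcL, mul_one, mul_one, Finsupp.sum] at h
  have hs : ∑ U ∈ c.support, c U * ((R U L : ℚ) : RatFunc ℚ) = 0 := by
    refine Finset.sum_eq_zero fun U hU => ?_
    have hz : R U L = 0 := by
      by_contra hz
      have h1 := hw L U (hR U L hz)
      rcases hc U (Finsupp.mem_support_iff.mp hU) with h2 | h2
      · rw [h2] at h1; exact lt_irrefl _ h1
      · exact lt_asymm h1 (hw U L h2)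
    rw [hz, Rat.cast_zero, mul_zero]
  rw [hs, add_zero] at h
  exact h.symm

theorem reg_main_ev {ι : Type} {K : Type} [Field K] [CharZero K] (A B : ι → ℚ) (R : ι → ι → ℚ)
    (L : ι) (c : ι →₀ RatFunc ℚ) (a : ℚ) (hreg : ∀ W, (c W).denom.eval a ≠ 0)
    (hE : ∀ W, Dm A B R (RatFunc.X : RatFunc ℚ) c W
      = ((RatFunc.X : RatFunc ℚ) * (A L : RatFunc ℚ) + (B L : RatFunc ℚ)) * c W) :
    ∀ W, Dm A B R (a : K) (spec K a c) W = ((a * A L + B L : ℚ) : K) * spec K a c W := by
  intro W
  have h := congrArg (RatFunc.eval (RingHom.id ℚ) a) (hE W)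
  rw [Dm, Finsupp.sum] at h
  have h1 := reg_lin a (A W) (B W)
  have h2 := reg_lin a (A L) (B L)
  have h3 := reg_ring a _ _ h1.1 (hreg W)
  have h4 := reg_ring a _ _ h2.1 (hreg W)
  have hcst : ∀ U, ((R U W : ℚ) : RatFunc ℚ).denom.eval a ≠ 0 ∧
      RatFunc.eval (RingHom.id ℚ) a ((R U W : ℚ) : RatFunc ℚ) = R U W :=
    fun U => (reg_lin a 0 0).2.2 _
  have h5 := fun U => reg_ring a (c U) ((R U W : ℚ) : RatFunc ℚ) (hreg U) (hcst U).1
  have h6 := reg_main_sum a c.support (fun U => c U * ((R U W : ℚ) : RatFunc ℚ))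
    (fun U _ => (h5 U).2.1)
  have h7 := reg_ring a _ _ h3.2.1 h6.1
  rw [h7.2.2.1, h3.2.2.2, h4.2.2.2, h1.2.1, h2.2.1, h6.2] at h
  have h8 : ∑ U ∈ c.support, RatFunc.eval (RingHom.id ℚ) a (c U * ((R U W : ℚ) : RatFunc ℚ))
      = ∑ U ∈ c.support, RatFunc.eval (RingHom.id ℚ) a (c U) * R U W := by
    refine Finset.sum_congr rfl fun U _ => ?_
    rw [(h5 U).2.2.2, (hcst U).2]
  rw [h8] at h
  have h9 := congrArg (fun q : ℚ => (q : K)) h
  push_cast at h9
  rw [Dm, spec, Finsupp.sum_mapRange_index (fun U => by rw [zero_mul])]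
  show ((a : K) * (A W : K) + (B W : K)) * (valAt K a (c W))
      + ∑ U ∈ c.support, valAt K a (c U) * (R U W : K)
      = ((a * A L + B L : ℚ) : K) * valAt K a (c W)
  unfold valAt
  push_cast
  exact h9

/-- HINT: Comparing coefficients at `L` (no `U` in the support of `c` has `R U L ≠ 0`, as that would need `lt L U` and
`U = L ∨ lt U L`) gives `e = X A_L + B_L`, `e' = X A'_L + B'_L`. For `W` with `c W ≠ 0`, `W ≠ L`: the equation at `W` is
`((X A_L + B_L) - (X A_W + B_W)) c_W = ∑_U c_U R_{UW}`, only `U` with `lt W U` contribute. By strong induction on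
`w L - w W` all these `c_U` are regular at `a`, hence so is the right hand side, and by `sep` one of the two factors
`(X A_L + B_L) - (X A_W + B_W)`, `(X A'_L + B'_L) - (X A'_W + B'_W)` does not vanish at `a` (`reg_lin`, `reg_cancel`).
Then evaluate both eigenvalue equations at `a` using `reg_ring`, `reg_lin` (evaluation is additive and multiplicative on
regular functions). -/
theorem reg_main {ι : Type} {K : Type} [Field K] [CharZero K] (lt : ι → ι → Prop) (w : ι → ℕ)
    (hw : ∀ W U, lt W U → w W < w U)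
    (A B A' B' : ι → ℚ) (R R' : ι → ι → ℚ)
    (hR : ∀ U W, R U W ≠ 0 → lt W U) (hR' : ∀ U W, R' U W ≠ 0 → lt W U)
    (L : ι) (c : ι →₀ RatFunc ℚ) (hcL : c L = 1) (hc : ∀ W, c W ≠ 0 → W = L ∨ lt W L)
    (e e' : RatFunc ℚ) (hE : ∀ W, Dm A B R (RatFunc.X : RatFunc ℚ) c W = e * c W)
    (hE' : ∀ W, Dm A' B' R' (RatFunc.X : RatFunc ℚ) c W = e' * c W)
    (a : ℚ) (sep : ∀ W, lt W L → a * A W + B W ≠ a * A L + B L ∨ a * A' W + B' W ≠ a * A' L + B' L) :
    (∀ W, (c W).denom.eval a ≠ 0) ∧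
    (∀ W, Dm A B R (a : K) (spec K a c) W = ((a * A L + B L : ℚ) : K) * spec K a c W) ∧
    (∀ W, Dm A' B' R' (a : K) (spec K a c) W = ((a * A' L + B' L : ℚ) : K) * spec K a c W) := by
  have he := reg_main_e lt w hw A B R hR L c hcL hc e hE
  have he' := reg_main_e lt w hw A' B' R' hR' L c hcL hc e' hE'
  have hreg : ∀ n : ℕ, ∀ W, w L - w W = n → (c W).denom.eval a ≠ 0 := by
    intro n
    induction n using Nat.strong_induction_on with
    | _ n ih =>
      intro W hn
      by_cases h0 : c W = 0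
      · rw [h0]; exact (reg_main_zero a).1
      · rcases hc W h0 with h1 | h1
        · rw [h1, hcL]; exact (reg_main_one a).1
        · have hwW := hw W L h1
          have hterm : ∀ (R₀ : ι → ι → ℚ), (∀ U W, R₀ U W ≠ 0 → lt W U) →
              (∑ U ∈ c.support, c U * ((R₀ U W : ℚ) : RatFunc ℚ)).denom.eval a ≠ 0 := by
            intro R₀ hR₀
            refine (reg_main_sum a c.support _ fun U hU => ?_).1
            by_cases hz : R₀ U W = 0
            · rw [hz, Rat.cast_zero, mul_zero]; exact (reg_main_zero a).1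
            · have h2 := hw W U (hR₀ U W hz)
              have h3 : w U ≤ w L := by
                rcases hc U (Finsupp.mem_support_iff.mp hU) with h | h
                · rw [h]
                · exact (hw U L h).le
              exact (reg_ring a _ _ (ih (w L - w U) (by omega) U rfl)
                ((reg_lin a 0 0).2.2 _).1).2.1
          have hcancel : ∀ (A₀ B₀ : ι → ℚ) (R₀ : ι → ι → ℚ), (∀ U W, R₀ U W ≠ 0 → lt W U) →
              (Dm A₀ B₀ R₀ (RatFunc.X : RatFunc ℚ) c W
                = ((RatFunc.X : RatFunc ℚ) * (A₀ L : RatFunc ℚ) + (B₀ L : RatFunc ℚ)) * c W) →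
              a * A₀ W + B₀ W ≠ a * A₀ L + B₀ L → (c W).denom.eval a ≠ 0 := by
            intro A₀ B₀ R₀ hR₀ hD hne
            have h2 := hterm R₀ hR₀
            have h3 := reg_lin a (A₀ L - A₀ W) (B₀ L - B₀ W)
            refine reg_cancel a _ (c W) h3.1 ?_ ?_
            · rw [h3.2.1]
              intro h4
              apply hne
              linarith
            · have h5 : ((RatFunc.X : RatFunc ℚ) * ((A₀ L - A₀ W : ℚ) : RatFunc ℚ)
                  + ((B₀ L - B₀ W : ℚ) : RatFunc ℚ)) * c W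
                  = ∑ U ∈ c.support, c U * ((R₀ U W : ℚ) : RatFunc ℚ) := by
                rw [Dm, Finsupp.sum] at hD
                push_cast
                linear_combination (-1 : RatFunc ℚ) * hD
              rw [h5]
              exact h2
          rcases sep W h1 with h | h
          · exact hcancel A B R hR (by rw [hE W, he]) h
          · exact hcancel A' B' R' hR' (by rw [hE' W, he']) h
  have hreg' : ∀ W, (c W).denom.eval a ≠ 0 := fun W => hreg _ W rfl
  refine ⟨hreg', ?_, ?_⟩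
  · exact reg_main_ev A B R L c a hreg' (fun W => by rw [hE W, he])
  · exact reg_main_ev A' B' R' L c a hreg' (fun W => by rw [hE' W, he'])

end Clu
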