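import Pool.Agent.Helper204.CL.DefA
import Pool.Agent.Helper204.CL.DefB
import Pool.Agent.Helper204.CL.DefC
import Pool.Agent.Helper204.CL.DefD

set_option linter.unusedSectionVars false

open MvPolynomial Finset

noncomputable section

namespace Clu
variable {N : ℕ} {K : Type} [Field K] [CharZero K]



theorem mn_perm_key (v : Fin N → ℕ) : 2 * mn v + ∑ i, v i = ∑ i, ∑ j, min (v i) (v j) := by
  have h1 : ∀ i : Fin N, ∑ j, min (v i) (v j) =
      (∑ j, (if i < j then min (v i) (v j) else 0)) + (∑ j, (if j < i then min (v i) (v j) else 0)) +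
        ∑ j, (if j = i then v i else 0) := by
    intro i
    rw [← Finset.sum_add_distrib, ← Finset.sum_add_distrib]
    refine Finset.sum_congr rfl fun j _ => ?_
    rcases lt_trichotomy i j with h | h | h
    · simp [h, h.ne', h.not_gt]
    · subst h; simp
    · simp [h, h.ne, h.not_gt]
  have h2 : ∑ i : Fin N, ∑ j : Fin N, (if j < i then min (v i) (v j) else 0) = mn v := by
    unfold mn
    simp only [Finset.sum_filter]
    rw [Finset.sum_comm]
    refine Finset.sum_congr rfl fun i _ => Finset.sum_congr rfl fun j _ => ?_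
    rw [min_comm]
  have h3 : ∑ i : Fin N, ∑ j : Fin N, (if i < j then min (v i) (v j) else 0) = mn v := by
    unfold mn
    simp only [Finset.sum_filter]
  have h4 : ∀ i : Fin N, ∑ j : Fin N, (if j = i then v i else 0) = v i := by
    intro i; simp
  rw [Finset.sum_congr rfl (fun i _ => h1 i), Finset.sum_add_distrib, Finset.sum_add_distrib, h2, h3,
    Finset.sum_congr rfl (fun i _ => h4 i)]
  ring

/-- HINT: `2 * mn v + Σ v i = Σ_i Σ_j min (v i) (v j)`, which is invariant under reindexing. -/
theorem mn_perm (v : Fin N → ℕ) (ρ : Equiv.Perm (Fin N)) : mn (v ∘ ρ) = mn v := by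
  have h1 := mn_perm_key v
  have h2 := mn_perm_key (v ∘ ρ)
  have h3 : ∑ i, (v ∘ ρ) i = ∑ i, v i := Equiv.sum_comp ρ v
  have h4 : ∑ i, ∑ j, min ((v ∘ ρ) i) ((v ∘ ρ) j) = ∑ i, ∑ j, min (v i) (v j) := by
    rw [← Equiv.sum_comp ρ (fun i => ∑ j, min (v i) (v j))]
    refine Finset.sum_congr rfl fun i _ => ?_
    exact Equiv.sum_comp ρ (fun j => min (v (ρ i)) (v j))
  rw [h3, h4] at h2
  omega

end Clu
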