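import Pool.Agent.Helper204.CL.DefA
import Pool.Agent.Helper204.CL.DefB
import Pool.Agent.Helper204.CL.DefC
import Pool.Agent.Helper204.CL.DefD
import Pool.Agent.Helper204.CL.P_dsort_unique
import Pool.Agent.Helper204.CL.P_mn_perm

set_option linter.unusedSectionVars false

open MvPolynomial Finset

noncomputable section

namespace Clu
variable {N : ℕ} {K : Type} [Field K] [CharZero K]



/-- HINT: `mn (dsort v) = mn v` by `mn_perm`, and for antitone `w`: `mn w = Σ_j #{i < j} * w j = Σ_j j * w j`. -/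
theorem dsort_mn (v : Fin N → ℕ) : ∑ i : Fin N, (i : ℕ) * dsort v i = mn v := by
  obtain ⟨hanti, ⟨ρ, hρ⟩, _⟩ := dsort_unique v
  have h1 : dsort v = v ∘ ρ := funext hρ
  have h2 : mn v = mn (dsort v) := by rw [h1, mn_perm]
  rw [h2]
  obtain ⟨w, hw⟩ : ∃ w, w = dsort v := ⟨_, rfl⟩
  rw [← hw] at hanti ⊢
  unfold mn
  have h3 : ∀ i : Fin N, ∑ j ∈ univ.filter (fun j : Fin N => i < j), min (w i) (w j) =
      ∑ j : Fin N, if i < j then w j else 0 := by
    intro i
    rw [Finset.sum_filter]
    refine Finset.sum_congr rfl fun j _ => ?_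
    by_cases h : i < j
    · rw [if_pos h, if_pos h]
      exact min_eq_right (hanti h.le)
    · rw [if_neg h, if_neg h]
  rw [Finset.sum_congr rfl fun i _ => h3 i, Finset.sum_comm]
  refine Finset.sum_congr rfl fun j _ => ?_
  rw [← Finset.sum_filter, Finset.sum_const, smul_eq_mul]
  congr 1
  have h4 : (univ.filter (fun i : Fin N => i < j)) = Finset.Iio j := by
    ext x; simp
  rw [h4, Fin.card_Iio]

end Clu
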