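import Pool.Agent.Helper204.CL.DefA
import Pool.Agent.Helper204.CL.DefB
import Pool.Agent.Helper204.CL.DefC
import Pool.Agent.Helper204.CL.DefD

set_option linter.unusedSectionVars false

open MvPolynomial Finset

noncomputable section

namespace Clu
variable {N : ℕ} {K : Type} [Field K] [CharZero K]



theorem mn_fer_count (m : ℕ) (hm : m ≤ N) :
    ∑ i : Fin N, ∑ j ∈ univ.filter (fun j : Fin N => i < j), (if (j : ℕ) < m then 1 else 0) =
      m.choose 2 := by
  have h1 : ∑ i : Fin N, ∑ j ∈ univ.filter (fun j : Fin N => i < j),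
      (if (j : ℕ) < m then 1 else 0) = ∑ j : Fin N, (if (j : ℕ) < m then (j : ℕ) else 0) := by
    simp_rw [sum_filter]
    rw [sum_comm]
    apply sum_congr rfl
    intro j _
    by_cases hj : (j : ℕ) < m
    · simp only [hj, if_true]
      rw [← sum_filter, sum_const, smul_eq_mul, mul_one]
      have : (univ.filter (fun i : Fin N => i < j)) = Finset.Iio j := by
        ext i; simp
      rw [this, Fin.card_Iio]
    · simp [hj]
  rw [h1, Fin.sum_univ_eq_sum_range (fun j => if j < m then j else 0) N, ← sum_filter]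
  have h2 : (range N).filter (fun j => j < m) = range m := by
    ext j
    simp only [mem_filter, mem_range]
    omega
  rw [h2, Finset.sum_range_id, Nat.choose_two_right]

theorem mn_fer_pt (m : ℕ) (p : Fin N → ℕ) (i j : Fin N) (hij : i < j) :
    min (p i + fer m i) (p j + fer m j) = min (p i) (p j) + (if (j : ℕ) < m then 1 else 0) +
      (if (i : ℕ) < m ∧ m ≤ (j : ℕ) then (if p i < p j then 1 else 0) else 0) := by
  have hij' : (i : ℕ) < j := hij
  unfold fer
  split_ifs <;> omega

theorem mn_fer_cr (m : ℕ) (p : Fin N → ℕ) :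
    ∑ i : Fin N, ∑ j ∈ univ.filter (fun j : Fin N => i < j),
      (if (i : ℕ) < m ∧ m ≤ (j : ℕ) then (if p i < p j then 1 else 0) else 0) = cr m p := by
  unfold cr
  rw [sum_filter]
  apply sum_congr rfl
  intro i _
  by_cases hi : (i : ℕ) < m
  · rw [if_pos hi, sum_filter, sum_filter]
    apply sum_congr rfl
    intro j _
    by_cases hj : m ≤ (j : ℕ)
    · have : i < j := by
        have : (i : ℕ) < j := by omega
        exact this
      rw [if_pos this, if_pos ⟨hi, hj⟩, if_pos hj]
    · simp [hj]
  · rw [if_neg hi]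
    apply sum_eq_zero
    intro j _
    rw [if_neg (fun h => hi h.1)]

/-- HINT: pair by pair (`i < j`): both `< m`: `min (a+1) (b+1) = min a b + 1`, there are `m.choose 2` pairs
(`m ≤ N`); `i < m ≤ j`: `min (a+1) b = min a b + [a < b]`; `m ≤ i < j`: no change. -/
theorem mn_fer (m : ℕ) (hm : m ≤ N) (p : Fin N → ℕ) :
    mn (fun i => p i + fer m i) = mn p + m.choose 2 + cr m p := by
  rw [← mn_fer_count m hm, ← mn_fer_cr m p]
  unfold mn
  rw [← sum_add_distrib, ← sum_add_distrib]
  apply sum_congr rfl
  intro i _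
  rw [← sum_add_distrib, ← sum_add_distrib]
  apply sum_congr rfl
  intro j hj
  exact mn_fer_pt m p i j (mem_filter.1 hj).2

end Clu
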