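import Pool.Agent.Helper204.CL.DefA
import Pool.Agent.Helper204.CL.DefB
import Pool.Agent.Helper204.CL.DefC
import Pool.Agent.Helper204.CL.DefD
import Pool.Agent.Helper204.CL.P_star_inter
import Pool.Agent.Helper204.CL.P_dsort_sum
import Pool.Agent.Helper204.CL.P_dsort_mn
import Pool.Agent.Helper204.CL.P_mn_fer
import Pool.Agent.Helper204.CL.P_le_iff
import Pool.Agent.Helper204.CL.P_star_ext

set_option linter.unusedSectionVars false

open MvPolynomial Finset

noncomputable section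

namespace Clu
variable {N : ℕ} {K : Type} [Field K] [CharZero K]



/-- extension by zero -/
def sep_ext (v : Fin N → ℕ) (n : ℕ) : ℕ := if h : n < N then v ⟨n, h⟩ else 0

theorem sep_ext_lt (v : Fin N → ℕ) {n : ℕ} (h : n < N) : sep_ext v n = v ⟨n, h⟩ := dif_pos h

theorem sep_ext_fin (v : Fin N → ℕ) (i : Fin N) : sep_ext v i = v i := by
  rw [sep_ext_lt v i.2]

theorem sep_sum (v : Fin N → ℕ) (F : ℕ → ℕ → ℕ) :
    ∑ i ∈ range N, F (sep_ext v i) i = ∑ i : Fin N, F (v i) i := by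
  rw [Finset.sum_range]
  simp only [sep_ext_fin]

theorem sep_initial (v : Fin N → ℕ) {l : ℕ} (hl : l ≤ N) :
    ∑ i ∈ range l, sep_ext v i = ∑ i ∈ univ.filter (fun i : Fin N => (i : ℕ) < l), v i := by
  rw [Finset.sum_filter]
  have h1 : range l = (range N).filter (fun i => i < l) := by
    ext i
    simp only [Finset.mem_range, Finset.mem_filter]
    omega
  rw [h1, Finset.sum_filter, Finset.sum_range]
  simp only [sep_ext_fin]

theorem sep_sq (v : Fin N → ℕ) (k : ℕ) : ∑ i : Fin N, ((k + 1) * dsort v i + (i : ℕ)) ^ 2 =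
    (k + 1) ^ 2 * ∑ i, v i ^ 2 + 2 * (k + 1) * mn v + ∑ i : Fin N, (i : ℕ) ^ 2 := by
  have h1 : ∀ i : Fin N, ((k + 1) * dsort v i + (i : ℕ)) ^ 2 =
      (k + 1) ^ 2 * (dsort v i) ^ 2 + 2 * (k + 1) * ((i : ℕ) * dsort v i) + (i : ℕ) ^ 2 := by
    intro i; ring
  simp only [h1]
  rw [Finset.sum_add_distrib, Finset.sum_add_distrib, ← Finset.mul_sum, ← Finset.mul_sum,
    dsort_sum v (fun n => n ^ 2), dsort_mn]

theorem sep_sq1 (x : Fin N → ℕ) : sq1 x + ∑ i, x i = ∑ i, x i ^ 2 := by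
  unfold sq1
  rw [← Finset.sum_add_distrib]
  apply Finset.sum_congr rfl
  intro i _
  cases x i with
  | zero => rfl
  | succ n => simp only [Nat.add_sub_cancel]; ring

theorem sep_fer (m : ℕ) (x : Fin N → ℕ) : ∑ i, (x i + fer m i) ^ 2 =
    ∑ i, x i ^ 2 + 2 * fs m x + ∑ i : Fin N, fer m i := by
  unfold fs
  rw [Finset.sum_filter, Finset.mul_sum, ← Finset.sum_add_distrib, ← Finset.sum_add_distrib]
  apply Finset.sum_congr rfl
  intro i _
  unfold fer
  split_ifs
  · ring
  · ring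

/-- HINT: by contradiction assume both equalities. Apply `sep_seq` to `p = L.star`, `P = L.cstar`, `q = W.star`,
`Q = W.cstar` extended by `0` to `ℕ` (`fun n => if h : n < N then L.star ⟨n, h⟩ else 0`); interlacing from `star_inter`,
admissibility from `Admissible`, initial conditions and totals from `W ≤ L`. The sums of squares:
`Σ ((k+1) star_i + i)² = (k+1)² Σ star_i² + 2 (k+1) Σ i star_i + Σ i²`, `Σ star² = Σ part²`, `Σ i star_i = mn part`
(`dsort_sum`, `dsort_mn`) and `AD = (Σ part² - Σ part)/2`, so the first equality of eigenvalues gives `e1`;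
`Σ cstar² = Σ (part + fer)² = Σ part² + 2 fs m part + m`, `Σ i cstar_i = mn (part + fer)` and `mn_fer` give `e2` from both
equalities. Note `W.m = L.m` (`le_iff`). Conclusion: `W.star = L.star`, `W.cstar = L.cstar`, so `W = L` by `star_ext`. -/
theorem sep (k : ℕ) (hk : 1 ≤ k) (W L : SPart N) (hL : Admissible k 2 L) (h : ltS W L)
    (sep_seq : ∀ (p P q Q : ℕ → ℕ),
      (∀ i < N, p i ≤ P i ∧ P i ≤ p i + 1) → (∀ i, i + 1 < N → P (i + 1) ≤ p i) →
      (∀ i < N, q i ≤ Q i ∧ Q i ≤ q i + 1) → (∀ i, i + 1 < N → Q (i + 1) ≤ q i) →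
      (∀ i, i + k < N → p (i + k) + 2 ≤ P i) →
      (∀ l ≤ N, ∑ i ∈ range l, q i ≤ ∑ i ∈ range l, p i) →
      (∀ l ≤ N, ∑ i ∈ range l, Q i ≤ ∑ i ∈ range l, P i) →
      (∑ i ∈ range N, q i = ∑ i ∈ range N, p i) → (∑ i ∈ range N, Q i = ∑ i ∈ range N, P i) →
      (∑ i ∈ range N, ((k + 1) * q i + i) ^ 2 = ∑ i ∈ range N, ((k + 1) * p i + i) ^ 2) →
      (∑ i ∈ range N, ((k + 1) * Q i + i) ^ 2 = ∑ i ∈ range N, ((k + 1) * P i + i) ^ 2) →
      ∀ i < N, q i = p i ∧ Q i = P i) :
    -((k : ℚ) + 1) * AD W + BD W ≠ -((k : ℚ) + 1) * AD L + BD L ∨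
    -((k : ℚ) + 1) * AL W + BL W ≠ -((k : ℚ) + 1) * AL L + BL L := by
  by_contra hcon
  push Not at hcon
  obtain ⟨hE1, hE2⟩ := hcon
  obtain ⟨hle, hne⟩ := h
  have hm : W.m = L.m := ((le_iff W L).mp hle).1
  obtain ⟨⟨hs1, hs2⟩, ⟨hc1, hc2⟩⟩ := hle
  have hsum : ∑ i, W.part i = ∑ i, L.part i := by
    have h1 := dsort_sum W.part (fun n => n)
    have h2 := dsort_sum L.part (fun n => n)
    rw [← h1, ← h2]
    exact hs1
  -- first equation in `ℕ`
  have n1 : (k + 1) * sq1 W.part + 2 * mn W.part = (k + 1) * sq1 L.part + 2 * mn L.part := by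
    unfold AD BD at hE1
    have : ((k : ℚ) + 1) * (sq1 W.part : ℚ) + 2 * (mn W.part : ℚ) =
        ((k : ℚ) + 1) * (sq1 L.part : ℚ) + 2 * (mn L.part : ℚ) := by linarith
    exact_mod_cast this
  have n2 : (k + 1) * fs W.m W.part + cr W.m W.part = (k + 1) * fs L.m L.part + cr L.m L.part := by
    unfold AL BL at hE2
    rw [hm] at hE2 ⊢
    have : ((k : ℚ) + 1) * (fs L.m W.part : ℚ) + (cr L.m W.part : ℚ) =
        ((k : ℚ) + 1) * (fs L.m L.part : ℚ) + (cr L.m L.part : ℚ) := by linarith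
    exact_mod_cast this
  have hsqW := sep_sq1 W.part
  have hsqL := sep_sq1 L.part
  have hWi := star_inter W
  have hLi := star_inter L
  have key := sep_seq (sep_ext L.star) (sep_ext L.cstar) (sep_ext W.star) (sep_ext W.cstar)
    (fun i hi => by rw [sep_ext_lt _ hi, sep_ext_lt _ hi]; exact hLi.1 _)
    (fun i hi => by
      rw [sep_ext_lt _ hi, sep_ext_lt _ (by omega : i < N)]
      exact hLi.2 _ _ rfl)
    (fun i hi => by rw [sep_ext_lt _ hi, sep_ext_lt _ hi]; exact hWi.1 _)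
    (fun i hi => by
      rw [sep_ext_lt _ hi, sep_ext_lt _ (by omega : i < N)]
      exact hWi.2 _ _ rfl)
    (fun i hi => by
      rw [sep_ext_lt _ hi, sep_ext_lt _ (by omega : i < N)]
      exact hL _ _ rfl)
    (fun l hl => by rw [sep_initial _ hl, sep_initial _ hl]; exact hs2 l)
    (fun l hl => by rw [sep_initial _ hl, sep_initial _ hl]; exact hc2 l)
    (by rw [sep_sum W.star (fun a _ => a), sep_sum L.star (fun a _ => a)]; exact hs1)
    (by rw [sep_sum W.cstar (fun a _ => a), sep_sum L.cstar (fun a _ => a)]; exact hc1)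
    (by
      rw [sep_sum W.star (fun a i => ((k + 1) * a + i) ^ 2),
        sep_sum L.star (fun a i => ((k + 1) * a + i) ^ 2)]
      have h1 := sep_sq W.part k
      have h2 := sep_sq L.part k
      rw [← hsqW] at h1
      rw [← hsqL] at h2
      change ∑ i : Fin N, ((k + 1) * dsort W.part i + (i : ℕ)) ^ 2 =
        ∑ i : Fin N, ((k + 1) * dsort L.part i + (i : ℕ)) ^ 2
      rw [h1, h2, hsum]
      have h3 : (k + 1) * ((k + 1) * sq1 W.part + 2 * mn W.part) =
        (k + 1) * ((k + 1) * sq1 L.part + 2 * mn L.part) := by rw [n1]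
      linarith)
    (by
      rw [sep_sum W.cstar (fun a i => ((k + 1) * a + i) ^ 2),
        sep_sum L.cstar (fun a i => ((k + 1) * a + i) ^ 2)]
      have h1 := sep_sq (fun i => W.part i + fer W.m i) k
      have h2 := sep_sq (fun i => L.part i + fer L.m i) k
      rw [sep_fer, ← hsqW, mn_fer W.m W.m_le] at h1
      rw [sep_fer, ← hsqL, mn_fer L.m L.m_le] at h2
      change ∑ i : Fin N, ((k + 1) * dsort (fun i => W.part i + fer W.m i) i + (i : ℕ)) ^ 2 =
        ∑ i : Fin N, ((k + 1) * dsort (fun i => L.part i + fer L.m i) i + (i : ℕ)) ^ 2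
      rw [h1, h2, hsum]
      have h3 : (k + 1) * ((k + 1) * sq1 W.part + 2 * mn W.part) =
        (k + 1) * ((k + 1) * sq1 L.part + 2 * mn L.part) := by rw [n1]
      have h4 : 2 * (k + 1) * ((k + 1) * fs W.m W.part + cr W.m W.part) =
        2 * (k + 1) * ((k + 1) * fs L.m L.part + cr L.m L.part) := by rw [n2]
      rw [hm] at h4 ⊢
      linarith)
  apply hne
  apply star_ext
  · funext i
    have h1 := (key i i.2).1
    rw [sep_ext_fin, sep_ext_fin] at h1
    exact h1
  · funext i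
    have h1 := (key i i.2).2
    rw [sep_ext_fin, sep_ext_fin] at h1
    exact h1

end Clu
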