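import Pool.Agent.Helper204.CL.P_sep_seq
import Pool.Agent.Helper204.CL.P_reg_main
import Pool.Agent.Helper204.CL.P_mem_main
import Pool.Agent.Helper204.CL.P_basis_main
import Pool.Agent.Helper204.CL.P_lt_wt
import Pool.Agent.Helper204.CL.P_ltS_trans
import Pool.Agent.Helper204.CL.P_fin_lower
import Pool.Agent.Helper204.CL.P_RD_lt
import Pool.Agent.Helper204.CL.P_sep
import Pool.Agent.Helper204.CL.P_F_stable
import Pool.Agent.Helper204.CL.P_lead_coord
import Pool.Agent.Helper204.CL.P_U_coord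
import Pool.Agent.Helper204.CL.P_comb_inj
import Pool.Agent.Helper204.CL.P_jack_eqs

set_option linter.unusedSectionVars false

open MvPolynomial Finset

noncomputable section

namespace Clu

variable {N : ℕ} {K : Type} [Field K] [CharZero K]

/-- `comb` as a linear map. -/
def combL (N : ℕ) (K : Type) [Field K] [CharZero K] : (SPart N →₀ K) →ₗ[K] SPoly K N where
  toFun := comb
  map_add' := comb_inj.1
  map_smul' := comb_inj.2.1

theorem combL_apply (v : SPart N →₀ K) : combL N K v = comb v := rfl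

theorem main_basis (k : ℕ) (hk : 1 ≤ k) (c : SPart N → (SPart N →₀ RatFunc ℚ)) (hc : IsJack c) :
    (∀ L, Admissible k 2 L → ∀ W, RegularAt (-((k : ℚ) + 1)) (c L W)) ∧
    LinearIndependent ℂ (fun L : {L : SPart N // Admissible k 2 L} => special (-((k : ℚ) + 1)) (c L)) ∧
    Submodule.span ℂ (Set.range (fun L : {L : SPart N // Admissible k 2 L} =>
      special (-((k : ℚ) + 1)) (c L))) = clusterSpace N k := by
  have hsup : ∀ L W, c L W ≠ 0 → W = L ∨ ltS W L := by
    intro L W h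
    by_cases h1 : W = L
    · exact Or.inl h1
    · exact Or.inr ⟨(hc L).2.1 W h, h1⟩
  have hsep : ∀ L : SPart N, Admissible k 2 L → ∀ W : SPart N, ltS W L →
      -((k : ℚ) + 1) * AD W + BD W ≠ -((k : ℚ) + 1) * AD L + BD L ∨
      -((k : ℚ) + 1) * AL W + BL W ≠ -((k : ℚ) + 1) * AL L + BL L := by
    intro L hL W hW
    exact sep k hk W L hL hW (fun p P q Q h1 h2 h3 h4 h5 h6 h7 h8 h9 h10 h11 =>
      sep_seq N k hk p P q Q h1 h2 h3 h4 h5 h6 h7 h8 h9 h10 h11)
  have hreg : ∀ L : SPart N, Admissible k 2 L →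
      (∀ W, (c L W).denom.eval (-((k : ℚ) + 1)) ≠ 0) ∧
      (∀ W, Dm AD BD RD ((-((k : ℚ) + 1) : ℚ) : ℂ) (spec ℂ (-((k : ℚ) + 1)) (c L)) W =
        ((-((k : ℚ) + 1) * AD L + BD L : ℚ) : ℂ) * spec ℂ (-((k : ℚ) + 1)) (c L) W) ∧
      (∀ W, Dm AL BL RL ((-((k : ℚ) + 1) : ℚ) : ℂ) (spec ℂ (-((k : ℚ) + 1)) (c L)) W =
        ((-((k : ℚ) + 1) * AL L + BL L : ℚ) : ℂ) * spec ℂ (-((k : ℚ) + 1)) (c L) W) := by
    intro L hL
    obtain ⟨⟨e, he⟩, ⟨e', he'⟩⟩ := jack_eqs c hc L
    exact reg_main (K := ℂ) ltS (fun W : SPart N => wt W.m W.part) (fun W U h => lt_wt W U h)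
      AD BD AL BL RD RL (fun U W h => (RD_lt U W).1 h) (fun U W h => (RD_lt U W).2 h)
      L (c L) (hc L).1 (hsup L) e e' he he' (-((k : ℚ) + 1)) (hsep L hL)
  set F' : Submodule ℂ (SPart N →₀ ℂ) := (clusterSpace N k).comap (combL N ℂ) with hF'
  have hspecL : ∀ L : SPart N, spec ℂ (-((k : ℚ) + 1)) (c L) L = 1 := by
    intro L
    rw [spec_apply, (hc L).1]
    simp [valAt, RatFunc.eval_one]
  have hspecS : ∀ L W : SPart N, spec ℂ (-((k : ℚ) + 1)) (c L) W ≠ 0 → W = L ∨ ltS W L := by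
    intro L W h
    apply hsup L W
    intro h0
    apply h
    rw [spec_apply, h0, valAt_zero]
  have hmem : ∀ L : SPart N, Admissible k 2 L → spec ℂ (-((k : ℚ) + 1)) (c L) ∈ F' := by
    intro L hL
    obtain ⟨v, hv, hvL, hvs⟩ := lead_coord k hk L hL
    obtain ⟨_, hE, hE'⟩ := hreg L hL
    refine mem_main (K := ℂ) ltS (fun W : SPart N => wt W.m W.part) (fun W U h => lt_wt W U h)
      ltS_trans AD BD AL BL RD RL (fun U W h => (RD_lt U W).1 h) (fun U W h => (RD_lt U W).2 h)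
      (-((k : ℚ) + 1)) F' ?_ ?_ L (fin_lower L) v hv hvL hvs _ (hspecL L) (hspecS L) hE hE' (hsep L hL)
    · intro v hv
      obtain ⟨v', h1, h2⟩ := (F_stable k v hv).1
      exact ⟨v', h1, h2⟩
    · intro v hv
      obtain ⟨v', h1, h2⟩ := (F_stable k v hv).2
      exact ⟨v', h1, h2⟩
  obtain ⟨hli, hspan⟩ := basis_main (K := ℂ) (fun W : SPart N => wt W.m W.part) {L | Admissible k 2 L} F'
    (fun L => spec ℂ (-((k : ℚ) + 1)) (c L))
    (fun L hL => ⟨hmem L hL, hspecL L, fun W hW => (hspecS L W hW).imp id (fun h => lt_wt W L h)⟩)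
    (fun f hf L h hL => U_coord k f hf L h hL)
  have hker : LinearMap.ker (combL N ℂ) = ⊥ := by
    rw [LinearMap.ker_eq_bot']
    intro v hv
    exact comb_inj.2.2.1 v hv
  refine ⟨fun L hL W => (hreg L hL).1 W, ?_, ?_⟩
  · exact hli.map' (combL N ℂ) hker
  · have h1 : Set.range (fun L : {L : SPart N // Admissible k 2 L} => special (-((k : ℚ) + 1)) (c L))
        = combL N ℂ '' Set.range (fun L : ({L | Admissible k 2 L} : Set (SPart N)) =>
          spec ℂ (-((k : ℚ) + 1)) (c L)) := by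
      rw [← Set.range_comp]
      rfl
    rw [h1, Submodule.span_image, hspan]
    apply le_antisymm
    · rintro _ ⟨v, hv, rfl⟩
      exact hv
    · intro f hf
      obtain ⟨v, hv⟩ := comb_inj.2.2.2 f hf.1
      refine ⟨v, ?_, hv⟩
      change comb v ∈ clusterSpace N k
      rw [hv]; exact hf

end Clu
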