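import Pool.Agent.Helper204.CL.DefA
import Pool.Agent.Helper204.CL.DefB
import Pool.Agent.Helper204.CL.DefC
import Pool.Agent.Helper204.CL.DefD
import Pool.Agent.Helper204.CL.DefR
import Pool.Agent.Helper204.CL.P_le_iff
import Pool.Agent.Helper204.CL.P_lt_wt

set_option linter.unusedSectionVars false

open MvPolynomial Finset

noncomputable section

namespace Clu
variable {N : ℕ} {K : Type} [Field K] [CharZero K]



theorem gen_sep_wt (m : ℕ) (x : Fin N → ℕ) :
    wt m x = 2 * (sq1 x + ∑ i, x i) + 2 * fs m x + ∑ i : Fin N, fer m i := by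
  have h1 : ∑ i, x i ^ 2 = sq1 x + ∑ i, x i := by
    unfold sq1
    rw [← Finset.sum_add_distrib]
    refine Finset.sum_congr rfl fun i _ => ?_
    rcases Nat.eq_zero_or_pos (x i) with h | h
    · rw [h]; rfl
    · obtain ⟨y, hy⟩ : ∃ y, x i = y + 1 := ⟨x i - 1, by omega⟩
      rw [hy, Nat.add_sub_cancel]; ring
  have h2 : fs m x = ∑ i : Fin N, x i * fer m i := by
    unfold fs
    rw [Finset.sum_filter]
    refine Finset.sum_congr rfl fun i _ => ?_
    unfold fer
    split_ifs <;> simp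
  have h3 : ∑ i : Fin N, (x i + fer m i) ^ 2 = ∑ i : Fin N, x i ^ 2 + 2 * ∑ i : Fin N, x i * fer m i + ∑ i : Fin N, fer m i := by
    rw [Finset.mul_sum, ← Finset.sum_add_distrib, ← Finset.sum_add_distrib]
    refine Finset.sum_congr rfl fun i _ => ?_
    unfold fer
    split_ifs <;> ring
  unfold wt
  rw [h3, h1, h2]
  ring

/-- HINT: `lt_wt`: `wt m x = Σ x² + Σ (x + fer)² = 2 Σ x² + 2 fs m x + m` (`m ≤ N`), `sq1 x = Σ x² - Σ x`, and `Σ W.part = Σ L.part`,
`W.m = L.m` (`le_iff`). If `AD`, `AL` agree the weights agree. -/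
theorem gen_sep (W L : SPart N) (h : ltS W L) : AD W ≠ AD L ∨ AL W ≠ AL L := by
  by_contra hcon
  push Not at hcon
  obtain ⟨hD, hL⟩ := hcon
  obtain ⟨hm, hle⟩ := (le_iff W L).mp h.1
  have hlt := lt_wt W L h
  have h1 : sq1 W.part = sq1 L.part := by
    unfold AD at hD
    have : (sq1 W.part : ℚ) = (sq1 L.part : ℚ) := by linarith
    exact_mod_cast this
  have h2 : fs W.m W.part = fs L.m L.part := by
    unfold AL at hL
    exact_mod_cast hL
  have h3 : ∑ i, W.part i = ∑ i, L.part i := hle.1.1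
  rw [gen_sep_wt, gen_sep_wt, h1, h2, h3, hm] at hlt
  exact lt_irrefl _ hlt

end Clu
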