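import Pool.Agent.Helper204.CL.DefA
import Pool.Agent.Helper204.CL.DefB
import Pool.Agent.Helper204.CL.DefC
import Pool.Agent.Helper204.CL.DefD
import Pool.Agent.Helper204.CL.DefR
import Pool.Agent.Helper204.CL.P_lt_wt
import Pool.Agent.Helper204.CL.P_RD_lt
import Pool.Agent.Helper204.CL.P_jack_eqs
import Pool.Agent.Helper204.CL.P_gen_sep

set_option linter.unusedSectionVars false

open MvPolynomial Finset

noncomputable section

namespace Clu
variable {N : ℕ} {K : Type} [Field K] [CharZero K]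



theorem uniq_sub (A B : SPart N → ℚ) (R : SPart N → SPart N → ℚ) (v w : SPart N →₀ RatFunc ℚ)
    (W : SPart N) : Dm A B R (RatFunc.X : RatFunc ℚ) (v - w) W =
      Dm A B R (RatFunc.X : RatFunc ℚ) v W - Dm A B R (RatFunc.X : RatFunc ℚ) w W := by
  unfold Dm
  rw [Finsupp.sum_sub_index (fun a b₁ b₂ => by ring), Finsupp.sub_apply]
  ring

theorem uniq_eig (A B : SPart N → ℚ) (R : SPart N → SPart N → ℚ)
    (hR : ∀ U W, R U W ≠ 0 → ltS W U) (v : SPart N →₀ RatFunc ℚ) (L : SPart N) (hv1 : v L = 1)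
    (hv : ∀ W, v W ≠ 0 → W ≤ L) (e : RatFunc ℚ)
    (he : ∀ W, Dm A B R (RatFunc.X : RatFunc ℚ) v W = e * v W) :
    e = RatFunc.X * ((A L : ℚ) : RatFunc ℚ) + ((B L : ℚ) : RatFunc ℚ) := by
  have h1 := he L
  unfold Dm at h1
  have h2 : v.sum (fun U r => r * ((R U L : ℚ) : RatFunc ℚ)) = 0 := by
    unfold Finsupp.sum
    refine Finset.sum_eq_zero fun U hU => ?_
    have h3 : R U L = 0 := by
      by_contra hne
      have h4 := hR U L hne
      have h5 := lt_wt L U h4
      have h6 := hv U (Finsupp.mem_support_iff.1 hU)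
      have h7 := lt_wt U L ⟨h6, fun h => h4.2 h.symm⟩
      omega
    simp only [h3, Rat.cast_zero, mul_zero]
  rw [h2, hv1] at h1
  rw [mul_one, mul_one, add_zero] at h1
  exact h1.symm

theorem uniq_coef (a b a' b' : ℚ) (h : (RatFunc.X : RatFunc ℚ) * (a : RatFunc ℚ) + (b : RatFunc ℚ) =
    RatFunc.X * (a' : RatFunc ℚ) + (b' : RatFunc ℚ)) : a = a' := by
  have hc : ∀ q : ℚ, (q : RatFunc ℚ) =
      algebraMap (Polynomial ℚ) (RatFunc ℚ) (Polynomial.C q) := by
    intro q
    rw [RatFunc.algebraMap_C, eq_ratCast]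
  rw [hc, hc, hc, hc, ← RatFunc.algebraMap_X, ← map_mul, ← map_mul, ← map_add, ← map_add] at h
  have h2 := RatFunc.algebraMap_injective ℚ h
  have h3 := congrArg (fun p : Polynomial ℚ => p.coeff 1) h2
  simpa using h3

theorem uniq_max (A B : SPart N → ℚ) (R : SPart N → SPart N → ℚ)
    (hR : ∀ U W, R U W ≠ 0 → ltS W U) (d : SPart N →₀ RatFunc ℚ) (L W : SPart N)
    (hW : d W ≠ 0) (hmax : ∀ U, d U ≠ 0 → wt U.m U.part ≤ wt W.m W.part)
    (he : Dm A B R (RatFunc.X : RatFunc ℚ) d W =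
      (RatFunc.X * ((A L : ℚ) : RatFunc ℚ) + ((B L : ℚ) : RatFunc ℚ)) * d W) :
    A W = A L := by
  unfold Dm at he
  have h2 : d.sum (fun U r => r * ((R U W : ℚ) : RatFunc ℚ)) = 0 := by
    unfold Finsupp.sum
    refine Finset.sum_eq_zero fun U hU => ?_
    have h3 : R U W = 0 := by
      by_contra hne
      have h5 := lt_wt W U (hR U W hne)
      have h6 := hmax U (Finsupp.mem_support_iff.1 hU)
      omega
    simp only [h3, Rat.cast_zero, mul_zero]
  rw [h2, add_zero] at he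
  exact uniq_coef _ _ _ _ (mul_right_cancel₀ hW he)

/-- HINT: `jack_eqs` for `c` and `c'`: comparing coefficients at `L` (no `U` with `RD U L ≠ 0` in the support: it would need
`ltS L U`, `U = L ∨ ltS U L`; `lt_wt`), both eigenvalues of `D` are `X * AD L + BD L`, of `Δ` are `X * AL L + BL L`. For
`d = c L - c' L ≠ 0` (supported on `ltS W L`) take `W` in the support with `wt W.m W.part` maximal: the equation at `W` reads
`(X AD W + BD W) d_W = (X AD L + BD L) d_W`, so `X (AD W - AD L) + (BD W - BD L) = 0` in `RatFunc ℚ`, hence `AD W = AD L`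
(`RatFunc.X` is transcendental); similarly `AL W = AL L`; contradiction to `gen_sep`. -/
theorem uniq (c c' : SPart N → (SPart N →₀ RatFunc ℚ)) (hc : IsJack c) (hc' : IsJack c') : c = c' := by
  funext L
  obtain ⟨h1, h2, -, -⟩ := hc L
  obtain ⟨h1', h2', -, -⟩ := hc' L
  obtain ⟨⟨e, he⟩, ⟨f, hf⟩⟩ := jack_eqs c hc L
  obtain ⟨⟨e', he'⟩, ⟨f', hf'⟩⟩ := jack_eqs c' hc' L
  have hRD : ∀ U W : SPart N, RD U W ≠ 0 → ltS W U := fun U W => (RD_lt U W).1
  have hRL : ∀ U W : SPart N, RL U W ≠ 0 → ltS W U := fun U W => (RD_lt U W).2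
  have k1 := uniq_eig AD BD RD hRD (c L) L h1 h2 e he
  have k2 := uniq_eig AL BL RL hRL (c L) L h1 h2 f hf
  have k1' := uniq_eig AD BD RD hRD (c' L) L h1' h2' e' he'
  have k2' := uniq_eig AL BL RL hRL (c' L) L h1' h2' f' hf'
  by_contra hne
  set d : SPart N →₀ RatFunc ℚ := c L - c' L with hd
  have hd0 : d ≠ 0 := by
    intro h
    exact hne (sub_eq_zero.1 (hd ▸ h))
  have hsupp : d.support.Nonempty := Finsupp.support_nonempty_iff.2 hd0
  obtain ⟨W, hW, hmax⟩ := Finset.exists_max_image d.support (fun U => wt U.m U.part) hsupp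
  have hWd : d W ≠ 0 := Finsupp.mem_support_iff.1 hW
  have hmax' : ∀ U, d U ≠ 0 → wt U.m U.part ≤ wt W.m W.part := fun U hU =>
    hmax U (Finsupp.mem_support_iff.2 hU)
  have hdW : d W = c L W - c' L W := Finsupp.sub_apply _ _ _
  have e1 : Dm AD BD RD (RatFunc.X : RatFunc ℚ) d W =
      (RatFunc.X * ((AD L : ℚ) : RatFunc ℚ) + ((BD L : ℚ) : RatFunc ℚ)) * d W := by
    rw [hd, uniq_sub, he W, he' W, k1, k1', Finsupp.sub_apply]
    ring
  have e2 : Dm AL BL RL (RatFunc.X : RatFunc ℚ) d W =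
      (RatFunc.X * ((AL L : ℚ) : RatFunc ℚ) + ((BL L : ℚ) : RatFunc ℚ)) * d W := by
    rw [hd, uniq_sub, hf W, hf' W, k2, k2', Finsupp.sub_apply]
    ring
  have a1 := uniq_max AD BD RD hRD d L W hWd hmax' e1
  have a2 := uniq_max AL BL RL hRL d L W hWd hmax' e2
  have hle : W ≤ L := by
    by_cases h3 : c L W = 0
    · apply h2' W
      intro h4
      apply hWd
      rw [hdW, h3, h4, sub_zero]
    · exact h2 W h3
  have hWL : W ≠ L := by
    rintro rfl
    apply hWd
    rw [hdW, h1, h1', sub_self]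
  rcases gen_sep W L ⟨hle, hWL⟩ with h | h
  · exact h a1
  · exact h a2

end Clu
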