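import Pool.Agent.Helper204.CL.Main0
import Pool.Agent.Helper204.CL.Exist
import Pool.Agent.Helper204.CL.P_uniq

set_option linter.unusedSectionVars false

open MvPolynomial Finset

noncomputable section

namespace Clu

theorem par_indep (a b : ℤ) (h : (a : RatFunc ℚ) * RatFunc.X + (b : RatFunc ℚ) = 0) : a = 0 := by
  have h1 : algebraMap (Polynomial ℚ) (RatFunc ℚ)
      (Polynomial.C (a : ℚ) * Polynomial.X + Polynomial.C (b : ℚ)) = 0 := by
    rw [map_add, map_mul, RatFunc.algebraMap_X, RatFunc.algebraMap_C, RatFunc.algebraMap_C]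
    simpa using h
  have h2 : Polynomial.C (a : ℚ) * Polynomial.X + Polynomial.C (b : ℚ) = 0 :=
    (map_eq_zero_iff _ (RatFunc.algebraMap_injective ℚ)).1 h1
  have h3 := congrArg (fun p => Polynomial.coeff p 1) h2
  simp only [Polynomial.coeff_add, Polynomial.coeff_C_mul, Polynomial.coeff_X_one,
    Polynomial.coeff_C_of_ne_zero one_ne_zero, Polynomial.coeff_zero, mul_one, add_zero] at h3
  exact_mod_cast h3

/-- `ℚ(α)` with its parameter. -/
@[reducible] def parInst : JSup.Par (RatFunc ℚ) := ⟨RatFunc.X, par_indep⟩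

theorem exist_jack (N : ℕ) : ∃ c : SPart N → (SPart N →₀ RatFunc ℚ), IsJack c := by
  have h : ∀ L : SPart N, ∃ v : SPart N →₀ RatFunc ℚ, v L = 1 ∧ (∀ W, v W ≠ 0 → W ≤ L) ∧
      EigD (RatFunc.X : RatFunc ℚ) (comb v) ∧ EigDelta (RatFunc.X : RatFunc ℚ) (comb v) := by
    intro L
    exact @exist_one N (RatFunc ℚ) _ _ parInst L
  choose c hc using h
  exact ⟨c, hc⟩

theorem main_all (N k : ℕ) (hk : 1 ≤ k) :
    ∃ c : SPart N → (SPart N →₀ RatFunc ℚ), IsJack c ∧ (∀ c', IsJack c' → c' = c) ∧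
      (∀ L, Admissible k 2 L → ∀ W, RegularAt (-((k : ℚ) + 1)) (c L W)) ∧
      LinearIndependent ℂ (fun L : {L : SPart N // Admissible k 2 L} =>
        special (-((k : ℚ) + 1)) (c L)) ∧
      Submodule.span ℂ (Set.range (fun L : {L : SPart N // Admissible k 2 L} =>
        special (-((k : ℚ) + 1)) (c L))) = clusterSpace N k := by
  obtain ⟨c, hc⟩ := exist_jack N
  obtain ⟨h1, h2, h3⟩ := main_basis k hk c hc
  exact ⟨c, hc, fun c' hc' => uniq c' c hc' hc, h1, h2, h3⟩

end Clu
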