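import Pool.Agent.Helper204.CL.DefA
import Pool.Agent.Helper204.CL.DefB
import Pool.Agent.Helper204.CL.DefC
import Pool.Agent.Helper204.CL.DefD
import Pool.Agent.Helper204.CL.DefR

set_option linter.unusedSectionVars false

open MvPolynomial Finset

noncomputable section

namespace Clu
variable {N : ℕ} {K : Type} [Field K] [CharZero K]



/-- HINT: `MvPolynomial.pderiv_rename` or induction. -/
theorem del_transfer (i : Fin N) (g : MvPolynomial (Fin N) K) :
    rename (fun j : Fin N => (j : ℕ)) (pderiv i g) = pderiv (i : ℕ) (rename (fun j : Fin N => (j : ℕ)) g) ∧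
    (∀ i j : Fin N, rename (fun j : Fin N => (j : ℕ)) (rename (Equiv.swap i j) g) =
      rename (Equiv.swap (i : ℕ) (j : ℕ)) (rename (fun j : Fin N => (j : ℕ)) g)) := by
  refine ⟨(pderiv_rename (f := fun j : Fin N => (j : ℕ)) Fin.val_injective i g).symm, ?_⟩
  intro i j
  rw [rename_rename, rename_rename]
  congr 2
  funext x
  simp only [Function.comp_apply]
  by_cases h1 : x = i
  · subst h1
    simp
  · by_cases h2 : x = j
    · subst h2
      simp
    · rw [Equiv.swap_apply_of_ne_of_ne h1 h2, Equiv.swap_apply_of_ne_of_ne]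
      · exact fun h => h1 (Fin.ext h)
      · exact fun h => h2 (Fin.ext h)

end Clu
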