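import Pool.Agent.Helper204.CL.DefA
import Pool.Agent.Helper204.CL.DefB
import Pool.Agent.Helper204.CL.DefC
import Pool.Agent.Helper204.CL.DefD
import Pool.Agent.Helper204.CL.DefR
import Pool.Agent.Helper204.CL.P_P_spec
import Pool.Agent.Helper204.CL.P_R_spec
import Pool.Agent.Helper204.CL.P_del_transfer

set_option linter.unusedSectionVars false

open MvPolynomial Finset

noncomputable section

namespace Clu
variable {N : ℕ} {K : Type} [Field K] [CharZero K]



/-- HINT: apply `rename` (Fin.val) to `P_spec`, `R_spec`; with `del_transfer`; cancel `(X i - X j)^2`, `X i - X j` in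
`MvPolynomial ℕ K` (nonzero as `(i:ℕ) ≠ j`); identity:
`(x²-y²)(x a - y b) - 2xy c - 2xy((x-y)(a-b) - c) - (x-y)²(x a + y b) = 0`. -/
theorem T_transfer (i j : Fin N) (hij : i ≠ j) (g : MvPolynomial (Fin N) K) (f T S : MvPolynomial ℕ K)
    (hf : f = rename (fun j : Fin N => (j : ℕ)) g)
    (hT : (X (i : ℕ) - X (j : ℕ)) ^ 2 * T = (X (i : ℕ) ^ 2 - X (j : ℕ) ^ 2) *
      (X (i : ℕ) * pderiv (i : ℕ) f - X (j : ℕ) * pderiv (j : ℕ) f)
      - 2 * X (i : ℕ) * X (j : ℕ) * (f - rename (Equiv.swap (i : ℕ) (j : ℕ)) f))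
    (hS : (X (i : ℕ) - X (j : ℕ)) * S = f - rename (Equiv.swap (i : ℕ) (j : ℕ)) f) :
    rename (fun j : Fin N => (j : ℕ)) ((2 : K) • Pop i j g) =
      T - X (i : ℕ) * pderiv (i : ℕ) f - X (j : ℕ) * pderiv (j : ℕ) f ∧
    rename (fun j : Fin N => (j : ℕ)) (Rop i j g) = X (j : ℕ) * S := by
  have hxy : (X (i : ℕ) - X (j : ℕ) : MvPolynomial ℕ K) ≠ 0 := by
    rw [sub_ne_zero]
    intro h
    exact hij (Fin.ext (MvPolynomial.X_injective h))
  have hP := congrArg (rename (fun j : Fin N => (j : ℕ))) (P_spec i j hij g)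
  have hR := congrArg (rename (fun j : Fin N => (j : ℕ))) (R_spec i j hij g)
  simp only [map_mul, map_pow, map_sub, rename_X, (del_transfer i g).1, (del_transfer j g).1,
    (del_transfer i g).2 i j, ← hf] at hP hR
  constructor
  · refine mul_left_cancel₀ (pow_ne_zero 2 hxy) ?_
    rw [two_smul, map_add, mul_add, mul_sub, mul_sub, hT, hP]
    ring
  · refine mul_left_cancel₀ hxy ?_
    rw [hR, ← hS]
    ring

end Clu
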