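import Pool.Agent.Helper204.CL.DefA
import Pool.Agent.Helper204.CL.DefB
import Pool.Agent.Helper204.CL.DefC
import Pool.Agent.Helper204.CL.DefD
import Pool.Agent.Helper204.CL.P_inV_perm

set_option linter.unusedSectionVars false

open MvPolynomial Finset

noncomputable section

namespace Clu
variable {N : ℕ} {K : Type} [Field K] [CharZero K]



theorem coeff_flat_swap26073 (m : ℕ) (g : MvPolynomial (Fin N) K) (hg : InV m g) (i j : Fin N)
    (hi : m ≤ (i : ℕ)) (hj : m ≤ (j : ℕ)) (η : Fin N →₀ ℕ) :
    coeff (Finsupp.mapDomain (Equiv.swap i j) η) g = coeff η g := by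
  conv_lhs => rw [← hg.2 i j hi hj]
  exact coeff_rename_mapDomain _ (Equiv.injective _) _ _

theorem coeff_flat_mapDomain26073 (i j : Fin N) (η : Fin N →₀ ℕ) (t : Fin N) :
    (Finsupp.mapDomain (Equiv.swap i j) η) t = η (Equiv.swap i j t) := by
  rw [Finsupp.mapDomain_equiv_apply, Equiv.symm_swap]

theorem coeff_flat_fer26073 (m : ℕ) (s : Fin N) (h : fer m s = 0) : m ≤ (s : ℕ) := by
  unfold fer at h
  by_contra hcon
  rw [if_pos (by omega)] at h
  exact one_ne_zero h

theorem coeff_flat_aux26073 (m q : ℕ) (S : Finset (Fin N)) (g : MvPolynomial (Fin N) K)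
    (hg : InV m g) (ν : Fin N →₀ ℕ) (hν : ∀ s ∈ S, q ≤ ν s ∧ ν s + fer m s ≤ q + 1) (n : ℕ) :
    ∀ η : Fin N →₀ ℕ, (S.filter (fun s => η s ≠ ν s)).card = n →
    (∀ s ∈ S, q ≤ η s ∧ η s + fer m s ≤ q + 1) →
    (∀ i ∉ S, η i = ν i) → ∑ i ∈ S, η i = ∑ i ∈ S, ν i →
    coeff η g = coeff ν g := by
  induction n using Nat.strong_induction_on with
  | _ n ih =>
    intro η hn hη h1 h2
    by_cases hall : ∀ s ∈ S, η s = ν s
    · have : η = ν := by
        ext i
        by_cases hi : i ∈ S
        · exact hall i hi
        · exact h1 i hi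
      rw [this]
    · have ha : ∃ s ∈ S, ν s < η s := by
        by_contra hcon
        push Not at hcon
        exact hall ((Finset.sum_eq_sum_iff_of_le hcon).mp h2)
      have hb : ∃ s ∈ S, η s < ν s := by
        by_contra hcon
        push Not at hcon
        exact hall (fun s hs => ((Finset.sum_eq_sum_iff_of_le hcon).mp h2.symm s hs).symm)
      obtain ⟨s, hs, hs1⟩ := ha
      obtain ⟨s', hs', hs1'⟩ := hb
      have a1 := hν s hs
      have a2 := hν s' hs'
      have a3 := hη s hs
      have a4 := hη s' hs'
      have fs : fer m s = 0 := by omega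
      have fs' : fer m s' = 0 := by omega
      have hsm := coeff_flat_fer26073 m s fs
      have hsm' := coeff_flat_fer26073 m s' fs'
      have hne : s ≠ s' := by
        rintro rfl
        omega
      rw [← coeff_flat_swap26073 m g hg s s' hsm hsm' η]
      have e0 := coeff_flat_mapDomain26073 s s' η
      have es := e0 s
      have es' := e0 s'
      rw [Equiv.swap_apply_left] at es
      rw [Equiv.swap_apply_right] at es'
      have eo : ∀ t, t ≠ s → t ≠ s' → (Finsupp.mapDomain (Equiv.swap s s') η) t = η t := by
        intro t ht ht'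
        rw [e0, Equiv.swap_apply_of_ne_of_ne ht ht']
      refine ih ((S.filter (fun t => (Finsupp.mapDomain (Equiv.swap s s') η) t ≠ ν t)).card) ?_ _
        rfl ?_ ?_ ?_
      · rw [← hn]
        apply Finset.card_lt_card
        rw [Finset.ssubset_iff_of_subset]
        · refine ⟨s, ?_, ?_⟩
          · rw [Finset.mem_filter]
            exact ⟨hs, by omega⟩
          · rw [Finset.mem_filter, es]
            rintro ⟨_, h⟩
            omega
        · intro t ht
          rw [Finset.mem_filter] at ht ⊢
          refine ⟨ht.1, ?_⟩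
          by_cases ht1 : t = s
          · rw [ht1]; omega
          · by_cases ht2 : t = s'
            · rw [ht2]; omega
            · rw [eo t ht1 ht2] at ht
              exact ht.2
      · intro t ht
        by_cases ht1 : t = s
        · rw [ht1, es]; omega
        · by_cases ht2 : t = s'
          · rw [ht2, es']; omega
          · rw [eo t ht1 ht2]
            exact hη t ht
      · intro t ht
        rw [eo t (by rintro rfl; exact ht hs) (by rintro rfl; exact ht hs')]
        exact h1 t ht
      · rw [← h2]
        refine Finset.sum_equiv (Equiv.swap s s') ?_ ?_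
        · intro t
          by_cases ht1 : t = s
          · rw [ht1, Equiv.swap_apply_left]
            exact ⟨fun _ => hs', fun _ => hs⟩
          · by_cases ht2 : t = s'
            · rw [ht2, Equiv.swap_apply_right]
              exact ⟨fun _ => hs, fun _ => hs'⟩
            · rw [Equiv.swap_apply_of_ne_of_ne ht1 ht2]
        · intro t _
          exact e0 t

/-- HINT: on `S` both take values in `{q, q+1}`, with value `q` at the fermionic positions, and have the same sum, so
the number of bosonic `s ∈ S` with value `q+1` is the same; hence there is a permutation `σ` of the bosonic positions in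
`S` (fixing everything else) with `η ∘ σ = ν`. Write it via `inV_perm`, where `sgnOn σ (first N m) = 1` as `σ` fixes `first N m`
pointwise. -/
theorem coeff_flat (m q : ℕ) (S : Finset (Fin N)) (g : MvPolynomial (Fin N) K) (hg : InV m g) (ν η : Fin N →₀ ℕ)
    (hν : ∀ s ∈ S, q ≤ ν s ∧ ν s + fer m s ≤ q + 1) (hη : ∀ s ∈ S, q ≤ η s ∧ η s + fer m s ≤ q + 1)
    (h1 : ∀ i ∉ S, η i = ν i) (h2 : ∑ i ∈ S, η i = ∑ i ∈ S, ν i) :
    coeff η g = coeff ν g := by
  exact coeff_flat_aux26073 m q S g hg ν hν _ η rfl hη h1 h2

end Clu
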