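import Pool.Agent.Helper204.CL.DefA
import Pool.Agent.Helper204.CL.DefB
import Pool.Agent.Helper204.CL.DefC
import Pool.Agent.Helper204.CL.DefD
import Pool.Agent.Helper204.CL.P_sorted_pos

set_option linter.unusedSectionVars false

open MvPolynomial Finset

noncomputable section

namespace Clu
variable {N : ℕ} {K : Type} [Field K] [CharZero K]



theorem nonadm_set_anti (v : Fin N → ℕ) : Antitone (dsort v) := by
  intro a b hab
  have h := Tuple.monotone_sort v (Fin.rev_le_rev.mpr hab)
  exact h

/-- HINT: `i, j` with `j = i + k` and `star j + 2 > cstar i`. With `ρ` from `sorted_pos` let `q = star j` and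
`S = {ρ r | i ≤ r ≤ j}`: `k+1` elements; for such `r`: `star j ≤ star r`, `cstar r ≤ cstar i ≤ q + 1` (both sorted). -/
theorem nonadm_set (k : ℕ) (L : SPart N) (hL : ¬ Admissible k 2 L) :
    ∃ (S : Finset (Fin N)) (q : ℕ), S.card = k + 1 ∧ ∀ s ∈ S, q ≤ L.part s ∧ L.part s + fer L.m s ≤ q + 1 := by
  obtain ⟨ρ, h1, h2, -⟩ := sorted_pos L
  unfold Admissible at hL
  push Not at hL
  obtain ⟨i, j, hij, hlt⟩ := hL
  refine ⟨(Finset.Icc i j).map ρ.toEmbedding, L.star j, ?_, ?_⟩
  · rw [Finset.card_map, Fin.card_Icc]; omega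
  · intro s hs
    rw [Finset.mem_map] at hs
    obtain ⟨r, hr, rfl⟩ := hs
    rw [Finset.mem_Icc] at hr
    have a1 : L.star j ≤ L.star r := nonadm_set_anti L.part hr.2
    have a2 : L.cstar r ≤ L.cstar i := nonadm_set_anti _ hr.1
    have a3 := h1 r
    have a4 := h2 r
    simp only [Equiv.coe_toEmbedding]
    constructor
    · omega
    · omega

end Clu
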