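import Pool.Agent.Helper204.CL.DefA
import Pool.Agent.Helper204.CL.DefB
import Pool.Agent.Helper204.CL.DefC
import Pool.Agent.Helper204.CL.DefD

set_option linter.unusedSectionVars false

open MvPolynomial Finset

noncomputable section

namespace Clu
variable {N : ℕ} {K : Type} [Field K] [CharZero K]



theorem md_apply (f : Fin N → Fin N) (η : Fin N →₀ ℕ) (j : Fin N) :
    (η.mapDomain f) j = ∑ i, if f i = j then η i else 0 := by
  classical
  rw [Finsupp.mapDomain, Finsupp.sum_fintype _ _ (by simp)]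
  rw [Finsupp.finsetSum_apply]
  apply Finset.sum_congr rfl
  intro i _
  rw [Finsupp.single_apply]

theorem md_out (S : Finset (Fin N)) (s0 : Fin N) (hs : s0 ∈ S) (η : Fin N →₀ ℕ) (j : Fin N) (hj : j ∉ S) :
    (η.mapDomain (fun i => if i ∈ S then s0 else i)) j = η j := by
  classical
  rw [md_apply, Finset.sum_eq_single j]
  · simp [hj]
  · intro b _ hb
    rw [if_neg]
    intro h
    by_cases hbS : b ∈ S
    · simp only [hbS, if_true] at h
      exact hj (h ▸ hs)
    · simp only [hbS, if_false] at h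
      exact hb h
  · simp

theorem md_s0 (S : Finset (Fin N)) (s0 : Fin N) (hs : s0 ∈ S) (η : Fin N →₀ ℕ) :
    (η.mapDomain (fun i => if i ∈ S then s0 else i)) s0 = ∑ i ∈ S, η i := by
  classical
  rw [md_apply, ← Finset.sum_filter]
  apply Finset.sum_congr _ (fun _ _ => rfl)
  ext i
  simp only [Finset.mem_filter, Finset.mem_univ, true_and]
  constructor
  · intro h
    by_contra hi
    simp only [hi, if_false] at h
    exact hi (h ▸ hs)
  · intro h
    simp [h]

theorem md_in (S : Finset (Fin N)) (s0 : Fin N) (_hs : s0 ∈ S) (η : Fin N →₀ ℕ) (j : Fin N) (hj : j ∈ S)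
    (hj0 : j ≠ s0) : (η.mapDomain (fun i => if i ∈ S then s0 else i)) j = 0 := by
  classical
  rw [md_apply]
  apply Finset.sum_eq_zero
  intro i _
  rw [if_neg]
  intro h
  by_cases hi : i ∈ S
  · simp only [hi, if_true] at h
    exact hj0 h.symm
  · simp only [hi, if_false] at h
    exact hi (h ▸ hj)

theorem md_iff (S : Finset (Fin N)) (s0 : Fin N) (hs : s0 ∈ S) (η ν : Fin N →₀ ℕ) :
    η.mapDomain (fun i => if i ∈ S then s0 else i) = ν.mapDomain (fun i => if i ∈ S then s0 else i) ↔
    ((∀ i ∉ S, η i = ν i) ∧ ∑ i ∈ S, η i = ∑ i ∈ S, ν i) := by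
  constructor
  · intro h
    refine ⟨?_, ?_⟩
    · intro i hi
      rw [← md_out S s0 hs η i hi, ← md_out S s0 hs ν i hi, h]
    · rw [← md_s0 S s0 hs η, ← md_s0 S s0 hs ν, h]
  · rintro ⟨h1, h2⟩
    ext j
    by_cases hj : j ∈ S
    · by_cases hj0 : j = s0
      · subst hj0
        rw [md_s0 S j hs, md_s0 S j hs, h2]
      · rw [md_in S s0 hs η j hj hj0, md_in S s0 hs ν j hj hj0]
    · rw [md_out S s0 hs η j hj, md_out S s0 hs ν j hj, h1 j hj]

/-- HINT: choose `s₀ ∈ S` and apply the substitution `φ = rename (fun i => if i ∈ S then s₀ else i)` to `g`: `φ g = 0` because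
it vanishes at all points (`eval x (φ g) = eval (x ∘ f) g`, `MvPolynomial.funext`). The coefficient in `φ g` of the exponent
which is `ν i` for `i ∉ S`, `Σ_S ν` at `s₀`, `0` on the rest of `S`, is the sum on the left
(`MvPolynomial.coeff_rename_mapDomain`-like; write `g = Σ_η coeff η g • monomial η 1`, `rename f (monomial η a) =
monomial (η.mapDomain f) a`). -/
theorem van_sum (S : Finset (Fin N)) (hS : S.Nonempty) (g : MvPolynomial (Fin N) K)
    (hg : ∀ x : Fin N → K, (∀ i ∈ S, ∀ j ∈ S, x i = x j) → eval x g = 0) (ν : Fin N →₀ ℕ) :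
    ∑ η ∈ g.support.filter (fun η => (∀ i ∉ S, η i = ν i) ∧ ∑ i ∈ S, η i = ∑ i ∈ S, ν i), coeff η g = 0 := by
  classical
  obtain ⟨s0, hs⟩ := hS
  have h0 : rename (fun i => if i ∈ S then s0 else i) g = 0 := by
    have : Infinite K := CharZero.infinite K
    apply MvPolynomial.funext
    intro x
    rw [eval_rename, map_zero]
    apply hg
    intro i hi j hj
    simp [hi, hj]
  have h1 := congrArg (coeff (ν.mapDomain (fun i => if i ∈ S then s0 else i))) h0
  rw [coeff_zero] at h1
  have h2 : rename (fun i => if i ∈ S then s0 else i) g =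
      ∑ η ∈ g.support, monomial (η.mapDomain (fun i => if i ∈ S then s0 else i)) (coeff η g) := by
    conv_lhs => rw [g.as_sum]
    rw [map_sum]
    apply Finset.sum_congr rfl
    intro η _
    rw [rename_monomial]
  rw [h2, coeff_sum] at h1
  rw [Finset.sum_filter]
  refine Eq.trans ?_ h1
  apply Finset.sum_congr rfl
  intro η _
  rw [coeff_monomial]
  by_cases hc : (∀ i ∉ S, η i = ν i) ∧ ∑ i ∈ S, η i = ∑ i ∈ S, ν i
  · rw [if_pos hc, if_pos ((md_iff S s0 hs η ν).mpr hc)]
  · rw [if_neg hc, if_neg (fun h => hc ((md_iff S s0 hs η ν).mp h))]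

end Clu
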