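import Pool.Agent.Helper204.CL.DefD
set_option linter.unusedSectionVars false
open MvPolynomial Finset
noncomputable section
namespace Clu
variable {N : ℕ} {K : Type} [Field K] [CharZero K]

theorem wt_min_G (q x f : ℤ) (hf : f = 0 ∨ f = 1) :
    0 ≤ x ^ 2 + (x + f) ^ 2 - (4 * q + 2) * x + (2 * q * (q + 1) - f * (2 * q + 1)) ∧
    (x ^ 2 + (x + f) ^ 2 - (4 * q + 2) * x + (2 * q * (q + 1) - f * (2 * q + 1)) = 0 ↔ (q ≤ x ∧ x + f ≤ q + 1)) := by
  rcases hf with rfl | rfl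
  · have h : x ^ 2 + (x + 0) ^ 2 - (4 * q + 2) * x + (2 * q * (q + 1) - 0 * (2 * q + 1)) = 2 * ((x - q) * (x - q - 1)) := by ring
    rw [h]
    have h0 : 0 ≤ (x - q) * (x - q - 1) := by
      rcases le_or_gt (x - q) 0 with h1 | h1
      · exact mul_nonneg_of_nonpos_of_nonpos h1 (by omega)
      · exact mul_nonneg (by omega) (by omega)
    refine ⟨by omega, ?_⟩
    constructor
    · intro h2
      have h3 : (x - q) * (x - q - 1) = 0 := by omega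
      rcases mul_eq_zero.1 h3 with h4 | h4 <;> omega
    · rintro ⟨h2, h3⟩
      have : x = q ∨ x = q + 1 := by omega
      rcases this with rfl | rfl <;> ring
  · have h : x ^ 2 + (x + 1) ^ 2 - (4 * q + 2) * x + (2 * q * (q + 1) - 1 * (2 * q + 1)) = 2 * (x - q) ^ 2 := by ring
    rw [h]
    refine ⟨by positivity, ?_⟩
    constructor
    · intro h2
      have h3 : (x - q) ^ 2 = 0 := by linarith [sq_nonneg (x - q)]
      have h4 : x - q = 0 := by simpa using h3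
      omega
    · rintro ⟨h2, h3⟩
      have : x = q := by omega
      subst this; ring

/-- HINT: see the docs. -/
theorem wt_min (m q : ℕ) (S : Finset (Fin N)) (ν η : Fin N → ℕ)
    (hν : ∀ s ∈ S, q ≤ ν s ∧ ν s + fer m s ≤ q + 1) (h1 : ∀ i ∉ S, η i = ν i)
    (h2 : ∑ i ∈ S, η i = ∑ i ∈ S, ν i) :
    wt m ν < wt m η ∨ ∀ s ∈ S, q ≤ η s ∧ η s + fer m s ≤ q + 1 := by
  have hf : ∀ i : Fin N, (fer m i : ℤ) = 0 ∨ (fer m i : ℤ) = 1 := by
    intro i; unfold fer; split_ifs <;> simp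
  let G : (Fin N → ℕ) → Fin N → ℤ := fun x s => (x s : ℤ) ^ 2 + ((x s : ℤ) + fer m s) ^ 2 - (4 * q + 2) * (x s : ℤ)
    + (2 * q * (q + 1) - (fer m s : ℤ) * (2 * q + 1))
  have hw : ∀ x : Fin N → ℕ, (wt m x : ℤ) = ∑ s ∈ S, G x s + (4 * q + 2) * ((∑ s ∈ S, x s : ℕ) : ℤ)
      - ∑ s ∈ S, (2 * (q : ℤ) * (q + 1) - (fer m s : ℤ) * (2 * q + 1))
      + ∑ s ∈ Sᶜ, ((x s : ℤ) ^ 2 + ((x s : ℤ) + fer m s) ^ 2) := by
    intro x
    have e1 : (wt m x : ℤ) = ∑ s, ((x s : ℤ) ^ 2 + ((x s : ℤ) + fer m s) ^ 2) := by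
      unfold wt; push_cast; rw [← Finset.sum_add_distrib]
    rw [e1, ← Finset.sum_add_sum_compl S]
    have e2 : ∑ s ∈ S, ((x s : ℤ) ^ 2 + ((x s : ℤ) + fer m s) ^ 2) = ∑ s ∈ S, G x s + (4 * q + 2) * ((∑ s ∈ S, x s : ℕ) : ℤ)
      - ∑ s ∈ S, (2 * (q : ℤ) * (q + 1) - (fer m s : ℤ) * (2 * q + 1)) := by
      push_cast
      rw [Finset.mul_sum, ← Finset.sum_add_distrib, ← Finset.sum_sub_distrib]
      apply Finset.sum_congr rfl
      intro s _
      simp only [G]; ring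
    rw [e2]
  have hc : ∑ s ∈ Sᶜ, ((η s : ℤ) ^ 2 + ((η s : ℤ) + fer m s) ^ 2) = ∑ s ∈ Sᶜ, ((ν s : ℤ) ^ 2 + ((ν s : ℤ) + fer m s) ^ 2) := by
    apply Finset.sum_congr rfl
    intro s hs
    rw [h1 s (by simpa using hs)]
  have hν0 : ∑ s ∈ S, G ν s = 0 := by
    apply Finset.sum_eq_zero
    intro s hs
    refine ((wt_min_G q (ν s) (fer m s) (hf s)).2).2 ?_
    have := hν s hs
    omega
  have hη0 : ∀ s ∈ S, 0 ≤ G η s := fun s _ => (wt_min_G q (η s) (fer m s) (hf s)).1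
  have key : (wt m η : ℤ) - wt m ν = ∑ s ∈ S, G η s := by
    rw [hw η, hw ν, hc, hν0, h2]; ring
  by_cases hz : ∑ s ∈ S, G η s = 0
  · right
    intro s hs
    have := (Finset.sum_eq_zero_iff_of_nonneg hη0).1 hz s hs
    have h3 := ((wt_min_G q (η s) (fer m s) (hf s)).2).1 this
    omega
  · left
    have h4 : 0 < ∑ s ∈ S, G η s := lt_of_le_of_ne (Finset.sum_nonneg hη0) (Ne.symm hz)
    omega

end Clu
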