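import Pool.Agent.Helper204.CL.DefA
import Pool.Agent.Helper204.CL.DefB
import Pool.Agent.Helper204.CL.DefC
import Pool.Agent.Helper204.CL.DefD
import Pool.Agent.Helper204.CL.P_nonadm_set
import Pool.Agent.Helper204.CL.P_van_sum
import Pool.Agent.Helper204.CL.P_wt_min
import Pool.Agent.Helper204.CL.P_coeff_flat

set_option linter.unusedSectionVars false

open MvPolynomial Finset

noncomputable section

namespace Clu
variable {N : ℕ} {K : Type} [Field K] [CharZero K]



/-- HINT: `S`, `q` from `nonadm_set`; `van_sum` with `ν = pf L.part`: in the sum all `η` with `wt m L.part < wt m η` vanish by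
`hw`, the others satisfy the flatness by `wt_min` and have `coeff η g = coeff ν g` by `coeff_flat`. So
`(number of terms) * coeff ν g = 0`; if `coeff ν g ≠ 0` then `ν` itself is one of the terms, contradiction in characteristic 0. -/
theorem U_lemma (k : ℕ) (L : SPart N) (hL : ¬ Admissible k 2 L) (g : MvPolynomial (Fin N) K) (hg : InV L.m g)
    (hv : Van k g) (hw : ∀ ν : Fin N →₀ ℕ, wt L.m L.part < wt L.m ν → coeff ν g = 0) :
    coeff (pf L.part) g = 0 := by
  classical
  by_contra hne
  obtain ⟨S, q, hc, hS⟩ := nonadm_set k L hL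
  have hSne : S.Nonempty := by
    rw [← Finset.card_pos, hc]
    exact Nat.succ_pos k
  have hsum := van_sum S hSne g (fun x hx => hv S hc x hx) (pf L.part)
  have hconst : ∀ η ∈ g.support.filter (fun η => (∀ i ∉ S, η i = pf L.part i) ∧
      ∑ i ∈ S, η i = ∑ i ∈ S, pf L.part i), coeff η g = coeff (pf L.part) g := by
    intro η hη
    rw [Finset.mem_filter] at hη
    obtain ⟨hη0, h1, h2⟩ := hη
    rcases wt_min L.m q S L.part η hS h1 h2 with hlt | hfl
    · exact absurd (hw η hlt) (MvPolynomial.mem_support_iff.1 hη0)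
    · exact coeff_flat L.m q S g hg (pf L.part) η (fun s hs => hS s hs) hfl h1 h2
  rw [Finset.sum_congr rfl hconst, Finset.sum_const, nsmul_eq_mul] at hsum
  rcases mul_eq_zero.1 hsum with h0 | h0
  · have hcard : (g.support.filter (fun η => (∀ i ∉ S, η i = pf L.part i) ∧
        ∑ i ∈ S, η i = ∑ i ∈ S, pf L.part i)).card = 0 := by exact_mod_cast h0
    rw [Finset.card_eq_zero] at hcard
    have hmem : pf L.part ∈ g.support.filter (fun η => (∀ i ∉ S, η i = pf L.part i) ∧
        ∑ i ∈ S, η i = ∑ i ∈ S, pf L.part i) := by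
      rw [Finset.mem_filter]
      exact ⟨MvPolynomial.mem_support_iff.2 hne, fun i _ => rfl, rfl⟩
    rw [hcard] at hmem
    exact absurd hmem (Finset.notMem_empty _)
  · exact hne h0

end Clu
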