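import Pool.Agent.Helper204.CL.DefA
import Pool.Agent.Helper204.CL.DefB
import Pool.Agent.Helper204.CL.DefC
import Pool.Agent.Helper204.CL.DefD
import Pool.Agent.Helper204.CL.DefR
import Pool.Agent.Helper204.CL.P_symm_InV
import Pool.Agent.Helper204.CL.P_inV_rep
import Pool.Agent.Helper204.CL.P_comb_first
import Pool.Agent.Helper204.CL.P_clust_iff
import Pool.Agent.Helper204.CL.P_U_lemma

set_option linter.unusedSectionVars false

open MvPolynomial Finset

noncomputable section

namespace Clu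
variable {N : ℕ} {K : Type} [Field K] [CharZero K]



theorem U_coord_wt (m : ℕ) (σ : Equiv.Perm (Fin N)) (hσ : Pres m σ) (x : Fin N → ℕ) :
    wt m (fun i => x (σ i)) = wt m x := by
  unfold wt
  have h1 : ∑ i, x (σ i) ^ 2 = ∑ i, x i ^ 2 := Equiv.sum_comp σ (fun i => x i ^ 2)
  have h2 : ∑ i, (x (σ i) + fer m i) ^ 2 = ∑ i, (x i + fer m i) ^ 2 := by
    rw [← Equiv.sum_comp σ (fun i => (x i + fer m i) ^ 2)]
    refine Finset.sum_congr rfl fun i _ => ?_
    have h3 : fer m i = fer m (σ i) := by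
      unfold fer
      by_cases hi : (i : ℕ) < m
      · rw [if_pos hi, if_pos ((hσ i).2 hi)]
      · rw [if_neg hi, if_neg (fun h => hi ((hσ i).1 h))]
    rw [h3]
  show ∑ i, x (σ i) ^ 2 + ∑ i, (x (σ i) + fer m i) ^ 2 = _
  rw [h1, h2]

/-- HINT: `g = comb v (first N L.m)`, `InV` (`symm_InV`, `comb_first`) and `Van k` (`clust_iff`, `L.m_le`), `v L = coeff (pf L.part) g`.
If `wt L.m L.part < wt L.m ν` and `coeff ν g ≠ 0` then by `inV_rep` there is `W` with `W.m = L.m`, `W.part` a rearrangement of `ν`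
preserving `{· < m}` (so `wt W.m W.part = wt L.m ν`) and `coeff (pf W.part) g = v W ≠ 0`, contradicting the hypothesis. So
`U_lemma` applies. -/
theorem U_coord (k : ℕ) (v : SPart N →₀ ℂ) (hv : comb v ∈ clusterSpace N k) (L : SPart N)
    (h : ∀ W : SPart N, wt L.m L.part < wt W.m W.part → v W = 0) (hL : ¬ Admissible k 2 L) : v L = 0 := by
  obtain ⟨hsym, hcoef, _, _⟩ := comb_first v
  have hg : InV L.m (comb v (first N L.m)) := symm_InV L.m (comb v) hsym
  have hvan : Van k (comb v (first N L.m)) := ((clust_iff k (comb v)).1 hv).2 L.m L.m_le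
  rw [← hcoef L]
  apply U_lemma k L hL _ hg hvan
  intro ν hlt
  by_contra hne
  obtain ⟨W, hWm, ⟨σ, hσ, hσν⟩, hWc⟩ := inV_rep L.m L.m_le _ hg ν hne
  have h1 : coeff (pf W.part) (comb v (first N W.m)) = v W := hcoef W
  rw [hWm] at h1
  apply hWc
  rw [h1]
  apply h
  have h2 : W.part = fun i => (ν : Fin N → ℕ) (σ i) := by
    funext i
    exact (hσν i).symm
  rw [hWm, h2, U_coord_wt L.m σ hσ]
  exact hlt

end Clu
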