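import Pool.Agent.Helper204.CL.Def0

set_option linter.unusedSectionVars false

open MvPolynomial Finset

noncomputable section

namespace Clu



theorem count_eq_tri (x M : ℕ) (h : x ≤ M) : 2 * ∑ θ ∈ range M, (x - θ) = x ^ 2 + x := by
  induction x generalizing M with
  | zero => simp
  | succ x ih =>
    obtain ⟨M', rfl⟩ : ∃ M', M = M' + 1 := ⟨M - 1, by omega⟩
    have h1 := ih M' (by omega)
    rw [Finset.sum_range_succ', Nat.sub_zero]
    have h2 : ∑ θ ∈ range M', (x + 1 - (θ + 1)) = ∑ θ ∈ range M', (x - θ) :=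
      Finset.sum_congr rfl fun θ _ => Nat.add_sub_add_right x 1 θ
    rw [h2, mul_add, h1]
    ring

theorem count_eq_swap (N : ℕ) (f : ℕ → ℕ) (M : ℕ) (hM : ∀ i ∈ range N, f i ≤ M) :
    2 * ∑ θ ∈ range M, ∑ i ∈ range N, (f i - θ) = ∑ i ∈ range N, f i ^ 2 + ∑ i ∈ range N, f i := by
  rw [Finset.sum_comm, Finset.mul_sum, ← Finset.sum_add_distrib]
  exact Finset.sum_congr rfl fun i hi => count_eq_tri (f i) M (hM i hi)

theorem count_eq_card (N : ℕ) (f : ℕ → ℕ) (v : ℕ) :
    ((range N).filter (fun i => f i = v + 1)).card + 2 * ∑ i ∈ range N, (f i - (v + 1))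
      = ∑ i ∈ range N, (f i - v) + ∑ i ∈ range N, (f i - (v + 2)) := by
  rw [Finset.card_filter, Finset.mul_sum, ← Finset.sum_add_distrib, ← Finset.sum_add_distrib]
  apply Finset.sum_congr rfl
  intro i _
  split_ifs <;> omega

theorem count_eq_card0 (N : ℕ) (f : ℕ → ℕ) :
    ((range N).filter (fun i => f i = 0)).card + ∑ i ∈ range N, (f i - 0)
      = N + ∑ i ∈ range N, (f i - 1) := by
  have hN : N = ∑ _i ∈ range N, 1 := by simp
  conv_rhs => rw [hN]
  rw [Finset.card_filter, ← Finset.sum_add_distrib]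
  simp only [Finset.card_range, Finset.sum_const, smul_eq_mul, mul_one]
  have h2 : N + ∑ i ∈ range N, (f i - 1) = ∑ i ∈ range N, (1 + (f i - 1)) := by
    rw [Finset.sum_add_distrib]
    simp
  rw [h2]
  apply Finset.sum_congr rfl
  intro i _
  split_ifs <;> omega

/-- HINT: For a natural number `x` and `M ≥ x`: `∑_{θ < M} (x - θ) = x (x+1) / 2` (truncated subtraction). Take `M`
larger than all values. Summing over `θ < M`, both sides of `hmaj` have the same total by `hsq` and `hsum`, so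
equality holds for every `θ < M` (and trivially for `θ ≥ M`). Then
`#{i : g i = v} = ∑ (g i - (v-1)) - 2 ∑ (g i - v) + ∑ (g i - (v+1))` for `v ≥ 1` (integers), and for `v = 0`
use `#{i : g i ≥ 1} = ∑ (g i - 0) - ∑ (g i - 1)`. -/
theorem count_eq (N : ℕ) (g h : ℕ → ℕ)
    (hmaj : ∀ θ, ∑ i ∈ range N, (h i - θ) ≤ ∑ i ∈ range N, (g i - θ))
    (hsq : ∑ i ∈ range N, h i ^ 2 = ∑ i ∈ range N, g i ^ 2)
    (hsum : ∑ i ∈ range N, h i = ∑ i ∈ range N, g i) (v : ℕ) :
    ((range N).filter (fun i => h i = v)).card = ((range N).filter (fun i => g i = v)).card := by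
  have hS : ∀ θ, ∑ i ∈ range N, (h i - θ) = ∑ i ∈ range N, (g i - θ) := by
    intro θ
    have hb : ∀ f : ℕ → ℕ, ∀ i ∈ range N, f i ≤ ∑ j ∈ range N, f j := fun f i hi =>
      Finset.single_le_sum (f := f) (fun _ _ => Nat.zero_le _) hi
    have h1 := count_eq_swap N h (θ + 1 + ∑ j ∈ range N, h j + ∑ j ∈ range N, g j)
      (fun i hi => by have := hb h i hi; omega)
    have h2 := count_eq_swap N g (θ + 1 + ∑ j ∈ range N, h j + ∑ j ∈ range N, g j)
      (fun i hi => by have := hb g i hi; omega)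
    rw [hsq, hsum, ← h2] at h1
    rw [← hsum] at h1
    have h3 := Nat.eq_of_mul_eq_mul_left (by norm_num : 0 < 2) h1
    exact (Finset.sum_eq_sum_iff_of_le (fun θ _ => hmaj θ)).mp h3 θ
      (Finset.mem_range.mpr (by omega))
  rcases v with _ | v
  · have h1 := count_eq_card0 N h
    have h2 := count_eq_card0 N g
    have h3 := hS 0
    have h4 := hS 1
    omega
  · have h1 := count_eq_card N h v
    have h2 := count_eq_card N g v
    have h3 := hS v
    have h4 := hS (v + 1)
    have h5 := hS (v + 2)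
    omega

end Clu
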