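import Pool.Agent.Helper204.CL.DefA
import Pool.Agent.Helper204.CL.DefB
import Pool.Agent.Helper204.CL.DefC
import Pool.Agent.Helper204.CL.DefD
import Pool.Agent.Helper204.CL.DefR

set_option linter.unusedSectionVars false

open MvPolynomial Finset

noncomputable section

namespace Clu
variable {N : ℕ} {K : Type} [Field K] [CharZero K]



theorem eta_sum (M N : ℕ) (hMN : M ≤ N) (f a : ℕ → ℕ) (h1 : ∀ i, i < M → a i = f (M - 1 - i))
    (h2 : ∀ i, M ≤ i → i < N → a i = f i) : ∑ i ∈ range N, a i = ∑ i ∈ range N, f i := by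
  obtain ⟨q, rfl⟩ := Nat.exists_eq_add_of_le hMN
  rw [Finset.sum_range_add, Finset.sum_range_add, ← Finset.sum_range_reflect f M]
  congr 1
  · exact Finset.sum_congr rfl fun i hi => h1 i (Finset.mem_range.1 hi)
  · refine Finset.sum_congr rfl fun i hi => ?_
    have := Finset.mem_range.1 hi
    exact h2 _ (by omega) (by omega)

/-- HINT: `k` = number of `i ≥ m` with `L.part i > 0` (an initial segment of `{· ≥ m}` as `part` is weakly decreasing there);
`η i = L.part (m+k-1-i) - 1` for `i < k`, `η (k + i) = L.part (m-1-i)` for `i < m`, `0` beyond;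
`d i = L.part (m-1-i)` for `i < m`, `d (m+i) = L.part (m+k-1-i)` for `i < k`. The sums over `range N` of functions of `η`
reindex to sums over `Fin N` of `L.part` (the missing positions have value `0`). -/
theorem eta_exists (L : SPart N) : ∃ (k : ℕ) (η d : ℕ →₀ ℕ), k + L.m ≤ N ∧
    (∀ i : Fin N, L.m ≤ (i : ℕ) → (0 < L.part i ↔ (i : ℕ) < L.m + k)) ∧
    (∀ i, k + L.m ≤ i → η i = 0) ∧ (∀ i j, i ≤ j → j < k → η i ≤ η j) ∧
    (∀ i j, k ≤ i → i < j → j < k + L.m → η i < η j) ∧
    (∀ i, i < L.m → d i = η (k + i)) ∧ (∀ i, i < k → d (L.m + i) = η i + 1) ∧ (∀ i, k + L.m ≤ i → d i = 0) ∧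
    (∀ i : Fin N, (i : ℕ) < L.m → d (L.m - 1 - i) = L.part i) ∧
    (∀ i : Fin N, L.m ≤ (i : ℕ) → (i : ℕ) < L.m + k → d (L.m + (L.m + k - 1 - i)) = L.part i) ∧
    (η.sum (fun _ n => n) + k = ∑ i, L.part i) ∧
    (∀ t, ∑ i ∈ range N, ((if i < k then η i + 1 else η i) - t) = ∑ i : Fin N, (L.part i - t)) ∧
    (∀ t, ∑ i ∈ range N, ((if i < k + L.m then η i + 1 else η i) - t) =
      ∑ i : Fin N, (L.part i + fer L.m i - t)) := by
  classical
  obtain ⟨P, hP⟩ : ∃ P : ℕ → ℕ, ∀ i, P i = if h : i < N then L.part ⟨i, h⟩ else 0 :=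
    ⟨_, fun _ => rfl⟩
  have hPf : ∀ i : Fin N, P i = L.part i := fun i => by rw [hP, dif_pos i.2]
  have hP0 : ∀ i, N ≤ i → P i = 0 := fun i hi => by rw [hP, dif_neg (not_lt.2 hi)]
  have hstrict : ∀ i j, i < j → j < L.m → P j < P i := by
    intro i j hij hj
    have hjN : j < N := lt_of_lt_of_le hj L.m_le
    have hiN : i < N := by omega
    rw [hP, hP, dif_pos hjN, dif_pos hiN]
    exact L.strict ⟨i, hiN⟩ ⟨j, hjN⟩ hij hj
  have hweak : ∀ i j, i ≤ j → L.m ≤ i → P j ≤ P i := by
    intro i j hij hi
    rcases hij.eq_or_lt with rfl | hij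
    · exact le_rfl
    by_cases hjN : j < N
    · have hiN : i < N := by omega
      rw [hP, hP, dif_pos hjN, dif_pos hiN]
      exact L.weak ⟨i, hiN⟩ ⟨j, hjN⟩ hij hi
    · rw [hP0 j (not_lt.1 hjN)]
      exact Nat.zero_le _
  have hex : ∃ k, P (L.m + k) = 0 := ⟨N, hP0 _ (by omega)⟩
  obtain ⟨k, hk1, hk2, hkN⟩ : ∃ k, P (L.m + k) = 0 ∧ (∀ j, j < k → P (L.m + j) ≠ 0) ∧
      L.m + k ≤ N := by
    refine ⟨Nat.find hex, Nat.find_spec hex, fun j hj => Nat.find_min hex hj, ?_⟩
    have hm := L.m_le
    have : Nat.find hex ≤ N - L.m := Nat.find_min' hex (hP0 _ (by omega))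
    omega
  have hpos : ∀ i, L.m ≤ i → (0 < P i ↔ i < L.m + k) := by
    intro i hi
    constructor
    · intro h
      by_contra hcon
      have := hweak (L.m + k) i (by omega) (by omega)
      omega
    · intro h
      have := hk2 (i - L.m) (by omega)
      have e : L.m + (i - L.m) = i := by omega
      rw [e] at this
      omega
  have hz : ∀ i, L.m + k ≤ i → P i = 0 := by
    intro i hi
    have := (hpos i (by omega)).not
    omega
  obtain ⟨η, hη⟩ : ∃ η : ℕ →₀ ℕ, ∀ i, η i = if i < L.m + k then
      (if i < k then P (L.m + k - 1 - i) - 1 else P (L.m + k - 1 - i)) else 0 := by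
    refine ⟨Finsupp.onFinset (range (L.m + k)) (fun i => if i < L.m + k then
      (if i < k then P (L.m + k - 1 - i) - 1 else P (L.m + k - 1 - i)) else 0) ?_, fun _ => rfl⟩
    intro i hi
    rw [Finset.mem_range]
    by_contra hcon
    exact hi (if_neg hcon)
  obtain ⟨d, hd⟩ : ∃ d : ℕ →₀ ℕ, ∀ i, d i = if i < L.m then P (L.m - 1 - i) else
      if i < L.m + k then P (L.m + k - 1 - (i - L.m)) else 0 := by
    refine ⟨Finsupp.onFinset (range (L.m + k)) (fun i => if i < L.m then P (L.m - 1 - i) else
      if i < L.m + k then P (L.m + k - 1 - (i - L.m)) else 0) ?_, fun _ => rfl⟩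
    intro i hi
    rw [Finset.mem_range]
    by_contra hcon
    apply hi
    rw [if_neg (by omega), if_neg hcon]
  have hsum1 : ∀ t, ∑ i ∈ range N, ((if i < k then η i + 1 else η i) - t) =
      ∑ i : Fin N, (L.part i - t) := by
    intro t
    rw [eta_sum (L.m + k) N hkN (fun i => P i - t), Finset.sum_range]
    · exact Finset.sum_congr rfl fun i _ => by rw [hPf]
    · intro i hi
      rw [hη, if_pos hi]
      by_cases h : i < k
      · have := (hpos (L.m + k - 1 - i) (by omega)).2 (by omega)
        rw [if_pos h, if_pos h]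
        congr 1
        omega
      · rw [if_neg h, if_neg h]
    · intro i hi _
      rw [hη, if_neg (by omega), if_neg (by omega), hz i hi]
  have hsum2 : ∀ t, ∑ i ∈ range N, ((if i < k + L.m then η i + 1 else η i) - t) =
      ∑ i : Fin N, (L.part i + fer L.m i - t) := by
    intro t
    rw [eta_sum (L.m + k) N hkN (fun i => P i + (if i < L.m then 1 else 0) - t), Finset.sum_range]
    · exact Finset.sum_congr rfl fun i _ => by rw [hPf, fer]
    · intro i hi
      rw [hη, if_pos hi, if_pos (by omega)]
      by_cases h : i < k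
      · have := (hpos (L.m + k - 1 - i) (by omega)).2 (by omega)
        rw [if_pos h, if_neg (by omega)]
        congr 1
        omega
      · rw [if_neg h, if_pos (by omega)]
    · intro i hi _
      rw [hη, if_neg (by omega), if_neg (by omega), hz i hi, if_neg (by omega)]
  refine ⟨k, η, d, by omega, ?_, ?_, ?_, ?_, ?_, ?_, ?_, ?_, ?_, ?_, hsum1, hsum2⟩
  · intro i hi
    rw [← hPf]
    exact hpos i hi
  · intro i hi
    rw [hη, if_neg (by omega)]
  · intro i j hij hj
    rw [hη, hη, if_pos (by omega), if_pos (by omega), if_pos (by omega), if_pos hj]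
    have := hweak (L.m + k - 1 - j) (L.m + k - 1 - i) (by omega) (by omega)
    omega
  · intro i j hi hij hj
    rw [hη, hη, if_pos (show i < L.m + k by omega), if_pos (show j < L.m + k by omega),
      if_neg (show ¬ i < k by omega), if_neg (show ¬ j < k by omega)]
    exact hstrict _ _ (by omega) (by omega)
  · intro i hi
    rw [hη, hd, if_pos hi, if_pos (by omega), if_neg (by omega)]
    congr 1
    omega
  · intro i hi
    have := (hpos (L.m + k - 1 - i) (by omega)).2 (by omega)
    rw [hη, hd, if_neg (by omega), if_pos (by omega), if_pos (by omega), if_pos hi,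
      Nat.add_sub_cancel_left]
    omega
  · intro i hi
    rw [hd, if_neg (by omega), if_neg (by omega)]
  · intro i hi
    rw [hd, if_pos (by omega), ← hPf]
    congr 1
    omega
  · intro i hi hi2
    rw [hd, if_neg (by omega), if_pos (by omega), ← hPf, Nat.add_sub_cancel_left]
    congr 1
    omega
  · have h0 := hsum1 0
    simp only [Nat.sub_zero] at h0
    rw [← h0, Finsupp.sum_of_support_subset η (s := range N) _ _ (fun _ _ => rfl)]
    · have h1 : ∀ i ∈ range N, (if i < k then η i + 1 else η i) =
          η i + (if i < k then 1 else 0) := by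
        intro i _
        split_ifs <;> rfl
      rw [Finset.sum_congr rfl h1, Finset.sum_add_distrib]
      congr 1
      rw [← Finset.sum_filter, Finset.sum_const, smul_eq_mul, mul_one]
      have : (range N).filter (fun i => i < k) = range k := by
        ext i
        rw [Finset.mem_filter, Finset.mem_range, Finset.mem_range]
        constructor
        · exact fun h => h.2
        · intro h
          exact ⟨by omega, h⟩
      rw [this, Finset.card_range]
    · intro i hi
      rw [Finset.mem_range]
      by_contra hcon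
      rw [Finsupp.mem_support_iff] at hi
      apply hi
      rw [hη, if_neg (by omega)]

end Clu
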