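import Pool.Agent.Helper204.CL.DefA
import Pool.Agent.Helper204.CL.DefB
import Pool.Agent.Helper204.CL.DefC
import Pool.Agent.Helper204.CL.DefD
import Pool.Agent.Helper204.CL.DefR

set_option linter.unusedSectionVars false

open MvPolynomial Finset

noncomputable section

namespace Clu
variable {N : ℕ} {K : Type} [Field K] [CharZero K]



/-- HINT: check on monomials of degree `n` (`MvPolynomial.IsHomogeneous`; `f.vars ⊆ range N`); there may be a lemma
`MvPolynomial.IsHomogeneous.sum_X_mul_pderiv`. -/
theorem euler (f : MvPolynomial ℕ K) (n : ℕ) (hf : f.IsHomogeneous n) (hv : ∀ v ∈ f.vars, v < N) :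
    ∑ i ∈ range N, X i * pderiv i f = (n : K) • f := by
  have h1 : ∀ i, X i * pderiv i f = ∑ m ∈ f.support, m i • monomial m (coeff m f) := by
    intro i
    conv_lhs => rw [f.as_sum]
    rw [map_sum, Finset.mul_sum]
    refine Finset.sum_congr rfl (fun m _ => ?_)
    exact X_mul_pderiv_monomial
  simp only [h1]
  rw [Finset.sum_comm]
  conv_rhs => rw [f.as_sum]
  rw [Finset.smul_sum]
  refine Finset.sum_congr rfl (fun m hm => ?_)
  rw [← Finset.sum_smul]
  have hdeg : ∑ i ∈ range N, m i = n := by
    have h2 := hf (mem_support_iff.1 hm)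
    rw [Finsupp.weight_apply] at h2
    simp only [Pi.one_apply, smul_eq_mul, mul_one] at h2
    rw [← h2, Finsupp.sum]
    symm
    refine Finset.sum_subset ?_ ?_
    · intro v hv'
      rw [Finset.mem_range]
      exact hv v (by rw [mem_vars_iff_mem_support]; exact ⟨m, hm, hv'⟩)
    · intro v _ hv'
      exact Finsupp.notMem_support_iff.1 hv'
  rw [hdeg, Nat.cast_smul_eq_nsmul]

end Clu
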