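import Pool.Agent.Helper204.CL.DefA
import Pool.Agent.Helper204.CL.DefB
import Pool.Agent.Helper204.CL.DefC
import Pool.Agent.Helper204.CL.DefD
import Pool.Agent.Helper204.CL.DefR
import Pool.Agent.Helper204.CL.P_inV_perm
import Pool.Agent.Helper204.CL.P_del_transfer

set_option linter.unusedSectionVars false

open MvPolynomial Finset

noncomputable section

namespace Clu
variable {N : ℕ} {K : Type} [Field K] [CharZero K]



/-- HINT: `g` exists by `MvPolynomial.exists_rename_eq_of_vars_subset_range` (`Fin.val` is injective with range `{· < N}`), and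
`coeff ν g = coeff (ν.mapDomain Fin.val) f` (`coeff_rename_mapDomain`). `InV`: from `halt`, `hsym` (`del_transfer`,
`rename_injective`; for `j < i` use `swap_comm`). `LeV`: from `hsupp` (rewrite sums over `range N` as sums over `Fin N`,
`Finset.sum_range`) and homogeneity: `Σ ν = n`, `Σ_i L.part i = n`. For the coefficient at `L.part`: the exponent `d` is, on
`{· < N}`, the rearrangement of `L.part` reversing `{· < m}` and `{m, …, m+k-1}` (the entries of `L.part` beyond `m+k` vanish by
`hk`), so `inV_perm` shows that the coefficients at `d` and at `L.part` agree up to sign. -/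
theorem ex_transfer (L : SPart N) (k n : ℕ) (hkN : L.m + k ≤ N)
    (hk : ∀ i : Fin N, L.m ≤ (i : ℕ) → (0 < L.part i ↔ (i : ℕ) < L.m + k))
    (hn : n = ∑ i, L.part i)
    (f : MvPolynomial ℕ K) (hvars : ∀ v ∈ f.vars, v < N) (hhom : f.IsHomogeneous n)
    (halt : ∀ i j, i < j → j < L.m → rename (Equiv.swap i j) f = -f)
    (hsym : ∀ σ : Equiv.Perm ℕ, (∀ l, (l < L.m ∨ N ≤ l) → σ l = l) → rename σ f = f)
    (d : ℕ →₀ ℕ) (hd1 : ∀ i : Fin N, (i : ℕ) < L.m → d (L.m - 1 - i) = L.part i)
    (hd2 : ∀ i : Fin N, L.m ≤ (i : ℕ) → (i : ℕ) < L.m + k → d (L.m + (L.m + k - 1 - i)) = L.part i)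
    (hd3 : ∀ i, L.m + k ≤ i → d i = 0) (hlead : coeff d f ≠ 0)
    (hsupp : ∀ e : ℕ →₀ ℕ, coeff e f ≠ 0 → ∀ t,
      ∑ i ∈ range N, (e i - t) ≤ ∑ i : Fin N, (L.part i - t) ∧
      ∑ i ∈ range N, ((if i < L.m then e i + 1 else e i) - t) ≤ ∑ i : Fin N, (L.part i + fer L.m i - t)) :
    ∃ g : MvPolynomial (Fin N) K, rename (fun j : Fin N => (j : ℕ)) g = f ∧ InV L.m g ∧
      coeff (pf L.part) g ≠ 0 ∧ ∀ ν : Fin N →₀ ℕ, coeff ν g ≠ 0 → LeV L.m ν L.part := by
  have hφ : Function.Injective (fun j : Fin N => (j : ℕ)) := Fin.val_injective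
  obtain ⟨g, hg⟩ := MvPolynomial.exists_rename_eq_of_vars_subset_range f
    (fun j : Fin N => (j : ℕ)) hφ (by
      intro v hv
      exact ⟨⟨v, hvars v (by exact_mod_cast hv)⟩, rfl⟩)
  have hcoeff : ∀ ν : Fin N →₀ ℕ, coeff (ν.mapDomain (fun j : Fin N => (j : ℕ))) f = coeff ν g := by
    intro ν
    rw [← hg, coeff_rename_mapDomain _ hφ]
  have hInV : InV L.m g := by
    constructor
    · intro i j hij hi hj
      apply rename_injective _ hφ
      rw [(del_transfer i g).2 i j, hg, map_neg, hg]
      rcases lt_or_gt_of_ne (fun h => hij (Fin.ext h) : (i : ℕ) ≠ j) with h | h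
      · exact halt i j h hj
      · rw [Equiv.swap_comm]
        exact halt j i h hi
    · intro i j hi hj
      apply rename_injective _ hφ
      rw [(del_transfer i g).2 i j, hg]
      apply hsym
      intro l hl
      have hi2 := i.2
      have hj2 := j.2
      apply Equiv.swap_apply_of_ne_of_ne
      · rcases hl with hl | hl <;> omega
      · rcases hl with hl | hl <;> omega
  refine ⟨g, hg, hInV, ?_, ?_⟩
  · -- the leading coefficient
    let s' : ℕ → ℕ := fun i =>
      if i < L.m then L.m - 1 - i else if i < L.m + k then L.m + (L.m + k - 1 - i) else i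
    have hs'N : ∀ i, i < N → s' i < N := by
      intro i hi
      simp only [s']
      split_ifs <;> omega
    have hs's' : ∀ i, s' (s' i) = i := by
      intro i
      simp only [s']
      split_ifs <;> omega
    let s : Fin N → Fin N := fun i => ⟨s' i, hs'N i i.2⟩
    have hinv : Function.Involutive s := fun i => Fin.ext (hs's' i)
    let σ : Equiv.Perm (Fin N) := hinv.toPerm
    have hσv : ∀ i, ((σ i : Fin N) : ℕ) = s' i := fun i => rfl
    have hPres : Pres L.m σ := by
      intro i
      rw [hσv]
      simp only [s']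
      split_ifs <;> omega
    let ν0 : Fin N →₀ ℕ := Finsupp.equivFunOnFinite.symm (fun i => d i)
    have hν0 : ∀ i, ν0 i = d i := fun i => rfl
    have hd : ν0.mapDomain (fun j : Fin N => (j : ℕ)) = d := by
      ext i
      by_cases hi : i < N
      · have := Finsupp.mapDomain_apply hφ ν0 ⟨i, hi⟩
        simp only at this
        rw [this, hν0]
      · rw [Finsupp.mapDomain_notin_range, hd3 i (by omega)]
        rintro ⟨j, hj⟩
        have := j.2
        simp only at hj
        omega
    have h1 : coeff ν0 g ≠ 0 := by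
      rw [← hcoeff, hd]
      exact hlead
    have h2 := (inV_perm L.m g hInV σ hPres (pf L.part) ν0 (by
      intro i
      rw [hν0, hσv, pf_apply]
      simp only [s']
      split_ifs with c1 c2
      · exact hd1 i c1
      · exact hd2 i (by omega) c2
      · rw [hd3 i (by omega)]
        have := (hk i (by omega)).not.2 c2
        omega)).2
    intro h3
    rw [h3, mul_zero] at h2
    exact h1 h2
  · intro ν hν
    have he : coeff (ν.mapDomain (fun j : Fin N => (j : ℕ))) f ≠ 0 := by
      rw [hcoeff]; exact hν
    have hval : ∀ i : Fin N, ν.mapDomain (fun j : Fin N => (j : ℕ)) (i : ℕ) = ν i := fun i =>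
      Finsupp.mapDomain_apply hφ ν i
    have hsum : ∑ i, ν i = ∑ i, L.part i := by
      rw [← hn]
      have hgh : g.IsHomogeneous n := by
        rw [← MvPolynomial.IsHomogeneous.rename_isHomogeneous_iff hφ, hg]
        exact hhom
      have := hgh hν
      rw [← this, Finsupp.weight_apply, Finsupp.sum_fintype _ _ (by simp)]
      simp
    have hs := hsupp _ he
    refine ⟨⟨hsum, fun t => ?_⟩, ⟨?_, fun t => ?_⟩⟩
    · have := (hs t).1
      rw [Finset.sum_range] at this
      simpa only [hval] using this
    · rw [Finset.sum_add_distrib, Finset.sum_add_distrib, hsum]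
    · have := (hs t).2
      rw [Finset.sum_range] at this
      refine le_trans (le_of_eq ?_) this
      refine Finset.sum_congr rfl fun i _ => ?_
      rw [hval]
      unfold fer
      by_cases hc : (i : ℕ) < L.m
      · simp [hc]
      · simp [hc]

end Clu
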