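import Pool.Agent.Helper204.CL.Def0

set_option linter.unusedSectionVars false

open MvPolynomial Finset

noncomputable section

namespace Clu



theorem fd_transfer (N k i : ℕ) (f g : ℕ → ℕ) (hfg : ∀ j < i, f j = g j) (v : ℕ)
    (hc : ((range N).filter (fun i => (k + 1) * f i + i = v)).card =
      ((range N).filter (fun i => (k + 1) * g i + i = v)).card)
    (l : ℕ) (hl : i ≤ l) (hlN : l < N) (hv : (k + 1) * g l + l = v) :
    ∃ j, i ≤ j ∧ j < N ∧ (k + 1) * f j + j = v := by
  by_contra hcon
  push Not at hcon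
  have hlt : ((range N).filter (fun i => (k + 1) * f i + i = v)).card <
      ((range N).filter (fun i => (k + 1) * g i + i = v)).card := by
    apply Finset.card_lt_card
    rw [Finset.ssubset_iff_of_subset]
    · refine ⟨l, ?_, ?_⟩
      · rw [Finset.mem_filter, Finset.mem_range]
        exact ⟨hlN, hv⟩
      · rw [Finset.mem_filter, Finset.mem_range]
        rintro ⟨_, h⟩
        exact hcon l hl hlN h
    · intro j hj
      rw [Finset.mem_filter, Finset.mem_range] at hj ⊢
      refine ⟨hj.1, ?_⟩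
      rcases lt_or_ge j i with h | h
      · rw [← hfg j h]
        exact hj.2
      · exact absurd hj.2 (hcon j h hj.1)
  omega

theorem fd_core (N k i : ℕ) (p P q : ℕ → ℕ)
    (hP : ∀ i, i + 1 < N → P (i + 1) ≤ p i)
    (adm : ∀ i, i + k < N → p (i + k) + 2 ≤ P i)
    (hpq : ∀ j < i, q j = p j)
    (c1 : ∀ v, ((range N).filter (fun i => (k + 1) * q i + i = v)).card =
      ((range N).filter (fun i => (k + 1) * p i + i = v)).card)
    (j y : ℕ) (hij : i ≤ j) (hjN : j + 1 < N) (hy : (k + 1) * y + (j + 1) = (k + 1) * P i + i)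
    (hyq : y ≤ q j) : False := by
  obtain ⟨l, hil, hlN, hlv⟩ := fd_transfer N k i p q (fun j hj => (hpq j hj).symm)
    ((k + 1) * q j + j) (c1 _).symm j hij (by omega) rfl
  -- `s`
  have hyP : y < P i := by
    by_contra h
    push Not at h
    have := Nat.mul_le_mul_left (k + 1) h
    omega
  obtain ⟨s, hs⟩ : ∃ s, P i = y + (s + 1) := ⟨P i - y - 1, by omega⟩
  have hj : j + 1 = i + (k + 1) * (s + 1) := by
    rw [hs, Nat.mul_add] at hy
    omega
  -- `s'`
  obtain ⟨d, rfl⟩ : ∃ d, l = i + d := ⟨l - i, by omega⟩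
  have he : (k + 1) * p (i + d) + d = (k + 1) * (q j + s) + k := by
    have h1 : (k + 1) * (q j + s) = (k + 1) * q j + (k + 1) * s := Nat.mul_add _ _ _
    have h2 : (k + 1) * (s + 1) = (k + 1) * s + (k + 1) := by ring
    rw [h2] at hj
    rw [h1]
    omega
  have hab : p (i + d) ≤ q j + s := by
    by_contra h
    push Not at h
    have h3 : (k + 1) * (q j + s + 1) ≤ (k + 1) * p (i + d) := Nat.mul_le_mul_left _ h
    have h4 : (k + 1) * (q j + s + 1) = (k + 1) * (q j + s) + (k + 1) := by ring
    omega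
  obtain ⟨s', hs'⟩ : ∃ s', q j + s = p (i + d) + s' := ⟨q j + s - p (i + d), by omega⟩
  have hd : d = (k + 1) * s' + k := by
    rw [hs', Nat.mul_add] at he
    omega
  -- iteration of the admissibility
  have hA : ∀ t j, j + (k + 1) * t < N → p (j + (k + 1) * t) + 2 * t ≤ p j := by
    intro t
    induction t with
    | zero => intro j _; simp
    | succ t ih =>
      intro j hjt
      have h5 : j + (k + 1) * (t + 1) = (j + (k + 1)) + (k + 1) * t := by ring
      rw [h5] at hjt ⊢
      have h6 := ih (j + (k + 1)) hjt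
      have h7 := adm (j + 1) (by omega)
      have h8 := hP j (by omega)
      have h9 : j + 1 + k = j + (k + 1) := by ring
      rw [h9] at h7
      omega
  have hB : p (i + d) + 2 + 2 * s' ≤ P i := by
    have h10 : i + d = (i + k) + (k + 1) * s' := by rw [hd]; ring
    have h11 := hA s' (i + k) (by rw [← h10]; exact hlN)
    rw [← h10] at h11
    have h12 := adm i (by omega)
    omega
  have hB' : (k + 1) * (p (i + d) + 2 + 2 * s') ≤ (k + 1) * P i := Nat.mul_le_mul_left _ hB
  have hyq' : (k + 1) * y ≤ (k + 1) * q j := Nat.mul_le_mul_left _ hyq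
  have h13 : (k + 1) * (p (i + d) + 2 + 2 * s') =
      (k + 1) * p (i + d) + 2 * (k + 1) + 2 * ((k + 1) * s') := by ring
  rw [h13] at hB'
  omega

/-- HINT: Suppose not and let `i` be the first index with `(q i, Q i) ≠ (p i, P i)`. The initial conditions at
`l = i + 1` give `q i ≤ p i`, `Q i ≤ P i`. From `adm`, `hP`: `p (j + (k+1)) + 2 ≤ p j` hence
`p (j + (k+1) s) + 2 s ≤ p j`, and `p (i + k + (k+1) s') + 2 + 2 s' ≤ P i`.
(1) If `P i = p i` then `q i < p i`. The value `C = (k+1) p i + i` is attained by the `p`-sequence at `i`, so (counting;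
the first `i` terms of both sequences agree) it is attained by the `q`-sequence at some `j ≥ i`, `j ≠ i`;
`(k+1) q j + j = (k+1) p i + i` and `q j ≤ q i < p i` give `j = i + (k+1) s`, `q j = p i - s`, `s ≥ 1`. Then
`q (j-1) ≥ q j` gives a value `V = (k+1) q (j-1) + (j-1) ≥ C - 1` at index `j - 1 ≥ i` in the `q`-sequence. By counting `V` is
attained by the `p`-sequence at some `l ≥ i` with `l ≡ j - 1 ≡ i - 1 mod (k+1)` so `l = i + k + (k+1) s'`, whence
`V ≤ (k+1) (p i - 2 - 2 s') + i + k + (k+1) s' ≤ C - k - 2 < C - 1`. Contradiction.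
(2) If `P i = p i + 1` then `Q i < P i`. The value `C = (k+1) P i + i` is attained by the `Q`-sequence at some `j > i`,
`j = i + (k+1) s`, `Q j = P i - s`, and `q (j-1) ≥ Q j`; so `V = (k+1) q (j-1) + (j-1) ≥ C - 1`; and `V` is attained by the
`p`-sequence at `l = i + k + (k+1) s'`: `V ≤ (k+1) (P i - 2 - 2 s') + i + k + (k+1) s' < C - 1`. Contradiction. -/
theorem first_diff (N k : ℕ) (hk : 1 ≤ k) (p P q Q : ℕ → ℕ)
    (hp : ∀ i < N, p i ≤ P i ∧ P i ≤ p i + 1) (hP : ∀ i, i + 1 < N → P (i + 1) ≤ p i)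
    (hq : ∀ i < N, q i ≤ Q i ∧ Q i ≤ q i + 1) (hQ : ∀ i, i + 1 < N → Q (i + 1) ≤ q i)
    (adm : ∀ i, i + k < N → p (i + k) + 2 ≤ P i)
    (pre1 : ∀ l ≤ N, ∑ i ∈ range l, q i ≤ ∑ i ∈ range l, p i)
    (pre2 : ∀ l ≤ N, ∑ i ∈ range l, Q i ≤ ∑ i ∈ range l, P i)
    (c1 : ∀ v, ((range N).filter (fun i => (k + 1) * q i + i = v)).card =
      ((range N).filter (fun i => (k + 1) * p i + i = v)).card)
    (c2 : ∀ v, ((range N).filter (fun i => (k + 1) * Q i + i = v)).card =
      ((range N).filter (fun i => (k + 1) * P i + i = v)).card) :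
    ∀ i < N, q i = p i ∧ Q i = P i := by
  intro i
  induction i using Nat.strong_induction_on with
  | _ i ih =>
    intro hiN
    have hpq : ∀ j < i, q j = p j := fun j hj => (ih j hj (by omega)).1
    have hPQ : ∀ j < i, Q j = P j := fun j hj => (ih j hj (by omega)).2
    have hqi : q i ≤ p i := by
      have h1 := pre1 (i + 1) (by omega)
      have h2 : ∑ j ∈ range i, q j = ∑ j ∈ range i, p j :=
        Finset.sum_congr rfl (fun j hj => hpq j (Finset.mem_range.1 hj))
      rw [Finset.sum_range_succ, Finset.sum_range_succ, h2] at h1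
      exact Nat.le_of_add_le_add_left h1
    have hQi : Q i ≤ P i := by
      have h1 := pre2 (i + 1) (by omega)
      have h2 : ∑ j ∈ range i, Q j = ∑ j ∈ range i, P j :=
        Finset.sum_congr rfl (fun j hj => hPQ j (Finset.mem_range.1 hj))
      rw [Finset.sum_range_succ, Finset.sum_range_succ, h2] at h1
      exact Nat.le_of_add_le_add_left h1
    by_contra hne
    have hpi := hp i hiN
    have hqQi := hq i hiN
    have hcase : P i = p i ∨ P i = p i + 1 := by omega
    rcases hcase with h1 | h1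
    · have hlt : q i < p i := by
        rcases hqi.lt_or_eq with h | h
        · exact h
        · exact absurd ⟨h, by omega⟩ hne
      obtain ⟨j, hij, hjN, hjv⟩ := fd_transfer N k i q p hpq ((k + 1) * p i + i) (c1 _) i le_rfl
        hiN rfl
      have hji : j ≠ i := by
        rintro rfl
        have : (k + 1) * q j < (k + 1) * p j := Nat.mul_lt_mul_of_pos_left hlt (Nat.succ_pos k)
        omega
      obtain ⟨j', rfl⟩ : ∃ j', j = j' + 1 := ⟨j - 1, by omega⟩
      exact fd_core N k i p P q hP adm hpq c1 j' (q (j' + 1)) (by omega) hjN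
        (by rw [h1]; exact hjv) ((hq _ hjN).1.trans (hQ j' hjN))
    · have hlt : Q i < P i := by
        rcases hQi.lt_or_eq with h | h
        · exact h
        · exact absurd ⟨by omega, h⟩ hne
      obtain ⟨j, hij, hjN, hjv⟩ := fd_transfer N k i Q P hPQ ((k + 1) * P i + i) (c2 _) i le_rfl
        hiN rfl
      have hji : j ≠ i := by
        rintro rfl
        have : (k + 1) * Q j < (k + 1) * P j := Nat.mul_lt_mul_of_pos_left hlt (Nat.succ_pos k)
        omega
      obtain ⟨j', rfl⟩ : ∃ j', j = j' + 1 := ⟨j - 1, by omega⟩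
      exact fd_core N k i p P q hP adm hpq c1 j' (Q (j' + 1)) (by omega) hjN hjv (hQ j' hjN)

end Clu
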