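import Pool.Agent.Helper204.CL.Def0

set_option linter.unusedSectionVars false

open MvPolynomial Finset

noncomputable section

namespace Clu



theorem spread_sumT (L : ℕ) : ∀ T : Finset ℕ, T ⊆ range L →
    2 * (∑ i ∈ T, (i : ℤ)) ≤ (T.card : ℤ) * (2 * L - T.card - 1) := by
  induction L with
  | zero =>
    intro T hT
    have : T = ∅ := by simpa using hT
    simp [this]
  | succ L ih =>
    intro T hT
    by_cases hL : L ∈ T
    · have h1 : T.erase L ⊆ range L := by
        intro i hi
        obtain ⟨h2, h3⟩ := Finset.mem_erase.1 hi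
        have := Finset.mem_range.1 (hT h3)
        exact Finset.mem_range.2 (by omega)
      have h2 := ih _ h1
      have h3 : (L : ℤ) + ∑ i ∈ T.erase L, (i : ℤ) = ∑ i ∈ T, (i : ℤ) :=
        Finset.add_sum_erase T (fun i => (i : ℤ)) hL
      have h4 : (T.erase L).card + 1 = T.card := Finset.card_erase_add_one hL
      have h5 : (T.card : ℤ) = (T.erase L).card + 1 := by rw [← h4]; push_cast; ring
      rw [h5, ← h3]
      push_cast
      nlinarith
    · have h1 : T ⊆ range L := by
        intro i hi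
        have := Finset.mem_range.1 (hT hi)
        have h2 : i ≠ L := fun h => hL (h ▸ hi)
        exact Finset.mem_range.2 (by omega)
      have h2 := ih _ h1
      have h3 : (0 : ℤ) ≤ T.card := by positivity
      push_cast
      nlinarith

theorem spread_abel (L : ℕ) (w h : ℕ → ℤ) (hd : ∀ i, i + 1 < L → h (i + 1) ≤ h i)
    (hW : ∀ l ≤ L, ∑ i ∈ range l, w i ≤ 0) :
    ∀ n, n < L → ∑ i ∈ range (n + 1), w i * h i ≤ (∑ i ∈ range (n + 1), w i) * h n := by
  intro n
  induction n with
  | zero => intro _; simp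
  | succ n ih =>
    intro hn
    have h1 := ih (by omega)
    rw [Finset.sum_range_succ (fun i => w i * h i), Finset.sum_range_succ w]
    have h2 := hW (n + 1) (by omega)
    have h3 := hd n hn
    nlinarith [mul_nonneg (sub_nonneg.2 h3) (neg_nonneg.2 h2)]

/-- HINT: Put `h' i = h i - i`, weakly decreasing on `range L`. Abel summation with the weights
`w i = L * [i ∈ T] - t` (initial sums `≤ 0`, total `0`): `∑ w i * h' i ≤ 0`. Hence
`L ∑_T h - t ∑ h ≤ L ∑_{i∈T} i - t ∑_{i<L} i`, and `∑_{i ∈ T} i ≤ ∑_{j<t} (L-1-j)`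
(sum of `t` distinct numbers `< L`), which gives the bound `t (L-t) L / 2`. -/
theorem spread_step (L t : ℕ) (h : ℕ → ℤ) (hstep : ∀ i, i + 1 < L → h (i + 1) ≤ h i + 1)
    (T : Finset ℕ) (hT : T ⊆ range L) (ht : T.card = t)
    (hpre : ∀ l ≤ L, (T ∩ range l).card * L ≤ t * l) :
    2 * ((L : ℤ) * ∑ i ∈ T, h i - t * ∑ i ∈ range L, h i) ≤ (t : ℤ) * (L - t) * L := by
  rcases Nat.eq_zero_or_pos L with rfl | hL
  · have h1 : T = ∅ := by simpa using hT
    subst h1
    simp at ht
    subst ht
    simp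
  have key := spread_abel L (fun i => (if i ∈ T then (L : ℤ) else 0) - t) (fun i => h i - i)
    (fun i hi => by
      have := hstep i hi
      push_cast
      linarith)
    (fun l hl => by
      have h1 := hpre l hl
      rw [Finset.sum_sub_distrib, Finset.sum_ite_mem, Finset.sum_const, Finset.sum_const,
        Finset.card_range, Finset.inter_comm]
      simp only [nsmul_eq_mul]
      have h2 : (((T ∩ range l).card * L : ℕ) : ℤ) ≤ ((t * l : ℕ) : ℤ) := by exact_mod_cast h1
      push_cast at h2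
      nlinarith) (L - 1) (by omega)
  have hL1 : L - 1 + 1 = L := by omega
  rw [hL1] at key
  have hTi : range L ∩ T = T := Finset.inter_eq_right.2 hT
  have e1 : ∑ i ∈ range L, ((if i ∈ T then (L : ℤ) else 0) - t) = 0 := by
    rw [Finset.sum_sub_distrib, Finset.sum_ite_mem, hTi, Finset.sum_const, Finset.sum_const,
      Finset.card_range, ht]
    simp only [nsmul_eq_mul]
    ring
  rw [e1, zero_mul] at key
  have e2 : ∑ i ∈ range L, ((if i ∈ T then (L : ℤ) else 0) - t) * (h i - i) =
      (L * ∑ i ∈ T, h i - t * ∑ i ∈ range L, h i) -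
        (L * ∑ i ∈ T, (i : ℤ) - t * ∑ i ∈ range L, (i : ℤ)) := by
    have e3 : ∀ f : ℕ → ℤ, ∑ i ∈ range L, ((if i ∈ T then (L : ℤ) else 0) - t) * f i =
        L * ∑ i ∈ T, f i - t * ∑ i ∈ range L, f i := by
      intro f
      have e4 : ∀ i, ((if i ∈ T then (L : ℤ) else 0) - t) * f i =
          (if i ∈ T then (L : ℤ) * f i else 0) - t * f i := by
        intro i
        split_ifs <;> ring
      simp only [e4]
      rw [Finset.sum_sub_distrib, Finset.sum_ite_mem, hTi, Finset.mul_sum, Finset.mul_sum]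
    rw [← e3 h, ← e3 (fun i => (i : ℤ)), ← Finset.sum_sub_distrib]
    refine Finset.sum_congr rfl fun i _ => ?_
    ring
  rw [e2] at key
  have h5 := spread_sumT L T hT
  rw [ht] at h5
  have h6 : 2 * ∑ i ∈ range L, (i : ℤ) = L * (L - 1) := by
    have h7 := Finset.sum_range_id_mul_two L
    have h8 : ((∑ i ∈ range L, i : ℕ) : ℤ) * 2 = L * ((L - 1 : ℕ) : ℤ) := by exact_mod_cast h7
    rw [Nat.cast_sub hL] at h8
    push_cast at h8
    linarith
  have h9 : (L : ℤ) * (2 * ∑ i ∈ T, (i : ℤ)) ≤ L * ((t : ℤ) * (2 * L - t - 1)) :=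
    mul_le_mul_of_nonneg_left h5 (by positivity)
  have h10 : (t : ℤ) * (2 * ∑ i ∈ range L, (i : ℤ)) = t * (L * (L - 1)) := by rw [h6]
  nlinarith

end Clu
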