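import Pool.Agent.Helper204.CL.Def0

set_option linter.unusedSectionVars false

open MvPolynomial Finset

noncomputable section

namespace Clu



theorem h170_A (B : Finset ℤ) : ∀ m : ℤ, (∀ x ∈ B, m ≤ x) →
    2 * (B.card : ℤ) * m + B.card * (B.card - 1) ≤ 2 * ∑ x ∈ B, x := by
  induction B using Finset.induction_on_max with
  | empty => intro m _; simp
  | insert a s ha ih =>
    intro m hm
    have hns : a ∉ s := fun h => lt_irrefl a (ha a h)
    rw [Finset.sum_insert hns, Finset.card_insert_of_notMem hns]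
    have h1 := ih m (fun x hx => hm x (Finset.mem_insert_of_mem hx))
    have h2 : (s.card : ℤ) ≤ a - m := by
      have h3 : s ⊆ Finset.Ico m a := fun x hx =>
        Finset.mem_Ico.2 ⟨hm x (Finset.mem_insert_of_mem hx), ha x hx⟩
      have h4 := Finset.card_le_card h3
      rw [Int.card_Ico] at h4
      have h5 : m ≤ a := hm a (Finset.mem_insert_self _ _)
      omega
    push_cast
    nlinarith

theorem h170_A' (B : Finset ℤ) : ∀ m : ℤ, (∀ x ∈ B, x ≤ m) →
    2 * ∑ x ∈ B, x ≤ 2 * (B.card : ℤ) * m - B.card * (B.card - 1) := by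
  induction B using Finset.induction_on_min with
  | empty => intro m _; simp
  | insert a s ha ih =>
    intro m hm
    have hns : a ∉ s := fun h => lt_irrefl a (ha a h)
    rw [Finset.sum_insert hns, Finset.card_insert_of_notMem hns]
    have h1 := ih m (fun x hx => hm x (Finset.mem_insert_of_mem hx))
    have h2 : (s.card : ℤ) ≤ m - a := by
      have h3 : s ⊆ Finset.Ioc a m := fun x hx =>
        Finset.mem_Ioc.2 ⟨ha x hx, hm x (Finset.mem_insert_of_mem hx)⟩
      have h4 := Finset.card_le_card h3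
      rw [Int.card_Ioc] at h4
      have h5 : a ≤ m := hm a (Finset.mem_insert_self _ _)
      omega
    push_cast
    nlinarith

theorem h170_thr (S : Finset ℤ) : ∀ t : ℕ, t ≤ S.card → ∃ m : ℤ, (S.filter (fun x => m ≤ x)).card = t := by
  induction S using Finset.induction_on_min with
  | empty =>
    intro t ht
    refine ⟨0, ?_⟩
    rw [Finset.card_empty] at ht
    simp
    omega
  | insert a s ha ih =>
    intro t ht
    have hns : a ∉ s := fun h => lt_irrefl a (ha a h)
    rw [Finset.card_insert_of_notMem hns] at ht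
    rcases Nat.lt_or_ge s.card t with h | h
    · refine ⟨a, ?_⟩
      rw [Finset.filter_true_of_mem, Finset.card_insert_of_notMem hns]
      · omega
      · intro x hx
        rcases Finset.mem_insert.1 hx with h | h
        · exact h.ge
        · exact (ha x h).le
    · obtain ⟨m, hm⟩ := ih t h
      refine ⟨max m (a + 1), ?_⟩
      rw [Finset.filter_insert, if_neg (by
        intro h1
        have := le_max_right m (a + 1)
        omega), ← hm]
      congr 1
      apply Finset.filter_congr
      intro x hx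
      have := ha x hx
      constructor
      · intro h1
        exact (le_max_left _ _).trans h1
      · intro h1
        exact max_le h1 (by omega)

theorem h170_main (S : Finset ℤ) (t : ℕ) (ht : t ≤ S.card) :
    (t : ℤ) * (S.card - t) * S.card ≤
      2 * ((S.card : ℤ) * ∑ x ∈ S, max x 0 - t * ∑ x ∈ S, x) := by
  obtain ⟨m, hm⟩ := h170_thr S t ht
  have h1 := Finset.sum_filter_add_sum_filter_not S (fun x => m ≤ x) (fun x => x)
  have h2 := Finset.card_filter_add_card_filter_not (s := S) (fun x => m ≤ x)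
  have h3 := h170_A (S.filter (fun x => m ≤ x)) m (fun x hx => (Finset.mem_filter.1 hx).2)
  have h4 := h170_A' (S.filter (fun x => ¬ m ≤ x)) (m - 1) (fun x hx => by
    have := (Finset.mem_filter.1 hx).2
    omega)
  have h5 : ∑ x ∈ S.filter (fun x => m ≤ x), x ≤ ∑ x ∈ S, max x 0 := by
    calc ∑ x ∈ S.filter (fun x => m ≤ x), x ≤ ∑ x ∈ S.filter (fun x => m ≤ x), max x 0 :=
          Finset.sum_le_sum (fun x _ => le_max_left _ _)
      _ ≤ ∑ x ∈ S, max x 0 :=
          Finset.sum_le_sum_of_subset_of_nonneg (Finset.filter_subset _ _)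
            (fun x _ _ => le_max_right _ _)
  rw [hm] at h2 h3
  obtain ⟨c, hc⟩ : ∃ c : ℕ, c = (S.filter (fun x => ¬ m ≤ x)).card := ⟨_, rfl⟩
  rw [← hc] at h2 h4
  obtain ⟨σ, hσ⟩ : ∃ σ : ℤ, σ = ∑ x ∈ S.filter (fun x => m ≤ x), x := ⟨_, rfl⟩
  obtain ⟨ρ, hρ⟩ : ∃ ρ : ℤ, ρ = ∑ x ∈ S.filter (fun x => ¬ m ≤ x), x := ⟨_, rfl⟩
  obtain ⟨M, hM⟩ : ∃ M : ℤ, M = ∑ x ∈ S, max x 0 := ⟨_, rfl⟩
  rw [← hσ] at h3 h5
  rw [← hρ] at h4
  rw [← hσ, ← hρ] at h1
  rw [← hM] at h5 ⊢
  rw [← h1, ← h2]
  push_cast
  have c0 : (0 : ℤ) ≤ c := Nat.cast_nonneg c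
  have t0 : (0 : ℤ) ≤ t := Nat.cast_nonneg t
  have e1 : (c : ℤ) * (2 * (t : ℤ) * m + t * (t - 1)) ≤ c * (2 * σ) := mul_le_mul_of_nonneg_left h3 c0
  have e2 : (t : ℤ) * (2 * ρ) ≤ t * (2 * (c : ℤ) * (m - 1) - c * (c - 1)) :=
    mul_le_mul_of_nonneg_left h4 t0
  have e3 : ((t : ℤ) + c) * σ ≤ (t + c) * M := mul_le_mul_of_nonneg_left h5 (by linarith)
  nlinarith

/-- HINT: choose `B ⊆ range L` with `B.card = t` consisting of the indices of the `t` largest values of `g`
(e.g. induct on `t`, adding the largest remaining one; or transfer to the sorted list of the image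
`(range L).image g`). Then `∑ max (g i) 0 ≥ ∑_B g`, and
`L * ∑_B g - t * ∑ g = ∑_{b ∈ B} ∑_{a ∉ B} (g b - g a)`; since the `g` are distinct integers, sorting
decreasingly `g_(1) > g_(2) > ...` we have `g_(i) - g_(j) ≥ j - i`, so this is
`≥ ∑_{i ≤ t} ∑_{j > t} (j - i) = t (L-t) L / 2`.
Alternative proof by induction on `L`: remove the index of the largest value. -/
theorem spread_top (L t : ℕ) (ht : t ≤ L) (g : ℕ → ℤ)
    (hinj : ∀ i j, i < L → j < L → g i = g j → i = j) :
    (t : ℤ) * (L - t) * L ≤ 2 * ((L : ℤ) * ∑ i ∈ range L, max (g i) 0 - t * ∑ i ∈ range L, g i) := by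
  classical
  have hinj' : Set.InjOn g (range L : Set ℕ) := by
    intro i hi j hj hij
    exact hinj i j (Finset.mem_range.1 hi) (Finset.mem_range.1 hj) hij
  have hcard : ((range L).image g).card = L := by
    rw [Finset.card_image_of_injOn hinj', Finset.card_range]
  have h := h170_main ((range L).image g) t (by rw [hcard]; exact ht)
  rw [hcard, Finset.sum_image (fun i hi j hj hij => hinj' hi hj hij),
    Finset.sum_image (fun i hi j hj hij => hinj' hi hj hij)] at h
  exact h

end Clu
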