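import Pool.Agent.Helper204.CL.Def0
import Pool.Agent.Helper204.CL.P_spread_top
import Pool.Agent.Helper204.CL.P_spread_step

set_option linter.unusedSectionVars false

open MvPolynomial Finset

noncomputable section

namespace Clu



theorem ms_split (T : Finset ℕ) (K L l : ℕ) (hl : l ≤ K) (f : ℕ → ℤ) :
    ∑ i ∈ T ∩ range (L + l), f i = ∑ i ∈ T ∩ range L, f i +
      ∑ j ∈ ((range K).filter (fun j => L + j ∈ T)) ∩ range l, f (L + j) := by
  have h1 : ∀ M, T ∩ range M = (range M).filter (fun i => i ∈ T) := by
    intro M
    ext x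
    simp [and_comm]
  have h2 : ((range K).filter (fun j => L + j ∈ T)) ∩ range l =
      (range l).filter (fun j => L + j ∈ T) := by
    ext x
    simp only [Finset.mem_inter, Finset.mem_filter, Finset.mem_range]
    constructor
    · rintro ⟨⟨a, b⟩, c⟩
      exact ⟨c, b⟩
    · rintro ⟨a, b⟩
      exact ⟨⟨by omega, b⟩, a⟩
  rw [h1, h1, h2, Finset.sum_filter, Finset.sum_filter, Finset.sum_filter, Finset.sum_range_add]

theorem ms_card (T : Finset ℕ) (K L l : ℕ) (hl : l ≤ K) :
    (T ∩ range (L + l)).card = (T ∩ range L).card +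
      (((range K).filter (fun j => L + j ∈ T)) ∩ range l).card := by
  have := ms_split T K L l hl (fun _ => 1)
  simp only [Finset.sum_const, smul_eq_mul, nsmul_eq_mul, mul_one] at this
  exact_mod_cast this

/-- HINT: strong induction on `N` (for all `g h s ρ T`). If `T ∩ range N` is empty the claim is trivial
(`ρ * s ≥ 0`, `max ≥ 0`). Otherwise let `r` be the maximum over `1 ≤ l ≤ N` of `|T ∩ range l| / l` and `L ≥ 1`
an index where it is attained (so `r ≤ ρ`), `t = |T ∩ range L|`. By `spread_step` and `spread_top`
applied on `range L`: `∑_{T ∩ range L} h ≤ r (∑_{i<L} h - ∑_{i<L} g) + ∑_{i<L} max (g i) 0`.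
Put `s' = s + ∑_{i<L} g - ∑_{i<L} h ≥ 0` and apply the induction hypothesis to the shifted sequences
`g (· + L)`, `h (· + L)`, the set of `j` with `j + L ∈ T`, `N - L`, slack `s'` and slope `r`
(the slopes of the rest are `≤ r` by maximality of `r`). -/
theorem maj_slack (N : ℕ) (g h : ℕ → ℤ) (s : ℤ) (hs : 0 ≤ s) (ρ : ℚ) (hρ : 0 ≤ ρ)
    (hinj : ∀ i j, i < N → j < N → g i = g j → i = j)
    (hstep : ∀ i, i + 1 < N → h (i + 1) ≤ h i + 1)
    (hpre : ∀ l ≤ N, ∑ i ∈ range l, h i ≤ s + ∑ i ∈ range l, g i)
    (T : Finset ℕ) (hT : T ⊆ range N) (hslope : ∀ l ≤ N, ((T ∩ range l).card : ℚ) ≤ ρ * l) :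
    ((∑ i ∈ T, h i : ℤ) : ℚ) ≤ ρ * s + ((∑ i ∈ range N, max (g i) 0 : ℤ) : ℚ) := by
  induction N using Nat.strong_induction_on generalizing g h s ρ T with
  | _ N ih =>
    rcases Nat.eq_zero_or_pos N with hN | hN
    · subst hN
      have hT0 : T = ∅ := by
        rw [range_zero] at hT
        exact Finset.subset_empty.1 hT
      subst hT0
      simp only [Finset.sum_empty, range_zero, Int.cast_zero, add_zero]
      have : (0 : ℚ) ≤ s := by exact_mod_cast hs
      positivity
    · obtain ⟨L, hLm, hLmax⟩ := Finset.exists_max_image (Finset.Icc 1 N)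
        (fun l => ((T ∩ range l).card : ℚ) / (l : ℚ)) ⟨1, by simp; omega⟩
      rw [Finset.mem_Icc] at hLm
      obtain ⟨hL1, hLN⟩ := hLm
      set t : ℕ := (T ∩ range L).card with htdef
      have htL : t ≤ L := by
        have := Finset.card_le_card (Finset.inter_subset_right : T ∩ range L ⊆ range L)
        rwa [Finset.card_range] at this
      have hLpos : (0 : ℚ) < L := by exact_mod_cast hL1
      set r : ℚ := (t : ℚ) / L with hr
      have hr0 : 0 ≤ r := by positivity
      have hrL : r * L = t := by rw [hr]; field_simp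
      have hslope' : ∀ l ≤ N, ((T ∩ range l).card : ℚ) ≤ r * l := by
        intro l hl
        rcases Nat.eq_zero_or_pos l with h0 | h0
        · subst h0
          simp
        · have := hLmax l (Finset.mem_Icc.2 ⟨h0, hl⟩)
          have hl0 : (0 : ℚ) < l := by exact_mod_cast h0
          rw [div_le_iff₀ hl0] at this
          exact this
      have hrρ : r ≤ ρ := by
        rw [hr, div_le_iff₀ hLpos]
        exact hslope L hLN
      -- first block
      have hA := spread_step L t h (fun i hi => hstep i (by omega)) (T ∩ range L)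
        Finset.inter_subset_right rfl (by
          intro l hl
          have e : T ∩ range L ∩ range l = T ∩ range l := by
            ext x
            simp only [Finset.mem_inter, Finset.mem_range]
            constructor
            · rintro ⟨⟨a, b⟩, c⟩
              exact ⟨a, c⟩
            · rintro ⟨a, b⟩
              exact ⟨⟨a, by omega⟩, b⟩
          rw [e]
          have h1 := hslope' l (by omega)
          have h2 : ((T ∩ range l).card : ℚ) * L ≤ t * l := by
            calc ((T ∩ range l).card : ℚ) * L ≤ (r * l) * L := by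
                  exact mul_le_mul_of_nonneg_right h1 hLpos.le
              _ = (r * L) * l := by ring
              _ = t * l := by rw [hrL]
          exact_mod_cast h2)
      have hB := spread_top L t htL g (fun i j hi hj => hinj i j (by omega) (by omega))
      have hAB : (L : ℤ) * ∑ i ∈ T ∩ range L, h i ≤ t * ∑ i ∈ range L, h i - t * ∑ i ∈ range L, g i
          + L * ∑ i ∈ range L, max (g i) 0 := by linarith
      have hABq : (L : ℚ) * ((∑ i ∈ T ∩ range L, h i : ℤ) : ℚ) ≤
          t * ((∑ i ∈ range L, h i : ℤ) : ℚ) - t * ((∑ i ∈ range L, g i : ℤ) : ℚ)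
          + L * ((∑ i ∈ range L, max (g i) 0 : ℤ) : ℚ) := by exact_mod_cast hAB
      have hC : ((∑ i ∈ T ∩ range L, h i : ℤ) : ℚ) ≤
          r * ((∑ i ∈ range L, h i : ℤ) : ℚ) - r * ((∑ i ∈ range L, g i : ℤ) : ℚ)
          + ((∑ i ∈ range L, max (g i) 0 : ℤ) : ℚ) := by
        have e1 : t * ((∑ i ∈ range L, h i : ℤ) : ℚ) - t * ((∑ i ∈ range L, g i : ℤ) : ℚ)
          + L * ((∑ i ∈ range L, max (g i) 0 : ℤ) : ℚ) =
          L * (r * ((∑ i ∈ range L, h i : ℤ) : ℚ) - r * ((∑ i ∈ range L, g i : ℤ) : ℚ)
          + ((∑ i ∈ range L, max (g i) 0 : ℤ) : ℚ)) := by rw [← hrL]; ring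
        rw [e1] at hABq
        exact le_of_mul_le_mul_left hABq hLpos
      -- second block
      set T2 : Finset ℕ := (range (N - L)).filter (fun j => L + j ∈ T) with hT2
      have hpreL := hpre L hLN
      have hs' : 0 ≤ s + ∑ i ∈ range L, g i - ∑ i ∈ range L, h i := by linarith
      have hI := ih (N - L) (by omega) (fun i => g (L + i)) (fun i => h (L + i))
        (s + ∑ i ∈ range L, g i - ∑ i ∈ range L, h i) hs' r hr0
        (fun i j hi hj e => by
          have := hinj (L + i) (L + j) (by omega) (by omega) e
          omega)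
        (fun i hi => by
          have := hstep (L + i) (by omega)
          exact this)
        (fun l hl => by
          have h1 := hpre (L + l) (by omega)
          rw [Finset.sum_range_add, Finset.sum_range_add] at h1
          linarith)
        T2 (Finset.filter_subset _ _)
        (fun l hl => by
          have h1 := hslope' (L + l) (by omega)
          rw [ms_card T (N - L) L l hl] at h1
          push_cast at h1
          have e : r * ((L : ℚ) + l) = t + r * l := by rw [mul_add, hrL]
          rw [e] at h1
          linarith)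
      have hsplitT : ∑ i ∈ T, h i = ∑ i ∈ T ∩ range L, h i + ∑ j ∈ T2, h (L + j) := by
        have h1 := ms_split T (N - L) L (N - L) le_rfl h
        have e1 : T ∩ range (L + (N - L)) = T := by
          have : L + (N - L) = N := by omega
          rw [this]
          exact Finset.inter_eq_left.2 hT
        have e2 : (range (N - L)).filter (fun j => L + j ∈ T) ∩ range (N - L) = T2 :=
          Finset.inter_eq_left.2 (Finset.filter_subset _ _)
        rw [e1, e2] at h1
        exact h1
      have hsplitg : ∑ i ∈ range N, max (g i) 0 = ∑ i ∈ range L, max (g i) 0 +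
          ∑ i ∈ range (N - L), max (g (L + i)) 0 := by
        have : N = L + (N - L) := by omega
        conv_lhs => rw [this]
        rw [Finset.sum_range_add]
      rw [hsplitT, hsplitg]
      push_cast at hI hC ⊢
      have hsq : (0 : ℚ) ≤ s := by exact_mod_cast hs
      have hfin : r * (s : ℚ) ≤ ρ * s := mul_le_mul_of_nonneg_right hrρ hsq
      linarith

end Clu
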