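import Pool.Agent.Helper204.CL.Def0
import Pool.Agent.Helper204.CL.P_maj_slack

set_option linter.unusedSectionVars false

open MvPolynomial Finset

noncomputable section

namespace Clu



/-- HINT: `maj_slack` with `s = 0`, `ρ = 1`, applied to `g i - θ` and `h i - θ`, and `T` = set of the `i < N` with
`θ < h i`; the truncated subtraction is `max (· - θ) 0`. -/
theorem maj (N : ℕ) (g h : ℕ → ℕ)
    (hinj : ∀ i j, i < N → j < N → g i = g j → i = j)
    (hstep : ∀ i, i + 1 < N → h (i + 1) ≤ h i + 1)
    (hpre : ∀ l ≤ N, ∑ i ∈ range l, h i ≤ ∑ i ∈ range l, g i) (θ : ℕ) :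
    ∑ i ∈ range N, (h i - θ) ≤ ∑ i ∈ range N, (g i - θ) := by
  have key := maj_slack N (fun i => (g i : ℤ) - θ) (fun i => (h i : ℤ) - θ) 0 le_rfl 1
    zero_le_one (fun i j hi hj hij => hinj i j hi hj (by
      have hij' : (g i : ℤ) - θ = (g j : ℤ) - θ := hij
      omega)) (fun i hi => by
      have := hstep i hi
      show ((h (i + 1) : ℕ) : ℤ) - θ ≤ ((h i : ℕ) : ℤ) - θ + 1
      omega) (fun l hl => by
      have h1 := hpre l hl
      have h2 : (∑ i ∈ range l, (h i : ℤ)) ≤ ∑ i ∈ range l, (g i : ℤ) := by exact_mod_cast h1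
      rw [sum_sub_distrib, sum_sub_distrib, zero_add]
      linarith) ((range N).filter (fun i => θ < h i)) (filter_subset _ _) (fun l hl => by
      rw [one_mul]
      have h1 : ((range N).filter (fun i => θ < h i) ∩ range l).card ≤ l := by
        refine (card_le_card inter_subset_right).trans ?_
        rw [card_range]
      exact_mod_cast h1)
  rw [Int.cast_zero, mul_zero, zero_add] at key
  have key2 : (∑ i ∈ (range N).filter (fun i => θ < h i), ((h i : ℤ) - θ))
      ≤ ∑ i ∈ range N, max ((g i : ℤ) - θ) 0 := by exact_mod_cast key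
  have e1 : (∑ i ∈ (range N).filter (fun i => θ < h i), ((h i : ℤ) - θ))
      = ((∑ i ∈ range N, (h i - θ) : ℕ) : ℤ) := by
    rw [sum_filter, Nat.cast_sum]
    refine sum_congr rfl fun i _ => ?_
    split_ifs with hi
    · omega
    · omega
  have e2 : (∑ i ∈ range N, max ((g i : ℤ) - θ) 0) = ((∑ i ∈ range N, (g i - θ) : ℕ) : ℤ) := by
    rw [Nat.cast_sum]
    refine sum_congr rfl fun i _ => ?_
    omega
  rw [e1, e2] at key2
  exact_mod_cast key2

end Clu
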