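import Pool.Agent.Helper204.CL.Def0
import Pool.Agent.Helper204.CL.P_maj
import Pool.Agent.Helper204.CL.P_count_eq
import Pool.Agent.Helper204.CL.P_first_diff

set_option linter.unusedSectionVars false

open MvPolynomial Finset

noncomputable section

namespace Clu



theorem sep_seq_iter (N m : ℕ) (f : ℕ → ℕ) (h : ∀ i, i + m < N → f (i + m) + 2 ≤ f i) :
    ∀ s i, i + m * s < N → f (i + m * s) + 2 * s ≤ f i := by
  intro s
  induction s with
  | zero => intro i _; simp
  | succ s ih =>
    intro i hi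
    have e : i + m * (s + 1) = (i + m * s) + m := by ring
    rw [e] at hi ⊢
    have h1 := h (i + m * s) hi
    have h2 := ih i (by omega)
    omega

theorem sep_seq_inj (N k : ℕ) (f : ℕ → ℕ) (hanti : ∀ i, i + 1 < N → f (i + 1) ≤ f i)
    (h : ∀ i, i + (k + 1) < N → f (i + (k + 1)) + 2 ≤ f i) :
    ∀ i j, i < N → j < N → (k + 1) * f i + i = (k + 1) * f j + j → i = j := by
  have hanti' : ∀ d i, i + d < N → f (i + d) ≤ f i := by
    intro d
    induction d with
    | zero => intro i _; simp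
    | succ d ih =>
      intro i hi
      have h1 := hanti (i + d) (by omega)
      have h2 := ih i (by omega)
      have e : i + (d + 1) = i + d + 1 := by ring
      rw [e]
      omega
  have key : ∀ i j, i < j → j < N → (k + 1) * f i + i = (k + 1) * f j + j → False := by
    intro i j hij hj he
    have h1 : f j ≤ f i := by
      have := hanti' (j - i) i (by omega)
      rwa [show i + (j - i) = j by omega] at this
    obtain ⟨d, hd⟩ := Nat.exists_eq_add_of_le h1
    have h2 : j = i + (k + 1) * d := by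
      rw [hd] at he
      have e : (k + 1) * (f j + d) = (k + 1) * f j + (k + 1) * d := by ring
      rw [e] at he
      omega
    have hd0 : 0 < d := by
      rcases Nat.eq_zero_or_pos d with h0 | h0
      · rw [h0] at h2
        omega
      · exact h0
    have h3 := sep_seq_iter N (k + 1) f h d i (by omega)
    rw [← h2] at h3
    omega
  intro i j hi hj he
  rcases lt_trichotomy i j with h1 | h1 | h1
  · exact (key i j h1 hj he).elim
  · exact h1
  · exact (key j i h1 hi he.symm).elim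

/-- HINT: apply `maj` to `g i = (k+1) p i + i`, `h i = (k+1) q i + i` and to `g i = (k+1) P i + i`,
`h i = (k+1) Q i + i`. Injectivity of `g`: if `(k+1) p i + i = (k+1) p j + j`, `i < j`, then `j = i + (k+1) s`, `s ≥ 1`,
`p i = p j + s`, but `adm`, `hP` give `p (i + (k+1)) + 2 ≤ p i`, hence `p i ≥ p j + 2 s`; the same for `P`.
Step: `h (i+1) ≤ h i + 1` as `q (i+1) ≤ Q (i+1) ≤ q i`. Then `count_eq` for both and `first_diff`. -/
theorem sep_seq (N k : ℕ) (hk : 1 ≤ k) (p P q Q : ℕ → ℕ)
    (hp : ∀ i < N, p i ≤ P i ∧ P i ≤ p i + 1) (hP : ∀ i, i + 1 < N → P (i + 1) ≤ p i)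
    (hq : ∀ i < N, q i ≤ Q i ∧ Q i ≤ q i + 1) (hQ : ∀ i, i + 1 < N → Q (i + 1) ≤ q i)
    (adm : ∀ i, i + k < N → p (i + k) + 2 ≤ P i)
    (pre1 : ∀ l ≤ N, ∑ i ∈ range l, q i ≤ ∑ i ∈ range l, p i)
    (pre2 : ∀ l ≤ N, ∑ i ∈ range l, Q i ≤ ∑ i ∈ range l, P i)
    (tot1 : ∑ i ∈ range N, q i = ∑ i ∈ range N, p i)
    (tot2 : ∑ i ∈ range N, Q i = ∑ i ∈ range N, P i)
    (e1 : ∑ i ∈ range N, ((k + 1) * q i + i) ^ 2 = ∑ i ∈ range N, ((k + 1) * p i + i) ^ 2)
    (e2 : ∑ i ∈ range N, ((k + 1) * Q i + i) ^ 2 = ∑ i ∈ range N, ((k + 1) * P i + i) ^ 2) :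
    ∀ i < N, q i = p i ∧ Q i = P i := by
  have ip : ∀ i j, i < N → j < N → (k + 1) * p i + i = (k + 1) * p j + j → i = j := by
    apply sep_seq_inj N k p
    · intro i hi
      exact ((hp (i + 1) hi).1.trans (hP i hi))
    · intro i hi
      have h1 := adm (i + 1) (by omega)
      have h2 := hP i (by omega)
      rw [show i + (k + 1) = i + 1 + k by ring]
      omega
  have iP : ∀ i j, i < N → j < N → (k + 1) * P i + i = (k + 1) * P j + j → i = j := by
    apply sep_seq_inj N k P
    · intro i hi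
      exact ((hP i hi).trans (hp i (by omega)).1)
    · intro i hi
      have h1 := adm i (by omega)
      have h2 := hP (i + k) (by omega)
      rw [show i + (k + 1) = i + k + 1 by ring]
      omega
  have hsum : ∀ (a b : ℕ → ℕ) (l : ℕ), ∑ i ∈ range l, a i ≤ ∑ i ∈ range l, b i →
      ∑ i ∈ range l, ((k + 1) * a i + i) ≤ ∑ i ∈ range l, ((k + 1) * b i + i) := by
    intro a b l h
    rw [Finset.sum_add_distrib, Finset.sum_add_distrib, ← Finset.mul_sum, ← Finset.mul_sum]
    exact Nat.add_le_add_right (Nat.mul_le_mul_left _ h) _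
  have hstep1 : ∀ i, i + 1 < N → (k + 1) * q (i + 1) + (i + 1) ≤ (k + 1) * q i + i + 1 := by
    intro i hi
    have h1 : q (i + 1) ≤ q i := (hq (i + 1) hi).1.trans (hQ i hi)
    have h2 := Nat.mul_le_mul_left (k + 1) h1
    omega
  have hstep2 : ∀ i, i + 1 < N → (k + 1) * Q (i + 1) + (i + 1) ≤ (k + 1) * Q i + i + 1 := by
    intro i hi
    have h1 : Q (i + 1) ≤ Q i := (hQ i hi).trans (hq i (by omega)).1
    have h2 := Nat.mul_le_mul_left (k + 1) h1
    omega
  have m1 := maj N (fun i => (k + 1) * p i + i) (fun i => (k + 1) * q i + i) ip hstep1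
    (fun l hl => hsum q p l (pre1 l hl))
  have m2 := maj N (fun i => (k + 1) * P i + i) (fun i => (k + 1) * Q i + i) iP hstep2
    (fun l hl => hsum Q P l (pre2 l hl))
  have s1 : ∑ i ∈ range N, ((k + 1) * q i + i) = ∑ i ∈ range N, ((k + 1) * p i + i) :=
    le_antisymm (hsum q p N tot1.le) (hsum p q N tot1.ge)
  have s2 : ∑ i ∈ range N, ((k + 1) * Q i + i) = ∑ i ∈ range N, ((k + 1) * P i + i) :=
    le_antisymm (hsum Q P N tot2.le) (hsum P Q N tot2.ge)
  have c1 := count_eq N (fun i => (k + 1) * p i + i) (fun i => (k + 1) * q i + i) m1 e1 s1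
  have c2 := count_eq N (fun i => (k + 1) * P i + i) (fun i => (k + 1) * Q i + i) m2 e2 s2
  exact first_diff N k hk p P q Q hp hP hq hQ adm pre1 pre2 c1 c2

end Clu
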