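import Pool.Agent.Helper204.JS.P_TT_spec
import Pool.Agent.Helper204.JS.P_J_eigen
import Pool.Agent.Helper204.JS.P_J_lead
import Pool.Agent.Helper204.JS.P_J_supp
import Pool.Agent.Helper204.JS.P_J_inU
import Pool.Agent.Helper204.JS.P_cB_ne
import Pool.Agent.Helper204.CL.P_T_transfer
import Pool.Agent.Helper204.CL.P_del_transfer
import Pool.Agent.Helper204.CL.P_euler
import Pool.Agent.Helper204.CL.P_ex_transfer
import Pool.Agent.Helper204.CL.P_eta_exists

set_option linter.unusedSectionVars false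

open MvPolynomial Finset

noncomputable section

namespace Clu

variable {N : ℕ} {K : Type} [Field K] [CharZero K] [JSup.Par K]

/-- the inclusion of `K[x_0..x_{N-1}]` in the polynomials in all `x_i`. -/
abbrev rv (g : MvPolynomial (Fin N) K) : MvPolynomial ℕ K := rename (fun j : Fin N => (j : ℕ)) g

theorem sum_Ioo (i : Fin N) (F : ℕ → MvPolynomial ℕ K) :
    ∑ j ∈ Ioo (i : ℕ) N, F j = ∑ j ∈ univ.filter (fun j : Fin N => i < j), F (j : ℕ) := by
  rw [Finset.sum_filter]
  have h1 : ∑ j ∈ Ioo (i : ℕ) N, F j = ∑ j ∈ range N, if (i : ℕ) < j then F j else 0 := by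
    rw [← Finset.sum_filter]
    apply Finset.sum_congr _ (fun _ _ => rfl)
    ext j; simp only [mem_Ioo, mem_filter, mem_range]; omega
  rw [h1, Finset.sum_range]
  rfl

theorem sum_Ico (m : ℕ) (F : ℕ → MvPolynomial ℕ K) :
    ∑ j ∈ Ico m N, F j = ∑ j ∈ univ.filter (fun j : Fin N => m ≤ (j : ℕ)), F (j : ℕ) := by
  rw [Finset.sum_filter]
  have h1 : ∑ j ∈ Ico m N, F j = ∑ j ∈ range N, if m ≤ j then F j else 0 := by
    rw [← Finset.sum_filter]
    apply Finset.sum_congr _ (fun _ _ => rfl)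
    ext j; simp only [mem_Ico, mem_filter, mem_range]; omega
  rw [h1, Finset.sum_range]

theorem sum_rangeM (m : ℕ) (hm : m ≤ N) (F : ℕ → MvPolynomial ℕ K) :
    ∑ j ∈ range m, F j = ∑ j ∈ univ.filter (fun j : Fin N => (j : ℕ) < m), F (j : ℕ) := by
  rw [Finset.sum_filter]
  have h1 : ∑ j ∈ range m, F j = ∑ j ∈ range N, if j < m then F j else 0 := by
    rw [← Finset.sum_filter]
    apply Finset.sum_congr _ (fun _ _ => rfl)
    ext j; simp only [mem_filter, mem_range]; omega
  rw [h1, Finset.sum_range]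

theorem pair_sum (G : Fin N → MvPolynomial ℕ K) :
    ∑ i : Fin N, ∑ j ∈ univ.filter (fun j : Fin N => i < j), (G i + G j) =
      ((N : K) - 1) • ∑ i : Fin N, G i := by
  have h1 : ∑ i : Fin N, ∑ j ∈ univ.filter (fun j : Fin N => i < j), (G i + G j)
      = ∑ i : Fin N, ∑ j : Fin N, (if i < j then G i else 0) + ∑ i : Fin N, ∑ j : Fin N, (if i < j then G j else 0) := by
    rw [← Finset.sum_add_distrib]
    apply Finset.sum_congr rfl; intro i _
    rw [← Finset.sum_add_distrib, Finset.sum_filter]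
    apply Finset.sum_congr rfl; intro j _
    split_ifs <;> simp
  rw [h1]
  rw [Finset.sum_comm (f := fun i j => if i < j then G j else 0), ← Finset.sum_add_distrib, Finset.smul_sum]
  apply Finset.sum_congr rfl
  intro i _
  rw [← Finset.sum_add_distrib]
  have h2 : ∀ j : Fin N, ((if i < j then G i else 0) + (if j < i then G i else 0)) = if j ≠ i then G i else 0 := by
    intro j
    rcases lt_trichotomy i j with h | h | h
    · simp [h, not_lt.2 h.le, (ne_of_lt h).symm]
    · simp [h]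
    · simp [h, not_lt.2 h.le, ne_of_lt h]
  rw [Finset.sum_congr rfl (fun j _ => h2 j), ← Finset.sum_filter, Finset.sum_const]
  have h3 : (univ.filter (fun j : Fin N => j ≠ i)).card = N - 1 := by
    rw [Finset.filter_ne', Finset.card_erase_of_mem (mem_univ _), Finset.card_univ, Fintype.card_fin]
  rw [h3, ← Nat.cast_smul_eq_nsmul K]
  congr 1
  have : 1 ≤ N := by have := i.2; omega
  push_cast [this]; ring

theorem D_transfer (g : MvPolynomial (Fin N) K) :
    rv ((2 : K) • Dop (JSup.al : K) g) = JSup.MM N (rv g) -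
      ((JSup.al : K) + (N : K) - 1) • ∑ i ∈ range N, X i * pderiv i (rv g) := by
  have hT : ∀ i j : Fin N, i < j → rv ((2 : K) • Pop i j g) =
      JSup.TT (i : ℕ) (j : ℕ) (rv g) - X (i : ℕ) * pderiv (i : ℕ) (rv g) - X (j : ℕ) * pderiv (j : ℕ) (rv g) := by
    intro i j hij
    have hne : (i : ℕ) ≠ (j : ℕ) := by
      intro h; exact (ne_of_lt hij) (Fin.ext h)
    have h1 := JSup.TT_spec hne (rv g)
    have h2 := JSup.dd_spec (i : ℕ) (j : ℕ) (rv g)
    rw [JSup.del_apply, JSup.del_apply] at h1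
    exact (T_transfer i j (ne_of_lt hij) g (rv g) _ _ rfl h1 h2).1
  have hsq : ∀ i : Fin N, rv (X i ^ 2 * pderiv i (pderiv i g)) =
      JSup.del (i : ℕ) (JSup.del (i : ℕ) (rv g)) - X (i : ℕ) * pderiv (i : ℕ) (rv g) := by
    intro i
    have h1 := (del_transfer i g).1
    have h2 := (del_transfer i (pderiv i g)).1
    simp only [rv, map_mul, map_pow, rename_X, JSup.del_apply]
    rw [h2, h1, Derivation.leibniz, pderiv_X_self]
    simp only [smul_eq_mul]
    ring
  have e1 : rv ((2 : K) • Dop (JSup.al : K) g) =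
      (JSup.al : K) • ∑ i : Fin N, rv (X i ^ 2 * pderiv i (pderiv i g)) +
      ∑ i : Fin N, ∑ j ∈ univ.filter (fun j : Fin N => i < j), rv ((2 : K) • Pop i j g) := by
    unfold Dop Qop
    simp only [rv, smul_add, map_add, map_smul, map_sum, LinearMap.sum_apply, Finset.smul_sum, smul_smul]
    congr 2
    funext i
    congr 1
    ring
  rw [e1]
  rw [Finset.sum_congr rfl (fun i _ => hsq i)]
  have e2 : ∑ i : Fin N, ∑ j ∈ univ.filter (fun j : Fin N => i < j), rv ((2 : K) • Pop i j g) =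
      ∑ i : Fin N, ∑ j ∈ univ.filter (fun j : Fin N => i < j), JSup.TT (i : ℕ) (j : ℕ) (rv g) -
      ((N : K) - 1) • ∑ i : Fin N, X (i : ℕ) * pderiv (i : ℕ) (rv g) := by
    rw [← pair_sum (fun i : Fin N => X (i : ℕ) * pderiv (i : ℕ) (rv g)), ← Finset.sum_sub_distrib]
    apply Finset.sum_congr rfl; intro i _
    rw [← Finset.sum_sub_distrib]
    apply Finset.sum_congr rfl; intro j hj
    rw [hT i j (by simpa using hj)]
    ring
  rw [e2]
  have e3 : JSup.MM N (rv g) = (JSup.al : K) • ∑ i : Fin N, JSup.del (i : ℕ) (JSup.del (i : ℕ) (rv g)) +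
      ∑ i : Fin N, ∑ j ∈ univ.filter (fun j : Fin N => i < j), JSup.TT (i : ℕ) (j : ℕ) (rv g) := by
    unfold JSup.MM
    simp only [LinearMap.add_apply, LinearMap.smul_apply, LinearMap.sum_apply, LinearMap.comp_apply]
    rw [Finset.sum_range (fun i => JSup.del i (JSup.del i (rv g))),
      Finset.sum_range (fun i => ∑ j ∈ Ioo i N, JSup.TT i j (rv g))]
    congr 1
    apply Finset.sum_congr rfl; intro i _
    exact sum_Ioo i (fun j => JSup.TT (i : ℕ) j (rv g))
  rw [e3, Finset.sum_range (fun i => X i * pderiv i (rv g)), Finset.sum_sub_distrib, smul_sub]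
  have e4 : ∀ S : MvPolynomial ℕ K, ((JSup.al : K) + (N : K) - 1) • S = (JSup.al : K) • S + ((N : K) - 1) • S := by
    intro S; rw [← add_smul]; congr 1; ring
  rw [e4]
  abel

theorem L_transfer (m : ℕ) (hm : m ≤ N) (g : MvPolynomial (Fin N) K) :
    rv (Lop m (JSup.al : K) g) = JSup.II N m (rv g) - ((m.choose 2 : ℕ) : K) • rv g := by
  have hR : ∀ i j : Fin N, (i : ℕ) < m → m ≤ (j : ℕ) → rv (Rop i j g) = X (j : ℕ) * JSup.dd (i : ℕ) (j : ℕ) (rv g) := by
    intro i j hi hj
    have hne : (i : ℕ) ≠ (j : ℕ) := by omega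
    have h1 := JSup.TT_spec hne (rv g)
    have h2 := JSup.dd_spec (i : ℕ) (j : ℕ) (rv g)
    rw [JSup.del_apply, JSup.del_apply] at h1
    exact (T_transfer i j (fun h => hne (by rw [h])) g (rv g) _ _ rfl h1 h2).2
  have hd : ∀ i : Fin N, rv (X i * pderiv i g) = X (i : ℕ) * pderiv (i : ℕ) (rv g) := by
    intro i
    have h1 := (del_transfer i g).1
    simp only [rv, map_mul, rename_X]
    rw [h1]
  have e1 : rv (Lop m (JSup.al : K) g) =
      (JSup.al : K) • ∑ i ∈ univ.filter (fun i : Fin N => (i : ℕ) < m), rv (X i * pderiv i g)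
      - ((m.choose 2 : ℕ) : K) • rv g
      + ∑ i ∈ univ.filter (fun i : Fin N => (i : ℕ) < m), ∑ j ∈ univ.filter (fun j : Fin N => m ≤ (j : ℕ)), rv (Rop i j g) := by
    unfold Lop Sop
    simp only [rv, map_add, map_sub, map_smul, map_sum, LinearMap.sum_apply, Finset.smul_sum]
  rw [e1]
  have e2 : JSup.II N m (rv g) = (JSup.al : K) • ∑ i ∈ range m, X i * pderiv i (rv g) +
      ∑ i ∈ range m, ∑ j ∈ Ico m N, X j * JSup.dd i j (rv g) := by
    unfold JSup.II
    simp only [LinearMap.add_apply, LinearMap.smul_apply, LinearMap.sum_apply, LinearMap.comp_apply,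
      JSup.del_apply, JSup.mX_apply]
  rw [e2, sum_rangeM m hm (fun i => X i * pderiv i (rv g)),
    sum_rangeM m hm (fun i => ∑ j ∈ Ico m N, X j * JSup.dd i j (rv g))]
  rw [Finset.sum_congr rfl (fun i _ => hd i)]
  have e3 : ∑ i ∈ univ.filter (fun i : Fin N => (i : ℕ) < m), ∑ j ∈ univ.filter (fun j : Fin N => m ≤ (j : ℕ)), rv (Rop i j g)
      = ∑ i ∈ univ.filter (fun i : Fin N => (i : ℕ) < m), ∑ j ∈ Ico m N, X j * JSup.dd (i : ℕ) j (rv g) := by
    apply Finset.sum_congr rfl; intro i hi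
    rw [sum_Ico m (fun j => X j * JSup.dd (i : ℕ) j (rv g))]
    apply Finset.sum_congr rfl; intro j hj
    exact hR i j (by simpa using hi) (by simpa using hj)
  rw [e3]
  abel

end Clu
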